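import Pool.Agent.W_3f1825_r40.Push

set_option autoImplicit false

/-! Fibre powers of a homomorphism of groups. -/

namespace Pool.Agent.W_3f1825_r40

open Pool.Agent.W_3f1825_h40

variable {G B : Type} [Group G] [Group B]

/-- The `m`-th fibre power of `π : G →* B` (it is `B` for `m = 0`). -/
def FP (π : G →* B) (m : ℕ) : Subgroup (B × (Fin m → G)) where
  carrier := {x | ∀ i, π (x.2 i) = x.1}
  mul_mem' := by
    intro a b ha hb i
    change π (a.2 i * b.2 i) = a.1 * b.1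
    rw [map_mul, ha i, hb i]
  one_mem' := by
    intro i
    exact map_one π
  inv_mem' := by
    intro a ha i
    change π (a.2 i)⁻¹ = a.1⁻¹
    rw [map_inv, ha i]

theorem mem_FP (π : G →* B) (m : ℕ) (x : B × (Fin m → G)) : x ∈ FP π m ↔ ∀ i, π (x.2 i) = x.1 :=
  Iff.rfl

/-- The faces. -/
def FPface (π : G →* B) (m : ℕ) (i : Fin (m + 1)) : FP π (m + 1) →* FP π m where
  toFun x := ⟨(x.1.1, fun j => x.1.2 (i.succAbove j)), fun _ => x.2 _⟩
  map_one' := rfl
  map_mul' _ _ := rfl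

/-- The zeroth fibre power. -/
def FPzero (π : G →* B) : FP π 0 ≃* B where
  toFun x := x.1.1
  invFun b := ⟨(b, Fin.elim0), fun i => i.elim0⟩
  left_inv x := by
    apply Subtype.ext
    refine Prod.ext rfl ?_
    funext i
    exact i.elim0
  right_inv _ := rfl
  map_mul' _ _ := rfl

/-- The set-theoretic part of the contraction: adding a coordinate. The new coordinate of the `k`-th
entry is `σ b₀ * σ (b₀⁻¹ * b k)`, where `b k` is the image of the `k`-th entry in `B` and `σ` a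
section of `π`. -/
def FPh (π : G →* B) (σ : B → G) (hσ : ∀ b, π (σ b) = b) (m q : ℕ) (x : Fin (q + 1) → FP π m) :
    Fin (q + 1) → FP π (m + 1) := fun k =>
  ⟨((x k).1.1, Fin.cons (σ (x 0).1.1 * σ ((x 0).1.1⁻¹ * (x k).1.1)) (x k).1.2), by
    intro i
    refine Fin.cases ?_ (fun j => ?_) i
    · change π (σ (x 0).1.1 * σ ((x 0).1.1⁻¹ * (x k).1.1)) = (x k).1.1
      rw [map_mul, hσ, hσ, mul_inv_cancel_left]
    · exact (x k).2 j⟩

theorem FPface_zero_h (π : G →* B) (σ : B → G) (hσ : ∀ b, π (σ b) = b) (m q : ℕ)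
    (x : Fin (q + 1) → FP π m) (k : Fin (q + 1)) : FPface π m 0 (FPh π σ hσ m q x k) = x k := by
  apply Subtype.ext
  refine Prod.ext rfl ?_
  funext j
  rfl

theorem FPface_succ_h (π : G →* B) (σ : B → G) (hσ : ∀ b, π (σ b) = b) (m q : ℕ)
    (x : Fin (q + 1) → FP π (m + 1)) (i : Fin (m + 1)) (k : Fin (q + 1)) :
    FPface π (m + 1) i.succ (FPh π σ hσ (m + 1) q x k) =
      FPh π σ hσ m q (fun k => FPface π m i (x k)) k := by
  apply Subtype.ext
  refine Prod.ext rfl ?_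
  funext j
  refine Fin.cases ?_ (fun j => ?_) j
  · change (Fin.cons (σ (x 0).1.1 * σ ((x 0).1.1⁻¹ * (x k).1.1)) (x k).1.2 : Fin (m + 2) → G)
      (i.succ.succAbove 0) = _
    rw [Fin.succ_succAbove_zero]
    rfl
  · change (Fin.cons (σ (x 0).1.1 * σ ((x 0).1.1⁻¹ * (x k).1.1)) (x k).1.2 : Fin (m + 2) → G)
      (i.succ.succAbove j.succ) = _
    rw [Fin.succ_succAbove_succ]
    rfl

/-- PROOF: take `g' = (b, (c, g₁, …, gₘ))` where `g = (b, (g₁, …, gₘ))` and
`c = σ (b * b₀) * (σ b₀)⁻¹`, `b₀ = (x 0).1.1`. -/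
theorem FPh_smul (π : G →* B) (σ : B → G) (hσ : ∀ b, π (σ b) = b) (m q : ℕ)
    (x : Fin (q + 1) → FP π m) (g : FP π m) :
    ∃ g' : FP π (m + 1), FPh π σ hσ m q (fun k => g * x k) = fun k => g' * FPh π σ hσ m q x k := by
  refine ⟨⟨(g.1.1, Fin.cons (σ (g.1.1 * (x 0).1.1) * (σ (x 0).1.1)⁻¹) g.1.2), ?_⟩, ?_⟩
  · intro i
    refine Fin.cases ?_ (fun j => ?_) i
    · change π (σ (g.1.1 * (x 0).1.1) * (σ (x 0).1.1)⁻¹) = g.1.1
      rw [map_mul, map_inv, hσ, hσ, mul_inv_cancel_right]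
    · exact g.2 j
  · funext k
    apply Subtype.ext
    refine Prod.ext rfl ?_
    funext j
    refine Fin.cases ?_ (fun j => ?_) j
    · change σ (g.1.1 * (x 0).1.1) * σ ((g.1.1 * (x 0).1.1)⁻¹ * (g.1.1 * (x k).1.1)) =
        (σ (g.1.1 * (x 0).1.1) * (σ (x 0).1.1)⁻¹) *
          (σ (x 0).1.1 * σ ((x 0).1.1⁻¹ * (x k).1.1))
      have e : (g.1.1 * (x 0).1.1)⁻¹ * (g.1.1 * (x k).1.1) = (x 0).1.1⁻¹ * (x k).1.1 := by group
      rw [e]
      group
    · rfl

/-- `j ≤ i` : the simplicial identity. -/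
theorem FPface_FPface (π : G →* B) (m : ℕ) (j : Fin (m + 2)) (i : Fin (m + 1))
    (h : (j : ℕ) ≤ (i : ℕ)) (x : FP π (m + 2)) :
    FPface π m (j.castLT (by omega)) (FPface π (m + 1) i.succ x) =
      FPface π m i (FPface π (m + 1) j x) := by
  apply Subtype.ext
  refine Prod.ext rfl ?_
  funext k
  change x.1.2 (i.succ.succAbove ((j.castLT (by omega)).succAbove k)) =
    x.1.2 (j.succAbove (i.succAbove k))
  refine congrArg x.1.2 ?_
  apply Fin.ext
  have h1 : ∀ (n : ℕ) (p : Fin (n + 1)) (a : Fin n),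
      ((p.succAbove a : Fin (n + 1)) : ℕ) = if (a : ℕ) < p then (a : ℕ) else a + 1 := by
    intro n p a
    unfold Fin.succAbove
    split_ifs with h2 h3 h3
    · rfl
    · exact absurd h2 h3
    · exact absurd h3 h2
    · rfl
  rw [h1, h1, h1, h1]
  simp only [Fin.val_succ, Fin.val_castLT]
  split_ifs <;> omega

end Pool.Agent.W_3f1825_r40
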