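import Pool.Agent.W_3f1825_r40.Ext
import Pool.Agent.W_3f1825_r40.Fib

set_option autoImplicit false

/-! The action of the fibre powers of an extension by `ℤ ^ r` on `E × (ℝ ^ r) ^ m`. -/

open Topology

namespace Pool.Agent.W_3f1825_r40

open Pool.Agent.W_3f1825_h40

variable {G B : Type} [Group G] [Group B] {r : ℕ} (X : Ext G B r)

/-- Coordinates of an element of the kernel. -/
noncomputable def Ext.co (g : G) : Fin r → ℤ :=
  open Classical in if h : X.π g = 1 then (X.exists_a h).choose else 0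

theorem Ext.a_co {g : G} (h : X.π g = 1) : X.a (X.co g) = g := by
  unfold Ext.co
  rw [dif_pos h]
  exact (X.exists_a h).choose_spec.symm

theorem Ext.co_a (v : Fin r → ℤ) : X.co (X.a v) = v :=
  X.a_inj (X.a_co (X.π_a v))

theorem Ext.co_mul {g g' : G} (h : X.π g = 1) (h' : X.π g' = 1) :
    X.co (g * g') = X.co g + X.co g' := by
  apply X.a_inj
  rw [X.a_add, X.a_co h, X.a_co h', X.a_co (by rw [map_mul, h, h', mul_one])]

theorem Ext.co_conj (g : G) {x : G} (h : X.π x = 1) :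
    X.co (g * x * g⁻¹) = (X.ρ g).mulVec (X.co x) := by
  apply X.a_inj
  rw [← X.conj_a, X.a_co h, X.a_co (by rw [map_mul, map_mul, h, mul_one, map_inv, mul_inv_cancel])]

/-- The translation part of the action of an element of the fibre power. -/
noncomputable def affT (m : ℕ) (x : FP X.π (m + 1)) (i : Fin m) : Fin r → ℤ :=
  X.co (x.1.2 i.succ * (x.1.2 0)⁻¹)

theorem Aff_ker (m : ℕ) (x : FP X.π (m + 1)) (i : Fin m) :
    X.π (x.1.2 i.succ * (x.1.2 0)⁻¹) = 1 := by
  have h1 : X.π (x.1.2 i.succ) = x.1.1 := x.2 i.succ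
  have h2 : X.π (x.1.2 0) = x.1.1 := x.2 0
  rw [map_mul, map_inv, h1, h2, mul_inv_cancel]

/-- PROOF: `(x i * y i) * (x 0 * y 0)⁻¹ = (x i * (x 0)⁻¹) * (x 0 * (y i * (y 0)⁻¹) * (x 0)⁻¹)`. -/
theorem affT_mul (m : ℕ) (x y : FP X.π (m + 1)) (i : Fin m) :
    affT X m (x * y) i = affT X m x i + (X.ρ (x.1.2 0)).mulVec (affT X m y i) := by
  unfold affT
  have h1 : (x * y).1.2 i.succ * ((x * y).1.2 0)⁻¹ = (x.1.2 i.succ * (x.1.2 0)⁻¹) *
      (x.1.2 0 * (y.1.2 i.succ * (y.1.2 0)⁻¹) * (x.1.2 0)⁻¹) := by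
    have e1 : (x * y).1.2 i.succ = x.1.2 i.succ * y.1.2 i.succ := rfl
    have e2 : (x * y).1.2 0 = x.1.2 0 * y.1.2 0 := rfl
    rw [e1, e2]
    group
  rw [h1, X.co_mul (Aff_ker X m x i), X.co_conj _ (Aff_ker X m y i)]
  rw [map_mul, map_mul, Aff_ker X m y i, mul_one, map_inv, mul_inv_cancel]

theorem affT_one (m : ℕ) (i : Fin m) : affT X m 1 i = 0 := by
  unfold affT
  have h1 : (1 : FP X.π (m + 1)).1.2 i.succ * ((1 : FP X.π (m + 1)).1.2 0)⁻¹ = X.a 0 := by
    rw [X.a_zero]
    exact mul_inv_cancel _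
  rw [h1, X.co_a]

/-- If the first coordinate and the translation part vanish, the element is trivial. -/
theorem eq_one_of_affT (m : ℕ) (x : FP X.π (m + 1)) (h0 : x.1.2 0 = 1)
    (h : ∀ i, affT X m x i = 0) : x = 1 := by
  have h1 : ∀ i : Fin m, x.1.2 i.succ = 1 := by
    intro i
    have h2 := h i
    unfold affT at h2
    have h3 := X.a_co (Aff_ker X m x i)
    rw [h2, X.a_zero, h0, inv_one, mul_one] at h3
    exact h3.symm
  have h2 : ∀ i, x.1.2 i = 1 := fun i => Fin.cases h0 h1 i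
  apply Subtype.ext
  refine Prod.ext ?_ (funext h2)
  have h3 : X.π (x.1.2 0) = x.1.1 := x.2 0
  rw [← h3, h0, map_one]
  rfl

/-- The space on which the fibre power acts. -/
def AffSp (E : Type) (m r : ℕ) : Type := E × (Fin m → Fin r → ℝ)

instance (E : Type) [TopologicalSpace E] (m r : ℕ) : TopologicalSpace (AffSp E m r) :=
  inferInstanceAs (TopologicalSpace (E × (Fin m → Fin r → ℝ)))

/-- The affine action. -/
@[reducible] noncomputable def affAct (E : Type) [MulAction G E] (m : ℕ) :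
    MulAction (FP X.π (m + 1)) (AffSp E m r) where
  smul x p := (x.1.2 0 • p.1, fun i => X.lin ℝ (x.1.2 0) (p.2 i) + cv ℝ (affT X m x i))
  one_smul p := by
    refine Prod.ext (one_smul G p.1) (funext fun i => ?_)
    change X.lin ℝ ((1 : FP X.π (m + 1)).1.2 0) (p.2 i) + cv ℝ (affT X m 1 i) = p.2 i
    have h1 : (1 : FP X.π (m + 1)).1.2 0 = 1 := rfl
    rw [affT_one, cv_zero, add_zero, h1, map_one]
    rfl
  mul_smul x y p := by
    refine Prod.ext (mul_smul (x.1.2 0) (y.1.2 0) p.1) (funext fun i => ?_)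
    change X.lin ℝ (x.1.2 0 * y.1.2 0) (p.2 i) + cv ℝ (affT X m (x * y) i) =
      X.lin ℝ (x.1.2 0) (X.lin ℝ (y.1.2 0) (p.2 i) + cv ℝ (affT X m y i)) + cv ℝ (affT X m x i)
    rw [affT_mul, cv_add, map_mul, map_add, X.lin_cv, Module.End.mul_apply]
    abel

theorem affAct_smul (E : Type) [MulAction G E] (m : ℕ) (x : FP X.π (m + 1)) (p : AffSp E m r) :
    (affAct X E m).smul x p =
      (x.1.2 0 • p.1, fun i => X.lin ℝ (x.1.2 0) (p.2 i) + cv ℝ (affT X m x i)) := rfl

theorem affAct_cont (E : Type) [TopologicalSpace E] [MulAction G E] [ContinuousConstSMul G E]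
    (m : ℕ) :
    letI := affAct X E m
    ContinuousConstSMul (FP X.π (m + 1)) (AffSp E m r) := by
  letI := affAct X E m
  refine ⟨fun x => ?_⟩
  change Continuous fun p : E × (Fin m → Fin r → ℝ) =>
    ((x.1.2 0 • p.1, fun i => X.lin ℝ (x.1.2 0) (p.2 i) + cv ℝ (affT X m x i)) :
      E × (Fin m → Fin r → ℝ))
  refine Continuous.prodMk ((continuous_const_smul _).comp continuous_fst) ?_
  refine continuous_pi fun i => ?_
  exact ((LinearMap.continuous_of_finiteDimensional (X.lin ℝ (x.1.2 0))).comp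
    ((continuous_apply i).comp continuous_snd)).add continuous_const

theorem affAct_free (E : Type) [MulAction G E] (hfree : ∀ (g : G) (x : E), g • x = x → g = 1)
    (m : ℕ) (x : FP X.π (m + 1)) (p : AffSp E m r) (h : (affAct X E m).smul x p = p) : x = 1 := by
  rw [affAct_smul] at h
  have h0 : x.1.2 0 = 1 := hfree _ _ (congrArg Prod.fst h)
  refine eq_one_of_affT X m x h0 fun i => ?_
  have h1 : X.lin ℝ (x.1.2 0) (p.2 i) + cv ℝ (affT X m x i) = p.2 i :=
    congrFun (congrArg Prod.snd h) i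
  rw [h0, map_one, Module.End.one_apply, add_eq_left, ← cv_zero] at h1
  exact cv_inj h1

end Pool.Agent.W_3f1825_r40
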