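import Pool.Agent.W_3f1825_r40.Aff

set_option autoImplicit false

/-! The affine action is cocompact. -/

open Topology

namespace Pool.Agent.W_3f1825_r40

open Pool.Agent.W_3f1825_h40

variable {G B : Type} [Group G] [Group B] {r : ℕ} (X : Ext G B r)

/-- PROOF: the image in the quotient of the interiors of compact sets form an open cover of the
quotient (the quotient map is open); choose a finite subcover. -/
theorem exists_compact_dom {G E : Type} [Group G] [TopologicalSpace E] [LocallyCompactSpace E]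
    [MulAction G E] [ContinuousConstSMul G E]
    (hcomp : CompactSpace (Quotient (MulAction.orbitRel G E))) :
    ∃ K : Set E, IsCompact K ∧ ∀ x : E, ∃ g : G, g • x ∈ K := by
  choose C hC1 hC2 using fun x : E => exists_compact_mem_nhds x
  have hopen : IsOpenMap (Quotient.mk (MulAction.orbitRel G E)) := isOpenMap_quotient_mk'_mul
  have hcov : (Set.univ : Set (Quotient (MulAction.orbitRel G E))) ⊆
      ⋃ x : E, Quotient.mk (MulAction.orbitRel G E) '' interior (C x) := by
    intro q _
    obtain ⟨x, rfl⟩ := Quotient.exists_rep q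
    exact Set.mem_iUnion.2 ⟨x, ⟨x, mem_interior_iff_mem_nhds.2 (hC2 x), rfl⟩⟩
  obtain ⟨s, hs⟩ := hcomp.isCompact_univ.elim_finite_subcover _
    (fun x => hopen _ isOpen_interior) hcov
  refine ⟨⋃ x ∈ s, C x, s.isCompact_biUnion fun x _ => hC1 x, fun x => ?_⟩
  have h1 := hs (Set.mem_univ (Quotient.mk (MulAction.orbitRel G E) x))
  rw [Set.mem_iUnion₂] at h1
  obtain ⟨y, hy, z, hz, hzx⟩ := h1
  have h2 : (MulAction.orbitRel G E).r z x := Quotient.exact hzx
  obtain ⟨g, hg⟩ := MulAction.orbitRel_apply.1 h2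
  refine ⟨g, ?_⟩
  change g • x = z at hg
  rw [hg]
  exact Set.mem_iUnion₂.2 ⟨y, hy, interior_subset hz⟩

/-- Elements of the fibre power with prescribed first coordinate and translation part. PROOF: take
`(π g, (g, a (t 0) * g, …, a (t (m-1)) * g))`. -/
theorem exists_affT (m : ℕ) (g : G) (t : Fin m → Fin r → ℤ) :
    ∃ x : FP X.π (m + 1), x.1.2 0 = g ∧ ∀ i, affT X m x i = t i := by
  refine ⟨⟨(X.π g, Fin.cons g (fun i => X.a (t i) * g)), ?_⟩, rfl, fun i => ?_⟩
  · intro i
    refine Fin.cases ?_ (fun j => ?_) i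
    · rfl
    · change X.π (X.a (t j) * g) = X.π g
      rw [map_mul, X.π_a, one_mul]
  · change X.co (X.a (t i) * g * g⁻¹) = t i
    rw [mul_inv_cancel_right, X.co_a]

/-- PROOF: let `K` be as in `exists_compact_dom`. Every orbit meets the compact set `K × [0,1]^(mr)`:
first apply an element over `g` with `g • x ∈ K` and translation part `0`, then one over `1` with
translation part minus the floors of the coordinates. The quotient is the image of this compact
set. -/
theorem affAct_compact (E : Type) [TopologicalSpace E] [LocallyCompactSpace E] [MulAction G E]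
    [ContinuousConstSMul G E] (hcomp : CompactSpace (Quotient (MulAction.orbitRel G E))) (m : ℕ) :
    letI := affAct X E m
    CompactSpace (Quotient (MulAction.orbitRel (FP X.π (m + 1)) (AffSp E m r))) := by
  letI := affAct X E m
  obtain ⟨K, hK, hK2⟩ := exists_compact_dom hcomp
  have hC : IsCompact (K ×ˢ (Set.Icc (0 : Fin m → Fin r → ℝ) 1)) := hK.prod isCompact_Icc
  have hC' : IsCompact (X := AffSp E m r) (K ×ˢ (Set.Icc (0 : Fin m → Fin r → ℝ) 1)) := hC
  have hcont : Continuous (Quotient.mk (MulAction.orbitRel (FP X.π (m + 1)) (AffSp E m r))) :=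
    continuous_quotient_mk'
  rw [← isCompact_univ_iff]
  convert hC'.image hcont
  symm
  rw [Set.eq_univ_iff_forall]
  intro q
  obtain ⟨p, rfl⟩ := Quotient.exists_rep q
  obtain ⟨g, hg⟩ := hK2 p.1
  obtain ⟨x, hx, hx2⟩ := exists_affT X m g 0
  obtain ⟨y, hy, hy2⟩ := exists_affT X m 1 (fun i j => -⌊X.lin ℝ g (p.2 i) j⌋)
  have h1 : y • x • p = ((g • p.1, fun i => X.lin ℝ g (p.2 i) +
      cv ℝ (fun j => -⌊X.lin ℝ g (p.2 i) j⌋)) : AffSp E m r) := by
    have e1 : x • p = ((g • p.1, fun i => X.lin ℝ g (p.2 i)) : AffSp E m r) := by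
      refine (affAct_smul X E m x p).trans ?_
      rw [hx]
      refine Prod.ext rfl (funext fun i => ?_)
      change X.lin ℝ g (p.2 i) + cv ℝ (affT X m x i) = X.lin ℝ g (p.2 i)
      rw [hx2]
      change X.lin ℝ g (p.2 i) + cv ℝ 0 = _
      rw [cv_zero, add_zero]
    rw [e1]
    refine (affAct_smul X E m y _).trans ?_
    rw [hy]
    refine Prod.ext (one_smul _ _) (funext fun i => ?_)
    change X.lin ℝ 1 (X.lin ℝ g (p.2 i)) + cv ℝ (affT X m y i) = _
    rw [hy2, map_one]
    rfl
  refine ⟨y • x • p, ?_, ?_⟩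
  · rw [h1]
    refine ⟨hg, ?_⟩
    rw [Set.mem_Icc]
    constructor
    · intro i j
      change (0 : ℝ) ≤ X.lin ℝ g (p.2 i) j + ((-⌊X.lin ℝ g (p.2 i) j⌋ : ℤ) : ℝ)
      have := Int.floor_le (X.lin ℝ g (p.2 i) j)
      push_cast
      linarith
    · intro i j
      change X.lin ℝ g (p.2 i) j + ((-⌊X.lin ℝ g (p.2 i) j⌋ : ℤ) : ℝ) ≤ 1
      have := Int.lt_floor_add_one (X.lin ℝ g (p.2 i) j)
      push_cast
      linarith
  · apply Quotient.sound
    change (MulAction.orbitRel (FP X.π (m + 1)) (AffSp E m r)).r (y • x • p) p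
    exact MulAction.orbitRel_apply.2 ⟨y * x, mul_smul y x p⟩

end Pool.Agent.W_3f1825_r40
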