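import Pool.Agent.W_3f1825_r40.Aff

set_option autoImplicit false

/-! The affine action is properly discontinuous. -/

open Topology

namespace Pool.Agent.W_3f1825_r40

open Pool.Agent.W_3f1825_h40

variable {G B : Type} [Group G] [Group B] {r : ℕ} (X : Ext G B r)

/-- An element of the fibre power is determined by its first coordinate and its translation
part. -/
theorem affT_ext (m : ℕ) (x y : FP X.π (m + 1)) (h0 : x.1.2 0 = y.1.2 0)
    (h : ∀ i, affT X m x i = affT X m y i) : x = y := by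
  have h1 : ∀ i : Fin m, x.1.2 i.succ = y.1.2 i.succ := by
    intro i
    have hx := X.a_co (Aff_ker X m x i)
    have hy := X.a_co (Aff_ker X m y i)
    have h2 := h i
    unfold affT at h2
    rw [h2, hy, h0] at hx
    exact (mul_right_cancel hx).symm
  have h2 : ∀ i, x.1.2 i = y.1.2 i := fun i => Fin.cases h0 h1 i
  apply Subtype.ext
  refine Prod.ext ?_ (funext h2)
  have h3 : X.π (x.1.2 0) = x.1.1 := x.2 0
  have h4 : X.π (y.1.2 0) = y.1.1 := y.2 0
  rw [← h3, ← h4, h0]

/-- Bounded sets of integral vectors are finite. -/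
theorem finite_cv (m r : ℕ) (K : Set (Fin m → Fin r → ℝ)) (hK : IsCompact K) :
    {t : Fin m → Fin r → ℤ | (fun i => cv ℝ (t i)) ∈ K}.Finite := by
  obtain ⟨R, hR⟩ := hK.isBounded.subset_closedBall (0 : Fin m → Fin r → ℝ)
  refine Set.Finite.subset (Set.finite_Icc (fun _ _ => -⌈R⌉) (fun _ _ => ⌈R⌉)) ?_
  intro t ht
  have h1 := hR ht
  rw [mem_closedBall_zero_iff] at h1
  have h2 : ∀ i j, |(t i j : ℝ)| ≤ R := by
    intro i j
    have h3 := norm_le_pi_norm (fun i => cv ℝ (t i)) i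
    have h4 := norm_le_pi_norm (cv ℝ (t i)) j
    have h5 : ‖cv ℝ (t i) j‖ = |(t i j : ℝ)| := Real.norm_eq_abs _
    linarith
  rw [Set.mem_Icc]
  constructor
  · intro i j
    have h3 := (abs_le.1 (h2 i j)).1
    have h4 : (-⌈R⌉ : ℝ) ≤ (t i j : ℝ) := by
      have := Int.le_ceil R
      linarith
    exact_mod_cast h4
  · intro i j
    have h3 := (abs_le.1 (h2 i j)).2
    have h4 : (t i j : ℝ) ≤ (⌈R⌉ : ℝ) := h3.trans (Int.le_ceil R)
    exact_mod_cast h4

/-- PROOF: let `K`, `L` be compact subsets of `E × W`, `W = Fin m → Fin r → ℝ`, with projections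
`K₁`, `L₁` in `E` and `K₂`, `L₂` in `W`. If `x • p ∈ L` for a `p ∈ K` then `g := x.1.2 0` is in the
finite set `{g | g K₁ ∩ L₁ ≠ ∅}`, and for given `g` the vector `(cv (affT x i))_i` lies in the
compact set `{w' - (lin g (w i))_i | w' ∈ L₂, w ∈ K₂}`, so `affT x` lies in a finite set
(`finite_cv`). Conclude with `affT_ext`. -/
theorem affAct_pd (E : Type) [TopologicalSpace E] [MulAction G E] [ContinuousConstSMul G E]
    [ProperlyDiscontinuousSMul G E] (m : ℕ) :
    letI := affAct X E m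
    ProperlyDiscontinuousSMul (FP X.π (m + 1)) (AffSp E m r) := by
  letI := affAct X E m
  refine ⟨fun {K L} hK hL => ?_⟩
  have cfst : Continuous (Prod.fst : AffSp E m r → E) :=
    continuous_fst (X := E) (Y := Fin m → Fin r → ℝ)
  have csnd : Continuous (Prod.snd : AffSp E m r → (Fin m → Fin r → ℝ)) :=
    continuous_snd (X := E) (Y := Fin m → Fin r → ℝ)
  have hF := ProperlyDiscontinuousSMul.finite_disjoint_inter_image (Γ := G)
    (hK.image cfst) (hL.image cfst)
  have hT : ∀ g : G, {t : Fin m → Fin r → ℤ | (fun i => cv ℝ (t i)) ∈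
      (fun q : (Fin m → Fin r → ℝ) × (Fin m → Fin r → ℝ) => fun i => q.1 i - X.lin ℝ g (q.2 i)) ''
        ((Prod.snd '' L) ×ˢ (Prod.snd '' K))}.Finite := by
    intro g
    apply finite_cv
    refine IsCompact.image ((hL.image csnd).prod (hK.image csnd)) ?_
    refine continuous_pi fun i => ?_
    exact ((continuous_apply i).comp continuous_fst).sub
      ((LinearMap.continuous_of_finiteDimensional (X.lin ℝ g)).comp
        ((continuous_apply i).comp continuous_snd))
  have hS := hF.biUnion (t := fun g => (fun t => (g, t)) '' {t : Fin m → Fin r → ℤ |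
    (fun i => cv ℝ (t i)) ∈ (fun q : (Fin m → Fin r → ℝ) × (Fin m → Fin r → ℝ) =>
      fun i => q.1 i - X.lin ℝ g (q.2 i)) '' ((Prod.snd '' L) ×ˢ (Prod.snd '' K))})
    (fun g _ => (hT g).image _)
  have hinj : Function.Injective (fun x : FP X.π (m + 1) => (x.1.2 0, affT X m x)) := by
    intro x y h
    exact affT_ext X m x y (congrArg Prod.fst h) (fun i => congrFun (congrArg Prod.snd h) i)
  refine Set.Finite.subset (hS.preimage hinj.injOn) ?_
  intro x hx
  obtain ⟨q, ⟨p, hp, rfl⟩, hq⟩ := hx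
  rw [Set.mem_preimage, Set.mem_iUnion₂]
  have hsm : x • p = (x.1.2 0 • p.1,
      fun i => X.lin ℝ (x.1.2 0) (p.2 i) + cv ℝ (affT X m x i)) := affAct_smul X E m x p
  change x • p ∈ L at hq
  refine ⟨x.1.2 0, ?_, affT X m x, ?_, rfl⟩
  · refine ⟨x.1.2 0 • p.1, ⟨p.1, ⟨p, hp, rfl⟩, rfl⟩, ⟨x • p, hq, ?_⟩⟩
    rw [hsm]
  · refine ⟨((x • p).2, p.2), ⟨⟨x • p, hq, rfl⟩, ⟨p, hp, rfl⟩⟩, ?_⟩
    funext i
    change (x • p).2 i - X.lin ℝ (x.1.2 0) (p.2 i) = cv ℝ (affT X m x i)
    rw [hsm]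
    change X.lin ℝ (x.1.2 0) (p.2 i) + cv ℝ (affT X m x i) - X.lin ℝ (x.1.2 0) (p.2 i) = _
    rw [add_sub_cancel_left]

end Pool.Agent.W_3f1825_r40
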