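import Pool.Agent.W_3f1825_h40.LEC
import Pool.Agent.W_3f1825_r40.Aff

set_option autoImplicit false

/-! Products of locally Euclidean spaces. -/

open Topology

namespace Pool.Agent.W_3f1825_r40

open Pool.Agent.W_3f1825_h40 Pool.Agent.W_3f1825_top

theorem LocEuc_prod {X Y : Type} [TopologicalSpace X] [TopologicalSpace Y] {a b : ℕ}
    (hX : LocEuc a X) (hY : LocEuc b Y) : LocEuc (a + b) (X × Y) := by
  rintro ⟨x, y⟩
  obtain ⟨e, he⟩ := hX x
  obtain ⟨f, hf⟩ := hY y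
  have φ : ((Fin a → ℝ) × (Fin b → ℝ)) ≃L[ℝ] (Fin (a + b) → ℝ) :=
    ContinuousLinearEquiv.ofFinrankEq (by simp)
  refine ⟨(e.prod f).transHomeomorph φ.toHomeomorph, ?_⟩
  exact ⟨he, hf⟩

theorem LocEuc_pi (m r : ℕ) : LocEuc (m * r) (Fin m → Fin r → ℝ) := by
  intro x
  have φ : (Fin m → Fin r → ℝ) ≃L[ℝ] (Fin (m * r) → ℝ) :=
    ContinuousLinearEquiv.ofFinrankEq (by simp [Module.finrank_pi_fintype])
  exact ⟨φ.toHomeomorph.toOpenPartialHomeomorph, Set.mem_univ x⟩

theorem AffSp_locEuc (E : Type) [TopologicalSpace E] {n : ℕ} (hE : LocEuc n E) (m r : ℕ) :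
    LocEuc (n + m * r) (AffSp E m r) := LocEuc_prod hE (LocEuc_pi m r)

instance AffSp_contractible (E : Type) [TopologicalSpace E] [ContractibleSpace E] (m r : ℕ) :
    ContractibleSpace (AffSp E m r) :=
  inferInstanceAs (ContractibleSpace (E × (Fin m → Fin r → ℝ)))

instance AffSp_t2 (E : Type) [TopologicalSpace E] [T2Space E] (m r : ℕ) :
    T2Space (AffSp E m r) := inferInstanceAs (T2Space (E × (Fin m → Fin r → ℝ)))

end Pool.Agent.W_3f1825_r40
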