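import Pool.Agent.W_3f1825_top.Avg

set_option autoImplicit false

/-! Averaging over Følner sets: the `l¹` step. -/

open Filter Topology

namespace Pool.Agent.W_3f1825_r40

open Pool.Agent.W_3f1825_top

open scoped Classical in
/-- A Følner sequence. -/
structure Foln (A : Type) [Group A] where
  /-- the sets -/
  Φ : ℕ → Finset A
  ne : ∀ N, (Φ N).Nonempty
  tend : ∀ a : A, Tendsto (fun N => (((Φ N).filter (fun x => x * a ∉ Φ N)).card : ℝ) / (Φ N).card)
    atTop (𝓝 0)

variable {A S : Type} [Group A] [MulAction A S]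

/-- translate the entries of a tuple -/
def shF {m : ℕ} (Φ : Finset A) (k : Fin (m + 1) → Φ) (v : Fin (m + 1) → S) : Fin (m + 1) → S :=
  fun i => (k i : A) • v i

/-- the averaging operator -/
noncomputable def avF (S : Type) [MulAction A S] (Φ : Finset A) : TC ℝ S →ₗ[ℝ] TC ℝ S :=
  Finsupp.linearCombination ℝ fun s : Tu S =>
    ((Φ.card : ℝ) ^ (s.1 + 1))⁻¹ • ∑ k : Fin (s.1 + 1) → Φ,
      Finsupp.single (⟨s.1, shF Φ k s.2⟩ : Tu S) (1 : ℝ)

theorem avF_single (Φ : Finset A) {m : ℕ} (v : Fin (m + 1) → S) :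
    avF S Φ (Finsupp.single (⟨m, v⟩ : Tu S) 1) = ((Φ.card : ℝ) ^ (m + 1))⁻¹ •
      ∑ k : Fin (m + 1) → Φ, Finsupp.single (⟨m, shF Φ k v⟩ : Tu S) (1 : ℝ) := by
  simp [avF]

theorem avF_mem (Φ : Finset A) {m : ℕ} {c : TC ℝ S} (hc : c ∈ tin ℝ S m) :
    avF S Φ c ∈ tin ℝ S m := by
  refine map_mem_of_tin ℝ (avF S Φ) _ ?_ hc
  intro v
  rw [avF_single]
  exact Submodule.smul_mem _ _ (Submodule.sum_mem _ fun k _ => single_mem_tin ℝ _ _)

theorem sum_removeNth' {α I : Type} [Fintype I] [AddCommMonoid α] {m : ℕ} (i : Fin (m + 2))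
    (F : (Fin (m + 1) → I) → α) :
    ∑ k : Fin (m + 2) → I, F (fun j => k (i.succAbove j)) =
      Fintype.card I • ∑ k : Fin (m + 1) → I, F k := by
  rw [← (Fin.insertNthEquiv (fun _ => I) i).sum_comp, Fintype.sum_prod_type]
  simp [Fin.insertNthEquiv]

theorem sum_insertNth' {α I : Type} [Fintype I] [AddCommMonoid α] {m : ℕ} (i : Fin (m + 1))
    (F : (Fin (m + 1) → I) → α) :
    ∑ k : Fin (m + 1) → I, F k =
      ∑ k : Fin m → I, ∑ a : I, F (i.insertNth a k) := by
  rw [← (Fin.insertNthEquiv (fun _ => I) i).sum_comp, Fintype.sum_prod_type, Finset.sum_comm]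
  rfl

theorem bdT_avF {Φ : Finset A} (hN : Φ.Nonempty) (c : TC ℝ S) :
    bdT ℝ (avF S Φ c) = avF S Φ (bdT ℝ c) := by
  have : (bdT ℝ).comp (avF S Φ) = (avF S Φ).comp (bdT ℝ) := by
    refine Finsupp.lhom_ext' fun t => LinearMap.ext_ring ?_
    obtain ⟨m, v⟩ := t
    change bdT ℝ (avF S Φ (Finsupp.single (⟨m, v⟩ : Tu S) 1)) =
      avF S Φ (bdT ℝ (Finsupp.single (⟨m, v⟩ : Tu S) 1))
    rw [avF_single, map_smul, map_sum]
    cases m with
    | zero => simp
    | succ m =>
      simp only [bdT_single_succ, one_smul]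
      rw [map_sum, Finset.sum_comm, Finset.smul_sum]
      refine Finset.sum_congr rfl fun i _ => ?_
      have h1 : ∀ k : Fin (m + 1 + 1) → Φ, (fun j => shF Φ k v (i.succAbove j)) =
          shF Φ (fun j => k (i.succAbove j)) (fun j => v (i.succAbove j)) := fun k => rfl
      simp only [h1]
      rw [sum_removeNth' i (fun k => Finsupp.single
        (⟨m, shF Φ k (fun j => v (i.succAbove j))⟩ : Tu S) ((-1 : ℝ) ^ (i : ℕ)))]
      have h2 : Finsupp.single (⟨m, fun j => v (i.succAbove j)⟩ : Tu S) ((-1 : ℝ) ^ (i : ℕ)) =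
          ((-1 : ℝ) ^ (i : ℕ)) • Finsupp.single (⟨m, fun j => v (i.succAbove j)⟩ : Tu S) (1 : ℝ) := by
        simp
      rw [h2, map_smul, avF_single]
      have h3 : ∀ k : Fin (m + 1) → Φ,
          Finsupp.single (⟨m, shF Φ k (fun j => v (i.succAbove j))⟩ : Tu S) ((-1 : ℝ) ^ (i : ℕ)) =
          ((-1 : ℝ) ^ (i : ℕ)) • Finsupp.single
            (⟨m, shF Φ k (fun j => v (i.succAbove j))⟩ : Tu S) (1 : ℝ) := by
        intro k
        simp
      simp only [h3]
      rw [← Finset.smul_sum, ← Nat.cast_smul_eq_nsmul ℝ, smul_smul, smul_smul, smul_smul]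
      congr 1
      have hN' : (Φ.card : ℝ) ≠ 0 := by exact_mod_cast hN.card_pos.ne'
      rw [Fintype.card_coe]
      field_simp
      ring
  exact LinearMap.congr_fun this c

variable (P : Foln A)

/-- chains with small averages -/
def smF (c : TC ℝ S) : Prop := Tendsto (fun N : ℕ => nrm (avF S (P.Φ N) c)) atTop (𝓝 0)

theorem smF_zero : smF P (0 : TC ℝ S) := by
  simp only [smF, map_zero, nrm_zero]
  exact tendsto_const_nhds

theorem smF_add {a b : TC ℝ S} (ha : smF P a) (hb : smF P b) : smF P (a + b) := by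
  unfold smF at *
  have h := ha.add hb
  rw [add_zero] at h
  refine squeeze_zero (fun N => nrm_nonneg _) (fun N => ?_) h
  rw [map_add]
  exact nrm_add_le _ _

theorem smF_smul {a : TC ℝ S} (r : ℝ) (ha : smF P a) : smF P (r • a) := by
  unfold smF at *
  have h := ha.const_mul |r|
  rw [mul_zero] at h
  refine squeeze_zero (fun N => nrm_nonneg _) (fun N => ?_) h
  rw [map_smul, nrm_smul]

theorem nrm_sub_le {T : Type} (a b : T →₀ ℝ) : nrm (a - b) ≤ nrm a + nrm b := by
  rw [sub_eq_add_neg]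
  refine (nrm_add_le _ _).trans ?_
  rw [nrm_neg]

open scoped Classical in
/-- the basic estimate -/
theorem shift_est {T : Type} (Φ : Finset A) (a : A) (w : A → T) :
    nrm ((∑ x ∈ Φ, Finsupp.single (w (x * a)) (1 : ℝ)) - ∑ x ∈ Φ, Finsupp.single (w x) (1 : ℝ)) ≤
      ((Φ.filter (fun x => x * a ∉ Φ)).card : ℝ) + (Φ.filter (fun x => x * a⁻¹ ∉ Φ)).card := by
  rw [← Finset.sum_filter_add_sum_filter_not Φ (fun x => x * a ∈ Φ)
    (fun x => Finsupp.single (w (x * a)) (1 : ℝ)),
    ← Finset.sum_filter_add_sum_filter_not Φ (fun x => x * a⁻¹ ∈ Φ)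
    (fun x => Finsupp.single (w x) (1 : ℝ))]
  have h1 : ∑ x ∈ Φ.filter (fun x => x * a ∈ Φ), Finsupp.single (w (x * a)) (1 : ℝ) =
      ∑ x ∈ Φ.filter (fun x => x * a⁻¹ ∈ Φ), Finsupp.single (w x) (1 : ℝ) := by
    refine Finset.sum_nbij' (fun x => x * a) (fun x => x * a⁻¹) ?_ ?_ ?_ ?_ ?_
    · intro x hx
      rw [Finset.mem_filter] at hx ⊢
      exact ⟨hx.2, by rw [mul_inv_cancel_right]; exact hx.1⟩
    · intro x hx
      rw [Finset.mem_filter] at hx ⊢
      exact ⟨hx.2, by rw [inv_mul_cancel_right]; exact hx.1⟩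
    · intro x _
      exact mul_inv_cancel_right _ _
    · intro x _
      exact inv_mul_cancel_right _ _
    · intro x _
      rfl
  rw [h1, add_sub_add_left_eq_sub]
  refine (nrm_sub_le _ _).trans (add_le_add ?_ ?_)
  · refine (nrm_sum_le _ _).trans (le_of_eq ?_)
    simp [nrm_single]
  · refine (nrm_sum_le _ _).trans (le_of_eq ?_)
    simp [nrm_single]

/-- two tuples whose difference is small -/
def srF {m : ℕ} (v w : Fin (m + 1) → S) : Prop :=
  smF P (Finsupp.single (⟨m, w⟩ : Tu S) 1 - Finsupp.single (⟨m, v⟩ : Tu S) 1)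

theorem srF_refl {m : ℕ} (v : Fin (m + 1) → S) : srF P v v := by
  unfold srF
  rw [sub_self]
  exact smF_zero P

theorem srF_trans {m : ℕ} {u v w : Fin (m + 1) → S} (h : srF P u v) (h' : srF P v w) :
    srF P u w := by
  unfold srF at *
  have := smF_add P h h'
  convert this using 1
  abel

/-- the basic estimate -/
theorem srF_one {m : ℕ} (v : Fin (m + 1) → S) (i : Fin (m + 1)) (a : A) :
    srF P v (Function.update v i (a • v i)) := by
  classical
  have key : ∀ Φ : Finset A, Φ.Nonempty → nrm (avF S Φ (Finsupp.single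
      (⟨m, Function.update v i (a • v i)⟩ : Tu S) 1 - Finsupp.single (⟨m, v⟩ : Tu S) 1)) ≤
      ((Φ.filter (fun x => x * a ∉ Φ)).card : ℝ) / Φ.card +
        ((Φ.filter (fun x => x * a⁻¹ ∉ Φ)).card : ℝ) / Φ.card := by
    intro Φ hΦ
    have hN' : (0 : ℝ) < Φ.card := by exact_mod_cast hΦ.card_pos
    rw [map_sub, avF_single, avF_single, ← smul_sub, nrm_smul, sum_insertNth' i, sum_insertNth' i,
      ← Finset.sum_sub_distrib]
    have h1 : ∀ k : Fin m → Φ, nrm ((∑ x : Φ, Finsupp.single (⟨m,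
        shF Φ (i.insertNth x k) (Function.update v i (a • v i))⟩ : Tu S) (1 : ℝ)) -
        ∑ x : Φ, Finsupp.single (⟨m, shF Φ (i.insertNth x k) v⟩ : Tu S) (1 : ℝ)) ≤
        ((Φ.filter (fun x => x * a ∉ Φ)).card : ℝ) + (Φ.filter (fun x => x * a⁻¹ ∉ Φ)).card := by
      intro k
      let w : A → Tu S := fun x => ⟨m, i.insertNth (x • v i)
        (fun j => (k j : A) • (v (i.succAbove j)))⟩
      have h2 : ∀ x : Φ, (⟨m, shF Φ (i.insertNth x k) v⟩ : Tu S) = w x := by
        intro x
        simp only [w]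
        congr 1
        rw [Fin.eq_insertNth_iff]
        refine ⟨?_, ?_⟩
        · simp [shF]
        · funext j
          simp [shF, Fin.removeNth]
      have h3 : ∀ x : Φ, (⟨m, shF Φ (i.insertNth x k) (Function.update v i (a • v i))⟩ : Tu S) =
          w (x * a) := by
        intro x
        simp only [w]
        congr 1
        rw [Fin.eq_insertNth_iff]
        refine ⟨?_, ?_⟩
        · simp [shF, mul_smul]
        · funext j
          simp [shF, Fin.removeNth]
      simp only [h2, h3]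
      rw [Finset.sum_coe_sort Φ (fun x => Finsupp.single (w (x * a)) (1 : ℝ)),
        Finset.sum_coe_sort Φ (fun x => Finsupp.single (w x) (1 : ℝ))]
      exact shift_est Φ a w
    have h5 := (nrm_sum_le Finset.univ (fun k : Fin m → Φ =>
      (∑ x : Φ, Finsupp.single (⟨m,
        shF Φ (i.insertNth x k) (Function.update v i (a • v i))⟩ : Tu S) (1 : ℝ)) -
        ∑ x : Φ, Finsupp.single (⟨m, shF Φ (i.insertNth x k) v⟩ : Tu S) (1 : ℝ))).trans
      (Finset.sum_le_sum fun k _ => h1 k)
    rw [Finset.sum_const, Finset.card_univ, Fintype.card_fun, Fintype.card_coe, Fintype.card_fin,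
      nsmul_eq_mul] at h5
    rw [abs_of_pos (by positivity)]
    refine (mul_le_mul_of_nonneg_left h5 (by positivity)).trans (le_of_eq ?_)
    push_cast
    field_simp
    ring
  unfold srF smF
  have h2 := (P.tend a).add (P.tend a⁻¹)
  rw [add_zero] at h2
  refine squeeze_zero (fun N => nrm_nonneg _) (fun N => ?_) h2
  exact key _ (P.ne N)

theorem srF_all {m : ℕ} (v w : Fin (m + 1) → S) (h : ∀ i, ∃ a : A, w i = a • (v i)) :
    srF P v w := by
  have key : ∀ j : ℕ, srF P v (fun i => if (i : ℕ) < j then w i else v i) := by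
    intro j
    induction j with
    | zero => simpa using srF_refl P v
    | succ j ih =>
      by_cases hj : j < m + 1
      · refine srF_trans P ih ?_
        obtain ⟨a, ha⟩ := h ⟨j, hj⟩
        have h1 := srF_one P (fun i : Fin (m + 1) => if (i : ℕ) < j then w i else v i) ⟨j, hj⟩ a
        convert h1 using 1
        funext i
        by_cases hi : i = ⟨j, hj⟩
        · subst hi
          simp [ha]
        · rw [Function.update_of_ne hi]
          have hi' : (i : ℕ) ≠ j := fun h => hi (Fin.ext h)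
          by_cases h2 : (i : ℕ) < j
          · simp [h2, Nat.lt_succ_of_lt h2]
          · have h3 : ¬ (i : ℕ) < j + 1 := by omega
            simp [h2, h3]
      · convert ih using 1
        funext i
        have := i.2
        have h2 : (i : ℕ) < j := by omega
        simp [h2, Nat.lt_succ_of_lt h2]
  have h := key (m + 1)
  convert h using 1
  funext i
  rw [if_pos i.2]

theorem smF_of_map_eq_zero {B : Type} {π : S → B} (hπ : Function.Surjective π)
    (hπA : ∀ s s', π s = π s' → ∃ a : A, s' = a • s) {c : TC ℝ S} (hc : mpT ℝ π c = 0) :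
    smF P c := by
  obtain ⟨σ, hσ⟩ := hπ.hasRightInverse
  have key : ∀ c : TC ℝ S, smF P (c - mpT ℝ σ (mpT ℝ π c)) := by
    intro c
    induction c using Finsupp.induction_linear with
    | zero => simpa using smF_zero P
    | add a b ha hb =>
      rw [map_add, map_add]
      have := smF_add P ha hb
      convert this using 1
      abel
    | single s r =>
      obtain ⟨m, v⟩ := s
      rw [mpT_mpT, mpT_single]
      have h1 : srF P ((σ ∘ π) ∘ v) v := by
        refine srF_all P _ _ fun i => ?_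
        exact hπA _ _ (hσ (π (v i)))
      have h2 := smF_smul P r h1
      rw [smul_sub, Finsupp.smul_single, Finsupp.smul_single, smul_eq_mul, mul_one] at h2
      exact h2
  have h := key c
  rwa [hc, map_zero, sub_zero] at h

end Pool.Agent.W_3f1825_r40
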