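import Mathlib

set_option autoImplicit false

/-! The Casimir element of an irreducible algebra of endomorphisms of a rational vector space. -/

namespace Pool.Agent.W_3f1825_r40

variable {V : Type} [AddCommGroup V] [Module ℚ V]

/-- `R` acts irreducibly on `V`. -/
def IrrA (R : Subalgebra ℚ (Module.End ℚ V)) : Prop :=
  ∀ W : Submodule ℚ V, (∀ f ∈ R, ∀ w ∈ W, f w ∈ W) → W = ⊥ ∨ W = ⊤

variable [FiniteDimensional ℚ V]

/-- PROOF: `V` is a simple (or zero) `R`-module, so `ι → V` is a semisimple `R`-module for finite `ι`;
with a basis `e` of `V` the map `R → (ι → V)`, `f ↦ (f (e i))` is `R`-linear and injective, so `R` is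
a semisimple `R`-module (`IsSemisimpleModule.of_injective`). -/
theorem semisimple_of_irr (R : Subalgebra ℚ (Module.End ℚ V)) (h : IrrA R) : IsSemisimpleRing R := by
  classical
  have hV : IsSemisimpleModule R V := by
    refine { exists_isCompl := fun W => ?_ }
    have h1 : (W.restrictScalars ℚ) = ⊥ ∨ (W.restrictScalars ℚ) = ⊤ :=
      h _ fun f hf w hw => W.smul_mem (⟨f, hf⟩ : R) hw
    rcases h1 with h1 | h1
    · refine ⟨⊤, ?_⟩
      have : W = ⊥ := by
        rw [Submodule.eq_bot_iff]
        intro x hx
        have : x ∈ (W.restrictScalars ℚ) := hx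
        rw [h1] at this
        exact (Submodule.mem_bot ℚ).1 this
      rw [this]
      exact isCompl_bot_top
    · refine ⟨⊥, ?_⟩
      have : W = ⊤ := by
        rw [Submodule.eq_top_iff']
        intro x
        have : x ∈ (W.restrictScalars ℚ) := by rw [h1]; exact Submodule.mem_top
        exact this
      rw [this]
      exact isCompl_top_bot
  let b := Module.finBasis ℚ V
  let F : R →ₗ[R] (Fin (Module.finrank ℚ V) →₀ V) :=
    { toFun := fun f => Finsupp.equivFunOnFinite.symm fun i => (f : Module.End ℚ V) (b i)
      map_add' := fun f g => by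
        ext i
        simp
      map_smul' := fun f g => by
        ext i
        simp
        rfl }
  have hF : Function.Injective F := by
    intro f g e
    apply Subtype.ext
    refine b.ext fun i => ?_
    have := DFunLike.congr_fun e i
    exact this
  exact IsSemisimpleModule.of_injective F hF

/-- The trace form of `R` is non-degenerate. PROOF: the elements `x` of `R` with `tr (y x) = 0` for all
`y ∈ R` are a left ideal `J`, so `J = R e` with `e` idempotent
(`IsSemisimpleRing.ideal_eq_span_idempotent`); the trace of the idempotent `e` is the dimension of its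
range and it is `0` because `e ∈ J`, so `e = 0`. -/
theorem trace_nondeg (R : Subalgebra ℚ (Module.End ℚ V)) (h : IsSemisimpleRing R) (x : R)
    (hx : ∀ y : R, LinearMap.trace ℚ V (y * x : Module.End ℚ V) = 0) : x = 0 := by
  let J : Ideal R :=
    { carrier := {x | ∀ y : R, LinearMap.trace ℚ V (y * x : Module.End ℚ V) = 0}
      add_mem' := fun {a b} ha hb y => by
        have e : ((y : Module.End ℚ V) * ((a + b : R) : Module.End ℚ V)) =
          (y : Module.End ℚ V) * a + y * b := by
          push_cast
          rw [mul_add]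
        rw [e, map_add, ha y, hb y, add_zero]
      zero_mem' := fun y => by
        change LinearMap.trace ℚ V ((y : Module.End ℚ V) * 0) = 0
        rw [mul_zero, map_zero]
      smul_mem' := fun c a ha y => by
        have e : ((y : Module.End ℚ V) * ((c • a : R) : Module.End ℚ V)) =
          (((y * c : R) : Module.End ℚ V)) * a := by
          push_cast
          rw [mul_assoc]
          rfl
        rw [e]
        exact ha (y * c) }
  obtain ⟨e, he, hJ⟩ := IsSemisimpleRing.ideal_eq_span_idempotent J
  have heJ : e ∈ J := by rw [hJ]; exact Ideal.mem_span_singleton_self e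
  have h1 : LinearMap.trace ℚ V (e : Module.End ℚ V) = 0 := by
    have := heJ 1
    rwa [OneMemClass.coe_one, one_mul] at this
  have h2 : IsIdempotentElem (e : Module.End ℚ V) := congrArg Subtype.val he
  have h3 : (e : Module.End ℚ V) = 0 := LinearMap.IsIdempotentElem.eq_zero_of_trace_eq_zero h2 h1
  have h4 : e = 0 := Subtype.ext h3
  have h5 : x ∈ J := hx
  rw [hJ, h4] at h5
  simpa using h5

/-- Dual bases. PROOF: `LinearMap.BilinForm.dualBasis` for the trace form. -/
theorem exists_dual (R : Subalgebra ℚ (Module.End ℚ V)) (h : IsSemisimpleRing R) :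
    ∃ (m : ℕ) (b b' : Fin m → R), (Submodule.span ℚ (Set.range b) = ⊤) ∧
      (∀ i j, LinearMap.trace ℚ V (b i * b' j : Module.End ℚ V) = if i = j then 1 else 0) ∧
      (∀ x : R, x = ∑ j, LinearMap.trace ℚ V (x * b' j : Module.End ℚ V) • b j) ∧
      (∀ x : R, x = ∑ i, LinearMap.trace ℚ V (x * b i : Module.End ℚ V) • b' i) ∧
      m = Module.finrank ℚ R := by
  let B : LinearMap.BilinForm ℚ R := LinearMap.mk₂ ℚ
    (fun x y : R => LinearMap.trace ℚ V ((x : Module.End ℚ V) * (y : Module.End ℚ V)))
    (fun x x' y => by push_cast; rw [add_mul, map_add])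
    (fun c x y => by push_cast; rw [smul_mul_assoc, map_smul])
    (fun x y y' => by push_cast; rw [mul_add, map_add])
    (fun c x y => by push_cast; rw [mul_smul_comm, map_smul])
  have hB : ∀ x y : R, B x y = LinearMap.trace ℚ V ((x : Module.End ℚ V) * (y : Module.End ℚ V)) :=
    fun _ _ => rfl
  have hsym : B.IsSymm := ⟨fun x y => by rw [hB, hB, LinearMap.trace_mul_comm]⟩
  have hnd : B.Nondegenerate := by
    refine ⟨fun x hx => trace_nondeg R h x fun y => ?_, fun x hx => trace_nondeg R h x fun y => ?_⟩
    · have := hx y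
      rw [hB, LinearMap.trace_mul_comm] at this
      exact this
    · have := hx y
      rw [hB] at this
      exact this
  let b := Module.finBasis ℚ R
  refine ⟨Module.finrank ℚ R, b, B.dualBasis hnd b, b.span_eq, fun i j => ?_, fun x => ?_,
    fun x => ?_, rfl⟩
  · rw [← hB]
    exact LinearMap.BilinForm.apply_dualBasis_right hnd hsym b i j
  · have h1 : ∀ j, LinearMap.trace ℚ V (x * (B.dualBasis hnd b) j : Module.End ℚ V) =
        b.repr x j := by
      intro j
      have h2 := LinearMap.BilinForm.dualBasis_repr_apply hnd (B.dualBasis hnd b) x j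
      rw [LinearMap.BilinForm.dualBasis_dualBasis hnd hsym] at h2
      rw [h2, hB]
    simp only [h1]
    exact (b.sum_repr x).symm
  · have h1 : ∀ j, LinearMap.trace ℚ V (x * b j : Module.End ℚ V) =
        (B.dualBasis hnd b).repr x j := by
      intro j
      rw [LinearMap.BilinForm.dualBasis_repr_apply hnd b x j, hB]
    simp only [h1]
    exact ((B.dualBasis hnd b).sum_repr x).symm

/-- PROOF: with dual bases, `r b_i = ∑ j, tr (r b_i b'_j) b_j`, `b'_j r = ∑ i, tr (b'_j r b_i) b'_i`,
so `∑ i, r b_i f b'_i = ∑ i j, tr (r b_i b'_j) b_j f b'_i` and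
`∑ j, b_j f b'_j r = ∑ j i, tr (b'_j r b_i) b_j f b'_i` agree (`LinearMap.trace_mul_comm`). -/
theorem dual_comm (R : Subalgebra ℚ (Module.End ℚ V)) {m : ℕ} (b b' : Fin m → R)
    (h1 : ∀ x : R, x = ∑ j, LinearMap.trace ℚ V (x * b' j : Module.End ℚ V) • b j)
    (h2 : ∀ x : R, x = ∑ i, LinearMap.trace ℚ V (x * b i : Module.End ℚ V) • b' i) (x : R)
    (f : Module.End ℚ V) :
    (x : Module.End ℚ V) * ∑ i, (b i : Module.End ℚ V) * f * (b' i : Module.End ℚ V) =
      (∑ i, (b i : Module.End ℚ V) * f * (b' i : Module.End ℚ V)) * (x : Module.End ℚ V) := by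
  have e1 : ∀ i, (x : Module.End ℚ V) * (b i : Module.End ℚ V) =
      ∑ j, LinearMap.trace ℚ V ((x : Module.End ℚ V) * b i * b' j) • (b j : Module.End ℚ V) := by
    intro i
    have := congrArg (fun z : R => (z : Module.End ℚ V)) (h1 (x * b i))
    push_cast at this
    exact this
  have e2 : ∀ j, (b' j : Module.End ℚ V) * (x : Module.End ℚ V) =
      ∑ i, LinearMap.trace ℚ V ((b' j : Module.End ℚ V) * x * b i) • (b' i : Module.End ℚ V) := by
    intro j
    have := congrArg (fun z : R => (z : Module.End ℚ V)) (h2 (b' j * x))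
    push_cast at this
    exact this
  rw [Finset.mul_sum, Finset.sum_mul]
  calc ∑ i, (x : Module.End ℚ V) * ((b i : Module.End ℚ V) * f * (b' i : Module.End ℚ V))
      = ∑ i, ∑ j, LinearMap.trace ℚ V ((x : Module.End ℚ V) * b i * b' j) •
          ((b j : Module.End ℚ V) * f * (b' i : Module.End ℚ V)) := by
        refine Finset.sum_congr rfl fun i _ => ?_
        conv_lhs => rw [← mul_assoc, ← mul_assoc, e1, Finset.sum_mul, Finset.sum_mul]
        refine Finset.sum_congr rfl fun j _ => ?_
        rw [smul_mul_assoc, smul_mul_assoc]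
    _ = ∑ j, ∑ i, LinearMap.trace ℚ V ((x : Module.End ℚ V) * b i * b' j) •
          ((b j : Module.End ℚ V) * f * (b' i : Module.End ℚ V)) := Finset.sum_comm
    _ = ∑ j, (b j : Module.End ℚ V) * f * (b' j : Module.End ℚ V) * (x : Module.End ℚ V) := by
        refine Finset.sum_congr rfl fun j _ => ?_
        rw [mul_assoc _ (b' j : Module.End ℚ V), e2, Finset.mul_sum]
        refine Finset.sum_congr rfl fun i _ => ?_
        rw [mul_smul_comm, LinearMap.trace_mul_comm, ← mul_assoc (b' j : Module.End ℚ V)]

/-- The Casimir element. PROOF: let `c = ∑ i, b i * b' i`; it commutes with `R` (`dual_comm`, `f = 1`)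
and has trace `m = finrank R ≠ 0`. Its kernel is invariant and not `⊤`, so `⊥`, so `c` is injective; so
left multiplication by `c` on the finite dimensional `R` is injective, so surjective, and there is
`d ∈ R` with `c * d = 1`, and so `d * c = 1`. Take `x i = d * b i`, `y i = b' i`; `d` commutes with `R`
because `c` does. -/
theorem casQ (R : Subalgebra ℚ (Module.End ℚ V)) (hV : Nontrivial V) (h : IrrA R) :
    ∃ (m : ℕ) (x y : Fin m → R), ∑ i, (x i : Module.End ℚ V) * y i = 1 ∧
      ∀ (z : R) (f : Module.End ℚ V),
        (z : Module.End ℚ V) * ∑ i, (x i : Module.End ℚ V) * f * (y i : Module.End ℚ V) =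
          (∑ i, (x i : Module.End ℚ V) * f * (y i : Module.End ℚ V)) * (z : Module.End ℚ V) := by
  obtain ⟨m, b, b', -, hd, h1, h2, hm⟩ := exists_dual R (semisimple_of_irr R h)
  have hcomm := dual_comm R b b' h1 h2
  let c : R := ∑ i, b i * b' i
  have hc : (c : Module.End ℚ V) = ∑ i, (b i : Module.End ℚ V) * b' i := by
    simp [c]
  have hcz : ∀ z : R, z * c = c * z := by
    intro z
    apply Subtype.ext
    have := hcomm z 1
    simp only [mul_one] at this
    push_cast
    rw [hc]
    exact this
  have hcker : LinearMap.ker (c : Module.End ℚ V) = ⊥ := by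
    have h3 := h (LinearMap.ker (c : Module.End ℚ V)) (fun f hf w hw => by
      rw [LinearMap.mem_ker] at hw ⊢
      have e := congrArg (fun z : R => (z : Module.End ℚ V) w) (hcz ⟨f, hf⟩)
      simp only [MulMemClass.coe_mul, Module.End.mul_apply] at e
      rw [hw, map_zero] at e
      exact e.symm)
    rcases h3 with h3 | h3
    · exact h3
    · exfalso
      have h4 : (c : Module.End ℚ V) = 0 := LinearMap.ker_eq_top.1 h3
      have h5 : LinearMap.trace ℚ V (c : Module.End ℚ V) = m := by
        rw [hc, map_sum]
        simp [hd]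
      rw [h4, map_zero] at h5
      have h6 : m = 0 := by exact_mod_cast h5.symm
      rw [hm] at h6
      have h7 : Subsingleton R := Module.finrank_zero_iff.1 h6
      have h8 : (1 : R) = 0 := Subsingleton.elim _ _
      have h9 : (1 : Module.End ℚ V) = 0 := congrArg Subtype.val h8
      obtain ⟨v, hv⟩ := exists_ne (0 : V)
      exact hv (LinearMap.congr_fun h9 v)
  have hcinj : Function.Injective (c : Module.End ℚ V) := LinearMap.ker_eq_bot.1 hcker
  obtain ⟨d, hcd⟩ : ∃ d : R, c * d = 1 := by
    let L : R →ₗ[ℚ] R := LinearMap.mulLeft ℚ c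
    have hL : Function.Injective L := by
      intro x y e
      apply Subtype.ext
      refine LinearMap.ext fun v => hcinj ?_
      exact LinearMap.congr_fun (congrArg (fun z : R => (z : Module.End ℚ V)) e) v
    obtain ⟨d, hd⟩ := (LinearMap.injective_iff_surjective.1 hL) 1
    exact ⟨d, hd⟩
  have hdc : d * c = 1 := by rw [hcz, hcd]
  have hdz : ∀ z : R, z * d = d * z := by
    intro z
    calc z * d = (d * c) * (z * d) := by rw [hdc, one_mul]
      _ = d * (c * z) * d := by simp only [mul_assoc]
      _ = d * (z * c) * d := by rw [hcz]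
      _ = d * z * (c * d) := by simp only [mul_assoc]
      _ = d * z := by rw [hcd, mul_one]
  refine ⟨m, fun i => d * b i, b', ?_, fun z f => ?_⟩
  · have : ∑ i, ((d * b i : R) : Module.End ℚ V) * (b' i : Module.End ℚ V) =
        ((d * c : R) : Module.End ℚ V) := by
      push_cast
      rw [hc, Finset.mul_sum]
      refine Finset.sum_congr rfl fun i _ => ?_
      rw [mul_assoc]
    rw [this, hdc]
    rfl
  · have e : ∑ i, ((d * b i : R) : Module.End ℚ V) * f * (b' i : Module.End ℚ V) =
        (d : Module.End ℚ V) * ∑ i, (b i : Module.End ℚ V) * f * (b' i : Module.End ℚ V) := by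
      rw [Finset.mul_sum]
      refine Finset.sum_congr rfl fun i _ => ?_
      push_cast
      simp only [mul_assoc]
    have hdz' : (z : Module.End ℚ V) * d = d * z := congrArg Subtype.val (hdz z)
    rw [e, ← mul_assoc, hdz', mul_assoc, hcomm, mul_assoc]

end Pool.Agent.W_3f1825_r40
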