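import Pool.Agent.W_3f1825_r40.GExt

set_option autoImplicit false

/-! Irreducible extensions. -/

namespace Pool.Agent.W_3f1825_r40

/-- Irreducibility over `ℚ`. -/
def Irr {G : Type} [Group G] {r : ℕ} (ρ : G →* Matrix (Fin r) (Fin r) ℤ) : Prop :=
  ∀ W : Submodule ℚ (Fin r → ℚ),
    (∀ g, ∀ w ∈ W, ((ρ g).map (Int.cast : ℤ → ℚ)).mulVec w ∈ W) → W = ⊥ ∨ W = ⊤

theorem clear_vec {r : ℕ} (x : Fin r → ℚ) :
    ∃ (d : ℕ) (v : Fin r → ℤ), d ≠ 0 ∧ (d : ℚ) • x = cv ℚ v := by
  classical
  refine ⟨∏ i, (x i).den, fun i => (∏ j ∈ Finset.univ.erase i, ((x j).den : ℤ)) * (x i).num,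
    Finset.prod_ne_zero_iff.2 fun i _ => (x i).den_ne_zero, ?_⟩
  funext i
  rw [Pi.smul_apply, smul_eq_mul, cv, ← Finset.prod_erase_mul Finset.univ _ (Finset.mem_univ i)]
  push_cast
  rw [mul_assoc, Rat.den_mul_eq_num]

/-- A reducible extension gives an extension of smaller rank. PROOF: let `W ≠ ⊥, ⊤` be invariant
and `A' = {X.a v | cv ℚ v ∈ W}`, a normal subgroup of `G` (`conj_a`), abelian, non-trivial (multiply a
non-zero vector of `W` by a common denominator), and finitely generated (it is the image of a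
subgroup of `ℤ ^ r`; `ℤ` is Noetherian). Let `X'` be the extension of `exists_ext` for `A'`. The map
`ℤ ^ r' → ℤ ^ r`, `v ↦ w` with `X'.a v = X.a w`, is additive and injective with image in `W`; so the
images in `W` of the unit vectors are linearly independent over `ℤ`, so over `ℚ`
(`LinearIndependent.iff_fractionRing`), so `r' ≤ finrank W < r`. -/
theorem exists_smaller {G : Type} [Group G] (htf : TorFree G) {B : Type} [Group B] {r : ℕ}
    (X : Ext G B r) (h : ¬ Irr X.ρ) :
    ∃ (B' : Type) (_ : Group B') (r' : ℕ) (X' : Ext G B' r'), (1 ≤ r' ∧ r' < r) ∧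
      ∀ v, ∃ w, X'.a v = X.a w := by
  classical
  unfold Irr at h
  push Not at h
  obtain ⟨W, hW, hW1, hW2⟩ := h
  have hWl : ∀ g, ∀ w ∈ W, X.lin ℚ g w ∈ W := fun g w hw => hW g w hw
  let L : AddSubgroup (Fin r → ℤ) :=
    { carrier := {v | cv ℚ v ∈ W}
      zero_mem' := by
        change cv ℚ 0 ∈ W
        rw [cv_zero]
        exact W.zero_mem
      add_mem' := fun {v w} hv hw => by
        change cv ℚ (v + w) ∈ W
        rw [cv_add]
        exact W.add_mem hv hw
      neg_mem' := fun {v} hv => by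
        change cv ℚ (-v) ∈ W
        rw [cv_neg]
        exact W.neg_mem hv }
  have hL : ∀ v, v ∈ L ↔ cv ℚ v ∈ W := fun v => Iff.rfl
  let A : Subgroup G :=
    { carrier := {g | ∃ v ∈ L, g = X.a v}
      one_mem' := ⟨0, L.zero_mem, X.a_zero.symm⟩
      mul_mem' := by
        rintro _ _ ⟨v, hv, rfl⟩ ⟨w, hw, rfl⟩
        exact ⟨v + w, L.add_mem hv hw, (X.a_add v w).symm⟩
      inv_mem' := by
        rintro _ ⟨v, hv, rfl⟩
        exact ⟨-v, L.neg_mem hv, (X.a_neg v).symm⟩ }
  have hA : ∀ g, g ∈ A ↔ ∃ v ∈ L, g = X.a v := fun g => Iff.rfl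
  have hAn : A.Normal := by
    constructor
    rintro _ ⟨v, hv, rfl⟩ g
    refine ⟨_, ?_, X.conj_a g v⟩
    rw [hL, ← X.lin_cv]
    exact hWl g _ hv
  have hab : ∀ a ∈ A, ∀ b ∈ A, a * b = b * a := by
    rintro _ ⟨v, hv, rfl⟩ _ ⟨w, hw, rfl⟩
    exact X.a_comm v w
  have hfg : A.FG := by
    have h1 : (AddSubgroup.toIntSubmodule L).FG := IsNoetherian.noetherian _
    rw [Submodule.fg_iff_addSubgroup_fg] at h1
    have h2 : L.FG := h1
    have h3 : AddGroup.FG L := (AddGroup.fg_iff_addSubgroup_fg L).2 h2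
    have h4 : Group.FG (Multiplicative L) := inferInstance
    rw [← Group.fg_iff_subgroup_fg]
    let f : Multiplicative L →* A :=
      { toFun := fun v => ⟨X.a (Multiplicative.toAdd v : L), _, (Multiplicative.toAdd v : L).2, rfl⟩
        map_one' := Subtype.ext X.a_zero
        map_mul' := fun v w => Subtype.ext (X.a_add _ _) }
    refine Group.fg_of_surjective (f := f) ?_
    rintro ⟨_, v, hv, rfl⟩
    exact ⟨Multiplicative.ofAdd ⟨v, hv⟩, rfl⟩
  obtain ⟨r', X', hX'⟩ := exists_ext htf A hab hfg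
  refine ⟨G ⧸ A, inferInstance, r', X', ⟨?_, ?_⟩, fun v => ?_⟩
  · obtain ⟨x, hx, hx0⟩ := (Submodule.ne_bot_iff W).1 hW1
    obtain ⟨d, v, hd, hv⟩ := clear_vec x
    have hvW : v ∈ L := by
      rw [hL, ← hv]
      exact W.smul_mem _ hx
    refine X'.one_le (g := X.a v) (fun e => hx0 ?_) ((hX' _).1 ⟨v, hvW, rfl⟩)
    have h1 : v = 0 := X.a_inj (by rw [e, X.a_zero])
    rw [h1, cv_zero] at hv
    have hd' : (d : ℚ) ≠ 0 := by exact_mod_cast hd
    exact (smul_eq_zero.1 hv).resolve_left hd'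
  · have h1 : ∀ v, ∃ w ∈ L, X'.a v = X.a w := fun v => (hA _).1 ((hX' _).2 ⟨v, rfl⟩)
    choose θ hθL hθ using h1
    have hadd : ∀ v w, θ (v + w) = θ v + θ w := by
      intro v w
      apply X.a_inj
      rw [← hθ, X'.a_add, X.a_add, hθ, hθ]
    let Θ : (Fin r' → ℤ) →+ (Fin r → ℤ) := AddMonoidHom.mk' θ hadd
    let b : Fin r' → W := fun i => ⟨cv ℚ (θ (Pi.single i 1)), hθL _⟩
    have hb : LinearIndependent ℤ b := by
      rw [Fintype.linearIndependent_iff]
      intro n hn
      have h2 : cv ℚ (θ n) = 0 := by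
        have h3 := congrArg (fun w : W => (w : Fin r → ℚ)) hn
        simp only [Submodule.coe_sum, ZeroMemClass.coe_zero] at h3
        rw [← h3]
        have h4 : θ n = ∑ i, n i • θ (Pi.single i 1) := by
          have h5 : n = ∑ i, n i • (Pi.single i (1 : ℤ) : Fin r' → ℤ) := by
            funext j
            simp [Finset.sum_apply, Pi.single_apply]
          have h6 : Θ n = ∑ i, n i • Θ (Pi.single i 1) := by
            conv_lhs => rw [h5]
            rw [map_sum]
            refine Finset.sum_congr rfl fun i _ => ?_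
            rw [map_zsmul]
          exact h6
        rw [h4]
        have h7 : ∀ s : Finset (Fin r'), cv ℚ (∑ i ∈ s, n i • θ (Pi.single i 1)) =
            ∑ i ∈ s, ((n i • b i : W) : Fin r → ℚ) := by
          intro s
          induction s using Finset.induction_on with
          | empty => simp [cv_zero]
          | insert i s hi ih =>
            rw [Finset.sum_insert hi, Finset.sum_insert hi, cv_add, ih, cv_zsmul]
            rfl
        exact h7 _
      have h3 : θ n = 0 := cv_inj (K := ℚ) (by rw [h2, cv_zero])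
      have h4 : n = 0 := X'.a_inj (by rw [hθ, h3, X.a_zero, X'.a_zero])
      intro i
      rw [h4]
      rfl
    have hb' : LinearIndependent ℚ b := (LinearIndependent.iff_fractionRing ℤ ℚ).1 hb
    have h2 := hb'.fintype_card_le_finrank
    rw [Fintype.card_fin] at h2
    have h3 := Submodule.finrank_lt hW2
    rw [Module.finrank_fin_fun] at h3
    omega
  · obtain ⟨w, -, hw⟩ := (hA _).1 ((hX' _).2 ⟨v, rfl⟩)
    exact ⟨w, hw⟩

/-- PROOF: an extension of minimal rank `≥ 1` (`Nat.find` or strong induction). -/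
theorem exists_irr {G : Type} [Group G] (htf : TorFree G) {B : Type} [Group B] {r : ℕ}
    (X : Ext G B r) (hr : 1 ≤ r) :
    ∃ (B' : Type) (_ : Group B') (r' : ℕ) (X' : Ext G B' r'), (1 ≤ r' ∧ Irr X'.ρ) ∧
      ∀ v, ∃ w, X'.a v = X.a w := by
  have key : ∀ (r : ℕ) (B : Type) (_ : Group B) (X : Ext G B r), 1 ≤ r →
      ∃ (B' : Type) (_ : Group B') (r' : ℕ) (X' : Ext G B' r'), (1 ≤ r' ∧ Irr X'.ρ) ∧
        ∀ v, ∃ w, X'.a v = X.a w := by
    intro r
    induction r using Nat.strong_induction_on with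
    | _ r ih =>
      intro B iB X hr
      by_cases h : Irr X.ρ
      · exact ⟨B, iB, r, X, ⟨hr, h⟩, fun v => ⟨v, rfl⟩⟩
      · obtain ⟨B', iB', r', X', ⟨hr', hlt⟩, hX'⟩ := exists_smaller htf X h
        obtain ⟨B2, iB2, r2, X2, h2, hX2⟩ := ih r' hlt B' iB' X' hr'
        refine ⟨B2, iB2, r2, X2, h2, fun v => ?_⟩
        obtain ⟨w, hw⟩ := hX2 v
        obtain ⟨w', hw'⟩ := hX' w
        exact ⟨w', by rw [hw, hw']⟩
  exact key r B inferInstance X hr

end Pool.Agent.W_3f1825_r40
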