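import Pool.Agent.W_3f1825_r40.CasQ
import Pool.Agent.W_3f1825_r40.GMin

set_option autoImplicit false

/-! The integral Casimir element. -/

namespace Pool.Agent.W_3f1825_r40

variable {G : Type} [Group G] {r : ℕ}

/-- The `ℤ`-span of the image of `ρ`. -/
def spn (ρ : G →* Matrix (Fin r) (Fin r) ℤ) : Submodule ℤ (Matrix (Fin r) (Fin r) ℤ) :=
  Submodule.span ℤ (Set.range ρ)

/-- An integral Casimir element. -/
structure Cas (ρ : G →* Matrix (Fin r) (Fin r) ℤ) where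
  /-- number of terms -/
  m : ℕ
  /-- left factors -/
  x : Fin m → Matrix (Fin r) (Fin r) ℤ
  /-- right factors -/
  y : Fin m → Matrix (Fin r) (Fin r) ℤ
  /-- the sum is `δ` -/
  δ : ℤ
  δ_ne : δ ≠ 0
  x_mem : ∀ i, x i ∈ spn ρ
  y_mem : ∀ i, y i ∈ spn ρ
  sum : ∑ i, x i * y i = δ • (1 : Matrix (Fin r) (Fin r) ℤ)
  comm : ∀ (f : Matrix (Fin r) (Fin r) ℤ) (g : G),
    ρ g * (∑ i, x i * f * y i) = (∑ i, x i * f * y i) * ρ g

/-- The rational span of `ρ`, as a subalgebra of the endomorphisms of `ℚ ^ r`. -/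
def algQ (ρ : G →* Matrix (Fin r) (Fin r) ℤ) : Subalgebra ℚ (Module.End ℚ (Fin r → ℚ)) :=
  Algebra.adjoin ℚ (Set.range fun g => ((ρ g).map (Int.cast : ℤ → ℚ)).mulVecLin)

/-- The matrix as an endomorphism of `ℚ ^ r`, as a ring homomorphism. -/
noncomputable def tE (r : ℕ) : Matrix (Fin r) (Fin r) ℤ →+* Module.End ℚ (Fin r → ℚ) :=
  (Matrix.toLinAlgEquiv' (R := ℚ) (n := Fin r)).toAlgHom.toRingHom.comp
    (Int.castRingHom ℚ).mapMatrix

theorem tE_apply (M : Matrix (Fin r) (Fin r) ℤ) :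
    tE r M = (M.map (Int.cast : ℤ → ℚ)).mulVecLin := rfl

theorem tE_inj : Function.Injective (tE r) := by
  intro M N h
  have h1 : M.map (Int.cast : ℤ → ℚ) = N.map (Int.cast : ℤ → ℚ) :=
    (Matrix.toLinAlgEquiv' (R := ℚ) (n := Fin r)).injective h
  exact Matrix.map_injective Int.cast_injective h1

theorem spn_mul (ρ : G →* Matrix (Fin r) (Fin r) ℤ) {x y : Matrix (Fin r) (Fin r) ℤ}
    (hx : x ∈ spn ρ) (hy : y ∈ spn ρ) : x * y ∈ spn ρ := by
  have h1 : x * y ∈ spn ρ * spn ρ := Submodule.mul_mem_mul hx hy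
  rw [spn, Submodule.span_mul_span] at h1
  refine Submodule.span_mono ?_ h1
  rintro _ ⟨_, ⟨g, rfl⟩, _, ⟨h, rfl⟩, rfl⟩
  exact ⟨g * h, map_mul ρ g h⟩

/-- PROOF: `Algebra.adjoin_induction`; the elements with this property are a subalgebra: for sums use
the product of the denominators; `spn` is closed under multiplication. -/
theorem clear_denom (ρ : G →* Matrix (Fin r) (Fin r) ℤ) (f : Module.End ℚ (Fin r → ℚ))
    (hf : f ∈ algQ ρ) : ∃ (d : ℕ) (x : Matrix (Fin r) (Fin r) ℤ), d ≠ 0 ∧ x ∈ spn ρ ∧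
      (d : ℚ) • f = (x.map (Int.cast : ℤ → ℚ)).mulVecLin := by
  refine Algebra.adjoin_induction (p := fun f _ => ∃ (d : ℕ) (x : Matrix (Fin r) (Fin r) ℤ),
    d ≠ 0 ∧ x ∈ spn ρ ∧ (d : ℚ) • f = tE r x) ?_ ?_ ?_ ?_ hf
  · rintro _ ⟨g, rfl⟩
    refine ⟨1, ρ g, one_ne_zero, Submodule.subset_span ⟨g, rfl⟩, ?_⟩
    rw [Nat.cast_one, one_smul]
    rfl
  · intro q
    refine ⟨q.den, q.num • 1, q.den_ne_zero, Submodule.smul_mem _ _
      (Submodule.subset_span ⟨1, map_one ρ⟩), ?_⟩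
    rw [map_zsmul, map_one, Algebra.algebraMap_eq_smul_one, smul_smul, mul_comm,
      Rat.mul_den_eq_num, ← Int.cast_smul_eq_zsmul ℚ]
  · rintro a b _ _ ⟨d, x, hd, hx, h1⟩ ⟨e, y, he, hy, h2⟩
    refine ⟨d * e, e • x + d • y, Nat.mul_ne_zero hd he,
      Submodule.add_mem _ (Submodule.smul_of_tower_mem _ _ hx)
        (Submodule.smul_of_tower_mem _ _ hy), ?_⟩
    rw [map_add, map_nsmul, map_nsmul, ← h1, ← h2, ← Nat.cast_smul_eq_nsmul ℚ,
      ← Nat.cast_smul_eq_nsmul ℚ, smul_smul, smul_smul, smul_add, Nat.cast_mul,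
      mul_comm (e : ℚ)]
  · rintro a b _ _ ⟨d, x, hd, hx, h1⟩ ⟨e, y, he, hy, h2⟩
    refine ⟨d * e, x * y, Nat.mul_ne_zero hd he, spn_mul ρ hx hy, ?_⟩
    rw [map_mul, ← h1, ← h2, smul_mul_smul_comm, Nat.cast_mul]

theorem clear_family (ρ : G →* Matrix (Fin r) (Fin r) ℤ) {m : ℕ} (f : Fin m → algQ ρ) :
    ∃ (d : ℕ) (x : Fin m → Matrix (Fin r) (Fin r) ℤ), d ≠ 0 ∧ ∀ i, x i ∈ spn ρ ∧
      (d : ℚ) • (f i : Module.End ℚ (Fin r → ℚ)) = tE r (x i) := by
  classical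
  choose d x hd hx h using fun i => clear_denom ρ (f i) (f i).2
  refine ⟨∏ i, d i, fun i => (∏ j ∈ Finset.univ.erase i, d j) • x i,
    Finset.prod_ne_zero_iff.2 fun i _ => hd i, fun i => ⟨Submodule.smul_of_tower_mem _ _ (hx i), ?_⟩⟩
  rw [map_nsmul, tE_apply, ← h i, ← Nat.cast_smul_eq_nsmul ℚ, smul_smul]
  congr 1
  rw [← Finset.prod_erase_mul Finset.univ d (Finset.mem_univ i), Nat.cast_mul]

theorem irrA_algQ {ρ : G →* Matrix (Fin r) (Fin r) ℤ} (h : Irr ρ) : IrrA (algQ ρ) := by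
  intro W hW
  exact h W fun g w hw => hW _ (Algebra.subset_adjoin ⟨g, rfl⟩) w hw

/-- PROOF: `casQ` for `algQ ρ` (`irrA_algQ`), clear denominators of the `x i` and `y i` (a common
denominator `d i` of `x i`, replace `x i` by `(∏ d) • x i`, the same for `y`). -/
theorem exists_cas {ρ : G →* Matrix (Fin r) (Fin r) ℤ} (hr : 1 ≤ r) (h : Irr ρ) :
    Nonempty (Cas ρ) := by
  have : Nonempty (Fin r) := ⟨⟨0, hr⟩⟩
  have hV : Nontrivial (Fin r → ℚ) := inferInstance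
  obtain ⟨m, x, y, hsum, hcomm⟩ := casQ (algQ ρ) hV (irrA_algQ h)
  obtain ⟨d, X, hd, hX⟩ := clear_family ρ x
  obtain ⟨e, Y, he, hY⟩ := clear_family ρ y
  have key : ∀ f : Matrix (Fin r) (Fin r) ℤ, tE r (∑ i, X i * f * Y i) =
      ((d : ℚ) * e) • ∑ i, (x i : Module.End ℚ (Fin r → ℚ)) * tE r f * y i := by
    intro f
    rw [map_sum, Finset.smul_sum]
    refine Finset.sum_congr rfl fun i _ => ?_
    rw [map_mul, map_mul, ← (hX i).2, ← (hY i).2, smul_mul_assoc, smul_mul_smul_comm]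
  refine ⟨⟨m, X, Y, (d : ℤ) * e, mul_ne_zero (by exact_mod_cast hd) (by exact_mod_cast he),
    fun i => (hX i).1, fun i => (hY i).1, ?_, ?_⟩⟩
  · apply tE_inj
    have := key 1
    simp only [mul_one, map_one] at this
    rw [this, hsum, map_zsmul, map_one, ← Int.cast_smul_eq_zsmul ℚ]
    push_cast
    rfl
  · intro f g
    apply tE_inj
    rw [map_mul, map_mul, key, mul_smul_comm, smul_mul_assoc]
    congr 1
    exact hcomm ⟨tE r (ρ g), Algebra.subset_adjoin ⟨g, rfl⟩⟩ (tE r f)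

end Pool.Agent.W_3f1825_r40
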