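import Pool.Agent.W_3f1825_r40.PC

set_option autoImplicit false

/-! Finite generation of homology along an exact sequence of complexes. -/

namespace Pool.Agent.W_3f1825_r40

variable {R : Type} [CommRing R]

theorem FGSeq_lift {V W : Type} [IsNoetherianRing R] [AddCommGroup V] [Module R V]
    [AddCommGroup W] [Module R W]
    (Y : Submodule R V) (θ : V →ₗ[R] W) (Q B : Submodule R W) (hQ : Q.FG)
    (h : ∀ y ∈ Y, θ y ∈ Q ⊔ B) :
    ∃ Y₀ : Submodule R V, Y₀.FG ∧ Y₀ ≤ Y ∧ ∀ y ∈ Y, ∃ y₀ ∈ Y₀, θ (y - y₀) ∈ B := by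
  classical
  let ψ : V →ₗ[R] (W ⧸ B) := B.mkQ.comp θ
  have h1 : Y.map ψ ≤ Q.map B.mkQ := by
    rintro _ ⟨y, hy, rfl⟩
    obtain ⟨q, hq, b, hb, hqb⟩ := Submodule.mem_sup.1 (h y hy)
    refine ⟨q, hq, ?_⟩
    change B.mkQ q = B.mkQ (θ y)
    rw [← hqb, map_add, (show B.mkQ b = 0 from (Submodule.Quotient.mk_eq_zero B).2 hb), add_zero]
  have h2 : (Q.map B.mkQ).FG := hQ.map _
  have h3 : (Y.map ψ).FG := Submodule.FG.of_le h2 h1
  obtain ⟨s, hs⟩ := h3
  have h4 : ∀ x ∈ s, ∃ y ∈ Y, ψ y = x := by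
    intro x hx
    have : x ∈ Y.map ψ := by
      rw [← hs]
      exact Submodule.subset_span hx
    exact this
  choose! f hf hf' using h4
  refine ⟨Submodule.span R ((s.image f : Finset V) : Set V), ⟨s.image f, rfl⟩, ?_, ?_⟩
  · rw [Submodule.span_le]
    intro v hv
    obtain ⟨x, hx, rfl⟩ := Finset.mem_image.1 hv
    exact hf x hx
  · intro y hy
    have h5 : ψ y ∈ Submodule.map ψ (Submodule.span R ((s.image f : Finset V) : Set V)) := by
      rw [Submodule.map_span]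
      have h6 : ψ y ∈ Submodule.span R (s : Set (W ⧸ B)) := by
        rw [hs]
        exact ⟨y, hy, rfl⟩
      refine Submodule.span_mono ?_ h6
      intro x hx
      exact ⟨f x, Finset.mem_image_of_mem f hx, hf' x hx⟩
    obtain ⟨y₀, hy₀, h7⟩ := h5
    refine ⟨y₀, hy₀, ?_⟩
    rw [← Submodule.Quotient.mk_eq_zero B]
    change ψ (y - y₀) = 0
    rw [map_sub, h7, sub_self]

/-- the cycles of the exact sequence -/
def FGSeq_K (C : ℕ → PC R) (δ : ∀ m q, (C (m + 1)).V q →ₗ[R] (C m).V q) :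
    ∀ m q, Submodule R ((C m).V q)
  | 0, _ => ⊤
  | m + 1, q => LinearMap.ker (δ m q)

/-- Let `… → C 2 → C 1 → C 0 → 0` be an exact sequence of (non-negative) complexes of modules over
a Noetherian ring. If `C 1, C 2, …` have finitely generated homology in all degrees then so has
`C 0`.
PROOF: let `K m q ⊆ (C m).V q` be `⊤` for `m = 0` and `ker (δ (m - 1) q)` for `m ≥ 1`; so
`K m q = range (δ m q)` for all `m`. Claim `S q`: for all `m` there is a finitely generated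
`Q ≤ K m q ⊓ (C m).Z q` such that every `x ∈ K m q ⊓ (C m).Z q` is of the form `a + d y` with
`a ∈ Q` and `y ∈ K m (q + 1)`. Induction on `q`.
`q = 0`: let `x ∈ K m 0`, `x = δ x'`, `x' ∈ (C (m+1)).V 0 = Z 0`; by `hfg`, `x' = a' + d y'` with
`a'` in the finitely generated `Q'`; so `x = δ a' + d (δ y')`; take `Q = Q'.map δ`.
`q + 1`: let `x ∈ K m (q + 1)`, `d x = 0`, `x = δ x'`. Then `δ (d x') = 0`, so
`d x' ∈ K (m + 1) q`, a cycle. Consider the submodule `Y` of all `x' ∈ (C (m + 1)).V (q + 1)` with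
`d (δ x') = 0`, and the linear map from `Y` to the quotient of `K (m+1) q ⊓ Z q` by
`d (K (m + 1) (q + 1))`, `x' ↦ d x'`. By `S q` for `m + 1` the quotient is finitely
generated, hence Noetherian, so the image of `Y` is finitely generated and there is a finitely
generated `Y₀ ≤ Y` with the same image (compare `fg_lift` in `W_3f1825_top/FinN.lean`). So for `x'`
as above there are `y₀ ∈ Y₀` and `y ∈ K (m + 1) (q + 1)` with `d x' = d y₀ + d y`, and
`x' - y₀ - y` is a cycle of `C (m + 1)` in degree `q + 1`, so it is `a' + d w` with `a' ∈ Q'`,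
`Q'` finitely generated, from `hfg`; replacing `Q'` by `Q' ⊓ Z` (finitely generated because the
ring is Noetherian) we may assume `a'` is a cycle (it is one anyway).
Apply `δ`: `x = δ y₀ + δ a' + d (δ w)` (as `δ y = 0`). Take `Q = Y₀.map δ ⊔ Q'.map δ`. The theorem is
`S q` for `m = 0`. -/
theorem fg_seq [IsNoetherianRing R] (C : ℕ → PC R)
    (δ : ∀ m q, (C (m + 1)).V q →ₗ[R] (C m).V q)
    (hδd : ∀ m q x, (C m).d q (δ m (q + 1) x) = δ m q ((C (m + 1)).d q x))
    (hsurj : ∀ q x, ∃ y, δ 0 q y = x)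
    (hδδ : ∀ m q x, δ m q (δ (m + 1) q x) = 0)
    (hex : ∀ m q x, δ m q x = 0 → ∃ y, δ (m + 1) q y = x)
    (hfg : ∀ m q, (C (m + 1)).Fg q) (q : ℕ) : (C 0).Fg q := by
  have hK1 : ∀ m q x, x ∈ FGSeq_K C δ m q → ∃ y, δ m q y = x := by
    intro m q x hx
    cases m with
    | zero => exact hsurj q x
    | succ m => exact hex m q x hx
  have hK2 : ∀ m q y, δ m q y ∈ FGSeq_K C δ m q := by
    intro m q y
    cases m with
    | zero => exact Submodule.mem_top
    | succ m => exact hδδ m q y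
  have hdZ : ∀ m q x, (C m).d q x ∈ (C m).Z q := by
    intro m q x
    cases q with
    | zero => exact Submodule.mem_top
    | succ q => exact (C m).d_d q x
  have S : ∀ q m, ∃ Q : Submodule R ((C m).V q), Q.FG ∧
      FGSeq_K C δ m q ⊓ (C m).Z q ≤ Q ⊔ (FGSeq_K C δ m (q + 1)).map ((C m).d q) := by
    intro q
    induction q with
    | zero =>
      intro m
      obtain ⟨Q', hQ', hZ⟩ := hfg m 0
      refine ⟨Q'.map (δ m 0), hQ'.map _, ?_⟩
      rintro x ⟨hx, -⟩
      obtain ⟨x', rfl⟩ := hK1 m 0 x hx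
      obtain ⟨a, ha, b, ⟨y, rfl⟩, rfl⟩ :=
        Submodule.mem_sup.1 (hZ (show x' ∈ (C (m + 1)).Z 0 from Submodule.mem_top))
      rw [map_add, ← hδd]
      exact Submodule.add_mem_sup ⟨a, ha, rfl⟩ ⟨_, hK2 m 1 y, rfl⟩
    | succ q ih =>
      intro m
      obtain ⟨Q1, hQ1, hS1⟩ := ih (m + 1)
      obtain ⟨Q', hQ', hZ⟩ := hfg m (q + 1)
      obtain ⟨Y₀, hY₀, -, hl⟩ := FGSeq_lift
        ((LinearMap.ker ((C m).d q)).comap (δ m (q + 1))) ((C (m + 1)).d q) Q1
        ((FGSeq_K C δ (m + 1) (q + 1)).map ((C (m + 1)).d q)) hQ1 (by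
          intro y hy
          refine hS1 ⟨?_, hdZ _ _ _⟩
          change δ m q ((C (m + 1)).d q y) = 0
          rw [← hδd]
          exact hy)
      refine ⟨Y₀.map (δ m (q + 1)) ⊔ Q'.map (δ m (q + 1)), (hY₀.map _).sup (hQ'.map _), ?_⟩
      rintro x ⟨hx, hxZ⟩
      obtain ⟨x', rfl⟩ := hK1 m (q + 1) x hx
      obtain ⟨y₀, hy₀, w, hw, hw'⟩ := hl x' hxZ
      have h1 : x' - y₀ - w ∈ (C (m + 1)).Z (q + 1) := by
        change (C (m + 1)).d q (x' - y₀ - w) = 0
        rw [map_sub, hw', sub_self]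
      obtain ⟨a, ha, b, ⟨u, rfl⟩, hab⟩ := Submodule.mem_sup.1 (hZ h1)
      have hw0 : δ m (q + 1) w = 0 := hw
      have h2 : δ m (q + 1) x' = (δ m (q + 1) y₀ + δ m (q + 1) a) +
          (C m).d (q + 1) (δ m (q + 1 + 1) u) := by
        have h3 : x' = y₀ + w + (a + (C (m + 1)).d (q + 1) u) := by
          rw [hab]
          abel
        rw [hδd, h3, map_add, map_add, map_add, hw0, add_zero]
        abel
      rw [h2]
      exact Submodule.add_mem_sup (Submodule.add_mem_sup ⟨y₀, hy₀, rfl⟩ ⟨a, ha, rfl⟩)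
        ⟨_, hK2 m (q + 1 + 1) u, rfl⟩
  obtain ⟨Q, hQ, h⟩ := S q 0
  refine ⟨Q, hQ, fun x hx => ?_⟩
  have h1 := h ⟨(show x ∈ FGSeq_K C δ 0 q from Submodule.mem_top), hx⟩
  refine (sup_le_sup_left ?_ Q) h1
  rintro _ ⟨y, -, rfl⟩
  exact ⟨y, rfl⟩

end Pool.Agent.W_3f1825_r40
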