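import Pool.Agent.W_3f1825_r40.Fib
import Pool.Agent.W_3f1825_r40.FGSeq

set_option autoImplicit false

/-! The Čech complex of a surjective homomorphism of groups. -/

namespace Pool.Agent.W_3f1825_r40

open Pool.Agent.W_3f1825_h40

variable (R : Type) [CommRing R] {G B : Type} [Group G] [Group B]

/-- The alternating sum of the faces. -/
noncomputable def cdel (π : G →* B) (m q : ℕ) :
    ((Fin (q + 1) → FP π (m + 1)) →₀ R) →ₗ[R] ((Fin (q + 1) → FP π m) →₀ R) :=
  ∑ i : Fin (m + 1), ((-1 : R) ^ (i : ℕ)) • tP R (FPface π m i) q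

/-- The contraction. -/
noncomputable def ch (π : G →* B) (σ : B → G) (hσ : ∀ b, π (σ b) = b) (m q : ℕ) :
    ((Fin (q + 1) → FP π m) →₀ R) →ₗ[R] ((Fin (q + 1) → FP π (m + 1)) →₀ R) :=
  Finsupp.lmapDomain R R (FPh π σ hσ m q)

theorem Cech_cdel_single (π : G →* B) (m q : ℕ) (x : Fin (q + 1) → FP π (m + 1)) (r : R) :
    cdel R π m q (Finsupp.single x r) =
      ∑ i : Fin (m + 1), Finsupp.single (fun k => FPface π m i (x k)) ((-1 : R) ^ (i : ℕ) * r) := by
  simp only [cdel, LinearMap.sum_apply, LinearMap.smul_apply, tP_single, Finsupp.smul_single,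
    smul_eq_mul]

theorem Cech_ch_single (π : G →* B) (σ : B → G) (hσ : ∀ b, π (σ b) = b) (m q : ℕ)
    (x : Fin (q + 1) → FP π m) (r : R) :
    ch R π σ hσ m q (Finsupp.single x r) = Finsupp.single (FPh π σ hσ m q x) r :=
  Finsupp.mapDomain_single

/-- PROOF: `tP_dd`. -/
theorem cdel_dd (π : G →* B) (m q : ℕ) (c : (Fin (q + 2) → FP π (m + 1)) →₀ R) :
    (tSS (FP π m) (FP π m)).dd R q (cdel R π m (q + 1) c) =
      cdel R π m q ((tSS (FP π (m + 1)) (FP π (m + 1))).dd R q c) := by
  simp only [cdel, LinearMap.sum_apply, LinearMap.smul_apply, map_sum, map_smul]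
  refine Finset.sum_congr rfl fun i _ => ?_
  rw [tP_dd (FP π (m + 1)) (FP π m)]

/-- PROOF: `tP_Co`. -/
theorem cdel_Co (π : G →* B) (m q : ℕ) {c : (Fin (q + 1) → FP π (m + 1)) →₀ R}
    (hc : c ∈ Co (perm R (FP π (m + 1)) (Fin (q + 1) → FP π (m + 1)))) :
    cdel R π m q c ∈ Co (perm R (FP π m) (Fin (q + 1) → FP π m)) := by
  simp only [cdel, LinearMap.sum_apply, LinearMap.smul_apply]
  refine Submodule.sum_mem _ fun i _ => Submodule.smul_mem _ _ ?_
  exact tP_Co (fun g => FPface π m i g) (fun g => FPface π m i g)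
    (fun g s => map_mul (FPface π m i) g s) q hc

/-- PROOF: as `SS.dd_dd` or `bdT_bdT`, from `FPface_FPface`. -/
theorem cdel_cdel (π : G →* B) (m q : ℕ) (c : (Fin (q + 1) → FP π (m + 2)) →₀ R) :
    cdel R π m q (cdel R π (m + 1) q c) = 0 := by
  induction c using Finsupp.induction_linear with
  | zero => simp
  | add a b ha hb => simp only [map_add, ha, hb, add_zero]
  | single x r =>
    rw [Cech_cdel_single, map_sum]
    simp only [Cech_cdel_single]
    rw [Finset.sum_comm, ← Finset.sum_product']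
    let P := Fin (m + 1) × Fin (m + 2)
    let S : Finset P := Finset.univ.filter (fun ij : P => (ij.2 : ℕ) ≤ (ij.1 : ℕ))
    rw [Finset.univ_product_univ, ← Finset.sum_add_sum_compl S,
      ← eq_neg_iff_add_eq_zero, ← Finset.sum_neg_distrib]
    refine Finset.sum_bij (fun (ij : P) hij =>
      ((Fin.castLT ij.2 (lt_of_le_of_lt (Finset.mem_filter.mp hij).right (Fin.is_lt ij.1)),
        ij.1.succ) : P)) ?_ ?_ ?_ ?_
    · rintro ⟨i, j⟩ hij
      simp only [S, Finset.mem_filter, Finset.mem_univ, true_and, Finset.mem_compl] at hij ⊢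
      simp only [Fin.val_succ, Fin.val_castLT]
      omega
    · rintro ⟨i, j⟩ hij ⟨i', j'⟩ hij' h
      have h1 := congrArg (fun p : P => (p.1 : ℕ)) h
      have h2 := congrArg (fun p : P => (p.2 : ℕ)) h
      simp only [Fin.val_castLT, Fin.val_succ] at h1 h2
      ext
      · simp only; omega
      · simp only; omega
    · rintro ⟨i', j'⟩ hij'
      simp only [S, Finset.mem_filter, Finset.mem_univ, true_and, Finset.mem_compl,
        not_le] at hij'
      have hj' : (j' : ℕ) ≠ 0 := by omega
      refine ⟨(j'.pred (by rw [Ne, Fin.ext_iff]; exact hj'), Fin.castSucc i'), ?_, ?_⟩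
      · simp only [S, Finset.mem_filter, Finset.mem_univ, true_and, Fin.val_castSucc,
          Fin.val_pred]
        omega
      · simp only [Fin.castLT_castSucc, Fin.succ_pred]
    · rintro ⟨i, j⟩ hij
      have hij' : (j : ℕ) ≤ (i : ℕ) := (Finset.mem_filter.mp hij).2
      simp only
      rw [← Finsupp.single_neg]
      have h1 : (fun k => FPface π m i (FPface π (m + 1) j (x k))) =
          fun k => FPface π m (j.castLT (by omega)) (FPface π (m + 1) i.succ (x k)) :=
        funext fun k => (FPface_FPface π m j i hij' (x k)).symm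
      rw [h1]
      congr 1
      rw [Fin.val_castLT, Fin.val_succ, pow_succ]
      ring

theorem cdel_ch_zero (π : G →* B) (σ : B → G) (hσ : ∀ b, π (σ b) = b) (q : ℕ)
    (c : (Fin (q + 1) → FP π 0) →₀ R) : cdel R π 0 q (ch R π σ hσ 0 q c) = c := by
  induction c using Finsupp.induction_linear with
  | zero => simp
  | add a b ha hb => simp only [map_add, ha, hb]
  | single x r =>
    rw [Cech_ch_single, Cech_cdel_single, Fin.sum_univ_one]
    have h1 : (fun k => FPface π 0 0 (FPh π σ hσ 0 q x k)) = x :=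
      funext fun k => FPface_zero_h π σ hσ 0 q x k
    rw [h1]
    simp

theorem cdel_ch (π : G →* B) (σ : B → G) (hσ : ∀ b, π (σ b) = b) (m q : ℕ)
    (c : (Fin (q + 1) → FP π (m + 1)) →₀ R) :
    cdel R π (m + 1) q (ch R π σ hσ (m + 1) q c) + ch R π σ hσ m q (cdel R π m q c) = c := by
  induction c using Finsupp.induction_linear with
  | zero => simp
  | add a b ha hb =>
    rw [map_add, map_add, map_add, map_add]
    conv_rhs => rw [← ha, ← hb]
    abel
  | single x r =>
    rw [Cech_ch_single, Cech_cdel_single, Cech_cdel_single, map_sum, Fin.sum_univ_succ, add_assoc]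
    have h1 : ((∑ i : Fin (m + 1),
        Finsupp.single (fun k => FPface π (m + 1) i.succ (FPh π σ hσ (m + 1) q x k))
          ((-1 : R) ^ ((i.succ : Fin (m + 2)) : ℕ) * r)) +
        ∑ i : Fin (m + 1), ch R π σ hσ m q
          (Finsupp.single (fun k => FPface π m i (x k)) ((-1 : R) ^ (i : ℕ) * r))) = 0 := by
      rw [← Finset.sum_add_distrib]
      refine Finset.sum_eq_zero fun i _ => ?_
      have h2 : (fun k => FPface π (m + 1) i.succ (FPh π σ hσ (m + 1) q x k)) =
          FPh π σ hσ m q (fun k => FPface π m i (x k)) :=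
        funext fun k => FPface_succ_h π σ hσ m q x i k
      rw [Cech_ch_single, h2, ← Finsupp.single_add, Fin.val_succ, pow_succ]
      have h3 : (-1 : R) ^ (i : ℕ) * (-1) * r + (-1) ^ (i : ℕ) * r = 0 := by ring
      rw [h3, Finsupp.single_zero]
    have h4 : (fun k => FPface π (m + 1) 0 (FPh π σ hσ (m + 1) q x k)) = x :=
      funext fun k => FPface_zero_h π σ hσ (m + 1) q x k
    rw [h1, add_zero, h4]
    simp

/-- PROOF: on generators `perm g v - v`, `v = single x r`: `FPh_smul` gives
`ch (perm g v) = perm g' (ch v)`. First show that `Co` is the span of the `perm g v - v` with `v`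
a basis element. -/
theorem ch_Co (π : G →* B) (σ : B → G) (hσ : ∀ b, π (σ b) = b) (m q : ℕ)
    {c : (Fin (q + 1) → FP π m) →₀ R}
    (hc : c ∈ Co (perm R (FP π m) (Fin (q + 1) → FP π m))) :
    ch R π σ hσ m q c ∈ Co (perm R (FP π (m + 1)) (Fin (q + 1) → FP π (m + 1))) := by
  have h : Co (perm R (FP π m) (Fin (q + 1) → FP π m)) ≤
      (Co (perm R (FP π (m + 1)) (Fin (q + 1) → FP π (m + 1)))).comap (ch R π σ hσ m q) := by
    rw [Co, Submodule.span_le]
    rintro _ ⟨g, v, rfl⟩
    change ch R π σ hσ m q (perm R (FP π m) (Fin (q + 1) → FP π m) g v - v) ∈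
      Co (perm R (FP π (m + 1)) (Fin (q + 1) → FP π (m + 1)))
    induction v using Finsupp.induction_linear with
    | zero =>
      rw [map_zero, sub_zero, map_zero]
      exact Submodule.zero_mem _
    | add a b ha hb =>
      rw [map_add, add_sub_add_comm, map_add]
      exact Submodule.add_mem _ ha hb
    | single x r =>
      rw [map_sub, perm_single, Cech_ch_single, Cech_ch_single]
      obtain ⟨g', hg'⟩ := FPh_smul π σ hσ m q x g
      have h1 : FPh π σ hσ m q (g • x) = g' • FPh π σ hσ m q x := hg'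
      rw [h1, ← perm_single]
      exact sub_mem_Co _ _ _
  exact h hc

/-- PROOF: `fg_seq` for `C m = coinv ((tSS (FP π m) (FP π m)).cx R)` and `δ m q = mapQ (cdel …)`
(`cdel_Co`). Exactness: if `cdel m q c ∈ Co` then `c = cdel (ch c) + ch (cdel c)` and
`ch (cdel c) ∈ Co`. Surjectivity: `cdel_ch_zero`. `coinv_fg`. Finally `fg_equiv` for `FPzero`. -/
theorem fg_of_cech [IsNoetherianRing R] (π : G →* B) (hπ : Function.Surjective π)
    (h : ∀ m q, ((tSS (FP π (m + 1)) (FP π (m + 1))).cx R).Fg q) (q : ℕ) :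
    ((tSS B B).cx R).Fg q := by
  set σ : B → G := Function.surjInv hπ with hσdef
  have hσ : ∀ b, π (σ b) = b := Function.surjInv_eq hπ
  have key := fg_seq (fun m => coinv ((tSS (FP π m) (FP π m)).cx R))
    (fun m q => Submodule.mapQ (Co (perm R (FP π (m + 1)) (Fin (q + 1) → FP π (m + 1))))
      (Co (perm R (FP π m) (Fin (q + 1) → FP π m))) (cdel R π m q)
      (fun c hc => cdel_Co R π m q hc)) ?_ ?_ ?_ ?_ ?_ q
  · exact fg_equiv R (FPzero π) q ((coinv_fg _ q).1 key)
  · intro m q x
    obtain ⟨c, rfl⟩ := Submodule.mkQ_surjective _ x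
    change Submodule.Quotient.mk ((tSS (FP π m) (FP π m)).dd R q (cdel R π m (q + 1) c)) =
      Submodule.Quotient.mk (cdel R π m q ((tSS (FP π (m + 1)) (FP π (m + 1))).dd R q c))
    rw [cdel_dd]
  · intro q x
    obtain ⟨c, rfl⟩ := Submodule.mkQ_surjective _ x
    refine ⟨Submodule.Quotient.mk (ch R π σ hσ 0 q c), ?_⟩
    change Submodule.Quotient.mk (cdel R π 0 q (ch R π σ hσ 0 q c)) = Submodule.Quotient.mk c
    rw [cdel_ch_zero]
  · intro m q x
    obtain ⟨c, rfl⟩ := Submodule.mkQ_surjective _ x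
    change Submodule.Quotient.mk (cdel R π m q (cdel R π (m + 1) q c)) = 0
    rw [cdel_cdel]
    rfl
  · intro m q x hx
    obtain ⟨c, rfl⟩ := Submodule.mkQ_surjective _ x
    have h1 : cdel R π m q c ∈ Co (perm R (FP π m) (Fin (q + 1) → FP π m)) :=
      (Submodule.Quotient.mk_eq_zero _).1 hx
    refine ⟨Submodule.Quotient.mk (ch R π σ hσ (m + 1) q c), ?_⟩
    change Submodule.Quotient.mk (cdel R π (m + 1) q (ch R π σ hσ (m + 1) q c)) =
      Submodule.Quotient.mk c
    rw [Submodule.Quotient.eq]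
    have h2 := cdel_ch R π σ hσ m q c
    have h3 : cdel R π (m + 1) q (ch R π σ hσ (m + 1) q c) - c =
        -(ch R π σ hσ m q (cdel R π m q c)) := by
      rw [sub_eq_iff_eq_add, neg_add_eq_sub, eq_sub_iff_add_eq]
      exact h2
    rw [h3]
    exact Submodule.neg_mem _ (ch_Co R π σ hσ m q h1)
  · intro m q
    exact (coinv_fg _ q).2 (h m q)

end Pool.Agent.W_3f1825_r40
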