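import Mathlib

set_option autoImplicit false

/-! Coinduced actions: if a subgroup `H` of finite index of `L` acts on `E`, then `L` acts on
`E ^ [L : H]`. -/

open Topology

namespace Pool.Agent.W_3f1825_r40

variable {L : Type} [Group L] (H : Subgroup L)

/-- The cocycle `h (l, q) = (out (l • q))⁻¹ * l * out q`. -/
noncomputable def cocy (l : L) (q : L ⧸ H) : H :=
  ⟨(Quotient.out (l • q))⁻¹ * (l * Quotient.out q), by
    rw [← QuotientGroup.eq]
    rw [QuotientGroup.out_eq']
    conv_lhs => rw [← QuotientGroup.out_eq' q]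
    rfl⟩

theorem cocy_spec (l : L) (q : L ⧸ H) :
    l * Quotient.out q = Quotient.out (l • q) * (cocy H l q : L) := by
  exact (mul_inv_cancel_left _ _).symm

theorem cocy_one (q : L ⧸ H) : cocy H 1 q = 1 := by
  apply Subtype.ext
  show (Quotient.out ((1 : L) • q))⁻¹ * (1 * Quotient.out q) = 1
  rw [one_smul, one_mul, inv_mul_cancel]

theorem cocy_mul (l l' : L) (q : L ⧸ H) : cocy H (l * l') q = cocy H l (l' • q) * cocy H l' q := by
  apply Subtype.ext
  have h1 := cocy_spec H (l * l') q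
  have h2 := cocy_spec H l (l' • q)
  have h3 := cocy_spec H l' q
  rw [mul_smul] at h1
  have h4 : Quotient.out (l • l' • q) * ((cocy H l (l' • q) : L) * (cocy H l' q : L)) =
      Quotient.out (l • l' • q) * (cocy H (l * l') q : L) := by
    rw [← mul_assoc, ← h2, mul_assoc, ← h3, ← h1, mul_assoc]
  exact (mul_left_cancel h4).symm

/-- The space of functions from `L ⧸ H` to `E`. -/
def CoSp (E : Type) : Type := (L ⧸ H) → E

instance (E : Type) [TopologicalSpace E] : TopologicalSpace (CoSp H E) :=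
  inferInstanceAs (TopologicalSpace ((L ⧸ H) → E))

instance (E : Type) [TopologicalSpace E] [T2Space E] : T2Space (CoSp H E) :=
  inferInstanceAs (T2Space ((L ⧸ H) → E))

/-- The coinduced action: `(l • y) (l • q) = cocy l q • y q`. -/
noncomputable instance coAct (E : Type) [MulAction H E] : MulAction L (CoSp H E) where
  smul l y := fun q => cocy H l (l⁻¹ • q) • y (l⁻¹ • q)
  one_smul y := by
    funext q
    show cocy H 1 ((1 : L)⁻¹ • q) • y ((1 : L)⁻¹ • q) = y q
    rw [inv_one, one_smul, cocy_one, one_smul]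
  mul_smul l l' y := by
    funext q
    show cocy H (l * l') ((l * l')⁻¹ • q) • y ((l * l')⁻¹ • q) =
      cocy H l (l⁻¹ • q) • (cocy H l' (l'⁻¹ • l⁻¹ • q) • y (l'⁻¹ • l⁻¹ • q))
    rw [mul_inv_rev, mul_smul, cocy_mul, smul_inv_smul, mul_smul]

theorem coAct_apply (E : Type) [MulAction H E] (l : L) (y : CoSp H E) (q : L ⧸ H) :
    (l • y : CoSp H E) (l • q) = cocy H l q • (y : (L ⧸ H) → E) q := by
  show cocy H l (l⁻¹ • l • q) • y (l⁻¹ • l • q) = _
  rw [inv_smul_smul]

instance coAct_cont (E : Type) [TopologicalSpace E] [MulAction H E] [ContinuousConstSMul H E] :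
    ContinuousConstSMul L (CoSp H E) := by
  refine ⟨fun l => ?_⟩
  refine continuous_pi fun q => ?_
  exact (continuous_apply (l⁻¹ • q)).const_smul (cocy H l (l⁻¹ • q))

/-- PROOF: let `l • y = y`, `q₀` the class of `1`. There is `k ≠ 0` with `l ^ k • q₀ = q₀` (the
quotient is finite). All powers of `l` fix `y`, so `cocy (l ^ k) q₀` fixes `y q₀` (`coAct_apply`) and is
`1`; by `cocy_spec` `l ^ k = 1`, so `l = 1`. -/
theorem coAct_free [H.FiniteIndex] (htf : ∀ (l : L) (k : ℕ), k ≠ 0 → l ^ k = 1 → l = 1) (E : Type)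
    [MulAction H E] (hfree : ∀ (g : H) (x : E), g • x = x → g = 1) (l : L) (y : CoSp H E)
    (h : l • y = y) : l = 1 := by
  obtain ⟨k, hk, h1⟩ := (isOfFinOrder_of_finite (MulAction.toPermHom L (L ⧸ H) l)).exists_pow_eq_one
  rw [← map_pow] at h1
  have h2 : l ^ k • ((1 : L) : L ⧸ H) = ((1 : L) : L ⧸ H) :=
    congrArg (fun f : Equiv.Perm (L ⧸ H) => f ((1 : L) : L ⧸ H)) h1
  have h3 : ∀ n : ℕ, l ^ n • y = y := by
    intro n
    induction n with
    | zero => rw [pow_zero, one_smul]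
    | succ n ih => rw [pow_succ, mul_smul, h, ih]
  have h4 := coAct_apply H E (l ^ k) y ((1 : L) : L ⧸ H)
  rw [h3, h2] at h4
  have h5 := hfree _ _ h4.symm
  have h6 := cocy_spec H (l ^ k) ((1 : L) : L ⧸ H)
  rw [h5, h2, Subgroup.coe_one, mul_one] at h6
  exact htf l k (by omega) (mul_eq_right.1 h6)

/-- PROOF: let `K`, `K'` be compact subsets of `CoSp H E` and `K₀` the union of their (finitely many)
projections to `E`, a compact set. If `l • y ∈ K'`, `y ∈ K` then with `q₀` the class of `1`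
`cocy l q₀` moves a point of `K₀` to a point of `K₀`, so it is in a finite set `F`, and
`l = out (l • q₀) * cocy l q₀ * (out q₀)⁻¹` is in a finite set. -/
instance coAct_pd [H.FiniteIndex] (E : Type) [TopologicalSpace E] [MulAction H E]
    [ContinuousConstSMul H E] [ProperlyDiscontinuousSMul H E] :
    ProperlyDiscontinuousSMul L (CoSp H E) := by
  refine ⟨fun {K K'} hK hK' => ?_⟩
  have hc : ∀ q : L ⧸ H, Continuous fun y : CoSp H E => (y : (L ⧸ H) → E) q := fun q =>
    continuous_apply q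
  have hK₀ : IsCompact (⋃ q : L ⧸ H, ((fun y : CoSp H E => (y : (L ⧸ H) → E) q) '' K ∪
      (fun y : CoSp H E => (y : (L ⧸ H) → E) q) '' K')) :=
    isCompact_iUnion fun q => (hK.image (hc q)).union (hK'.image (hc q))
  have hF := ProperlyDiscontinuousSMul.finite_disjoint_inter_image (Γ := H) hK₀ hK₀
  refine ((Set.finite_univ (α := L ⧸ H)).prod hF).image
    (fun x : (L ⧸ H) × H => Quotient.out x.1 * (x.2 : L) *
      (Quotient.out ((1 : L) : L ⧸ H))⁻¹) |>.subset ?_
  intro l hl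
  obtain ⟨z, ⟨y, hy, rfl⟩, hz⟩ := hl
  refine ⟨(l • ((1 : L) : L ⧸ H), cocy H l ((1 : L) : L ⧸ H)), ⟨Set.mem_univ _, ?_⟩, ?_⟩
  · refine ⟨cocy H l ((1 : L) : L ⧸ H) •
      (y : (L ⧸ H) → E) ((1 : L) : L ⧸ H), ⟨_, ?_, rfl⟩, ?_⟩
    · exact Set.mem_iUnion.2 ⟨_, Or.inl ⟨y, hy, rfl⟩⟩
    · rw [← coAct_apply]
      exact Set.mem_iUnion.2 ⟨_, Or.inr ⟨_, hz, rfl⟩⟩
  · show Quotient.out (l • ((1 : L) : L ⧸ H)) * (cocy H l ((1 : L) : L ⧸ H) : L) *
      (Quotient.out ((1 : L) : L ⧸ H))⁻¹ = l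
    rw [← cocy_spec, mul_inv_cancel_right]

end Pool.Agent.W_3f1825_r40
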