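import Pool.Agent.W_3f1825_r40.CoindVan

set_option autoImplicit false

/-! Vanishing for torsion free finite index overgroups; finite generation with coefficients. -/

open Topology

namespace Pool.Agent.W_3f1825_r40

open Pool.Agent.W_3f1825_h40 Pool.Agent.W_3f1825_top

/-- PROOF: `van_coind` for `H = φ.range`, acting on `E` through
`(MonoidHom.ofInjective hφ).symm` (`MulAction.compHom`). -/
theorem van_coind_hom {G L : Type} [Group G] [Group L] (φ : G →* L) (hφ : Function.Injective φ)
    (hfi : φ.range.FiniteIndex) (htf : ∀ (l : L) (k : ℕ), k ≠ 0 → l ^ k = 1 → l = 1) {E : Type}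
    [TopologicalSpace E] [T2Space E] [MulAction G E] [ContinuousConstSMul G E]
    [ProperlyDiscontinuousSMul G E] [ContractibleSpace E] {d : ℕ} (hd : 1 ≤ d) (hE : LocEuc d E)
    (hfree : ∀ (g : G) (x : E), g • x = x → g = 1) (R : Type) [CommRing R] :
    ∃ N : ℕ, ∀ m, N < m → ((tSS L L).cx R).Van m := by
  let e : G ≃* φ.range := MonoidHom.ofInjective hφ
  let _ : MulAction φ.range E := MulAction.compHom E (e.symm : φ.range →* G)
  have hsm : ∀ (g : φ.range) (x : E), g • x = e.symm g • x := fun _ _ => rfl
  have : ContinuousConstSMul φ.range E := ⟨fun g => continuous_const_smul (e.symm g)⟩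
  have : ProperlyDiscontinuousSMul φ.range E := by
    refine ⟨fun {K K'} hK hK' => ?_⟩
    have h1 := ProperlyDiscontinuousSMul.finite_disjoint_inter_image (Γ := G) hK hK'
    exact h1.preimage (f := e.symm) e.symm.injective.injOn
  have := hfi
  refine van_coind φ.range htf hd hE (fun g x h => ?_) R
  have h1 := hfree (e.symm g) x h
  rwa [MulEquiv.map_eq_one_iff] at h1

/-- PROOF: as `fg_of_compact` (file `W_3f1825_h40/Core.lean`). -/
theorem fg_of_compact' (R : Type) [CommRing R] [IsNoetherianRing R] {G E : Type} [Group G]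
    [TopologicalSpace E] [T2Space E] [MulAction G E] [ContinuousConstSMul G E]
    [ProperlyDiscontinuousSMul G E] [ContractibleSpace E] {d : ℕ} (hE : LocEuc d E)
    (hfree : ∀ (g : G) (x : E), g • x = x → g = 1)
    (hcomp : CompactSpace (Quotient (MulAction.orbitRel G E))) (m : ℕ) :
    ((sSS G E).cx R).Fg m := by
  have : LocallyCompactSpace E := locallyCompact_of_locEuc hE
  have : IsCancelSMul G E := isCancelSMul_iff_eq_one_of_smul_eq.2 hfree
  have hq := isQuotientCoveringMap_quotientMk_of_properlyDiscontinuousSMul (G := G) (E := E)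
  let f : C(E, Quotient (MulAction.orbitRel G E)) := ⟨Quotient.mk _, hq.continuous⟩
  have hf : IsQuotientCoveringMap f G := hq
  exact fg_of_fg R hf (hfg (LocEuc_quotient hf hE) m)

end Pool.Agent.W_3f1825_r40
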