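import Pool.Agent.W_3f1825_r40.Coind
import Pool.Agent.W_3f1825_h40.Core

set_option autoImplicit false

/-! Vanishing of the homology of a torsion free group which contains a subgroup of finite index
acting freely on a contractible locally Euclidean space. -/

open Topology

namespace Pool.Agent.W_3f1825_r40

open Pool.Agent.W_3f1825_h40 Pool.Agent.W_3f1825_top

variable {L : Type} [Group L] (H : Subgroup L)

/-- The coinduced space is a finite power of `E`. -/
theorem CoindVan_homeo [H.FiniteIndex] (E : Type) [TopologicalSpace E] :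
    Nonempty (CoSp H E ≃ₜ (Fin (Nat.card (L ⧸ H)) → E)) := by
  have : Finite (L ⧸ H) := Subgroup.finite_quotient_of_finiteIndex
  let e : (L ⧸ H) ≃ Fin (Nat.card (L ⧸ H)) := Finite.equivFin _
  exact ⟨{ toFun := fun y k => (y : (L ⧸ H) → E) (e.symm k)
           invFun := fun y q => y (e q)
           left_inv := fun y => by
             funext q
             show (y : (L ⧸ H) → E) (e.symm (e q)) = (y : (L ⧸ H) → E) q
             rw [e.symm_apply_apply]
           right_inv := fun y => by
             funext k
             show y (e (e.symm k)) = y k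
             rw [e.apply_symm_apply]
           continuous_toFun := continuous_pi fun k =>
             (continuous_apply (e.symm k) : Continuous fun y : (L ⧸ H) → E => y (e.symm k))
           continuous_invFun := by
             show Continuous fun y : Fin (Nat.card (L ⧸ H)) → E => (fun q => y (e q) : (L ⧸ H) → E)
             exact continuous_pi fun q => continuous_apply (e q) }⟩

/-- PROOF: `LocEuc_pow` and the homeomorphism given by `L ⧸ H ≃ Fin p`, `p = Nat.card (L ⧸ H)`. -/
theorem CoSp_locEuc [H.FiniteIndex] (E : Type) [TopologicalSpace E] {d : ℕ} (hE : LocEuc d E) :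
    LocEuc (Nat.card (L ⧸ H) * d) (CoSp H E) := by
  obtain ⟨h⟩ := CoindVan_homeo H E
  exact LocEuc_source h.isLocalHomeomorph (LocEuc_pow _ hE)

theorem CoSp_contractible [H.FiniteIndex] (E : Type) [TopologicalSpace E] [ContractibleSpace E] :
    ContractibleSpace (CoSp H E) := by
  obtain ⟨h⟩ := CoindVan_homeo H E
  have := contractible_pi E (Nat.card (L ⧸ H))
  exact h.contractibleSpace

/-- PROOF: `van_of_locEuc` and `van_tup` for `L` acting on `CoSp H E`. -/
theorem van_coind [H.FiniteIndex] (htf : ∀ (l : L) (k : ℕ), k ≠ 0 → l ^ k = 1 → l = 1) {E : Type}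
    [TopologicalSpace E] [T2Space E] [MulAction H E] [ContinuousConstSMul H E]
    [ProperlyDiscontinuousSMul H E] [ContractibleSpace E] {d : ℕ} (hd : 1 ≤ d) (hE : LocEuc d E)
    (hfree : ∀ (g : H) (x : E), g • x = x → g = 1) (R : Type) [CommRing R] :
    ∃ N : ℕ, ∀ m, N < m → ((tSS L L).cx R).Van m := by
  have : Finite (L ⧸ H) := Subgroup.finite_quotient_of_finiteIndex
  have h1 : 0 < Nat.card (L ⧸ H) := Nat.card_pos
  have : ContractibleSpace (CoSp H E) := CoSp_contractible H E
  have hf : ∀ (l : L) (y : CoSp H E), l • y = y → l = 1 := fun l y h =>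
    coAct_free H htf E hfree l y h
  exact ⟨Nat.card (L ⧸ H) * d, fun m hm =>
    van_tup R hf (van_of_locEuc R (Nat.mul_pos h1 hd) (CoSp_locEuc H E hE) hf m hm)⟩

end Pool.Agent.W_3f1825_r40
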