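import Pool.Agent.W_3f1825_r40.AffPd
import Pool.Agent.W_3f1825_r40.AffCo
import Pool.Agent.W_3f1825_r40.AffTop
import Pool.Agent.W_3f1825_r40.Cech
import Pool.Agent.W_3f1825_h40.Core

set_option autoImplicit false

/-! Finite generation of the integral homology of the quotient by a free abelian normal
subgroup. -/

open Topology

namespace Pool.Agent.W_3f1825_r40

open Pool.Agent.W_3f1825_h40 Pool.Agent.W_3f1825_top

variable {G B : Type} [Group G] [Group B] {r : ℕ} (X : Ext G B r)

/-- PROOF: `fg_of_compact` and `fg_tup` for the action `affAct X E m` of `FP X.π (m + 1)` on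
`E × (Fin m → Fin r → ℝ)`. -/
theorem fg_FP {E : Type} [TopologicalSpace E] [T2Space E] [MulAction G E] [ContinuousConstSMul G E]
    [ProperlyDiscontinuousSMul G E] [ContractibleSpace E] {n : ℕ} (hE : LocEuc n E)
    (hfree : ∀ (g : G) (x : E), g • x = x → g = 1)
    (hcomp : CompactSpace (Quotient (MulAction.orbitRel G E))) (m q : ℕ) :
    ((tSS (FP X.π (m + 1)) (FP X.π (m + 1))).cx ℤ).Fg q := by
  have : LocallyCompactSpace E := locallyCompact_of_locEuc hE
  letI := affAct X E m
  have h1 := affAct_cont X E m
  have h2 := affAct_pd X E m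
  exact fg_tup (E := AffSp E m r) ℤ (fun x p h => affAct_free X E hfree m x p h)
    (fg_of_compact (AffSp_locEuc E hE m r) (fun x p h => affAct_free X E hfree m x p h)
      (affAct_compact X E hcomp m) q)

include X in
/-- PROOF: `fg_of_cech` and `fg_FP`. -/
theorem fg_base {E : Type} [TopologicalSpace E] [T2Space E] [MulAction G E]
    [ContinuousConstSMul G E] [ProperlyDiscontinuousSMul G E] [ContractibleSpace E] {n : ℕ}
    (hE : LocEuc n E) (hfree : ∀ (g : G) (x : E), g • x = x → g = 1)
    (hcomp : CompactSpace (Quotient (MulAction.orbitRel G E))) (q : ℕ) :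
    ((tSS B B).cx ℤ).Fg q :=
  fg_of_cech ℤ X.π X.surj (fun m q => fg_FP X hE hfree hcomp m q) q

end Pool.Agent.W_3f1825_r40
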