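import Pool.Agent.W_3f1825_r40.ModP

set_option autoImplicit false

/-! From coefficients modulo `p` to integral coefficients: divisibility. -/

namespace Pool.Agent.W_3f1825_r40

open Pool.Agent.W_3f1825_h40

variable {Γ : Type} [Group Γ] {p : ℕ} [Fact p.Prime]

/-- PROOF: let `x ∈ Z n` for `H` over `ℤ`. Its reduction is a boundary for `H'`:
`redp x = dd w + i`; lift `w` and `i ∈ Co` (`exists_lift_Co`), so `x - dd w' - i' = p x'`
(`redp_eq_zero`). `x'` is a cycle: `p (dd x') = dd x - dd i' ∈ Co` for `H'` (`Co_mono`) and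
`Co_of_smul`. -/
theorem int_step {H H' : Subgroup Γ} (hle : H ≤ H') {n : ℕ}
    (h : ((tSS H Γ).cx (ZMod p)).Z n ≤ ((tSS H' Γ).cx (ZMod p)).B n)
    (x : (Fin (n + 1) → Γ) →₀ ℤ) (hx : x ∈ ((tSS H Γ).cx ℤ).Z n) :
    ∃ x' ∈ ((tSS H' Γ).cx ℤ).Z n, x - (p : ℤ) • x' ∈ ((tSS H' Γ).cx ℤ).B n := by
  have hpz : (p : ℤ) ≠ 0 := by exact_mod_cast (Fact.out : p.Prime).ne_zero
  have hred : redp p (Fin (n + 1) → Γ) x ∈ ((tSS H Γ).cx (ZMod p)).Z n := by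
    cases n with
    | zero => exact Submodule.mem_top
    | succ m =>
      have h1 : (tSS H Γ).dd ℤ m x ∈ Co (perm ℤ H (Fin (m + 1) → Γ)) := hx
      change (tSS H Γ).dd (ZMod p) m (redp p (Fin (m + 1 + 1) → Γ) x) ∈
        Co (perm (ZMod p) H (Fin (m + 1) → Γ))
      have h2 := dd_redp p (tSS H Γ) m x
      rw [h2]
      exact redp_Co p h1
  obtain ⟨w, hw⟩ := Cx.mem_B.1 (h hred)
  obtain ⟨w', rfl⟩ := redp_surj p _ w
  obtain ⟨i', hi', hii⟩ := exists_lift_Co p hw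
  have hdw : (tSS H' Γ).dd (ZMod p) n (redp p _ w') = redp p _ ((tSS H' Γ).dd ℤ n w') :=
    dd_redp p (tSS H' Γ) n w'
  have h0 : redp p (Fin (n + 1) → Γ) (x - (tSS H' Γ).dd ℤ n w' - i') = 0 := by
    rw [map_sub, map_sub, ← hdw, hii]
    exact sub_self _
  obtain ⟨x', hx'⟩ := redp_eq_zero p _ h0
  refine ⟨x', ?_, ?_⟩
  · cases n with
    | zero => exact Submodule.mem_top
    | succ m =>
      change (tSS H' Γ).dd ℤ m x' ∈ Co (perm ℤ H' (Fin (m + 1) → Γ))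
      refine Co_of_smul hpz ?_
      rw [← map_zsmul, ← hx', map_sub, map_sub, SS.dd_dd, sub_zero]
      refine Submodule.sub_mem _ ?_ ?_
      · have h1 : (tSS H Γ).dd ℤ m x ∈ Co (perm ℤ H (Fin (m + 1) → Γ)) := hx
        exact Co_mono ℤ hle m h1
      · exact ((tSS H' Γ).cx ℤ).d_Co hi'
  · refine Cx.mem_B.2 ⟨w', ?_⟩
    have h3 : x - (p : ℤ) • x' - (tSS H' Γ).dd ℤ n w' = i' := by
      rw [← hx']
      abel
    change x - (p : ℤ) • x' - (tSS H' Γ).dd ℤ n w' ∈ Co (perm ℤ H' (Fin (n + 1) → Γ))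
    rw [h3]
    exact hi'

theorem Z_mono (R : Type) [CommRing R] {H H' : Subgroup Γ} (hle : H ≤ H') (n : ℕ) :
    ((tSS H Γ).cx R).Z n ≤ ((tSS H' Γ).cx R).Z n := by
  cases n with
  | zero => exact fun _ _ => Submodule.mem_top
  | succ m =>
    intro c hc
    have h1 : (tSS H Γ).dd R m c ∈ Co (perm R H (Fin (m + 1) → Γ)) := hc
    exact Co_mono R hle m h1

theorem B_mono (R : Type) [CommRing R] {H H' : Subgroup Γ} (hle : H ≤ H') (n : ℕ) :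
    ((tSS H Γ).cx R).B n ≤ ((tSS H' Γ).cx R).B n := by
  intro c hc
  obtain ⟨y, hy⟩ := Cx.mem_B.1 hc
  exact Cx.mem_B.2 ⟨y, Co_mono R hle n hy⟩

/-- PROOF: induction on `k` with `int_step` from `j₀` on. -/
theorem int_tower (Gs : ℕ → Subgroup Γ) (hle : ∀ j, Gs j ≤ Gs (j + 1)) {n j₀ : ℕ}
    (h : ∀ j, j₀ ≤ j →
      ((tSS (Gs j) Γ).cx (ZMod p)).Z n ≤ ((tSS (Gs (j + 1)) Γ).cx (ZMod p)).B n)
    (x : (Fin (n + 1) → Γ) →₀ ℤ) (hx : x ∈ ((tSS (Gs 0) Γ).cx ℤ).Z n) (k : ℕ) :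
    ∃ j, ∃ x' ∈ ((tSS (Gs j) Γ).cx ℤ).Z n, x - ((p : ℤ) ^ k) • x' ∈ ((tSS (Gs j) Γ).cx ℤ).B n := by
  have hmono : Monotone Gs := monotone_nat_of_le_succ hle
  suffices hs : ∃ j, j₀ ≤ j ∧ ∃ x' ∈ ((tSS (Gs j) Γ).cx ℤ).Z n,
      x - ((p : ℤ) ^ k) • x' ∈ ((tSS (Gs j) Γ).cx ℤ).B n by
    obtain ⟨j, -, hj⟩ := hs
    exact ⟨j, hj⟩
  induction k with
  | zero =>
    refine ⟨j₀, le_rfl, x, Z_mono ℤ (hmono (Nat.zero_le j₀)) n hx, ?_⟩
    rw [pow_zero, one_smul, sub_self]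
    exact Submodule.zero_mem _
  | succ k ih =>
    obtain ⟨j, hj, x', hx', hB⟩ := ih
    obtain ⟨x'', hx'', hB'⟩ := int_step (hle j) (h j hj) x' hx'
    refine ⟨j + 1, by omega, x'', hx'', ?_⟩
    have h1 : x - ((p : ℤ) ^ (k + 1)) • x'' =
        (x - ((p : ℤ) ^ k) • x') + ((p : ℤ) ^ k) • (x' - (p : ℤ) • x'') := by
      rw [smul_sub, smul_smul, ← pow_succ]
      abel
    rw [h1]
    exact Submodule.add_mem _ (B_mono ℤ (hle j) n hB) (Submodule.smul_mem _ _ hB')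

/-- An element of a finitely generated abelian group `Z / B` which is divisible by all powers of
`p` is torsion. -/
theorem tor_of_div {V : Type} [AddCommGroup V] (Z B : Submodule ℤ V) (hB : B ≤ Z)
    (hfg : ∃ Q : Submodule ℤ V, Q.FG ∧ Z ≤ Q ⊔ B) {x : V}
    (hx : ∀ k : ℕ, ∃ x' ∈ Z, x - ((p : ℤ) ^ k) • x' ∈ B) : ∃ m : ℕ, m ≠ 0 ∧ (m : ℤ) • x ∈ B := by
  obtain ⟨Q, hQ, hZQ⟩ := hfg
  have hp2 : 2 ≤ p := (Fact.out : p.Prime).two_le
  set M : Submodule ℤ (V ⧸ B) := Z.map B.mkQ with hM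
  have hMQ : M ≤ Q.map B.mkQ := by
    rintro _ ⟨z, hz, rfl⟩
    obtain ⟨q, hq, b, hb, rfl⟩ := Submodule.mem_sup.1 (hZQ hz)
    refine ⟨q, hq, ?_⟩
    rw [map_add, (Submodule.Quotient.mk_eq_zero B).2 hb |> fun h => (h : B.mkQ b = 0), add_zero]
  have hQf : Module.Finite ℤ (Q.map B.mkQ : Submodule ℤ (V ⧸ B)) :=
    Module.Finite.iff_fg.2 (hQ.map _)
  have hMf : Module.Finite ℤ M := by
    have h1 : IsNoetherian ℤ (Q.map B.mkQ : Submodule ℤ (V ⧸ B)) := inferInstance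
    exact Module.Finite.of_injective (Submodule.inclusion hMQ) (Submodule.inclusion_injective hMQ)
  have hxZ : x ∈ Z := by
    obtain ⟨x', hx', hxB⟩ := hx 0
    rw [pow_zero, one_smul] at hxB
    have := Z.add_mem (hB hxB) hx'
    rwa [sub_add_cancel] at this
  set y : M := ⟨B.mkQ x, ⟨x, hxZ, rfl⟩⟩ with hy
  have hdiv : ∀ k : ℕ, ∃ y' : M, y = ((p : ℤ) ^ k) • y' := by
    intro k
    obtain ⟨x', hx', hxB⟩ := hx k
    refine ⟨⟨B.mkQ x', ⟨x', hx', rfl⟩⟩, ?_⟩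
    apply Subtype.ext
    change B.mkQ x = ((p : ℤ) ^ k) • B.mkQ x'
    rw [← map_zsmul, ← sub_eq_zero, ← map_sub]
    exact (Submodule.Quotient.mk_eq_zero B).2 hxB
  have htor : y ∈ Submodule.torsion ℤ M := by
    rw [← Submodule.Quotient.mk_eq_zero]
    let b := Module.Free.chooseBasis ℤ (M ⧸ Submodule.torsion ℤ M)
    apply b.repr.injective
    rw [map_zero]
    ext i
    rw [Finsupp.zero_apply]
    by_contra hne
    have h1 : ∀ k : ℕ, ((p : ℤ) ^ k) ∣ b.repr (Submodule.Quotient.mk y) i := by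
      intro k
      obtain ⟨y', hy'⟩ := hdiv k
      refine ⟨b.repr (Submodule.Quotient.mk y') i, ?_⟩
      conv_lhs => rw [hy', Submodule.Quotient.mk_smul, map_smul, Finsupp.smul_apply, smul_eq_mul]
    obtain ⟨n, hn⟩ : ∃ n : ℕ, n = (b.repr (Submodule.Quotient.mk y) i).natAbs := ⟨_, rfl⟩
    have h2 := Int.natAbs_dvd_natAbs.2 (h1 n)
    rw [← hn, Int.natAbs_pow, Int.natAbs_natCast] at h2
    have h3 : 0 < n := by
      rw [hn]
      exact Int.natAbs_pos.2 hne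
    have h4 := Nat.le_of_dvd h3 h2
    have h5 : n < p ^ n := Nat.lt_pow_self (by omega)
    omega
  rw [Submodule.mem_torsion_iff] at htor
  obtain ⟨a, ha⟩ := htor
  have ha0 : (a : ℤ) ≠ 0 := nonZeroDivisors.coe_ne_zero a
  have h1 : (a : ℤ) • x ∈ B := by
    rw [← Submodule.Quotient.mk_eq_zero]
    exact congrArg Subtype.val ha
  refine ⟨(a : ℤ).natAbs, Int.natAbs_ne_zero.2 ha0, ?_⟩
  rcases Int.natAbs_eq (a : ℤ) with h2 | h2
  · rw [← h2]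
    exact h1
  · have h3 : (((a : ℤ).natAbs : ℕ) : ℤ) = -(a : ℤ) := by omega
    rw [h3, neg_smul]
    exact B.neg_mem h1

/-- Conclusion: the image in the homology of the quotient `B` is torsion. PROOF: `int_tower`,
`tP_Z` and `tP_B` for `π`, `tor_of_div`. -/
theorem tor_image (Gs : ℕ → Subgroup Γ) (hle : ∀ j, Gs j ≤ Gs (j + 1)) {n j₀ : ℕ}
    (h : ∀ j, j₀ ≤ j →
      ((tSS (Gs j) Γ).cx (ZMod p)).Z n ≤ ((tSS (Gs (j + 1)) Γ).cx (ZMod p)).B n)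
    {B : Type} [Group B] (π : Γ →* B) (hfg : ((tSS B B).cx ℤ).Fg n)
    (x : (Fin (n + 1) → Γ) →₀ ℤ) (hx : x ∈ ((tSS (Gs 0) Γ).cx ℤ).Z n) :
    ∃ m : ℕ, m ≠ 0 ∧ (m : ℤ) • tP ℤ π n x ∈ ((tSS B B).cx ℤ).B n := by
  refine tor_of_div (p := p) (((tSS B B).cx ℤ).Z n) (((tSS B B).cx ℤ).B n)
    (((tSS B B).cx ℤ).B_le_Z n) hfg fun k => ?_
  obtain ⟨j, x', hx', hB⟩ := int_tower Gs hle h x hx k
  have hπ : ∀ (g : Gs j) (s : Γ), π (g • s) = (π g : B) • π s := by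
    intro g s
    change π ((g : Γ) * s) = π g * π s
    rw [map_mul]
  have h1 := tP_Z (fun g : Gs j => π g) π hπ n hx'
  have h2 := tP_B (fun g : Gs j => π g) π hπ n hB
  refine ⟨tP ℤ π n x', h1, ?_⟩
  rw [map_sub, map_zsmul] at h2
  exact h2

end Pool.Agent.W_3f1825_r40
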