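import Mathlib

set_option autoImplicit false

/-! Dimensions of subquotients. -/

namespace Pool.Agent.W_3f1825_r40

/-- The dimension of `Z / (B ∩ Z)`. -/
noncomputable def hdim {k V : Type} [Field k] [AddCommGroup V] [Module k V]
    (Z B : Submodule k V) : ℕ := Module.finrank k (Z ⧸ B.comap Z.subtype)

/-- PROOF: `T` induces an injective linear map from `Z' / B'` to the finite dimensional space
`Z / B`. If the dimensions agree it is surjective. The finiteness of `Z' / B'` is expressed by the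
second statement. -/
theorem hdim_le {k V V' : Type} [Field k] [AddCommGroup V] [Module k V] [AddCommGroup V']
    [Module k V'] (Z B : Submodule k V) (Z' B' : Submodule k V') (hB : B ≤ Z) (hB' : B' ≤ Z')
    (T : V' →ₗ[k] V) (hZT : ∀ x ∈ Z', T x ∈ Z) (hBT : ∀ x ∈ B', T x ∈ B)
    (hinj : ∀ x ∈ Z', T x ∈ B → x ∈ B') (hfin : ∃ Q : Submodule k V, Q.FG ∧ Z ≤ Q ⊔ B) :
    hdim Z' B' ≤ hdim Z B ∧ (∃ Q : Submodule k V', Q.FG ∧ Z' ≤ Q ⊔ B') ∧
      (hdim Z' B' = hdim Z B → ∀ x ∈ Z, ∃ x' ∈ Z', x - T x' ∈ B) := by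
  -- the quotient of `Z` is finite dimensional
  have hfA : Module.Finite k (Z ⧸ B.comap Z.subtype) := by
    obtain ⟨Q, hQ, hZQ⟩ := hfin
    have hQf : Module.Finite k Q := Module.Finite.iff_fg.2 hQ
    have hQZ : Module.Finite k (Q ⊓ Z : Submodule k V) :=
      Submodule.finiteDimensional_of_le (S₁ := Q ⊓ Z) (S₂ := Q) inf_le_left
    refine Module.Finite.of_surjective
      ((B.comap Z.subtype).mkQ ∘ₗ Submodule.inclusion (inf_le_right : Q ⊓ Z ≤ Z)) ?_
    intro a
    obtain ⟨⟨z, hz⟩, rfl⟩ := (B.comap Z.subtype).mkQ_surjective a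
    obtain ⟨q, hq, b, hb, hqb⟩ := Submodule.mem_sup.1 (hZQ hz)
    have hqZ : q ∈ Z := by
      have h1 : q = z - b := by rw [← hqb, add_sub_cancel_right]
      rw [h1]
      exact Z.sub_mem hz (hB hb)
    refine ⟨⟨q, hq, hqZ⟩, ?_⟩
    rw [LinearMap.comp_apply, Submodule.mkQ_apply, Submodule.mkQ_apply, Submodule.Quotient.eq,
      Submodule.mem_comap]
    have h2 : q - z ∈ B := by
      have h3 : q - z = -b := by rw [← hqb]; abel
      rw [h3]
      exact B.neg_mem hb
    exact h2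
  have hle : B'.comap Z'.subtype ≤ (B.comap Z.subtype).comap (T.restrict hZT) := by
    intro x hx
    exact hBT _ hx
  set φ : (Z' ⧸ B'.comap Z'.subtype) →ₗ[k] (Z ⧸ B.comap Z.subtype) :=
    Submodule.mapQ _ _ (T.restrict hZT) hle with hφ
  have hφa : ∀ x : Z', φ ((B'.comap Z'.subtype).mkQ x) =
      (B.comap Z.subtype).mkQ (T.restrict hZT x) := fun x => rfl
  have hφi : Function.Injective φ := by
    rw [← LinearMap.ker_eq_bot, LinearMap.ker_eq_bot']
    intro a ha
    obtain ⟨x, rfl⟩ := (B'.comap Z'.subtype).mkQ_surjective a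
    rw [hφa, Submodule.mkQ_apply, Submodule.Quotient.mk_eq_zero, Submodule.mem_comap] at ha
    rw [Submodule.mkQ_apply, Submodule.Quotient.mk_eq_zero, Submodule.mem_comap]
    exact hinj x x.2 ha
  have hfA' : Module.Finite k (Z' ⧸ B'.comap Z'.subtype) := Module.Finite.of_injective φ hφi
  refine ⟨LinearMap.finrank_le_finrank_of_injective hφi, ?_, ?_⟩
  · obtain ⟨C, hC⟩ := Submodule.exists_isCompl (B'.comap Z'.subtype)
    have hCf : Module.Finite k C :=
      Module.Finite.equiv (Submodule.quotientEquivOfIsCompl _ _ hC)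
    refine ⟨C.map Z'.subtype, (Module.Finite.iff_fg.1 hCf).map _, ?_⟩
    intro x hx
    have h1 : (⟨x, hx⟩ : Z') ∈ B'.comap Z'.subtype ⊔ C := by
      rw [hC.sup_eq_top]
      exact Submodule.mem_top
    obtain ⟨b, hb, c, hc, hbc⟩ := Submodule.mem_sup.1 h1
    refine Submodule.mem_sup.2 ⟨c, Submodule.mem_map_of_mem hc, b, hb, ?_⟩
    have h2 := congrArg (fun z : Z' => (z : V')) hbc
    simp only [Submodule.coe_add] at h2
    rw [add_comm]
    exact h2
  · intro hdimeq x hx
    have hs : Function.Surjective φ :=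
      (LinearMap.injective_iff_surjective_of_finrank_eq_finrank hdimeq).1 hφi
    obtain ⟨a, ha⟩ := hs ((B.comap Z.subtype).mkQ ⟨x, hx⟩)
    obtain ⟨x', rfl⟩ := (B'.comap Z'.subtype).mkQ_surjective a
    rw [hφa, Submodule.mkQ_apply, Submodule.mkQ_apply] at ha
    have h3 := (Submodule.Quotient.eq _).1 ha.symm
    exact ⟨x', x'.2, h3⟩

/-- A sequence of natural numbers which is not increasing is finally constant. -/
theorem eventually_const (h : ℕ → ℕ) (hh : ∀ j, h (j + 1) ≤ h j) :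
    ∃ j₀, ∀ j, j₀ ≤ j → h (j + 1) = h j := by
  have hanti : Antitone h := antitone_nat_of_succ_le hh
  obtain ⟨m, ⟨j₀, hj⟩, hm⟩ := WellFounded.has_min (wellFounded_lt (α := ℕ)) (Set.range h)
    ⟨h 0, 0, rfl⟩
  refine ⟨j₀, fun j hj0 => ?_⟩
  have h1 := hanti hj0
  have h2 := hm (h (j + 1)) ⟨j + 1, rfl⟩
  have h3 := hh j
  omega

end Pool.Agent.W_3f1825_r40
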