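import Pool.Agent.W_3f1825_r40.IdxTP
import Pool.Agent.W_3f1825_r40.LinDim

set_option autoImplicit false

/-! Towers of subgroups of index `p`. -/

namespace Pool.Agent.W_3f1825_r40

open Pool.Agent.W_3f1825_h40

variable {Γ : Type} [Group Γ] {p : ℕ} [Fact p.Prime]

/-- The operator `(tT - 1) ^ a` on the chains. -/
noncomputable def Tower_T (p : ℕ) {Γ : Type} [Group Γ] (t : Γ) (m a : ℕ) :
    ((Fin (m + 1) → Γ) →₀ ZMod p) →ₗ[ZMod p] ((Fin (m + 1) → Γ) →₀ ZMod p) :=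
  (show Module.End (ZMod p) ((Fin (m + 1) → Γ) →₀ ZMod p) from
    tT (ZMod p) t m - LinearMap.id) ^ a

theorem Tower_cmk {H H' : Subgroup Γ} {t : Γ} (h : IdxP p H H' t) (m a : ℕ)
    (c : (Fin (m + 1) → Γ) →₀ ZMod p) :
    ((idxTP h).t m ^ a) (cmk ((tSS H Γ).cx (ZMod p)) m c) =
      cmk ((tSS H Γ).cx (ZMod p)) m (Tower_T p t m a c) := by
  induction a with
  | zero => rfl
  | succ a ih =>
    have e1 : ((idxTP h).t m ^ (a + 1)) (cmk ((tSS H Γ).cx (ZMod p)) m c) =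
        (idxTP h).t m (((idxTP h).t m ^ a) (cmk ((tSS H Γ).cx (ZMod p)) m c)) :=
      (idxTP h).TMod_succ m a _
    have e2 : (idxTP h).t m (((idxTP h).t m ^ a) (cmk ((tSS H Γ).cx (ZMod p)) m c)) =
        (idxTP h).t m (cmk ((tSS H Γ).cx (ZMod p)) m (Tower_T p t m a c)) :=
      congrArg ((idxTP h).t m) ih
    have e3 := idxTP_t h m (Tower_T p t m a c)
    have e4 : tT (ZMod p) t m (Tower_T p t m a c) - Tower_T p t m a c =
        Tower_T p t m (a + 1) c := by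
      unfold Tower_T
      rw [pow_succ', Module.End.mul_apply]
      rfl
    rw [e4] at e3
    exact e1.trans (e2.trans e3)

/-- One step: the dimension of the homology in degree `n` does not increase, and if it does not
change then the map from the homology of `H` to that of `H'` vanishes. PROOF: `hdim_le` with
`T = (tT - 1) ^ (p - 1)` on the chains: it maps cycles for `H'` to cycles for `H`, boundaries to
boundaries (`tpow_ZT`, `tpow_BT`), and is injective on homology (`BT_of_tpow`, `idx_VA`).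
Last statement: `Z_le_BT`. -/
theorem dim_step {H H' : Subgroup Γ} {t : Γ} (h : IdxP p H H' t) {n : ℕ}
    (hH' : ∀ m, n < m → ((tSS H' Γ).cx (ZMod p)).Van m)
    (hfg : ((tSS H Γ).cx (ZMod p)).Fg n) :
    ((tSS H' Γ).cx (ZMod p)).Fg n ∧
      hdim (((tSS H' Γ).cx (ZMod p)).Z n) (((tSS H' Γ).cx (ZMod p)).B n) ≤
        hdim (((tSS H Γ).cx (ZMod p)).Z n) (((tSS H Γ).cx (ZMod p)).B n) ∧
      (hdim (((tSS H' Γ).cx (ZMod p)).Z n) (((tSS H' Γ).cx (ZMod p)).B n) =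
        hdim (((tSS H Γ).cx (ZMod p)).Z n) (((tSS H Γ).cx (ZMod p)).B n) →
        ((tSS H Γ).cx (ZMod p)).Z n ≤ ((tSS H' Γ).cx (ZMod p)).B n) := by
  have hp : 2 ≤ p := (Fact.out : p.Prime).two_le
  have hVA : ∀ m, n ≤ m → (idxTP h).VA 1 m := fun m hm =>
    (idx_VA h m).2 (hH' (m + 1) (by omega))
  have hZT : ∀ x ∈ ((tSS H' Γ).cx (ZMod p)).Z n,
      Tower_T p t n (p - 1) x ∈ ((tSS H Γ).cx (ZMod p)).Z n := by
    intro x hx
    have h1 := (idxTP h).tpow_ZT (by omega) n ((idx_mem_ZT h n x).2 hx)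
    rw [Tower_cmk] at h1
    exact (cmk_mem_Z ((tSS H Γ).cx (ZMod p)) n _).1 h1
  have hBT : ∀ x ∈ ((tSS H' Γ).cx (ZMod p)).B n,
      Tower_T p t n (p - 1) x ∈ ((tSS H Γ).cx (ZMod p)).B n := by
    intro x hx
    have h1 := (idxTP h).tpow_BT (by omega) n ((idx_mem_BT h n x).2 hx)
    rw [Tower_cmk] at h1
    exact (cmk_mem_B ((tSS H Γ).cx (ZMod p)) n _).1 h1
  have hinj : ∀ x ∈ ((tSS H' Γ).cx (ZMod p)).Z n,
      Tower_T p t n (p - 1) x ∈ ((tSS H Γ).cx (ZMod p)).B n →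
        x ∈ ((tSS H' Γ).cx (ZMod p)).B n := by
    intro x _ hx
    refine (idx_mem_BT h n x).1 ((idxTP h).BT_of_tpow hp hVA n le_rfl ?_)
    rw [Tower_cmk]
    exact (cmk_mem_B ((tSS H Γ).cx (ZMod p)) n _).2 hx
  obtain ⟨h1, h2, h3⟩ := hdim_le (((tSS H Γ).cx (ZMod p)).Z n) (((tSS H Γ).cx (ZMod p)).B n)
    (((tSS H' Γ).cx (ZMod p)).Z n) (((tSS H' Γ).cx (ZMod p)).B n) (Cx.B_le_Z _ n)
    (Cx.B_le_Z _ n) (Tower_T p t n (p - 1)) hZT hBT hinj hfg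
  refine ⟨h2, h1, fun heq x hx => ?_⟩
  refine (idx_mem_BT h n x).1 ((idxTP h).Z_le_BT hp hVA n le_rfl ?_
    ((cmk_mem_Z ((tSS H Γ).cx (ZMod p)) n x).2 hx))
  intro y hy
  obtain ⟨y, rfl⟩ := cmk_surj ((tSS H Γ).cx (ZMod p)) n y
  obtain ⟨x', -, hx'⟩ := h3 heq y ((cmk_mem_Z ((tSS H Γ).cx (ZMod p)) n y).1 hy)
  refine ⟨cmk ((tSS H Γ).cx (ZMod p)) n x', ?_⟩
  rw [Tower_cmk]
  have h4 : cmk ((tSS H Γ).cx (ZMod p)) n y -
      cmk ((tSS H Γ).cx (ZMod p)) n (Tower_T p t n (p - 1) x') =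
      cmk ((tSS H Γ).cx (ZMod p)) n (y - Tower_T p t n (p - 1) x') := (map_sub _ _ _).symm
  have h5 := (cmk_mem_B ((tSS H Γ).cx (ZMod p)) n _).2 hx'
  rw [← h4] at h5
  exact h5

/-- PROOF: `van_step` and `dim_step` by induction on `j`, `eventually_const`. -/
theorem tower (Gs : ℕ → Subgroup Γ) (ts : ℕ → Γ) (h : ∀ j, IdxP p (Gs j) (Gs (j + 1)) (ts j))
    {n : ℕ} (h0 : ∀ m, n < m → ((tSS (Gs 0) Γ).cx (ZMod p)).Van m)
    (hN : ∀ j, ∃ N, ∀ m, N < m → ((tSS (Gs j) Γ).cx (ZMod p)).Van m)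
    (hfg : ((tSS (Gs 0) Γ).cx (ZMod p)).Fg n) :
    ∃ j₀, ∀ j, j₀ ≤ j →
      ((tSS (Gs j) Γ).cx (ZMod p)).Z n ≤ ((tSS (Gs (j + 1)) Γ).cx (ZMod p)).B n := by
  have hvan : ∀ j, ∀ m, n < m → ((tSS (Gs j) Γ).cx (ZMod p)).Van m := by
    intro j
    induction j with
    | zero => exact h0
    | succ j ih =>
      obtain ⟨N, hN'⟩ := hN (j + 1)
      exact fun m hm => van_step (h j) ih hN' m hm
  have hfgj : ∀ j, ((tSS (Gs j) Γ).cx (ZMod p)).Fg n := by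
    intro j
    induction j with
    | zero => exact hfg
    | succ j ih => exact (dim_step (h j) (hvan (j + 1)) ih).1
  obtain ⟨j₀, hj₀⟩ := eventually_const
    (fun j => hdim (((tSS (Gs j) Γ).cx (ZMod p)).Z n) (((tSS (Gs j) Γ).cx (ZMod p)).B n))
    (fun j => (dim_step (h j) (hvan (j + 1)) (hfgj j)).2.1)
  exact ⟨j₀, fun j hj => (dim_step (h j) (hvan (j + 1)) (hfgj j)).2.2 (hj₀ j hj)⟩

end Pool.Agent.W_3f1825_r40
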