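import Pool.Agent.W_3f1825_r40.HullTF
import Pool.Agent.W_3f1825_r40.CoindHom
import Pool.Agent.W_3f1825_r40.FgFP
import Pool.Agent.W_3f1825_r40.Tower
import Pool.Agent.W_3f1825_r40.IntDiv

set_option autoImplicit false

/-! The image of the homology of `G` in the homology of the quotient is torsion. -/

open Topology

namespace Pool.Agent.W_3f1825_r40

open Pool.Agent.W_3f1825_h40 Pool.Agent.W_3f1825_top

/-- PROOF: induction with `Subgroup.relIndex_mul_relIndex`. -/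
theorem relIndex_chain {Γ : Type} [Group Γ] (Gs : ℕ → Subgroup Γ) (hle : ∀ j, Gs j ≤ Gs (j + 1))
    (h : ∀ j, ((Gs j).subgroupOf (Gs (j + 1))).FiniteIndex) (j : ℕ) :
    Gs 0 ≤ Gs j ∧ ((Gs 0).subgroupOf (Gs j)).FiniteIndex := by
  induction j with
  | zero =>
    refine ⟨le_rfl, ?_⟩
    rw [Subgroup.subgroupOf_self]
    infer_instance
  | succ j ih =>
    obtain ⟨ih1, ih2⟩ := ih
    refine ⟨ih1.trans (hle j), ⟨?_⟩⟩
    have h1 : (Gs 0).relIndex (Gs j) ≠ 0 := ih2.index_ne_zero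
    have h2 : (Gs j).relIndex (Gs (j + 1)) ≠ 0 := (h j).index_ne_zero
    have h3 := Subgroup.relIndex_mul_relIndex _ _ _ ih1 (hle j)
    change (Gs 0).relIndex (Gs (j + 1)) ≠ 0
    rw [← h3]
    exact Nat.mul_ne_zero h1 h2

variable {G B : Type} [Group G] [Group B] {r : ℕ} {X : Ext G B r} {p : ℕ}
  {A : AddSubgroup (Fin r → ℚ)}

/-- The homology of a subgroup, computed with tuples of the big group. -/
theorem free_sub {Γ : Type} [Group Γ] (H : Subgroup Γ) (g : H) (s : Γ) (e : g • s = s) : g = 1 := by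
  apply Subtype.ext
  exact mul_eq_right.1 e

/-- Assembly. -/
theorem core2 (D : GoodData X p A) {E : Type} [TopologicalSpace E] [T2Space E] [MulAction G E]
    [ContinuousConstSMul G E] [ProperlyDiscontinuousSMul G E] [ContractibleSpace E] {d : ℕ}
    (hd : 1 ≤ d) (hE : LocEuc d E) (hfree : ∀ (g : G) (x : E), g • x = x → g = 1)
    (hcomp : CompactSpace (Quotient (MulAction.orbitRel G E)))
    (x : (Fin (d + 1) → G) →₀ ℤ) (hx : x ∈ ((tSS G G).cx ℤ).Z d) :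
    ∃ m : ℕ, m ≠ 0 ∧ (m : ℤ) • tP ℤ X.π d x ∈ ((tSS B B).cx ℤ).B d := by
  have : Fact p.Prime := ⟨D.prime⟩
  obtain ⟨h⟩ := exists_hull X
  obtain ⟨C⟩ := exists_chain D
  let Gs : ℕ → Subgroup h.Γ := fun j => h.sub (C.As j) (C.inv j)
  have hcv : ∀ j v, cv ℚ v ∈ C.As j := by
    intro j v
    induction j with
    | zero => exact (C.zero _).2 ⟨v, rfl⟩
    | succ j ih => exact C.mono j ih
  have hidx : ∀ j, IdxP p (Gs j) (Gs (j + 1)) (h.u (C.vs j)) := fun j =>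
    h.idxP (hcv j) (C.mono j) (C.mem j) (C.not_mem j) (C.pmul j) (C.triv j) (C.gen j)
  have hle : ∀ j, Gs j ≤ Gs (j + 1) := fun j => (hidx j).le
  have hfi := relIndex_chain Gs hle (fun j => (hidx j).finiteIndex D.prime)
  have hG0 : ∀ g, h.i g ∈ Gs 0 := fun g => ⟨0, (C.As 0).zero_mem, g, by rw [h.u_zero, one_mul]⟩
  have hG0' : ∀ y ∈ Gs 0, ∃ g, y = h.i g := by
    rintro _ ⟨x, hx, g, rfl⟩
    obtain ⟨v, rfl⟩ := (C.zero x).1 hx
    exact ⟨X.a v * g, by rw [h.u_cv, map_mul]⟩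
  have hGj : ∀ j g, h.i g ∈ Gs j := fun j g => (hfi j).1 (hG0 g)
  let φ : ∀ j, G →* Gs j := fun j => h.i.codRestrict (Gs j) (hGj j)
  have hφ : ∀ j, Function.Injective (φ j) := by
    intro j a b e
    exact h.inj (congrArg Subtype.val e)
  have hφr : ∀ j, (φ j).range.FiniteIndex := by
    intro j
    have h1 : (Gs 0).subgroupOf (Gs j) ≤ (φ j).range := by
      rintro ⟨y, hy⟩ hy'
      obtain ⟨g, rfl⟩ := hG0' y hy'
      exact ⟨g, rfl⟩
    exact @Subgroup.finiteIndex_of_le _ _ _ _ (hfi j).2 h1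
  have hN : ∀ j, ∃ N, ∀ m, N < m → ((tSS (Gs j) h.Γ).cx (ZMod p)).Van m := by
    intro j
    obtain ⟨N, hN⟩ := van_coind_hom (φ j) (hφ j) (hφr j)
      (fun l k hk e => h.sub_tf' D.tf (C.le j) (C.inv j) l k hk e) hd hE hfree (ZMod p)
    exact ⟨N, fun m hm => (van_free_iff (ZMod p) (free_sub (Gs j)) m).2 (hN m hm)⟩
  let e0 : G ≃* Gs 0 := MulEquiv.ofBijective (φ 0) ⟨hφ 0, by
    rintro ⟨y, hy⟩
    obtain ⟨g, rfl⟩ := hG0' y hy
    exact ⟨g, rfl⟩⟩
  have h0 : ∀ m, d < m → ((tSS (Gs 0) h.Γ).cx (ZMod p)).Van m := fun m hm =>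
    (van_free_iff (ZMod p) (free_sub (Gs 0)) m).2
      (van_equiv (ZMod p) e0 m (van_tup (ZMod p) hfree (van_of_locEuc (ZMod p) hd hE hfree m hm)))
  have hfg : ((tSS (Gs 0) h.Γ).cx (ZMod p)).Fg d :=
    (fg_free_iff (ZMod p) (free_sub (Gs 0)) d).2
      (fg_equiv (ZMod p) e0 d (fg_tup (ZMod p) hfree (fg_of_compact' (ZMod p) hE hfree hcomp d)))
  obtain ⟨j₀, hj⟩ := tower Gs (fun j => h.u (C.vs j)) hidx h0 hN hfg
  have hx' : tP ℤ h.i d x ∈ ((tSS (Gs 0) h.Γ).cx ℤ).Z d :=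
    tP_Z (fun g => φ 0 g) h.i (fun g s => by
      change h.i (g * s) = h.i g * h.i s
      exact map_mul _ _ _) d hx
  obtain ⟨m, hm, hm'⟩ := tor_image Gs hle hj h.π (fg_base X hE hfree hcomp d) _ hx'
  refine ⟨m, hm, ?_⟩
  rw [tP_comp] at hm'
  have e : (fun s => h.π (h.i s)) = X.π := funext h.π_i
  rw [e] at hm'
  exact hm'

end Pool.Agent.W_3f1825_r40
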