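import Mathlib

set_option autoImplicit false

/-! Extensions of a group `B` by `ℤ ^ r`. -/

namespace Pool.Agent.W_3f1825_r40

/-- `G` is an extension of `B` by `ℤ ^ r`; the action of `G` on `ℤ ^ r` is given by matrices. -/
structure Ext (G B : Type) [Group G] [Group B] (r : ℕ) where
  /-- the projection -/
  π : G →* B
  surj : Function.Surjective π
  /-- the inclusion of `ℤ ^ r` -/
  α : Multiplicative (Fin r → ℤ) →* G
  inj : Function.Injective α
  ker : ∀ g, π g = 1 ↔ ∃ v, g = α (Multiplicative.ofAdd v)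
  /-- the action -/
  ρ : G →* Matrix (Fin r) (Fin r) ℤ
  conj : ∀ g v, g * α (Multiplicative.ofAdd v) * g⁻¹ = α (Multiplicative.ofAdd ((ρ g).mulVec v))

/-- An integral vector as a vector with coefficients in `K`. -/
def cv (K : Type) [CommRing K] {r : ℕ} (v : Fin r → ℤ) : Fin r → K := fun i => (v i : K)

section

variable {K : Type} [CommRing K] {r : ℕ}

theorem cv_add (v w : Fin r → ℤ) : cv K (v + w) = cv K v + cv K w := by
  funext i
  simp [cv]

theorem cv_neg (v : Fin r → ℤ) : cv K (-v) = -cv K v := by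
  funext i
  simp [cv]

theorem cv_sub (v w : Fin r → ℤ) : cv K (v - w) = cv K v - cv K w := by
  funext i
  simp [cv]

theorem cv_zero : cv K (0 : Fin r → ℤ) = 0 := by
  funext i
  simp [cv]

theorem cv_zsmul (n : ℤ) (v : Fin r → ℤ) : cv K (n • v) = n • cv K v := by
  funext i
  simp [cv]

theorem cv_nsmul (n : ℕ) (v : Fin r → ℤ) : cv K (n • v) = n • cv K v := by
  funext i
  simp [cv]

theorem cv_inj [CharZero K] {v w : Fin r → ℤ} (h : cv K v = cv K w) : v = w := by
  funext i
  have := congrFun h i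
  exact Int.cast_injective this

end

namespace Ext

variable {G B : Type} [Group G] [Group B] {r : ℕ} (X : Ext G B r)

/-- The element of `G` of a vector. -/
def a (v : Fin r → ℤ) : G := X.α (Multiplicative.ofAdd v)

theorem a_zero : X.a 0 = 1 := map_one X.α

theorem a_add (v w : Fin r → ℤ) : X.a (v + w) = X.a v * X.a w := map_mul X.α _ _

theorem a_neg (v : Fin r → ℤ) : X.a (-v) = (X.a v)⁻¹ := map_inv X.α _

theorem a_nsmul (n : ℕ) (v : Fin r → ℤ) : X.a (n • v) = X.a v ^ n := map_pow X.α _ _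

theorem a_zsmul (n : ℤ) (v : Fin r → ℤ) : X.a (n • v) = X.a v ^ n := map_zpow X.α _ _

theorem a_inj {v w : Fin r → ℤ} (h : X.a v = X.a w) : v = w :=
  Multiplicative.ofAdd.injective (X.inj h)

theorem π_a (v : Fin r → ℤ) : X.π (X.a v) = 1 := (X.ker _).2 ⟨v, rfl⟩

theorem exists_a {g : G} (h : X.π g = 1) : ∃ v, g = X.a v := (X.ker g).1 h

theorem conj_a (g : G) (v : Fin r → ℤ) : g * X.a v * g⁻¹ = X.a ((X.ρ g).mulVec v) := X.conj g v

theorem a_comm (v w : Fin r → ℤ) : X.a v * X.a w = X.a w * X.a v := by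
  rw [← X.a_add, ← X.a_add, add_comm]

/-- The action on `K ^ r`. -/
noncomputable def lin (K : Type) [CommRing K] : G →* Module.End K (Fin r → K) :=
  (Matrix.toLinAlgEquiv' (R := K) (n := Fin r)).toAlgHom.toRingHom.toMonoidHom.comp
    ((Int.castRingHom K).mapMatrix.toMonoidHom.comp X.ρ)

theorem lin_apply (K : Type) [CommRing K] (g : G) (u : Fin r → K) :
    X.lin K g u = ((X.ρ g).map (Int.cast : ℤ → K)).mulVec u := rfl

theorem lin_cv (K : Type) [CommRing K] (g : G) (v : Fin r → ℤ) :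
    X.lin K g (cv K v) = cv K ((X.ρ g).mulVec v) := by
  rw [lin_apply]
  funext i
  simp [cv, Matrix.mulVec, dotProduct]

theorem ρ_a (v : Fin r → ℤ) : X.ρ (X.a v) = 1 := by
  apply Matrix.mulVec_injective
  funext w
  apply X.a_inj
  rw [← X.conj_a, Matrix.one_mulVec, X.a_comm, mul_inv_cancel_right]

theorem lin_a (K : Type) [CommRing K] (v : Fin r → ℤ) : X.lin K (X.a v) = 1 := by
  refine LinearMap.ext fun u => ?_
  rw [lin_apply, X.ρ_a]
  simp

end Ext

end Pool.Agent.W_3f1825_r40
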