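import Pool.Agent.W_3f1825_r40.AvgF

set_option autoImplicit false

/-! A Følner sequence for `ℤ ^ r`. -/

open Filter Topology

namespace Pool.Agent.W_3f1825_r40

open scoped Classical in
/-- Subadditivity: `{x | x (a b) ∉ Φ} ⊆ {x | x a ∉ Φ} ∪ {x ∈ Φ | x a ∈ Φ, (x a) b ∉ Φ}`. -/
theorem fol_mul {A : Type} [Group A] (Φ : Finset A) (a b : A) :
    (Φ.filter (fun x => x * (a * b) ∉ Φ)).card ≤
      (Φ.filter (fun x => x * a ∉ Φ)).card + (Φ.filter (fun x => x * b ∉ Φ)).card := by
  have hsub : Φ.filter (fun x => x * (a * b) ∉ Φ) ⊆ Φ.filter (fun x => x * a ∉ Φ) ∪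
      (Φ.filter (fun x => x * b ∉ Φ)).image (fun x => x * a⁻¹) := by
    intro x hx
    rw [Finset.mem_filter] at hx
    rw [Finset.mem_union, Finset.mem_filter, Finset.mem_image]
    by_cases h : x * a ∈ Φ
    · refine Or.inr ⟨x * a, ?_, by group⟩
      rw [Finset.mem_filter, mul_assoc]
      exact ⟨h, hx.2⟩
    · exact Or.inl ⟨hx.1, h⟩
  refine (Finset.card_le_card hsub).trans ((Finset.card_union_le _ _).trans ?_)
  exact Nat.add_le_add_left Finset.card_image_le _

open scoped Classical in
/-- PROOF: `x ↦ x * a` is a bijection from `{x ∈ Φ | x * a ∈ Φ}` to `{x ∈ Φ | x * a⁻¹ ∈ Φ}`. -/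
theorem fol_inv {A : Type} [Group A] (Φ : Finset A) (a : A) :
    (Φ.filter (fun x => x * a⁻¹ ∉ Φ)).card = (Φ.filter (fun x => x * a ∉ Φ)).card := by
  have h1 := Finset.card_filter_add_card_filter_not (s := Φ) (fun x => x * a ∈ Φ)
  have h2 := Finset.card_filter_add_card_filter_not (s := Φ) (fun x => x * a⁻¹ ∈ Φ)
  have h3 : (Φ.filter (fun x => x * a ∈ Φ)).card = (Φ.filter (fun x => x * a⁻¹ ∈ Φ)).card := by
    refine Finset.card_nbij' (fun x => x * a) (fun x => x * a⁻¹) ?_ ?_ ?_ ?_
    · intro x hx
      have hx := Finset.mem_filter.1 (Finset.mem_coe.1 hx)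
      refine Finset.mem_coe.2 (Finset.mem_filter.2 ⟨hx.2, ?_⟩)
      rw [mul_inv_cancel_right]
      exact hx.1
    · intro x hx
      have hx := Finset.mem_filter.1 (Finset.mem_coe.1 hx)
      refine Finset.mem_coe.2 (Finset.mem_filter.2 ⟨hx.2, ?_⟩)
      rw [inv_mul_cancel_right]
      exact hx.1
    · intro x _
      exact mul_inv_cancel_right x a
    · intro x _
      exact inv_mul_cancel_right x a
  omega

/-- The box `[0, N] ^ r`. -/
noncomputable def box (r N : ℕ) : Finset (Multiplicative (Fin r → ℤ)) :=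
  (Fintype.piFinset fun _ : Fin r => Finset.Icc (0 : ℤ) N).map Multiplicative.ofAdd.toEmbedding

theorem mem_box {r N : ℕ} {x : Multiplicative (Fin r → ℤ)} :
    x ∈ box r N ↔ ∀ i, 0 ≤ Multiplicative.toAdd x i ∧ Multiplicative.toAdd x i ≤ N := by
  unfold box
  rw [Finset.mem_map]
  constructor
  · rintro ⟨y, hy, rfl⟩ i
    exact Finset.mem_Icc.1 (Fintype.mem_piFinset.1 hy i)
  · intro h
    exact ⟨Multiplicative.toAdd x, Fintype.mem_piFinset.2 fun i => Finset.mem_Icc.2 (h i), rfl⟩

theorem box_card (r N : ℕ) : (box r N).card = (N + 1) ^ r := by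
  unfold box
  rw [Finset.card_map, Fintype.card_piFinset]
  simp

open scoped Classical in
/-- PROOF: the elements are those with `i`-th coordinate `N`. -/
theorem box_single (r N : ℕ) (i : Fin r) :
    ((box r N).filter (fun x => x * Multiplicative.ofAdd (Pi.single i 1) ∉ box r N)).card *
      (N + 1) ≤ (box r N).card := by
  rw [← Finset.card_range (N + 1), ← Finset.card_product]
  have hfil : ∀ x ∈ (box r N).filter
      (fun x => x * Multiplicative.ofAdd (Pi.single i 1) ∉ box r N),
      x ∈ box r N ∧ Multiplicative.toAdd x i = N := by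
    intro x hx
    rw [Finset.mem_filter] at hx
    refine ⟨hx.1, ?_⟩
    by_contra hne
    apply hx.2
    have h1 := mem_box.1 hx.1
    rw [mem_box]
    intro j
    rw [toAdd_mul, toAdd_ofAdd, Pi.add_apply]
    by_cases hj : j = i
    · subst hj
      rw [Pi.single_eq_same]
      have := h1 j
      omega
    · rw [Pi.single_eq_of_ne hj, add_zero]
      exact h1 j
  refine Finset.card_le_card_of_injOn
    (fun q => Multiplicative.ofAdd (Function.update (Multiplicative.toAdd q.1) i (q.2 : ℤ))) ?_ ?_
  · rintro ⟨x, k⟩ hq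
    obtain ⟨hx, hk⟩ := Finset.mem_product.1 (Finset.mem_coe.1 hq)
    rw [Finset.mem_coe, mem_box]
    intro j
    rw [toAdd_ofAdd]
    by_cases hj : j = i
    · subst hj
      rw [Function.update_self]
      have := Finset.mem_range.1 hk
      show 0 ≤ (k : ℤ) ∧ (k : ℤ) ≤ N
      omega
    · rw [Function.update_of_ne hj]
      exact mem_box.1 (hfil x hx).1 j
  · rintro ⟨x, k⟩ hq ⟨x', k'⟩ hq' h
    obtain ⟨hx, hk⟩ := Finset.mem_product.1 (Finset.mem_coe.1 hq)
    obtain ⟨hx', hk'⟩ := Finset.mem_product.1 (Finset.mem_coe.1 hq')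
    have h1 : Function.update (Multiplicative.toAdd x) i (k : ℤ) =
        Function.update (Multiplicative.toAdd x') i (k' : ℤ) := Multiplicative.ofAdd.injective h
    have h2 := congrFun h1 i
    rw [Function.update_self, Function.update_self] at h2
    have h3 : x = x' := by
      apply Multiplicative.toAdd.injective
      funext j
      by_cases hj : j = i
      · subst hj
        rw [(hfil x hx).2, (hfil x' hx').2]
      · have h4 := congrFun h1 j
        rwa [Function.update_of_ne hj, Function.update_of_ne hj] at h4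
    rw [h3, Nat.cast_injective h2]

open scoped Classical in
/-- the number of elements moved out of `Φ` by `a` -/
noncomputable def FolZ_c {A : Type} [Group A] (Φ : Finset A) (a : A) : ℕ :=
  (Φ.filter (fun x => x * a ∉ Φ)).card

theorem FolZ_c_mul {A : Type} [Group A] (Φ : Finset A) (a b : A) :
    FolZ_c Φ (a * b) ≤ FolZ_c Φ a + FolZ_c Φ b := fol_mul Φ a b

theorem FolZ_c_inv {A : Type} [Group A] (Φ : Finset A) (a : A) :
    FolZ_c Φ a⁻¹ = FolZ_c Φ a := fol_inv Φ a

theorem FolZ_c_one {A : Type} [Group A] (Φ : Finset A) : FolZ_c Φ 1 = 0 := by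
  classical
  unfold FolZ_c
  rw [Finset.card_eq_zero, Finset.filter_eq_empty_iff]
  intro x hx
  rw [mul_one, not_not]
  exact hx

theorem FolZ_c_single (r N : ℕ) (i : Fin r) :
    FolZ_c (box r N) (Multiplicative.ofAdd (Pi.single i 1)) * (N + 1) ≤ (box r N).card := by
  have h := box_single r N i
  unfold FolZ_c
  convert h

/-- PROOF: the set of `a` for which the limit is `0` is a subgroup (`fol_mul`, `fol_inv`); it contains
the unit vectors by `box_single` (the ratio is at most `1 / (N + 1)`); the unit vectors generate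
(`a = ∑ i, a i • Pi.single i 1`). -/
theorem exists_foln (r : ℕ) : Nonempty (Foln (Multiplicative (Fin r → ℤ))) := by
  have hpos : ∀ N, 0 < (box r N).card := fun N => by rw [box_card]; positivity
  obtain ⟨S, hS⟩ : ∃ S : Subgroup (Multiplicative (Fin r → ℤ)), ∀ a, a ∈ S ↔
      Tendsto (fun N => (FolZ_c (box r N) a : ℝ) / (box r N).card) atTop (𝓝 0) := by
    refine ⟨⟨⟨⟨{a | Tendsto (fun N => (FolZ_c (box r N) a : ℝ) / (box r N).card) atTop (𝓝 0)},
      ?_⟩, ?_⟩, ?_⟩, fun a => Iff.rfl⟩
    · intro a b ha hb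
      have h := Filter.Tendsto.add (show Tendsto _ _ _ from ha) (show Tendsto _ _ _ from hb)
      rw [add_zero] at h
      refine squeeze_zero (fun N => by positivity) (fun N => ?_) h
      rw [← add_div]
      refine div_le_div_of_nonneg_right ?_ (Nat.cast_nonneg _)
      rw [← Nat.cast_add]
      exact Nat.cast_le.2 (FolZ_c_mul (box r N) a b)
    · show Tendsto _ _ _
      refine tendsto_const_nhds.congr fun N => ?_
      rw [FolZ_c_one]
      simp
    · intro a ha
      refine Filter.Tendsto.congr (fun N => ?_) (show Tendsto _ _ _ from ha)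
      rw [FolZ_c_inv]
  have hunit : ∀ i : Fin r, (Multiplicative.ofAdd (Pi.single i 1) : Multiplicative (Fin r → ℤ)) ∈
      S := by
    intro i
    rw [hS]
    refine squeeze_zero (fun N => by positivity) (fun N => ?_)
      (tendsto_one_div_add_atTop_nhds_zero_nat (𝕜 := ℝ))
    rw [div_le_div_iff₀ (by exact_mod_cast hpos N) (by positivity), one_mul]
    have h1 : ((FolZ_c (box r N) (Multiplicative.ofAdd (Pi.single i 1)) * (N + 1) : ℕ) : ℝ) ≤
        ((box r N).card : ℝ) := Nat.cast_le.2 (FolZ_c_single r N i)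
    rw [Nat.cast_mul, Nat.cast_add, Nat.cast_one] at h1
    exact h1
  have htop : ∀ a, a ∈ S := by
    intro a
    have h1 : a = ∏ i, (Multiplicative.ofAdd (Pi.single i 1) : Multiplicative (Fin r → ℤ)) ^
        (Multiplicative.toAdd a i) := by
      apply Multiplicative.toAdd.injective
      rw [toAdd_prod]
      funext j
      rw [Finset.sum_apply]
      simp only [toAdd_zpow, toAdd_ofAdd, Pi.smul_apply]
      rw [Finset.sum_eq_single j]
      · simp
      · intro i _ hij
        rw [Pi.single_eq_of_ne hij.symm, smul_zero]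
      · intro h
        exact absurd (Finset.mem_univ j) h
    rw [h1]
    exact Subgroup.prod_mem _ fun i _ => Subgroup.zpow_mem _ (hunit i) _
  exact ⟨⟨box r, fun N => Finset.card_pos.1 (hpos N), fun a => (hS a).1 (htop a)⟩⟩

end Pool.Agent.W_3f1825_r40
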