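import Pool.Agent.W_3f1825_r40.IdxP

set_option autoImplicit false

/-! Invariants of a free action of a cyclic group of order `p` on the coinvariants. -/

namespace Pool.Agent.W_3f1825_r40

open Pool.Agent.W_3f1825_h40

theorem FreeP_inj {Y : Type} (τ : Equiv.Perm Y) {p : ℕ}
    (hfree : ∀ (i : ℕ) (y : Y), 0 < i → i < p → (τ ^ i) y ≠ y) {i j : ℕ} (hij : i < j) (hj : j < p)
    (y : Y) : (τ ^ i) y ≠ (τ ^ j) y := by
  intro h
  have h1 : (τ ^ j) y = (τ ^ i) ((τ ^ (j - i)) y) := by
    rw [← Equiv.Perm.mul_apply, ← pow_add]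
    congr 2
    omega
  rw [h1] at h
  exact hfree (j - i) y (by omega) (by omega) ((τ ^ i).injective h).symm

/-- Fixed vectors of a permutation module of a free action of a cyclic group of order `p` are
norms. PROOF: `τ` is a permutation of `Y` with `τ ^ p = 1` and without fixed points of `τ ^ i`,
`0 < i < p`. The coefficients of `c` are constant on the orbits; choose a set `Y₀` of
representatives of the orbits (each orbit `{y, τ y, …, τ ^ (p - 1) y}` has exactly `p` elements)
and let `b` be the restriction of `c` to `Y₀`. -/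
theorem exists_norm {Y : Type} (R : Type) [CommRing R] (τ : Equiv.Perm Y) {p : ℕ} (hp : 1 ≤ p)
    (hτ : τ ^ p = 1) (hfree : ∀ (i : ℕ) (y : Y), 0 < i → i < p → (τ ^ i) y ≠ y) (c : Y →₀ R)
    (hc : Finsupp.lmapDomain R R τ c = c) :
    ∃ b : Y →₀ R, c = ∑ i ∈ Finset.range p, Finsupp.lmapDomain R R (τ ^ i : Equiv.Perm Y) b := by
  classical
  obtain ⟨rep, hrs, hrep⟩ : ∃ rep : Y → Y, (∀ y, τ.SameCycle (rep y) y) ∧
      ∀ y y', τ.SameCycle y y' → rep y = rep y' :=
    ⟨fun y => Quotient.out (Quotient.mk (Equiv.Perm.SameCycle.setoid τ) y),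
      fun y => Quotient.mk_out (s := Equiv.Perm.SameCycle.setoid τ) y,
      fun y y' h => congrArg Quotient.out (Quotient.sound h)⟩
  have hex : ∀ y, ∃ i, i < p ∧ (τ ^ i) (rep y) = y := by
    intro y
    obtain ⟨j, hj⟩ := hrs y
    rw [zpow_eq_zpow_emod' j hτ] at hj
    have h0 : 0 ≤ j % (p : ℤ) := Int.emod_nonneg _ (by omega)
    have h1 : j % (p : ℤ) < p := Int.emod_lt_of_pos _ (by omega)
    refine ⟨(j % (p : ℤ)).toNat, by omega, ?_⟩
    rw [← zpow_natCast, Int.toNat_of_nonneg h0]
    exact hj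
  have hcτ : ∀ z, c (τ z) = c z := by
    intro z
    conv_lhs => rw [← hc]
    exact Finsupp.mapDomain_apply τ.injective c z
  have hc1 : ∀ (i : ℕ) (y : Y), c ((τ ^ i) y) = c y := by
    intro i
    induction i with
    | zero => intro y; rfl
    | succ i ih =>
      intro y
      rw [pow_succ', Equiv.Perm.mul_apply, hcτ, ih]
  refine ⟨c.filter (fun y => rep y = y), ?_⟩
  ext y
  rw [Finsupp.finsetSum_apply]
  have h2 : ∀ i : ℕ, (Finsupp.lmapDomain R R (τ ^ i : Equiv.Perm Y)
      (c.filter (fun y => rep y = y))) y =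
      if rep ((τ ^ i).symm y) = (τ ^ i).symm y then c y else 0 := by
    intro i
    rw [Finsupp.lmapDomain_apply, Finsupp.mapDomain_equiv_apply, Finsupp.filter_apply]
    have h3 : c ((τ ^ i).symm y) = c y := by
      have h4 := hc1 i ((τ ^ i).symm y)
      rw [Equiv.apply_symm_apply] at h4
      exact h4.symm
    rw [h3]
  simp_rw [h2]
  obtain ⟨i, hi, hiy⟩ := hex y
  have h5 : (τ ^ i).symm y = rep y := by
    rw [Equiv.symm_apply_eq]
    exact hiy.symm
  rw [Finset.sum_eq_single i]
  · rw [if_pos]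
    rw [h5]
    exact hrep _ _ (hrs y)
  · intro j hj hji
    rw [if_neg]
    intro h3
    have h4 : τ.SameCycle ((τ ^ j).symm y) y := by
      refine ⟨(j : ℤ), ?_⟩
      rw [zpow_natCast, Equiv.apply_symm_apply]
    rw [hrep _ _ h4] at h3
    have h6 : (τ ^ j) (rep y) = y := by
      rw [h3, Equiv.apply_symm_apply]
    rw [Finset.mem_range] at hj
    rcases lt_or_gt_of_ne hji with h7 | h7
    · exact FreeP_inj τ hfree h7 hi (rep y) (h6.trans hiy.symm)
    · exact FreeP_inj τ hfree h7 hj (rep y) (hiy.trans h6.symm)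
  · intro h
    exact absurd (Finset.mem_range.2 hi) h

theorem FreeP_q {X Y : Type} (R : Type) [CommRing R] (G : Type) [Group G] [MulAction G X] (q : X → Y)
    (hq : ∀ (g : G) (x : X), q (g • x) = q x) {c : X →₀ R} (hc : c ∈ Co (perm R G X)) :
    Finsupp.lmapDomain R R q c = 0 := by
  have key : ∀ (g : G) (v : X →₀ R), Finsupp.lmapDomain R R q (perm R G X g v) =
      Finsupp.lmapDomain R R q v := by
    intro g v
    induction v using Finsupp.induction_linear with
    | zero => simp
    | add a b ha hb => simp only [map_add, ha, hb]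
    | single x r =>
      rw [perm_single, Finsupp.lmapDomain_apply, Finsupp.lmapDomain_apply,
        Finsupp.mapDomain_single, Finsupp.mapDomain_single, hq]
  unfold Co at hc
  induction hc using Submodule.span_induction with
  | mem x hx =>
    obtain ⟨g, v, rfl⟩ := hx
    rw [map_sub, key, sub_self]
  | zero => rw [map_zero]
  | add a b _ _ ha hb => rw [map_add, ha, hb, add_zero]
  | smul a x _ hx => rw [map_smul, hx, smul_zero]

variable {Γ : Type} [Group Γ] {p : ℕ} {H H' : Subgroup Γ} {t : Γ}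

/-- PROOF: let `Y` be the set of orbits of `H` on `X = (Fin (m + 1) → Γ)`, `q : X → Y`. Left
multiplication by `t` induces a permutation `τ` of `Y` (`norm`, `norm'`), `τ ^ p = 1` (`pow`), and `τ ^ i`
has no fixed points for `0 < i < p` (if `t ^ i * x = h * x` then `t ^ i = h ∈ H`, so `p ∣ i`).
`Co (perm R H X)` is the kernel of `lmapDomain q` (`mem_Co_perm`). Apply `exists_norm` to
`lmapDomain q c` and lift `b` to `X`. -/
theorem exists_norm_Co (R : Type) [CommRing R] (h : IdxP p H H' t) (hp : p.Prime) (m : ℕ)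
    (c : (Fin (m + 1) → Γ) →₀ R) (hc : tT R t m c - c ∈ Co (perm R H (Fin (m + 1) → Γ))) :
    ∃ b, c - ∑ i ∈ Finset.range p, ((tT R t m) ^ i) b ∈ Co (perm R H (Fin (m + 1) → Γ)) := by
  classical
  -- the set of orbits
  let q : (Fin (m + 1) → Γ) → MulAction.orbitRel.Quotient H (Fin (m + 1) → Γ) :=
    Quotient.mk (MulAction.orbitRel H (Fin (m + 1) → Γ))
  have hq : ∀ x x', q x = q x' → ∃ g : H, x' = g • x := by
    intro x x' hxx
    obtain ⟨g, hg⟩ := MulAction.orbitRel_apply.1 (Quotient.exact hxx.symm)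
    exact ⟨g, hg.symm⟩
  have hqs : ∀ (g : H) (x : Fin (m + 1) → Γ), q (g • x) = q x := by
    intro g x
    exact Quotient.sound (MulAction.orbitRel_apply.2 ⟨g, rfl⟩)
  have hsurj : ∀ y, q (Quotient.out y) = y := fun y => Quotient.out_eq y
  let τ : Equiv.Perm (MulAction.orbitRel.Quotient H (Fin (m + 1) → Γ)) :=
    Quotient.congr (MulAction.toPerm t : Equiv.Perm (Fin (m + 1) → Γ)) (by
      intro a b
      constructor
      · intro hab
        obtain ⟨g, hg⟩ := MulAction.orbitRel_apply.1 hab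
        refine MulAction.orbitRel_apply.2 ⟨⟨t * g * t⁻¹, h.norm g g.2⟩, ?_⟩
        funext i
        have h1 : (g : Γ) * b i = a i := congrFun hg i
        show t * g * t⁻¹ * (t * b i) = t * a i
        rw [← h1]
        group
      · intro hab
        obtain ⟨g, hg⟩ := MulAction.orbitRel_apply.1 hab
        refine MulAction.orbitRel_apply.2 ⟨⟨t⁻¹ * g * t, h.norm' g g.2⟩, ?_⟩
        funext i
        have h1 : (g : Γ) * (t * b i) = t * a i := congrFun hg i
        show t⁻¹ * g * t * b i = a i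
        rw [mul_assoc, mul_assoc, h1, inv_mul_cancel_left])
  have hτ0 : ∀ x, τ (q x) = q (t • x) := fun x => rfl
  have hτi : ∀ (i : ℕ) (x : Fin (m + 1) → Γ), (τ ^ i) (q x) = q (t ^ i • x) := by
    intro i
    induction i with
    | zero => intro x; rw [pow_zero, pow_zero, one_smul]; rfl
    | succ i ih => intro x; rw [pow_succ', Equiv.Perm.mul_apply, ih, hτ0, pow_succ', mul_smul]
  have hτp : τ ^ p = 1 := by
    ext y
    obtain ⟨x, rfl⟩ : ∃ x, q x = y := ⟨_, hsurj y⟩
    rw [hτi]
    exact hqs ⟨t ^ p, h.pow⟩ x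
  have hfree : ∀ (i : ℕ) (y : MulAction.orbitRel.Quotient H (Fin (m + 1) → Γ)), 0 < i → i < p →
      (τ ^ i) y ≠ y := by
    intro i y hi0 hip hy
    obtain ⟨x, rfl⟩ : ∃ x, q x = y := ⟨_, hsurj y⟩
    rw [hτi] at hy
    obtain ⟨g, hg⟩ := hq _ _ hy.symm
    have h1 : t ^ i * x 0 = (g : Γ) * x 0 := congrFun hg 0
    have h2 : t ^ i = g := mul_right_cancel h1
    have h3 := h.dvd hp (k := i) (by rw [h2]; exact g.2)
    exact absurd (Nat.le_of_dvd hi0 h3) (by omega)
  have hτq : ∀ v : (Fin (m + 1) → Γ) →₀ R, Finsupp.lmapDomain R R q (tT R t m v) =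
      Finsupp.lmapDomain R R τ (Finsupp.lmapDomain R R q v) := by
    intro v
    induction v using Finsupp.induction_linear with
    | zero => simp
    | add a b ha hb => simp only [map_add, ha, hb]
    | single x r =>
      unfold tT
      rw [tP_single, Finsupp.lmapDomain_apply, Finsupp.lmapDomain_apply, Finsupp.lmapDomain_apply,
        Finsupp.mapDomain_single, Finsupp.mapDomain_single, Finsupp.mapDomain_single, hτ0]
      rfl
  have hτqi : ∀ (i : ℕ) (v : (Fin (m + 1) → Γ) →₀ R),
      Finsupp.lmapDomain R R q (((tT R t m) ^ i) v) =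
      Finsupp.lmapDomain R R (τ ^ i : Equiv.Perm _) (Finsupp.lmapDomain R R q v) := by
    intro i
    induction i with
    | zero =>
      intro v
      rw [pow_zero, pow_zero, Module.End.one_apply, Finsupp.lmapDomain_apply,
        Finsupp.lmapDomain_apply]
      exact (Finsupp.mapDomain_id).symm
    | succ i ih =>
      intro v
      rw [pow_succ', Module.End.mul_apply, hτq, ih, pow_succ', Finsupp.lmapDomain_apply,
        Finsupp.lmapDomain_apply, Finsupp.lmapDomain_apply, ← Finsupp.mapDomain_comp]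
      rfl
  have hfix : Finsupp.lmapDomain R R τ (Finsupp.lmapDomain R R q c) =
      Finsupp.lmapDomain R R q c := by
    rw [← hτq]
    have h1 := FreeP_q R H q hqs hc
    rw [map_sub] at h1
    exact sub_eq_zero.1 h1
  obtain ⟨b', hb'⟩ := exists_norm R τ hp.one_le hτp hfree _ hfix
  refine ⟨Finsupp.lmapDomain R R Quotient.out b', mem_Co_perm q hq _ ?_⟩
  have h1 : Finsupp.lmapDomain R R q (Finsupp.lmapDomain R R Quotient.out b') = b' := by
    rw [Finsupp.lmapDomain_apply, Finsupp.lmapDomain_apply, ← Finsupp.mapDomain_comp]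
    have h2 : q ∘ Quotient.out = id := by
      funext y
      exact hsurj y
    rw [h2, Finsupp.mapDomain_id]
  rw [map_sub, map_sum]
  simp_rw [hτqi, h1]
  rw [← hb', sub_self]

theorem FreeP_poly {p : ℕ} [Fact p.Prime] :
    ((Polynomial.X : Polynomial (ZMod p)) - 1) ^ p = Polynomial.X ^ p - 1 := by
  rw [sub_pow_char, one_pow]

/-- In characteristic `p`, `(T - 1) ^ (p - 1) = 1 + T + … + T ^ (p - 1)` for a linear map `T`.
PROOF: a polynomial identity over `ZMod p`: `(X - 1) * (X - 1) ^ (p - 1) = (X - 1) ^ p = X ^ p - 1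
= (X - 1) * (1 + X + … + X ^ (p - 1))` (`sub_pow_char`, `geom_sum`), cancel `X - 1`, and evaluate at
`T` (`Polynomial.aeval`). -/
theorem pow_sub_one {V : Type} {p : ℕ} [Fact p.Prime] [AddCommGroup V] [Module (ZMod p) V]
    (T : V →ₗ[ZMod p] V) :
    (T - LinearMap.id) ^ (p - 1) = ∑ i ∈ Finset.range p, T ^ i := by
  have hp : 1 ≤ p := (Fact.out : p.Prime).one_le
  have h1 : ((Polynomial.X : Polynomial (ZMod p)) - 1) ^ (p - 1) =
      ∑ i ∈ Finset.range p, Polynomial.X ^ i := by
    have h2 : ((Polynomial.X : Polynomial (ZMod p)) - 1) ≠ 0 := by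
      have h3 := Polynomial.X_sub_C_ne_zero (1 : ZMod p)
      rwa [Polynomial.C_1] at h3
    apply mul_right_cancel₀ h2
    rw [← pow_succ, Nat.sub_add_cancel hp, FreeP_poly, geom_sum_mul]
  have h4 := congrArg (Polynomial.aeval T) h1
  rw [map_pow, map_sub, Polynomial.aeval_X, map_one, map_sum] at h4
  simp_rw [map_pow, Polynomial.aeval_X] at h4
  exact h4

theorem pow_sub_one' {V : Type} {p : ℕ} [Fact p.Prime] [AddCommGroup V] [Module (ZMod p) V]
    (T : V →ₗ[ZMod p] V) : (T - LinearMap.id) ^ p = T ^ p - LinearMap.id := by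
  have h4 := congrArg (Polynomial.aeval T) (FreeP_poly (p := p))
  rw [map_pow, map_sub, Polynomial.aeval_X, map_one, map_sub, map_pow, Polynomial.aeval_X,
    map_one] at h4
  exact h4

end Pool.Agent.W_3f1825_r40
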