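import Pool.Agent.W_3f1825_r40.GoodE

set_option autoImplicit false

/-! Good data in coordinates: torsion freeness for primes different from `p`; case (a). -/

namespace Pool.Agent.W_3f1825_r40

variable {G B : Type} [Group G] [Group B] {r : ℕ} (X : Ext G B r)

namespace Ext

/-- PROOF: induction on `q`; `ρ` of the elements of `ℤ ^ r` is trivial. -/
theorem pow_a_mul (v : Fin r → ℤ) (g : G) (q : ℕ) :
    (X.a v * g) ^ q = X.a (∑ i ∈ Finset.range q, (X.ρ (g ^ i)).mulVec v) * g ^ q := by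
  induction q with
  | zero => rw [pow_zero, pow_zero, Finset.sum_range_zero, X.a_zero, mul_one]
  | succ q ih =>
    have h := X.conj_a (g ^ q) v
    rw [pow_succ, ih, Finset.sum_range_succ, X.a_add, ← h, pow_succ g q]
    group

theorem ρ_a_mul (v : Fin r → ℤ) (g : G) : X.ρ (X.a v * g) = X.ρ g := by
  rw [map_mul, X.ρ_a, one_mul]

/-- PROOF: `g` commutes with `g ^ q = X.a v`; `conj_a`. -/
theorem mulVec_of_pow {g : G} {q : ℕ} {v : Fin r → ℤ} (h : g ^ q = X.a v) :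
    (X.ρ g).mulVec v = v := by
  apply X.a_inj
  rw [← X.conj_a, ← h]
  group

end Ext

/-- Condition (TF) for `q ≠ p`. PROOF: let `p ^ k • u = cv ℚ w₀` and `a p ^ k + b q = 1`
(`IsCoprime`). `ρ g v = v`, so `∑ ρ (g ^ i) v = q v`. Multiply the hypothesis by `a p ^ k`:
`a p ^ k v + ∑ ρ (g ^ i) (a w₀) = 0` (as integral vectors, `cv_inj`, `lin_cv`), so
`v = ∑ ρ (g ^ i) w` with `w = b v - a w₀`. Then `(X.a (-w) * g) ^ q = X.a (-v) * g ^ q = 1`
(`pow_a_mul`), so `g = X.a w`. -/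
theorem tf_ne (htf : TorFree G) {p q : ℕ} (hp : p.Prime) (hq : q.Prime) (hpq : q ≠ p) (g : G)
    {u : Fin r → ℚ} (hu : ∃ (k : ℕ) (w : Fin r → ℤ), p ^ k • u = cv ℚ w) (v : Fin r → ℤ)
    (h1 : g ^ q = X.a v) (h2 : cv ℚ v + ∑ i ∈ Finset.range q, X.lin ℚ (g ^ i) u = 0) :
    ∃ w, g = X.a w := by
  obtain ⟨k, w0, hk⟩ := hu
  have hcop : IsCoprime ((p ^ k : ℕ) : ℤ) (q : ℤ) := by
    rw [Nat.isCoprime_iff_coprime]
    exact Nat.Coprime.pow_left k ((Nat.coprime_primes hp hq).2 (Ne.symm hpq))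
  obtain ⟨a, b, hab⟩ := hcop
  have hv : ∀ i : ℕ, (X.ρ (g ^ i)).mulVec v = v := by
    intro i
    induction i with
    | zero => rw [pow_zero, map_one, Matrix.one_mulVec]
    | succ i ih =>
      rw [pow_succ, map_mul, ← Matrix.mulVec_mulVec, X.mulVec_of_pow h1, ih]
  have h3 : (p ^ k) • v + ∑ i ∈ Finset.range q, (X.ρ (g ^ i)).mulVec w0 = 0 := by
    apply cv_inj (K := ℚ)
    have h4 : ∀ s : Finset ℕ, cv ℚ (∑ i ∈ s, (X.ρ (g ^ i)).mulVec w0) =
        (p ^ k) • ∑ i ∈ s, X.lin ℚ (g ^ i) u := by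
      intro s
      induction s using Finset.induction_on with
      | empty => rw [Finset.sum_empty, Finset.sum_empty, smul_zero, cv_zero]
      | insert j s hj ih =>
        rw [Finset.sum_insert hj, Finset.sum_insert hj, cv_add, ih, smul_add, ← X.lin_cv, ← hk,
          map_nsmul]
    rw [cv_add, cv_nsmul, h4, ← smul_add, h2, smul_zero, cv_zero]
  have h5 : ∑ i ∈ Finset.range q, (X.ρ (g ^ i)).mulVec v = q • v := by
    rw [Finset.sum_congr rfl fun i _ => hv i, Finset.sum_const, Finset.card_range]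
  have h6 : ∑ i ∈ Finset.range q, (X.ρ (g ^ i)).mulVec (-(b • v - a • w0)) = -v := by
    have e1 : ∀ i : ℕ, (X.ρ (g ^ i)).mulVec (-(b • v - a • w0)) =
        a • (X.ρ (g ^ i)).mulVec w0 - b • (X.ρ (g ^ i)).mulVec v := by
      intro i
      rw [Matrix.mulVec_neg, Matrix.mulVec_sub, Matrix.mulVec_smul, Matrix.mulVec_smul, neg_sub]
    rw [Finset.sum_congr rfl fun i _ => e1 i, Finset.sum_sub_distrib, ← Finset.smul_sum,
      ← Finset.smul_sum, h5]
    have e2 : ∑ i ∈ Finset.range q, (X.ρ (g ^ i)).mulVec w0 = -((p ^ k) • v) :=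
      (neg_eq_of_add_eq_zero_right h3).symm
    rw [e2]
    funext i
    have e3 : (a * ((p ^ k : ℕ) : ℤ) + b * (q : ℤ)) * v i = v i := by rw [hab, one_mul]
    simp only [Pi.sub_apply, Pi.smul_apply, Pi.neg_apply, smul_eq_mul, nsmul_eq_mul, Pi.mul_apply,
      Pi.natCast_apply]
    linear_combination -e3
  refine ⟨b • v - a • w0, ?_⟩
  have h7 : (X.a (-(b • v - a • w0)) * g) ^ q = 1 := by
    rw [X.pow_a_mul, h6, h1, ← X.a_add, neg_add_cancel, X.a_zero]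
  have h8 := htf _ q hq.ne_zero h7
  rw [X.a_neg, inv_mul_eq_one] at h8
  exact h8.symm

/-- `ℤ[1/p] ^ r`. -/
def Zinv (p r : ℕ) : AddSubgroup (Fin r → ℚ) where
  carrier := {u | ∃ (k : ℕ) (v : Fin r → ℤ), p ^ k • u = cv ℚ v}
  zero_mem' := ⟨0, 0, by rw [smul_zero, cv_zero]⟩
  add_mem' := by
    rintro a b ⟨k, v, hk⟩ ⟨l, w, hl⟩
    refine ⟨k + l, p ^ l • v + p ^ k • w, ?_⟩
    rw [cv_add, cv_nsmul, cv_nsmul, ← hk, ← hl, smul_add, smul_smul, smul_smul, pow_add,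
      mul_comm (p ^ l)]
  neg_mem' := by
    rintro a ⟨k, v, hk⟩
    exact ⟨k, -v, by rw [smul_neg, hk, cv_neg]⟩

theorem mem_Zinv {p : ℕ} {u : Fin r → ℚ} :
    u ∈ Zinv p r ↔ ∃ (k : ℕ) (v : Fin r → ℤ), p ^ k • u = cv ℚ v := Iff.rfl

/-- Case (a): `A_∞ = ℤ[1/p] ^ r`. PROOF: `unb`: the vector with all coordinates `1 / p ^ (k + 1)`
(`r ≥ 1`). `tf`: for `q = p` the hypothesis `hP`, for `q ≠ p` `tf_ne`. -/
theorem good_inv (htf : TorFree G) (hr : 1 ≤ r) {p : ℕ} (hp : p.Prime)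
    (hmod : ∀ g i j, (p : ℤ) ∣ (X.ρ g - 1) i j)
    (hP : ∀ (g : G) (v : Fin r → ℤ), g ^ p = X.a v → ∃ w, g = X.a w) :
    GoodData X p (Zinv p r) := by
  refine ⟨hp, fun v => ⟨0, v, by rw [pow_zero, one_smul]⟩, fun u hu => hu, ?_, ?_, hmod, ?_⟩
  · rintro g u ⟨k, v, hk⟩
    exact ⟨k, (X.ρ g).mulVec v, by rw [← X.lin_cv, ← hk, map_nsmul]⟩
  · intro k
    have hp0 : (p : ℚ) ≠ 0 := by exact_mod_cast hp.ne_zero
    refine ⟨fun _ => 1 / (p : ℚ) ^ (k + 1), ⟨k + 1, fun _ => 1, ?_⟩, ?_⟩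
    · funext i
      simp only [Pi.smul_apply, nsmul_eq_mul, cv]
      push_cast
      rw [mul_one_div_cancel (pow_ne_zero _ hp0)]
    · intro v hv
      have h := congrFun hv ⟨0, hr⟩
      simp only [Pi.smul_apply, nsmul_eq_mul, cv] at h
      push_cast at h
      have h2 : (p : ℚ) * (v ⟨0, hr⟩ : ℚ) = 1 := by
        rw [← h, pow_succ]
        field_simp
      have h3 : (p : ℤ) * v ⟨0, hr⟩ = 1 := by exact_mod_cast h2
      have h4 : (p : ℤ) ∣ 1 := ⟨_, h3.symm⟩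
      have h5 : p ∣ 1 := by exact_mod_cast h4
      exact hp.one_lt.ne' (Nat.dvd_one.1 h5)
  · intro q hq g u hu v e1 e2
    by_cases hqp : q = p
    · subst hqp
      exact hP g v e1
    · exact tf_ne X htf hp hq hqp g hu v e1 e2

end Pool.Agent.W_3f1825_r40
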