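import Pool.Agent.W_3f1825_r40.GExt
import Pool.Agent.W_3f1825_r40.GTf

set_option autoImplicit false

/-! Case (a). -/

namespace Pool.Agent.W_3f1825_r40

/-- PROOF: let `H`, `A`, `p` be given and `X` the extension of `exists_ext` for `H`. Let
`K = X.cong p`, of finite index in `H`; `good_inv` for `X.res K`. `VirtGood.of_sub`. -/
theorem virtGood_a {Γ : Type} [Group Γ] (htf : TorFree Γ) (h : VirtAbNormal Γ) : VirtGood Γ := by
  obtain ⟨H, hH, A, hA, hA1, hfg, hab, p, hp, hP⟩ := h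
  have htfH : TorFree H := htf.sub H
  obtain ⟨r, X, hX⟩ := exists_ext htfH A hab hfg
  obtain ⟨a, ha1⟩ := Subgroup.ne_bot_iff_exists_ne_one.1 hA1
  have hr : 1 ≤ r := X.one_le (g := (a : H)) (fun e => ha1 (Subtype.ext e)) ((hX _).1 a.2)
  have hK := X.a_mem_cong p
  refine VirtGood.of_sub H ⟨X.cong p, X.cong_finiteIndex hp.ne_zero, _, _, r,
    X.res (X.cong p) hK, p, Zinv p r, good_inv _ (htfH.sub _) hr hp ?_ ?_⟩
  · intro g
    exact X.mem_cong.1 g.2
  · intro g v e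
    have e' : (g : H) ^ p = X.a v := congrArg Subtype.val e
    obtain ⟨w, hw⟩ := (hX _).1 (hP (g : H) (by rw [e']; exact (hX _).2 ⟨v, rfl⟩))
    exact ⟨w, Subtype.ext hw⟩

end Pool.Agent.W_3f1825_r40
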