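import Pool.Agent.W_3f1825_h40.GrpDef

set_option autoImplicit false

/-! Group theory: conditions on the fundamental group. -/

namespace Pool.Agent.W_3f1825_r40

/-- Some subgroup `H` of finite index has a non-trivial finitely generated abelian normal subgroup
`A` such that for some prime `p` the group `H ⧸ A` has no element of order `p`. -/
def VirtAbNormal (Γ : Type) [Group Γ] : Prop :=
  ∃ H : Subgroup Γ, H.FiniteIndex ∧ ∃ A : Subgroup H, A.Normal ∧ A ≠ ⊥ ∧ A.FG ∧
    (∀ a ∈ A, ∀ b ∈ A, a * b = b * a) ∧ ∃ p : ℕ, p.Prime ∧ ∀ h : H, h ^ p ∈ A → h ∈ A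

/-- Virtually polycyclic groups: some subgroup of finite index is solvable, and all subgroups are
finitely generated. -/
def VirtPolycyclic (P : Type) [Group P] : Prop :=
  (∃ S : Subgroup P, S.FiniteIndex ∧ Group.IsSolvable S) ∧ ∀ Q : Subgroup P, Q.FG

/-- Some subgroup of finite index has a non-trivial normal subgroup which is virtually
polycyclic. -/
def VirtPolyNormal (Γ : Type) [Group Γ] : Prop :=
  ∃ H : Subgroup Γ, H.FiniteIndex ∧ ∃ P : Subgroup H, P.Normal ∧ P ≠ ⊥ ∧ VirtPolycyclic P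

/-- Some subgroup `H` of finite index has a non-trivial normal subgroup `P` which is virtually
polycyclic and which is separated in `H`: every non-trivial element of `P` is outside of some
subgroup of finite index of `H`. -/
def VirtPolySep (Γ : Type) [Group Γ] : Prop :=
  ∃ H : Subgroup Γ, H.FiniteIndex ∧ ∃ P : Subgroup H, P.Normal ∧ P ≠ ⊥ ∧ VirtPolycyclic P ∧
    ∀ g ∈ P, g ≠ 1 → ∃ K : Subgroup H, K.FiniteIndex ∧ g ∉ K

/-- Some subgroup `H` of finite index has a non-trivial virtually polycyclic normal subgroup `P`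
such that for infinitely many primes `p` the group `H ⧸ P` has no element of order `p`; if `P` is
abelian then one prime `p` is enough. -/
def VirtPolyNoTorsion (Γ : Type) [Group Γ] : Prop :=
  ∃ H : Subgroup Γ, H.FiniteIndex ∧ ∃ P : Subgroup H, P.Normal ∧ P ≠ ⊥ ∧ VirtPolycyclic P ∧
    ((∀ N : ℕ, ∃ p, N < p ∧ p.Prime ∧ ∀ h : H, h ^ p ∈ P → h ∈ P) ∨
      ((∀ a ∈ P, ∀ b ∈ P, a * b = b * a) ∧ ∃ p : ℕ, p.Prime ∧ ∀ h : H, h ^ p ∈ P → h ∈ P))

end Pool.Agent.W_3f1825_r40
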