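import Pool.Agent.W_3f1825_r40.GoodE
import Pool.Agent.W_3f1825_r40.GDef

set_option autoImplicit false

/-! Extensions from abelian normal subgroups; restriction; congruence subgroups. -/

namespace Pool.Agent.W_3f1825_r40

/-- PROOF: `Additive A` (a commutative group by `hab`) is a finitely generated torsion free
`ℤ`-module, so it has a finite basis `e` (`Module.finBasis`). `α v = ∑ i, v i • e i`; `ρ g` is the
matrix (`LinearMap.toMatrix e e`) of the conjugation by `g`. -/
theorem exists_ext {G : Type} [Group G] (htf : TorFree G) (A : Subgroup G) [A.Normal]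
    (hab : ∀ a ∈ A, ∀ b ∈ A, a * b = b * a) (hfg : A.FG) :
    ∃ (r : ℕ) (X : Ext G (G ⧸ A) r), ∀ g, g ∈ A ↔ ∃ v, g = X.a v := by
  classical
  let iC : CommGroup A :=
    { (inferInstance : Group A) with mul_comm := fun a b => Subtype.ext (hab a a.2 b b.2) }
  have h0 : Group.FG A := (Group.fg_iff_subgroup_fg A).2 hfg
  have h1 : AddGroup.FG (Additive A) := inferInstance
  have h2 : Module.Finite ℤ (Additive A) := Module.Finite.iff_addGroup_fg.2 h1
  have h3 : IsMulTorsionFree A := by
    refine ⟨fun n hn a b e => ?_⟩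
    have e' : a ^ n = b ^ n := e
    have h4 : (a * b⁻¹) ^ n = 1 := by rw [mul_pow, inv_pow, e', mul_inv_cancel]
    have h5 : ((a * b⁻¹ : A) : G) = 1 := htf _ n hn (by rw [← Subgroup.coe_pow, h4]; rfl)
    have h6 : a * b⁻¹ = 1 := Subtype.ext h5
    exact mul_inv_eq_one.1 h6
  have h4 : Module.Free ℤ (Additive A) := inferInstance
  let b := Module.finBasis ℤ (Additive A)
  let α : Multiplicative (Fin (Module.finrank ℤ (Additive A)) → ℤ) →* G :=
    { toFun := fun v => ((Additive.toMul (b.equivFun.symm (Multiplicative.toAdd v)) : A) : G)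
      map_one' := by
        rw [toAdd_one, map_zero]
        rfl
      map_mul' := fun v w => by
        rw [toAdd_mul, map_add]
        rfl }
  have hα : ∀ v, α v = ((Additive.toMul (b.equivFun.symm (Multiplicative.toAdd v)) : A) : G) :=
    fun v => rfl
  have hmem : ∀ g : G, g ∈ A ↔ ∃ v, g = α (Multiplicative.ofAdd v) := by
    intro g
    constructor
    · intro hg
      refine ⟨b.equivFun (Additive.ofMul ⟨g, hg⟩), ?_⟩
      rw [hα, toAdd_ofAdd, LinearEquiv.symm_apply_apply]
      rfl
    · rintro ⟨v, rfl⟩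
      exact Subtype.coe_prop _
  let c : G → (Additive A →ₗ[ℤ] Additive A) := fun g => AddMonoidHom.toIntLinearMap
    { toFun := fun a => Additive.ofMul ⟨g * (Additive.toMul a : A) * g⁻¹,
        Subgroup.Normal.conj_mem inferInstance _ (Additive.toMul a : A).2 g⟩
      map_zero' := by
        apply Additive.toMul.injective
        apply Subtype.ext
        change g * 1 * g⁻¹ = 1
        rw [mul_one, mul_inv_cancel]
      map_add' := fun x y => by
        apply Additive.toMul.injective
        apply Subtype.ext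
        change g * ((Additive.toMul x : A) * (Additive.toMul y : A)) * g⁻¹ =
          g * (Additive.toMul x : A) * g⁻¹ * (g * (Additive.toMul y : A) * g⁻¹)
        group }
  have hc : ∀ g a, ((Additive.toMul (c g a) : A) : G) = g * (Additive.toMul a : A) * g⁻¹ :=
    fun g a => rfl
  have hc1 : c 1 = 1 := by
    refine LinearMap.ext fun a => ?_
    apply Additive.toMul.injective
    apply Subtype.ext
    rw [hc, one_mul, inv_one, mul_one]
    rfl
  have hcm : ∀ g h, c (g * h) = c g * c h := by
    intro g h
    refine LinearMap.ext fun a => ?_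
    apply Additive.toMul.injective
    apply Subtype.ext
    rw [Module.End.mul_apply, hc, hc, hc, mul_inv_rev]
    simp only [mul_assoc]
  refine ⟨Module.finrank ℤ (Additive A),
    { π := QuotientGroup.mk' A
      surj := QuotientGroup.mk'_surjective A
      α := α
      inj := fun v w e => ?_
      ker := fun g => ?_
      ρ := { toFun := fun g => LinearMap.toMatrix b b (c g)
             map_one' := by rw [hc1, LinearMap.toMatrix_one]
             map_mul' := fun g h => by rw [hcm, LinearMap.toMatrix_mul] }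
      conj := fun g v => ?_ }, hmem⟩
  · have e' : Additive.toMul (b.equivFun.symm (Multiplicative.toAdd v)) =
        Additive.toMul (b.equivFun.symm (Multiplicative.toAdd w)) := Subtype.ext e
    exact Multiplicative.toAdd.injective
      (b.equivFun.symm.injective (Additive.toMul.injective e'))
  · rw [QuotientGroup.mk'_apply, QuotientGroup.eq_one_iff]
    exact hmem g
  · rw [hα, hα, toAdd_ofAdd, toAdd_ofAdd, ← hc]
    congr 2
    have h5 := LinearMap.toMatrix_mulVec_repr b b (c g) (b.equivFun.symm v)
    have h6 : (b.repr (b.equivFun.symm v) : _ → ℤ) = v := b.equivFun.apply_symm_apply v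
    rw [h6] at h5
    rw [LinearEquiv.eq_symm_apply]
    exact h5.symm

variable {G B : Type} [Group G] [Group B] {r : ℕ} (X : Ext G B r)

namespace Ext

theorem one_le {g : G} (hg : g ≠ 1) (h : ∃ v, g = X.a v) : 1 ≤ r := by
  obtain ⟨v, rfl⟩ := h
  rcases Nat.eq_zero_or_pos r with rfl | h
  · exact absurd (by rw [Subsingleton.elim v 0, X.a_zero]) hg
  · exact h

/-- Restriction to a subgroup containing `ℤ ^ r`. -/
def res (K : Subgroup G) (h : ∀ v, X.a v ∈ K) : Ext K (X.π.comp K.subtype).range r where
  π := (X.π.comp K.subtype).rangeRestrict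
  surj := MonoidHom.rangeRestrict_surjective _
  α := X.α.codRestrict K fun v => h (Multiplicative.toAdd v)
  inj := fun a b e => X.inj (congrArg Subtype.val e)
  ker g := by
    rw [← (MonoidHom.rangeRestrict _).map_one, ← Subtype.coe_inj]
    change X.π g = X.π 1 ↔ _
    rw [map_one, X.ker]
    refine exists_congr fun v => ?_
    rw [← Subtype.coe_inj]
    rfl
  ρ := X.ρ.comp K.subtype
  conj g v := Subtype.ext (X.conj g v)

/-- The congruence subgroup: the elements acting trivially modulo `m`. -/
def cong (m : ℕ) : Subgroup G :=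
  ((Int.castRingHom (ZMod m)).mapMatrix.toMonoidHom.comp X.ρ).ker

theorem mem_cong {m : ℕ} {g : G} : g ∈ X.cong m ↔ ∀ i j, (m : ℤ) ∣ (X.ρ g - 1) i j := by
  rw [cong, MonoidHom.mem_ker]
  change (X.ρ g).map (Int.cast : ℤ → ZMod m) = 1 ↔ _
  rw [← Matrix.ext_iff]
  refine forall_congr' fun i => forall_congr' fun j => ?_
  rw [Matrix.map_apply, Matrix.sub_apply]
  have h : ((1 : Matrix (Fin r) (Fin r) (ZMod m)) i j) =
      (((1 : Matrix (Fin r) (Fin r) ℤ) i j : ℤ) : ZMod m) := by
    rw [Matrix.one_apply, Matrix.one_apply]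
    split_ifs <;> simp
  rw [h, eq_comm, ZMod.intCast_eq_intCast_iff_dvd_sub]

theorem a_mem_cong (m : ℕ) (v : Fin r → ℤ) : X.a v ∈ X.cong m := by
  rw [mem_cong]
  intro i j
  rw [X.ρ_a, sub_self]
  exact dvd_zero _

/-- PROOF: the target is finite; use `MonoidHom.toHomUnits`. -/
theorem cong_finiteIndex {m : ℕ} (hm : m ≠ 0) : (X.cong m).FiniteIndex := by
  have : NeZero m := ⟨hm⟩
  have h : X.cong m =
      ((Int.castRingHom (ZMod m)).mapMatrix.toMonoidHom.comp X.ρ).toHomUnits.ker := by
    ext g
    rw [cong, MonoidHom.mem_ker, MonoidHom.mem_ker, ← Units.val_inj]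
    rfl
  rw [h]
  infer_instance

end Ext

/-- PROOF: `H.map H'.subtype`-transport: a subgroup `K` of finite index of `H` gives
`K.map H.subtype`, of finite index in `Γ` (`Subgroup.relIndex_mul_index`, `Subgroup.index_map`...),
and isomorphic to `K` (`Subgroup.equivMapOfInjective`, `IsGood.congr`). -/
theorem VirtGood.of_sub {Γ : Type} [Group Γ] (H : Subgroup Γ) [H.FiniteIndex] (h : VirtGood H) :
    VirtGood Γ := by
  obtain ⟨K, hK, hg⟩ := h
  refine ⟨K.map H.subtype, ⟨?_⟩,
    hg.congr (K.equivMapOfInjective H.subtype H.subtype_injective)⟩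
  rw [Subgroup.index_map_subtype]
  exact Nat.mul_ne_zero hK.index_ne_zero Subgroup.FiniteIndex.index_ne_zero

theorem TorFree.sub {Γ : Type} [Group Γ] (h : TorFree Γ) (H : Subgroup Γ) : TorFree H := by
  intro g k hk e
  exact Subtype.ext (h g k hk (congrArg Subtype.val e))

theorem resFin_sub {Γ : Type} [Group Γ] (h : Pool.Agent.W_3f1825_h40.ResFin Γ) (H : Subgroup Γ) :
    Pool.Agent.W_3f1825_h40.ResFin H := by
  intro g hg
  obtain ⟨K, hK, hgK⟩ := h (g : Γ) (fun e => hg (Subtype.ext e))
  exact ⟨K.subgroupOf H, inferInstance, hgK⟩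

end Pool.Agent.W_3f1825_r40
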