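import Pool.Agent.W_3f1825_r40.GapB

set_option autoImplicit false

/-! The data attached to a gap. -/

namespace Pool.Agent.W_3f1825_r40

variable {G : Type} [Group G] {r : ℕ}

/-- A lattice with an endomorphism. -/
structure GapData (ρ : G →* Matrix (Fin r) (Fin r) ℤ) (Λ : AddSubgroup (Fin r → ℤ)) where
  /-- the prime -/
  p : ℕ
  prime : p.Prime
  /-- the lattice -/
  A : AddSubgroup (Fin r → ℤ)
  /-- an exponent -/
  c : ℕ
  pc_mem : ∀ v : Fin r → ℤ, p ^ c • v ∈ A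
  inv : ∀ g, ∀ v ∈ A, (ρ g).mulVec v ∈ A
  /-- the endomorphism -/
  φ : A →+ A
  inj : Function.Injective φ
  comm : ∀ (g : G) (v w : A), (w : Fin r → ℤ) = (ρ g).mulVec v →
    (φ w : Fin r → ℤ) = (ρ g).mulVec (φ v)
  R1 : ∃ v : A, ∀ w z : A, v ≠ φ w + p • z
  R2 : ∀ v : A, (v : Fin r → ℤ) ∈ Λ → ∃ z : A, φ v = v + p • z

variable {ρ : G →* Matrix (Fin r) (Fin r) ℤ} {Λ : AddSubgroup (Fin r → ℤ)}

theorem GapC_cancel {n : ℕ} (hn : n ≠ 0) {v w : Fin r → ℤ} (h : n • v = n • w) : v = w := by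
  funext i
  have h1 := congrFun h i
  simp only [Pi.smul_apply, nsmul_eq_mul] at h1
  exact mul_left_cancel₀ (Nat.cast_ne_zero.2 hn) h1

/-- PROOF: `A = ⊤`, `φ = p`. -/
theorem gap_empty (hr : 1 ≤ r) {p : ℕ} (hp : p.Prime)
    (h : ∀ v ∈ Λ, ∃ w : Fin r → ℤ, v = p • w) : Nonempty (GapData ρ Λ) := by
  have hp0 : p ≠ 0 := hp.ne_zero
  refine ⟨{
    p := p, prime := hp, A := ⊤, c := 0
    pc_mem := fun _ => AddSubgroup.mem_top _
    inv := fun _ _ _ => AddSubgroup.mem_top _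
    φ := p • AddMonoidHom.id _
    inj := ?_
    comm := ?_
    R1 := ?_
    R2 := ?_ }⟩
  · intro v w hvw
    apply Subtype.ext
    have h1 : p • v = p • w := hvw
    have h2 : p • (v : Fin r → ℤ) = p • (w : Fin r → ℤ) := congrArg Subtype.val h1
    exact GapC_cancel hp0 h2
  · intro g v w hvw
    change p • (w : Fin r → ℤ) = (ρ g).mulVec (p • (v : Fin r → ℤ))
    rw [hvw, Matrix.mulVec_smul]
  · refine ⟨⟨Pi.single ⟨0, hr⟩ 1, AddSubgroup.mem_top _⟩, fun w z hwz => ?_⟩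
    have h1 : (Pi.single ⟨0, hr⟩ 1 : Fin r → ℤ) = p • (w : Fin r → ℤ) + p • (z : Fin r → ℤ) :=
      congrArg Subtype.val hwz
    have h2 := congrFun h1 ⟨0, hr⟩
    rw [Pi.single_eq_same, Pi.add_apply, Pi.smul_apply, Pi.smul_apply, nsmul_eq_mul,
      nsmul_eq_mul, ← mul_add] at h2
    have h3 : (p : ℤ) ∣ 1 := ⟨_, h2⟩
    have h4 := Int.natCast_dvd_natCast.1 (by exact_mod_cast h3 : ((p : ℕ) : ℤ) ∣ ((1 : ℕ) : ℤ))
    exact hp.one_lt.ne' (Nat.dvd_one.1 h4)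
  · intro v hv
    obtain ⟨w, hw⟩ := h _ hv
    refine ⟨v - ⟨w, AddSubgroup.mem_top _⟩, ?_⟩
    apply Subtype.ext
    change p • (v : Fin r → ℤ) = (v : Fin r → ℤ) + p • ((v : Fin r → ℤ) - w)
    rw [smul_sub, ← hw]
    abel

/-- the lattice `F w + p ^ c z` -/
def GapC_A (F : Matrix (Fin r) (Fin r) ℤ) (n : ℕ) : AddSubgroup (Fin r → ℤ) where
  carrier := {v | ∃ w z : Fin r → ℤ, v = F.mulVec w + n • z}
  add_mem' := by
    rintro _ _ ⟨w, z, rfl⟩ ⟨w', z', rfl⟩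
    refine ⟨w + w', z + z', ?_⟩
    rw [Matrix.mulVec_add, smul_add]
    abel
  zero_mem' := ⟨0, 0, by rw [Matrix.mulVec_zero, smul_zero, add_zero]⟩
  neg_mem' := by
    rintro _ ⟨w, z, rfl⟩
    refine ⟨-w, -z, ?_⟩
    rw [Matrix.mulVec_neg, smul_neg]
    abel

theorem GapC_mem {F : Matrix (Fin r) (Fin r) ℤ} {n : ℕ} {v : Fin r → ℤ} :
    v ∈ GapC_A F n ↔ ∃ w z : Fin r → ℤ, v = F.mulVec w + n • z := Iff.rfl

theorem GapC_coprime {p c : ℕ} (hp : p.Prime) {δ : ℤ} (hc : (p : ℤ) ^ c ∣ δ)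
    (hc' : ¬ (p : ℤ) ^ (c + 1) ∣ δ) :
    ∃ δ' u k : ℤ, δ = (p : ℤ) ^ c * δ' ∧ u * δ' = 1 + p * k ∧ u ≠ 0 := by
  obtain ⟨δ', rfl⟩ := hc
  have h1 : ¬ (p : ℤ) ∣ δ' := by
    intro h
    apply hc'
    rw [pow_succ]
    exact mul_dvd_mul_left _ h
  have h2 : IsCoprime (p : ℤ) δ' :=
    (Prime.coprime_iff_not_dvd (Nat.prime_iff_prime_int.1 hp)).2 h1
  obtain ⟨x, u, hxu⟩ := h2
  refine ⟨δ', u, -x, rfl, by linear_combination hxu, ?_⟩
  rintro rfl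
  rw [zero_mul, add_zero] at hxu
  have h3 : (p : ℤ) ∣ 1 := ⟨x, by rw [mul_comm]; exact hxu.symm⟩
  have h4 := Int.natCast_dvd_natCast.1 (by exact_mod_cast h3 : ((p : ℕ) : ℤ) ∣ ((1 : ℕ) : ℤ))
  exact hp.one_lt.ne' (Nat.dvd_one.1 h4)

/-- PROOF: let `F = casF C b I`, `δ = p ^ c δ'`, `u δ' = 1 + p k`, `g = 2 c + 1`,
`A = {F w + p ^ c z}` (invariant by `casF_comm`). For `v ∈ A`, `u F v ∈ p ^ c A`:
`F (F w + p ^ c z) = δ F w + p ^ g w' + p ^ c F z = p ^ c (F (δ' w + z) + p ^ (c + 1) w')` (`casF_sq`).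
`φ v` is the element of `A` with `p ^ c φ v = u F v` (unique, so additive, injective by `casF_inj` and
`u ≠ 0`, commutes with `ρ g`). `R1`: `v = p ^ c b m`, `m ∉ I`: the `m`-th coordinate (with respect
to `b`) of `φ w` is divisible by `p ^ (c + 1)` for `w ∈ A` (by the formula above and `casF_coord`), and
the one of an element of `A` by `p ^ c`. `R2`: `p ^ c (φ v - v) = u F v - p ^ c v =
u (F v - δ v) + p ^ c (u δ' - 1) v = u p ^ (t + g) w + p ^ (c + 1) k v` (`casF_sub`), so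
`φ v - v = p (u p ^ (t + c) w + k v)`. -/
theorem gap_main (C : Cas ρ) (hirr : Irr ρ) (hinv : ∀ g, ∀ v ∈ Λ, (ρ g).mulVec v ∈ Λ)
    {b : Module.Basis (Fin r) ℤ (Fin r → ℤ)} {a : Fin r → ℤ}
    (hb : ∀ v, v ∈ Λ ↔ ∀ l, a l ∣ b.repr v l) {p : ℕ} (hp : p.Prime) {t c : ℕ}
    {I : Finset (Fin r)} (hI : ∀ l ∈ I, ¬ (p : ℤ) ^ (t + 1) ∣ a l)
    (hI' : ∀ l, l ∉ I → (p : ℤ) ^ (t + (2 * c + 1)) ∣ a l) (hc : (p : ℤ) ^ c ∣ C.δ)
    (hc' : ¬ (p : ℤ) ^ (c + 1) ∣ C.δ) (hne : I.Nonempty) (hne' : ∃ l, l ∉ I) :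
    Nonempty (GapData ρ Λ) := by
  obtain ⟨δ', u, k, hδ, hu, hu0⟩ := GapC_coprime hp hc hc'
  obtain ⟨F, hF⟩ : ∃ F, F = casF C b I := ⟨_, rfl⟩
  have hp0 : p ≠ 0 := hp.ne_zero
  have hpc0 : p ^ c ≠ 0 := pow_ne_zero c hp0
  have hsq := fun v => casF_sq C hinv hb hp (t := t) (g := 2 * c + 1) hI hI' v
  have hcoord := fun v m => casF_coord C hinv hb hp (t := t) (g := 2 * c + 1) hI hI' v (m := m)
  have hinj := fun v => casF_inj C hinv hb hp (t := t) (g := 2 * c + 1) hI hI' hirr hc'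
    (by omega) hne (v := v)
  have hsub := fun v => casF_sub C hinv hb (t := t) (g := 2 * c + 1) hI' (v := v)
  have hcomm := fun g => casF_comm C b I g
  rw [← hF] at hsq hcoord hinj hsub hcomm
  have hpow : ∀ m, m ∉ I → ∀ v, ∃ x : ℤ, b.repr (F.mulVec v) m = (p : ℤ) ^ (c + 1) * x := by
    intro m hm v
    obtain ⟨x, hx⟩ := hcoord v m hm
    exact ⟨(p : ℤ) ^ c * x, by rw [hx]; ring⟩
  -- division of `F v`
  have hψ0 : ∀ v : GapC_A F (p ^ c), ∃ a : GapC_A F (p ^ c),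
      p ^ c • (a : Fin r → ℤ) = F.mulVec v ∧ ∀ m, m ∉ I → (p : ℤ) ^ (c + 1) ∣ b.repr a m := by
    rintro ⟨v, hv⟩
    obtain ⟨w, z, rfl⟩ := GapC_mem.1 hv
    obtain ⟨w', hw'⟩ := hsq w
    refine ⟨⟨F.mulVec (δ' • w + z) + p ^ c • (p • w'), GapC_mem.2 ⟨_, _, rfl⟩⟩, ?_, ?_⟩
    · change p ^ c • (F.mulVec (δ' • w + z) + p ^ c • (p • w')) =
        F.mulVec (F.mulVec w + p ^ c • z)
      rw [Matrix.mulVec_add, Matrix.mulVec_add, Matrix.mulVec_smul, Matrix.mulVec_smul,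
        eq_add_of_sub_eq hw', hδ]
      funext i
      simp only [Pi.add_apply, Pi.smul_apply]
      simp only [nsmul_eq_mul, smul_eq_mul]
      push_cast
      ring
    · intro m hm
      obtain ⟨x, hx⟩ := hpow m hm (δ' • w + z)
      change (p : ℤ) ^ (c + 1) ∣ b.repr (F.mulVec (δ' • w + z) + p ^ c • (p • w')) m
      rw [map_add, map_nsmul, map_nsmul, Finsupp.add_apply, Finsupp.smul_apply,
        Finsupp.smul_apply, hx, nsmul_eq_mul, nsmul_eq_mul]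
      exact ⟨x + b.repr w' m, by push_cast; ring⟩
  choose ψ hψ1 hψ2 using hψ0
  have huniq : ∀ a a' : GapC_A F (p ^ c),
      p ^ c • (a : Fin r → ℤ) = p ^ c • (a' : Fin r → ℤ) → a = a' := fun a a' h =>
    Subtype.ext (GapC_cancel hpc0 h)
  let ψh : GapC_A F (p ^ c) →+ GapC_A F (p ^ c) :=
    { toFun := ψ
      map_zero' := by
        apply huniq
        rw [hψ1]
        simp
      map_add' := by
        intro v w
        apply huniq
        rw [hψ1, AddSubgroup.coe_add, AddSubgroup.coe_add, smul_add, hψ1, hψ1,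
          Matrix.mulVec_add] }
  let φ : GapC_A F (p ^ c) →+ GapC_A F (p ^ c) := u • ψh
  have hφ : ∀ v, φ v = u • ψ v := fun v => rfl
  have hφ1 : ∀ v : GapC_A F (p ^ c), p ^ c • (φ v : Fin r → ℤ) = u • F.mulVec v := by
    intro v
    rw [hφ, AddSubgroup.coe_zsmul, smul_comm, hψ1]
  have hAcoord : ∀ z : GapC_A F (p ^ c), ∀ m, m ∉ I → (p : ℤ) ^ c ∣ b.repr z m := by
    rintro ⟨z, hz⟩ m hm
    obtain ⟨w, z', rfl⟩ := GapC_mem.1 hz
    obtain ⟨x, hx⟩ := hpow m hm w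
    change (p : ℤ) ^ c ∣ b.repr (F.mulVec w + p ^ c • z') m
    rw [map_add, map_nsmul, Finsupp.add_apply, Finsupp.smul_apply, hx, nsmul_eq_mul]
    exact ⟨p * x + b.repr z' m, by push_cast; ring⟩
  refine ⟨{
    p := p, prime := hp, A := GapC_A F (p ^ c), c := c
    pc_mem := fun v => GapC_mem.2 ⟨0, v, by rw [Matrix.mulVec_zero, zero_add]⟩
    inv := ?_
    φ := φ
    inj := ?_
    comm := ?_
    R1 := ?_
    R2 := ?_ }⟩
  · intro g v hv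
    obtain ⟨w, z, rfl⟩ := GapC_mem.1 hv
    refine GapC_mem.2 ⟨(ρ g).mulVec w, (ρ g).mulVec z, ?_⟩
    rw [Matrix.mulVec_add, Matrix.mulVec_smul, Matrix.mulVec_mulVec, Matrix.mulVec_mulVec,
      hcomm g]
  · rw [injective_iff_map_eq_zero]
    intro v hv
    have h1 := hφ1 v
    rw [hv, AddSubgroup.coe_zero, smul_zero] at h1
    have h2 : F.mulVec v = 0 := by
      funext i
      have h3 := congrFun h1 i
      rw [Pi.zero_apply, Pi.smul_apply, smul_eq_mul] at h3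
      exact (mul_eq_zero.1 h3.symm).resolve_left hu0
    exact Subtype.ext (hinj v h2)
  · intro g v w hvw
    refine GapC_cancel hpc0 ?_
    have h1 : p ^ c • (ρ g).mulVec (φ v : Fin r → ℤ) =
        (ρ g).mulVec (p ^ c • (φ v : Fin r → ℤ)) := (Matrix.mulVec_smul _ _ _).symm
    rw [hφ1, hvw, h1, hφ1, Matrix.mulVec_smul, Matrix.mulVec_mulVec,
      Matrix.mulVec_mulVec, hcomm g]
  · obtain ⟨m, hm⟩ := hne'
    refine ⟨⟨p ^ c • b m, GapC_mem.2 ⟨0, b m, by rw [Matrix.mulVec_zero, zero_add]⟩⟩,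
      fun w z hwz => ?_⟩
    have h1 : p ^ c • b m = (φ w : Fin r → ℤ) + p • (z : Fin r → ℤ) := congrArg Subtype.val hwz
    have h2 : b.repr (p ^ c • b m) m = b.repr ((φ w : Fin r → ℤ) + p • (z : Fin r → ℤ)) m := by
      rw [h1]
    rw [map_add, map_nsmul, map_nsmul, Module.Basis.repr_self, Finsupp.add_apply,
      Finsupp.smul_apply, Finsupp.smul_apply, Finsupp.single_eq_same, hφ,
      AddSubgroup.coe_zsmul, map_zsmul, Finsupp.smul_apply, nsmul_eq_mul, nsmul_eq_mul,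
      smul_eq_mul, mul_one] at h2
    obtain ⟨x, hx⟩ := hψ2 w m hm
    obtain ⟨y, hy⟩ := hAcoord z m hm
    rw [hx, hy] at h2
    have hpz : ((p : ℤ) ^ c) ≠ 0 := pow_ne_zero c (by exact_mod_cast hp0)
    have h3 : (p : ℤ) ^ c * 1 = (p : ℤ) ^ c * (p * (u * x + y)) := by
      push_cast at h2
      linear_combination h2
    have h4 := mul_left_cancel₀ hpz h3
    have h5 : (p : ℤ) ∣ 1 := ⟨_, h4⟩
    have h6 := Int.natCast_dvd_natCast.1 (by exact_mod_cast h5 : ((p : ℕ) : ℤ) ∣ ((1 : ℕ) : ℤ))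
    exact hp.one_lt.ne' (Nat.dvd_one.1 h6)
  · intro v hv
    obtain ⟨w, hw⟩ := hsub v hv
    refine ⟨⟨p ^ c • ((u * (p : ℤ) ^ t) • w), GapC_mem.2
      ⟨0, _, by rw [Matrix.mulVec_zero, zero_add]⟩⟩ + k • v, ?_⟩
    apply Subtype.ext
    refine GapC_cancel hpc0 ?_
    rw [hφ1]
    change u • F.mulVec v = p ^ c • ((v : Fin r → ℤ) +
      p • (p ^ c • ((u * (p : ℤ) ^ t) • w) + k • (v : Fin r → ℤ)))
    rw [eq_add_of_sub_eq hw, hδ]
    funext i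
    simp only [Pi.add_apply, Pi.smul_apply]
    simp only [nsmul_eq_mul, smul_eq_mul]
    push_cast
    linear_combination ((p : ℤ) ^ c * (v : Fin r → ℤ) i) * hu

/-- PROOF: `exists_smith`; `δ ^ (2 r) • v ∉ Λ` gives `l` with `¬ a l ∣ δ ^ (2 r)`;
`exists_prime_gap`; `I = {l | ¬ p ^ (t + 1) ∣ a l}`. If `I = ∅` then `p ∣ a l` for all `l`, so
`gap_empty`; otherwise `gap_main`. -/
theorem exists_gapData (hr : 1 ≤ r) (C : Cas ρ) (hirr : Irr ρ)
    (hinv : ∀ g, ∀ v ∈ Λ, (ρ g).mulVec v ∈ Λ)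
    (hΛ : ∃ m : ℕ, m ≠ 0 ∧ ∀ v : Fin r → ℤ, m • v ∈ Λ)
    (hbig : ∃ v : Fin r → ℤ, C.δ ^ (2 * r) • v ∉ Λ) : Nonempty (GapData ρ Λ) := by
  classical
  obtain ⟨b, a, ha, hb⟩ := exists_smith Λ hΛ
  obtain ⟨v, hv⟩ := hbig
  have h1 : ∃ l, ¬ a l ∣ C.δ ^ (2 * r) := by
    by_contra hcon
    push Not at hcon
    apply hv
    rw [hb]
    intro l
    rw [map_smul, Finsupp.smul_apply, smul_eq_mul]
    exact Dvd.dvd.mul_right (hcon l) _
  obtain ⟨p, c, t, hp, hc, hc', hgap, l0, hl0⟩ := exists_prime_gap a ha C.δ_ne h1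
  have hI : ∀ l ∈ Finset.univ.filter (fun l => ¬ (p : ℤ) ^ (t + 1) ∣ a l),
      ¬ (p : ℤ) ^ (t + 1) ∣ a l := fun l hl => (Finset.mem_filter.1 hl).2
  have hI1 : ∀ l, l ∉ Finset.univ.filter (fun l => ¬ (p : ℤ) ^ (t + 1) ∣ a l) →
      (p : ℤ) ^ (t + 1) ∣ a l := by
    intro l hl
    by_contra hcon
    exact hl (Finset.mem_filter.2 ⟨Finset.mem_univ l, hcon⟩)
  have hI' : ∀ l, l ∉ Finset.univ.filter (fun l => ¬ (p : ℤ) ^ (t + 1) ∣ a l) →
      (p : ℤ) ^ (t + (2 * c + 1)) ∣ a l := fun l hl =>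
    (hgap l).resolve_left fun h => h (hI1 l hl)
  by_cases hne : (Finset.univ.filter (fun l => ¬ (p : ℤ) ^ (t + 1) ∣ a l)).Nonempty
  · refine gap_main C hirr hinv hb hp hI hI' hc hc' hne ⟨l0, fun hl => hI l0 hl ?_⟩
    exact dvd_trans (pow_dvd_pow _ (by omega)) hl0
  · refine gap_empty hr hp fun v hv => ?_
    have h2 : ∀ l, (p : ℤ) ∣ b.repr v l := by
      intro l
      have h3 := hI1 l fun hl => hne ⟨l, hl⟩
      have h4 : (p : ℤ) ∣ (p : ℤ) ^ (t + 1) := dvd_pow_self _ (by omega)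
      exact dvd_trans (dvd_trans h4 h3) ((hb v).1 hv l)
    choose w hw using h2
    refine ⟨∑ l, w l • b l, ?_⟩
    rw [Finset.smul_sum]
    conv_lhs => rw [← b.sum_repr v]
    refine Finset.sum_congr rfl fun l _ => ?_
    rw [hw, mul_smul, natCast_zsmul]

end Pool.Agent.W_3f1825_r40
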