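import Pool.Agent.W_3f1825_r40.GPhi2
import Pool.Agent.W_3f1825_r40.GapC

set_option autoImplicit false

/-! From lattices with endomorphisms to good data. -/

namespace Pool.Agent.W_3f1825_r40

variable {G B : Type} [Group G] [Group B] {r : ℕ} (X : Ext G B r)

/-- The subgroup of `G` given by a subgroup of `ℤ ^ r`. -/
def Ext.latt (A : AddSubgroup (Fin r → ℤ)) : Subgroup G where
  carrier := {g | ∃ v ∈ A, g = X.a v}
  one_mem' := ⟨0, A.zero_mem, X.a_zero.symm⟩
  mul_mem' := by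
    rintro _ _ ⟨v, hv, rfl⟩ ⟨w, hw, rfl⟩
    exact ⟨v + w, A.add_mem hv hw, (X.a_add v w).symm⟩
  inv_mem' := by
    rintro _ ⟨v, hv, rfl⟩
    exact ⟨-v, A.neg_mem hv, (X.a_neg v).symm⟩

theorem Ext.latt_normal {A : AddSubgroup (Fin r → ℤ)} (inv : ∀ g, ∀ v ∈ A, (X.ρ g).mulVec v ∈ A) :
    (X.latt A).Normal := by
  constructor
  rintro _ ⟨v, hv, rfl⟩ g
  exact ⟨_, inv g v hv, X.conj_a g v⟩

/-- The isomorphism with the lattice, as a homomorphism. -/
def Ext.lattHom (A : AddSubgroup (Fin r → ℤ)) (K : Subgroup G)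
    (hK : X.latt A ≤ K) : Multiplicative A →* (X.latt A).subgroupOf K where
  toFun v := ⟨⟨X.a (Multiplicative.toAdd v : A), hK ⟨_, (Multiplicative.toAdd v : A).2, rfl⟩⟩,
    ⟨_, (Multiplicative.toAdd v : A).2, rfl⟩⟩
  map_one' := Subtype.ext (Subtype.ext X.a_zero)
  map_mul' _ _ := Subtype.ext (Subtype.ext (X.a_add _ _))

/-- The isomorphism with the lattice. -/
noncomputable def Ext.lattEquiv (A : AddSubgroup (Fin r → ℤ)) (K : Subgroup G)
    (hK : X.latt A ≤ K) : Multiplicative A ≃* (X.latt A).subgroupOf K :=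
  MulEquiv.ofBijective (X.lattHom A K hK)
    ⟨fun v w e => by
      have e' : X.a (Multiplicative.toAdd v : A) = X.a (Multiplicative.toAdd w : A) :=
        congrArg (fun z : (X.latt A).subgroupOf K => ((z : K) : G)) e
      exact Multiplicative.toAdd.injective (Subtype.ext (X.a_inj e')), fun z => by
      obtain ⟨v, hv, e⟩ := z.2
      exact ⟨Multiplicative.ofAdd ⟨v, hv⟩, Subtype.ext (Subtype.ext e.symm)⟩⟩

theorem Ext.lattEquiv_coe (A : AddSubgroup (Fin r → ℤ)) (K : Subgroup G) (hK : X.latt A ≤ K)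
    (v : A) : (((X.lattEquiv A K hK (Multiplicative.ofAdd v)) : K) : G) = X.a v := rfl

/-- PROOF: `A` is finitely generated because `ℤ` is Noetherian. -/
theorem Ext.latt_fg' (A : AddSubgroup (Fin r → ℤ)) (K : Subgroup G) (hK : X.latt A ≤ K) :
    ((X.latt A).subgroupOf K).FG := by
  have h1 : (AddSubgroup.toIntSubmodule A).FG := IsNoetherian.noetherian _
  rw [Submodule.fg_iff_addSubgroup_fg] at h1
  have h2 : A.FG := h1
  have h3 : AddGroup.FG A := (AddGroup.fg_iff_addSubgroup_fg A).2 h2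
  have h4 : Group.FG (Multiplicative A) := inferInstance
  rw [← Group.fg_iff_subgroup_fg]
  exact Group.fg_of_surjective (f := (X.lattEquiv A K hK).toMonoidHom)
    (X.lattEquiv A K hK).surjective

/-- PROOF: `A` is finitely generated because `ℤ` is Noetherian. -/
theorem Ext.latt_fg (A : AddSubgroup (Fin r → ℤ)) : (X.latt A).FG := by
  have h := X.latt_fg' A ⊤ le_top
  rw [← Group.fg_iff_subgroup_fg] at h ⊢
  exact Group.fg_of_surjective (f := (Subgroup.subgroupOfEquivOfLe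
    (le_top : X.latt A ≤ ⊤)).toMonoidHom) (Subgroup.subgroupOfEquivOfLe _).surjective

/-- PROOF: let `c = D.c`, `p = D.p`, `K = N ⊓ X.cong (p ^ (c + 2))`, a normal subgroup of finite index,
and `G' = X.latt D.A ⊔ K`: every element is `X.a v * n`, `v ∈ D.A`, `n ∈ K`
(`Subgroup.mem_sup_of_normal_left`...). Apply `good_of_phi` to the group `G'`, the subgroup
`(X.latt D.A).subgroupOf G'`, the endomorphism `X.a v ↦ X.a (D.φ v)` and `K.subgroupOf G'`. `hmod`: for
`g = X.a w * n`, `X.ρ g = X.ρ n` is `1` modulo `p ^ (c + 2)`, so `ρ g v - v = p ^ 2 (p ^ c z)` and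
`p ^ c z ∈ D.A`. -/
theorem good_of_gap (htf : TorFree G) (N : Subgroup G) (hN : N.Normal) (hN' : N.FiniteIndex)
    {Λ : AddSubgroup (Fin r → ℤ)} (hΛ : ∀ v, v ∈ Λ ↔ X.a v ∈ N) (D : GapData X.ρ Λ) :
    VirtGood G := by
  have hA1n : (X.latt D.A).Normal := X.latt_normal D.inv
  have hcf : (X.cong (D.p ^ (D.c + 2))).FiniteIndex :=
    X.cong_finiteIndex (pow_ne_zero _ D.prime.ne_zero)
  let K : Subgroup G := N ⊓ X.cong (D.p ^ (D.c + 2))
  have hKf : K.FiniteIndex := inferInstance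
  let G' : Subgroup G := X.latt D.A ⊔ K
  have hle : X.latt D.A ≤ G' := le_sup_left
  have hG'f : G'.FiniteIndex := Subgroup.finiteIndex_of_le (le_sup_right : K ≤ G')
  have hG' : ∀ g : G', ∃ v ∈ D.A, ∃ n ∈ K, (g : G) = X.a v * n := by
    intro g
    obtain ⟨_, ⟨v, hv, rfl⟩, n, hn, e⟩ := Subgroup.mem_sup_of_normal_left.1 g.2
    exact ⟨v, hv, n, hn, e.symm⟩
  let e := X.lattEquiv D.A G' hle
  have he : ∀ v : D.A, (((e (Multiplicative.ofAdd v)) : G') : G) = X.a v := fun v => rfl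
  have hes : ∀ z : (X.latt D.A).subgroupOf G', ∃ v : D.A, z = e (Multiplicative.ofAdd v) := by
    intro z
    obtain ⟨v, rfl⟩ := e.surjective z
    exact ⟨Multiplicative.toAdd v, rfl⟩
  let φ : (X.latt D.A).subgroupOf G' →* (X.latt D.A).subgroupOf G' :=
    e.toMonoidHom.comp ((AddMonoidHom.toMultiplicative D.φ).comp e.symm.toMonoidHom)
  have hφ : ∀ v : D.A, φ (e (Multiplicative.ofAdd v)) = e (Multiplicative.ofAdd (D.φ v)) := by
    intro v
    change e (AddMonoidHom.toMultiplicative D.φ (e.symm (e (Multiplicative.ofAdd v)))) = _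
    rw [e.symm_apply_apply]
    rfl
  refine ⟨G', hG'f, good_of_phi (htf.sub G') ((X.latt D.A).subgroupOf G') (hA1n.subgroupOf G')
    ?_ (X.latt_fg' D.A G' hle) D.prime φ ?_ ?_ ?_ (K.subgroupOf G') ?_ ?_ ?_⟩
  · intro a ha b hb
    obtain ⟨v, hv⟩ := hes ⟨a, ha⟩
    obtain ⟨w, hw⟩ := hes ⟨b, hb⟩
    have h1 : (a : G) = X.a v := by
      rw [← he v, ← hv]
    have h2 : (b : G) = X.a w := by
      rw [← he w, ← hw]
    apply Subtype.ext
    rw [Subgroup.coe_mul, Subgroup.coe_mul, h1, h2, X.a_comm]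
  · intro a b h
    obtain ⟨v, rfl⟩ := hes a
    obtain ⟨w, rfl⟩ := hes b
    rw [hφ, hφ] at h
    have h1 := D.inj (Multiplicative.ofAdd.injective (e.injective h))
    rw [h1]
  · intro g a b h
    obtain ⟨v, rfl⟩ := hes a
    obtain ⟨w, rfl⟩ := hes b
    rw [hφ, hφ]
    apply Subtype.ext
    have h1 : X.a w = (g : G) * X.a v * (g : G)⁻¹ := congrArg Subtype.val h
    rw [X.conj_a] at h1
    have h2 := D.comm g v w (X.a_inj h1)
    change X.a (D.φ w) = (g : G) * X.a (D.φ v) * (g : G)⁻¹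
    rw [X.conj_a, h2]
  · obtain ⟨v, hv⟩ := D.R1
    refine ⟨e (Multiplicative.ofAdd v), fun b d h => ?_⟩
    obtain ⟨w, rfl⟩ := hes b
    obtain ⟨z, rfl⟩ := hes d
    rw [hφ, ← map_pow, ← map_mul] at h
    exact hv w z (Multiplicative.ofAdd.injective (e.injective h))
  · intro g
    obtain ⟨v, hv, n, hn, h⟩ := hG' g
    refine ⟨⟨X.a v, hle ⟨v, hv, rfl⟩⟩, ⟨v, hv, rfl⟩, ⟨n, le_sup_right (a := X.latt D.A) hn⟩, hn,
      Subtype.ext h⟩
  · intro a ha
    obtain ⟨v, rfl⟩ := hes a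
    have h1 : X.a v ∈ N := (Subgroup.mem_inf.1 ha).1
    obtain ⟨z, hz⟩ := D.R2 v ((hΛ _).2 h1)
    refine ⟨e (Multiplicative.ofAdd z), ?_⟩
    rw [hφ, hz, ← map_pow, ← map_mul]
    rfl
  · intro g a
    obtain ⟨v, rfl⟩ := hes a
    obtain ⟨w, hw, n, hn, h⟩ := hG' g
    have hn2 := X.mem_cong.1 (Subgroup.mem_inf.1 hn).2
    have hρ : X.ρ (g : G) = X.ρ n := by rw [h, map_mul, X.ρ_a, one_mul]
    choose Cm hCm using hn2
    have h1 : (X.ρ (g : G)).mulVec (v : Fin r → ℤ) =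
        v + D.p ^ 2 • (D.p ^ D.c • (Matrix.of Cm).mulVec (v : Fin r → ℤ)) := by
      have h2 : X.ρ (g : G) = 1 + ((D.p : ℤ) ^ (D.c + 2)) • Matrix.of Cm := by
        rw [hρ]
        ext i j
        have h3 := hCm i j
        rw [Matrix.sub_apply] at h3
        rw [Matrix.add_apply, Matrix.smul_apply, Matrix.of_apply, smul_eq_mul]
        push_cast at h3
        linarith
      rw [h2, Matrix.add_mulVec, Matrix.one_mulVec, Matrix.smul_mulVec]
      congr 1
      rw [← mul_smul, ← pow_add, ← natCast_zsmul]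
      congr 1
      push_cast
      rw [add_comm D.c 2]
    refine ⟨e (Multiplicative.ofAdd ⟨_, D.pc_mem ((Matrix.of Cm).mulVec (v : Fin r → ℤ))⟩), ?_⟩
    apply Subtype.ext
    change (g : G) * X.a v * (g : G)⁻¹ =
      X.a v * X.a (D.p ^ D.c • (Matrix.of Cm).mulVec (v : Fin r → ℤ)) ^ (D.p ^ 2)
    rw [X.conj_a, h1, X.a_add, X.a_nsmul _ (D.p ^ D.c • _)]

end Pool.Agent.W_3f1825_r40
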