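import Pool.Agent.W_3f1825_r40.GoodE
import Pool.Agent.W_3f1825_r40.GDef

set_option autoImplicit false

/-! Abelian normal subgroups of virtually polycyclic normal subgroups. -/

namespace Pool.Agent.W_3f1825_r40

/-- PROOF: let `S` be the normal core of the solvable subgroup of finite index, of index `m` in `P`:
`x ^ m ∈ S` for all `x`. `T = closure {x ^ m}` is contained in `S`, so it is solvable, and it is
characteristic in `P`; it is not `⊥` because `P` is torsion free and not trivial. -/
theorem exists_char {P : Type} [Group P] (htf : TorFree P) (hne : Nontrivial P)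
    (h : ∃ S : Subgroup P, S.FiniteIndex ∧ Group.IsSolvable S) :
    ∃ T : Subgroup P, T.Characteristic ∧ T ≠ ⊥ ∧ Group.IsSolvable T := by
  obtain ⟨S, hS, hs⟩ := h
  have hm : S.normalCore.index ≠ 0 := Subgroup.FiniteIndex.index_ne_zero
  let m := S.normalCore.index
  let T : Subgroup P := Subgroup.closure {x | ∃ y : P, x = y ^ m}
  have hle : T ≤ S := by
    refine (Subgroup.closure_le _).2 ?_
    rintro _ ⟨y, rfl⟩
    exact S.normalCore_le (S.normalCore.pow_index_mem y)
  refine ⟨T, ?_, ?_, ?_⟩
  · rw [Subgroup.characteristic_iff_map_le]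
    intro ϕ
    change (Subgroup.closure _).map _ ≤ _
    rw [MonoidHom.map_closure]
    refine Subgroup.closure_mono ?_
    rintro _ ⟨_, ⟨y, rfl⟩, rfl⟩
    exact ⟨ϕ y, map_pow ϕ y m⟩
  · intro hT
    obtain ⟨y, hy⟩ := exists_ne (1 : P)
    have h1 : y ^ m ∈ T := Subgroup.subset_closure ⟨y, rfl⟩
    rw [hT, Subgroup.mem_bot] at h1
    exact hy (htf y m hm h1)
  · exact Group.isSolvable_of_isSolvable_injective (f := Subgroup.inclusion hle)
      (Subgroup.inclusion_injective hle)

theorem map_derived_char {P : Type} [Group P] (T : Subgroup P) (hT : T.Characteristic) (k : ℕ) :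
    ((derivedSeries T k).map T.subtype).Characteristic := by
  induction k with
  | zero =>
    rw [derivedSeries_zero, ← MonoidHom.range_eq_map, Subgroup.range_subtype]
    exact hT
  | succ k ih =>
    rw [derivedSeries_succ, Subgroup.map_commutator]
    infer_instance

/-- PROOF: the last non-trivial term of the derived series of `T` (`derivedSeries`,
`Nat.find`), mapped to `P`; characteristic subgroups of characteristic subgroups are
characteristic. -/
theorem exists_char_abelian {P : Type} [Group P] (T : Subgroup P) (hT : T.Characteristic)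
    (hne : T ≠ ⊥) (hs : Group.IsSolvable T) :
    ∃ A : Subgroup P, A.Characteristic ∧ A ≠ ⊥ ∧ ∀ a ∈ A, ∀ b ∈ A, a * b = b * a := by
  classical
  have hex : ∃ n, derivedSeries T n = ⊥ := hs.solvable
  obtain ⟨n, hn⟩ : ∃ n, n = Nat.find hex := ⟨_, rfl⟩
  have hn1 : derivedSeries T n = ⊥ := by rw [hn]; exact Nat.find_spec hex
  cases n with
  | zero =>
    exfalso
    rw [derivedSeries_zero] at hn1
    apply hne
    rw [Subgroup.eq_bot_iff_forall]
    intro x hx
    have h1 : (⟨x, hx⟩ : T) ∈ (⊤ : Subgroup T) := Subgroup.mem_top _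
    rw [hn1, Subgroup.mem_bot] at h1
    exact congrArg Subtype.val h1
  | succ k =>
    have hk : derivedSeries T k ≠ ⊥ := Nat.find_min hex (by omega)
    refine ⟨(derivedSeries T k).map T.subtype, map_derived_char T hT k, ?_, ?_⟩
    · intro h1
      apply hk
      rw [Subgroup.map_eq_bot_iff_of_injective _ T.subtype_injective] at h1
      exact h1
    · rw [derivedSeries_succ, Subgroup.commutator_eq_bot_iff_le_centralizer] at hn1
      rintro _ ⟨a, ha, rfl⟩ _ ⟨b, hb, rfl⟩
      rw [← map_mul, ← map_mul]
      congr 1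
      exact (Subgroup.mem_centralizer_iff.1 (hn1 hb) a ha)

/-- PROOF: `exists_char`, `exists_char_abelian` for `P`, mapped to `H`
(`ConjAct.normal_of_characteristic_of_normal`). -/
theorem exists_abelian {H : Type} [Group H] (htf : TorFree H) (P : Subgroup H) (hP : P.Normal)
    (hne : P ≠ ⊥) (h : VirtPolycyclic P) :
    ∃ A : Subgroup H, A ≤ P ∧ A.Normal ∧ A ≠ ⊥ ∧ A.FG ∧ ∀ a ∈ A, ∀ b ∈ A, a * b = b * a := by
  have htfP : TorFree P := by
    intro g k hk e
    exact Subtype.ext (htf g k hk (congrArg Subtype.val e))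
  have hnt : Nontrivial P := (Subgroup.nontrivial_iff_ne_bot P).2 hne
  obtain ⟨T, hT, hT1, hTs⟩ := exists_char htfP hnt h.1
  obtain ⟨A, hA, hA1, hab⟩ := exists_char_abelian T hT hT1 hTs
  refine ⟨A.map P.subtype, Subgroup.map_subtype_le A,
    ConjAct.normal_of_characteristic_of_normal, ?_, ?_, ?_⟩
  · rwa [Ne, Subgroup.map_eq_bot_iff_of_injective _ P.subtype_injective]
  · have h1 : Group.FG A := (Group.fg_iff_subgroup_fg A).2 (h.2 A)
    rw [← Group.fg_iff_subgroup_fg]
    exact Group.fg_of_surjective
      (f := (A.equivMapOfInjective P.subtype P.subtype_injective).toMonoidHom)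
      (A.equivMapOfInjective P.subtype P.subtype_injective).surjective
  · rintro _ ⟨a, ha, rfl⟩ _ ⟨b, hb, rfl⟩
    rw [← map_mul, ← map_mul, hab a ha b hb]

end Pool.Agent.W_3f1825_r40
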