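import Pool.Agent.W_3f1825_r40.GA
import Pool.Agent.W_3f1825_r40.GLatt
import Pool.Agent.W_3f1825_r40.GPoly

set_option autoImplicit false

/-! Case (b). -/

namespace Pool.Agent.W_3f1825_r40

open Pool.Agent.W_3f1825_h40

theorem virtGood_of_abelian {H : Type} [Group H] (htf : TorFree H)
    (A : Subgroup H) (hA : A.Normal) (hne : A ≠ ⊥) (hfg : A.FG)
    (hab : ∀ a ∈ A, ∀ b ∈ A, a * b = b * a)
    (hsep : ∀ g ∈ A, g ≠ 1 → ∃ K : Subgroup H, K.FiniteIndex ∧ g ∉ K) : VirtGood H := by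
  obtain ⟨r₀, X₀, hX₀⟩ := exists_ext htf A hab hfg
  obtain ⟨a, ha1⟩ := Subgroup.ne_bot_iff_exists_ne_one.1 hne
  have hr₀ : 1 ≤ r₀ := X₀.one_le (g := (a : H)) (fun e => ha1 (Subtype.ext e)) ((hX₀ _).1 a.2)
  obtain ⟨B, iB, r, X, ⟨hr, hirr⟩, hX⟩ := exists_irr htf X₀ hr₀
  obtain ⟨C⟩ := exists_cas hr hirr
  let v₀ : Fin r → ℤ := fun _ => 1
  have hz : X.a (C.δ ^ (2 * r) • v₀) ≠ 1 := by
    intro e
    have h1 : C.δ ^ (2 * r) • v₀ = 0 := X.a_inj (by rw [e, X.a_zero])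
    have h2 := congrFun h1 ⟨0, hr⟩
    have h3 : C.δ ^ (2 * r) = 0 := by simpa [v₀] using h2
    exact pow_ne_zero _ C.δ_ne h3
  obtain ⟨K, hK, hzK⟩ := hsep _ ((hX₀ _).2 (hX _)) hz
  let N := K.normalCore
  have hNn : N.Normal := Subgroup.normalCore_normal K
  have hNf : N.FiniteIndex := Subgroup.finiteIndex_normalCore K
  let Λ : AddSubgroup (Fin r → ℤ) :=
    { carrier := {v | X.a v ∈ N}
      zero_mem' := by
        change X.a 0 ∈ N
        rw [X.a_zero]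
        exact N.one_mem
      add_mem' := fun {v w} hv hw => by
        change X.a (v + w) ∈ N
        rw [X.a_add]
        exact N.mul_mem hv hw
      neg_mem' := fun {v} hv => by
        change X.a (-v) ∈ N
        rw [X.a_neg]
        exact N.inv_mem hv }
  have hΛ : ∀ v, v ∈ Λ ↔ X.a v ∈ N := fun v => Iff.rfl
  obtain ⟨D⟩ := exists_gapData (Λ := Λ) hr C hirr
    (fun g v hv => by
      rw [hΛ, ← X.conj_a]
      exact hNn.conj_mem _ hv g)
    ⟨N.index, hNf.index_ne_zero, fun v => by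
      rw [hΛ, X.a_nsmul]
      exact N.pow_index_mem _⟩
    ⟨v₀, fun hh => hzK (K.normalCore_le hh)⟩
  exact good_of_gap X htf N hNn hNf hΛ D

theorem virtGood_b {Γ : Type} [Group Γ] (htf : TorFree Γ) (h : VirtPolySep Γ) : VirtGood Γ := by
  obtain ⟨H, hH, P, hP, hP1, hvp, hsep⟩ := h
  obtain ⟨A, hAP, hA, hA1, hfg, hab⟩ := exists_abelian (htf.sub H) P hP hP1 hvp
  exact VirtGood.of_sub H
    (virtGood_of_abelian (htf.sub H) A hA hA1 hfg hab fun g hg => hsep g (hAP hg))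

theorem virtPolySep_of_resFin {Γ : Type} [Group Γ] (hrf : ResFin Γ) (h : VirtPolyNormal Γ) :
    VirtPolySep Γ := by
  obtain ⟨H, hH, P, hP, hP1, hvp⟩ := h
  exact ⟨H, hH, P, hP, hP1, hvp, fun g _ hg => resFin_sub hrf H g hg⟩

end Pool.Agent.W_3f1825_r40
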