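import Mathlib

set_option autoImplicit false

/-! Minkowski's lemma. -/

namespace Pool.Agent.W_3f1825_r40

/-- `(1 + X) ^ n = 1 + n X + X ^ 2 Q`. -/
theorem mink_pow {R : Type*} [Ring R] (X : R) (n : ℕ) :
    ∃ Q : R, (1 + X) ^ n = 1 + (n : R) * X + X * X * Q := by
  induction n with
  | zero => exact ⟨0, by simp⟩
  | succ n ih =>
    obtain ⟨Q, hQ⟩ := ih
    refine ⟨(n : R) + Q * (1 + X), ?_⟩
    rw [pow_succ, hQ]
    have h1 : X * X * (n : R) = (n : R) * X * X := by
      rw [← Nat.cast_comm n (X * X), mul_assoc]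
    push_cast
    rw [mul_add (X * X), h1]
    noncomm_ring

/-- One step: if `M = 1 + p ^ k C` with `k ≥ 2` and `M ^ p = 1` then `p ∣ C`. PROOF:
`(1 + p ^ k C) ^ p = ∑ choose p i p ^ (k i) C ^ i` (`Commute.add_pow`/`add_pow` for commuting
elements); the terms with `i ≥ 2` are divisible by `p ^ (2 k)`, and `2 k ≥ k + 2`; so
`p ^ (k + 1) C = -p ^ (k + 2) D`, and matrices over `ℤ` are torsion free. -/
theorem mink_step {r p : ℕ} (hp : p.Prime) (k : ℕ) (hk : 2 ≤ k)
    (M C : Matrix (Fin r) (Fin r) ℤ) (hC : M = 1 + ((p : ℤ) ^ k) • C) (hM : M ^ p = 1) :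
    ∃ D : Matrix (Fin r) (Fin r) ℤ, C = (p : ℤ) • D := by
  obtain ⟨Q, hQ⟩ := mink_pow (((p : ℤ) ^ k) • C) p
  rw [← hC, hM] at hQ
  obtain ⟨l, rfl⟩ : ∃ l, k = l + 2 := ⟨k - 2, by omega⟩
  have hp0 : ((p : ℤ) ^ (l + 3)) ≠ 0 := pow_ne_zero _ (by exact_mod_cast hp.ne_zero)
  have h1 : (p : Matrix (Fin r) (Fin r) ℤ) * ((p : ℤ) ^ (l + 2) • C) +
      ((p : ℤ) ^ (l + 2) • C) * ((p : ℤ) ^ (l + 2) • C) * Q = 0 := by
    have := hQ
    rw [add_assoc] at this
    exact (left_eq_add.mp this)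
  have h2 : ((p : ℤ) ^ (l + 3)) • (C + (p : ℤ) • (((p : ℤ) ^ l) • (C * C * Q))) = 0 := by
    rw [← h1, ← nsmul_eq_mul, smul_mul_smul_comm, smul_mul_assoc, smul_add, smul_smul, smul_smul,
      ← natCast_zsmul, smul_smul]
    congr 2
    · ring
    · ring
  have h3 : C + (p : ℤ) • (((p : ℤ) ^ l) • (C * C * Q)) = 0 := by
    ext i j
    have := congrFun (congrFun h2 i) j
    rw [Matrix.smul_apply, smul_eq_mul, Matrix.zero_apply] at this
    exact (mul_eq_zero.mp this).resolve_left hp0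
  refine ⟨-(((p : ℤ) ^ l) • (C * C * Q)), ?_⟩
  rw [smul_neg]
  exact eq_neg_of_add_eq_zero_left h3

/-- Minkowski's lemma. PROOF: by `mink_step` and induction `M - 1` is divisible by `p ^ k` for all
`k ≥ 2`; an integer divisible by all powers of `p` is `0`. -/
theorem mink {r p : ℕ} (hp : p.Prime) (M : Matrix (Fin r) (Fin r) ℤ) (hM : M ^ p = 1)
    (h : ∀ i j, ((p : ℤ) ^ 2) ∣ (M - 1) i j) : M = 1 := by
  have key : ∀ k : ℕ, ∀ i j, ((p : ℤ) ^ (k + 2)) ∣ (M - 1) i j := by
    intro k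
    induction k with
    | zero => exact h
    | succ k ih =>
      choose C hC using ih
      have hMC : M = 1 + ((p : ℤ) ^ (k + 2)) • (Matrix.of C) := by
        ext i j
        have := hC i j
        rw [Matrix.sub_apply] at this
        rw [Matrix.add_apply, Matrix.smul_apply, Matrix.of_apply, smul_eq_mul, ← this]
        ring
      obtain ⟨D, hD⟩ := mink_step hp (k + 2) (by omega) M (Matrix.of C) hMC hM
      intro i j
      refine ⟨D i j, ?_⟩
      rw [hC i j]
      have := congrFun (congrFun hD i) j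
      rw [Matrix.of_apply, Matrix.smul_apply, smul_eq_mul] at this
      rw [this]
      ring
  have h0 : M - 1 = 0 := by
    ext i j
    rw [Matrix.zero_apply]
    by_contra hne
    set n := ((M - 1) i j).natAbs with hn
    have hpos : 0 < n := Int.natAbs_pos.mpr hne
    have h1 := Int.natAbs_dvd_natAbs.mpr (key n i j)
    rw [← hn, Int.natAbs_pow, Int.natAbs_natCast] at h1
    have h2 := Nat.le_of_dvd hpos h1
    have h3 : n + 2 < p ^ (n + 2) := Nat.lt_pow_self hp.one_lt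
    omega
  exact sub_eq_zero.mp h0

end Pool.Agent.W_3f1825_r40
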