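import Pool.Agent.W_3f1825_r40.GQm
import Pool.Agent.W_3f1825_r40.Mink

set_option autoImplicit false

/-! Good data in coordinates, case (b). -/

namespace Pool.Agent.W_3f1825_r40

variable {G B : Type} [Group G] [Group B] {r : ℕ} (X : Ext G B r)

/-- Condition (TF) for `q = p`. PROOF: let `g = X.a a₀ * n` with `n ∈ N`, `u' = u + cv a₀ ∈ phiInf`,
`v' = v - ∑ ρ (n ^ i) a₀`; then `n ^ p = X.a v'` (`pow_a_mul`; `ρ g = ρ n`) and
`cv v' + ∑ lin (n ^ i) u' = 0`. `ρ n ^ p = ρ (X.a v') = 1`, so `ρ n = 1` (`mink`) and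
`v' = -p u'`. `R2` gives `Φ v' - v' = p z`, so `Φ u' - u'` is integral, so `Φ ^ k u' - u'` is integral
for all `k` (induction), so `u' = cv w` is integral. `v' = -p w` and `(X.a w * n) ^ p = 1`, so
`n = X.a (-w)` and `g = X.a (a₀ - w)`. -/
theorem tf_eq (htf : TorFree G) {p : ℕ} (hp : p.Prime) {Φ : Matrix (Fin r) (Fin r) ℤ}
    (N : Subgroup G) (hN : ∀ g, ∃ w, ∃ n ∈ N, g = X.a w * n)
    (R2 : ∀ v, X.a v ∈ N → ∃ z : Fin r → ℤ, Φ.mulVec v - v = p • z)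
    (hmod : ∀ g i j, ((p : ℤ) ^ 2) ∣ (X.ρ g - 1) i j) (g : G)
    {u : Fin r → ℚ} (hu : u ∈ phiInf p Φ) (v : Fin r → ℤ)
    (h1 : g ^ p = X.a v) (h2 : cv ℚ v + ∑ i ∈ Finset.range p, X.lin ℚ (g ^ i) u = 0) :
    ∃ w, g = X.a w := by
  obtain ⟨a₀, n, hn, rfl⟩ := hN g
  have hp0 : p ≠ 0 := hp.ne_zero
  have hpQ : (p : ℚ) ≠ 0 := by exact_mod_cast hp0
  have e0 : n ^ p = X.a (v - ∑ i ∈ Finset.range p, (X.ρ (n ^ i)).mulVec a₀) := by
    rw [X.pow_a_mul] at h1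
    rw [sub_eq_neg_add, X.a_add, X.a_neg, ← h1, inv_mul_cancel_left]
  have hρn : X.ρ n = 1 := by
    refine mink hp (X.ρ n) ?_ (hmod n)
    rw [← map_pow, e0, X.ρ_a]
  have hρi : ∀ i : ℕ, X.ρ (n ^ i) = 1 := fun i => by rw [map_pow, hρn, one_pow]
  have hlin : ∀ i : ℕ, X.lin ℚ ((X.a a₀ * n) ^ i) = 1 := by
    intro i
    rw [lin_eq_qm, map_pow, X.ρ_a_mul, hρn, one_pow, qm_one]
  have e1 : n ^ p = X.a (v - p • a₀) := by
    rw [e0]
    simp only [hρi, Matrix.one_mulVec, Finset.sum_const, Finset.card_range]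
  have e2 : cv ℚ v + p • u = 0 := by
    rw [← h2]
    simp only [hlin, Module.End.one_apply, Finset.sum_const, Finset.card_range]
  -- the vectors `u'`, `v'`
  obtain ⟨u', hu'⟩ : ∃ u' : Fin r → ℚ, u' = u + cv ℚ a₀ := ⟨_, rfl⟩
  obtain ⟨v', hv'⟩ : ∃ v' : Fin r → ℤ, v' = v - p • a₀ := ⟨_, rfl⟩
  rw [← hv'] at e1
  have e3 : cv ℚ v' = -(p • u') := by
    rw [hv', hu', cv_sub, cv_nsmul, smul_add, neg_add, eq_neg_of_add_eq_zero_left e2]
    abel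
  obtain ⟨z, hz⟩ := R2 v' (by rw [← e1]; exact N.pow_mem hn p)
  have e4 : qm Φ u' = u' + cv ℚ (-z) := by
    have h3 : qm Φ (cv ℚ v') - cv ℚ v' = p • cv ℚ z := by
      rw [qm_cv, ← cv_sub, hz, cv_nsmul]
    rw [e3, map_neg, map_nsmul] at h3
    have h4 : (p : ℚ) • (qm Φ u' - u' + cv ℚ z) = 0 := by
      rw [Nat.cast_smul_eq_nsmul, smul_add, smul_sub, ← h3]
      abel
    have h5 := (smul_eq_zero.1 h4).resolve_left hpQ
    rw [cv_neg, ← sub_eq_zero, ← h5]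
    abel
  have e5 : ∀ k : ℕ, ∃ w : Fin r → ℤ, qm (Φ ^ k) u' = u' + cv ℚ w := by
    intro k
    induction k with
    | zero => exact ⟨0, by rw [pow_zero, qm_one, Module.End.one_apply, cv_zero, add_zero]⟩
    | succ k ih =>
      obtain ⟨w, hw⟩ := ih
      refine ⟨w + (Φ ^ k).mulVec (-z), ?_⟩
      rw [pow_succ, qm_mul, Module.End.mul_apply, e4, map_add, hw, qm_cv, cv_add, add_assoc]
  have hu2 : u' ∈ phiInf p Φ := by
    rw [hu']
    refine (phiInf p Φ).add_mem hu ⟨⟨0, a₀, by rw [pow_zero, one_smul]⟩, 0, a₀, ?_⟩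
    rw [pow_zero, qm_one, Module.End.one_apply]
  obtain ⟨-, k, v₁, hk⟩ := hu2
  obtain ⟨w, hw⟩ := e5 k
  have e6 : u' = cv ℚ (v₁ - w) := by
    rw [cv_sub, ← hk, hw, add_sub_cancel_right]
  have e7 : v' = -(p • (v₁ - w)) := by
    apply cv_inj (K := ℚ)
    rw [e3, e6, cv_neg, cv_nsmul]
  have e8 : (X.a (v₁ - w) * n) ^ p = 1 := by
    rw [X.pow_a_mul, e1, ← X.a_add, e7]
    simp only [hρi, Matrix.one_mulVec, Finset.sum_const, Finset.card_range]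
    rw [add_neg_cancel, X.a_zero]
  have e9 := htf _ p hp0 e8
  refine ⟨a₀ - (v₁ - w), ?_⟩
  rw [sub_eq_add_neg, X.a_add, X.a_neg]
  congr 1
  exact eq_inv_of_mul_eq_one_right e9

/-- Case (b). PROOF: the previous lemmas. -/
theorem good_phi (htf : TorFree G) {p : ℕ} (hp : p.Prime) {Φ : Matrix (Fin r) (Fin r) ℤ}
    (hΦ : Φ.det ≠ 0) (hc : ∀ g, Φ * X.ρ g = X.ρ g * Φ)
    (R1 : ∃ v, ∀ w z, v ≠ Φ.mulVec w + p • z)
    (N : Subgroup G) (hN : ∀ g, ∃ w, ∃ n ∈ N, g = X.a w * n)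
    (R2 : ∀ v, X.a v ∈ N → ∃ z : Fin r → ℤ, Φ.mulVec v - v = p • z)
    (hmod : ∀ g i j, ((p : ℤ) ^ 2) ∣ (X.ρ g - 1) i j) : GoodData X p (phiInf p Φ) where
  prime := hp
  cv_mem v := ⟨⟨0, v, by rw [pow_zero, one_smul]⟩, 0, v, by
    rw [pow_zero, qm_one, Module.End.one_apply]⟩
  pow_mem u hu := hu.1
  inv g u hu := by
    obtain ⟨⟨k, v, hk⟩, l, w, hl⟩ := hu
    refine ⟨⟨k, (X.ρ g).mulVec v, ?_⟩, l, (X.ρ g).mulVec w, ?_⟩
    · rw [← map_nsmul, hk, X.lin_cv]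
    · have hcl : Φ ^ l * X.ρ g = X.ρ g * Φ ^ l := by
        have h1 : Commute Φ (X.ρ g) := hc g
        exact (h1.pow_left l).eq
      rw [lin_eq_qm, ← Module.End.mul_apply, ← qm_mul, hcl, qm_mul, Module.End.mul_apply, hl, qm_cv]
  unb m := phi_unb hp hΦ R1 m
  modp g i j := (dvd_pow_self _ two_ne_zero).trans (hmod g i j)
  tf := by
    intro q hq g u hu v h1 h2
    by_cases hqp : q = p
    · subst hqp
      exact tf_eq X htf hq N hN R2 hmod g hu v h1 h2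
    · exact tf_ne X htf hp hq hqp g hu.1 v h1 h2

end Pool.Agent.W_3f1825_r40
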