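import Pool.Agent.W_3f1825_r40.GExt
import Pool.Agent.W_3f1825_r40.GPhi

set_option autoImplicit false

/-! Case (b), without coordinates. -/

namespace Pool.Agent.W_3f1825_r40

/-- PROOF: let `X` be the extension of `exists_ext`. Let `Φ` be the matrix with
`φ (X.a v) = X.a (Φ.mulVec v)` (an additive map `(Fin r → ℤ) →+ (Fin r → ℤ)` is given by a matrix:
`AddMonoidHom.toIntLinearMap`, `LinearMap.toMatrix'`). `Φ` is injective, so `det Φ ≠ 0`
(`Matrix.mulVec_injective`... or `LinearMap.det`: `Matrix.exists_mulVec_eq_zero_iff`); it commutes with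
`X.ρ g` by `hφc` and `conj_a`. Apply `good_phi`. -/
theorem good_of_phi {G : Type} [Group G] (htf : TorFree G) (A : Subgroup G) (hn : A.Normal)
    (hab : ∀ a ∈ A, ∀ b ∈ A, a * b = b * a) (hfg : A.FG) {p : ℕ} (hp : p.Prime) (φ : A →* A)
    (hφ : Function.Injective φ)
    (hφc : ∀ (g : G) (a b : A), (b : G) = g * a * g⁻¹ → (φ b : G) = g * φ a * g⁻¹)
    (R1 : ∃ a : A, ∀ b d : A, a ≠ φ b * d ^ p) (N : Subgroup G)
    (hN : ∀ g : G, ∃ w ∈ A, ∃ n ∈ N, g = w * n)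
    (R2 : ∀ a : A, (a : G) ∈ N → ∃ d : A, φ a = a * d ^ p)
    (hmod : ∀ (g : G) (a : A), ∃ d : A, g * a * g⁻¹ = a * (d : G) ^ (p ^ 2)) : IsGood G := by
  obtain ⟨r, X, hX⟩ := exists_ext htf A hab hfg
  have hmem : ∀ v, X.a v ∈ A := fun v => (hX _).2 ⟨v, rfl⟩
  have hf : ∀ v, ∃ w, (φ ⟨X.a v, hmem v⟩ : G) = X.a w := fun v => (hX _).1 (φ _).2
  choose f hf using hf
  have hA : ∀ a : A, ∃ v, a = ⟨X.a v, hmem v⟩ := by
    intro a
    obtain ⟨v, hv⟩ := (hX _).1 a.2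
    exact ⟨v, Subtype.ext hv⟩
  have hφf : ∀ v, φ ⟨X.a v, hmem v⟩ = ⟨X.a (f v), hmem (f v)⟩ := fun v => Subtype.ext (hf v)
  have hadd : ∀ v w, f (v + w) = f v + f w := by
    intro v w
    apply X.a_inj
    rw [← hf, X.a_add (f v), ← hf, ← hf, ← Subgroup.coe_mul, ← map_mul]
    congr 2
    exact Subtype.ext (X.a_add v w)
  let F : (Fin r → ℤ) →+ (Fin r → ℤ) := AddMonoidHom.mk' f hadd
  let Φ : Matrix (Fin r) (Fin r) ℤ := LinearMap.toMatrix' F.toIntLinearMap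
  have hΦ : ∀ v, Φ.mulVec v = f v := by
    intro v
    exact LinearMap.toMatrix'_mulVec _ _
  refine ⟨G ⧸ A, inferInstance, r, X, p, phiInf p Φ, good_phi X htf hp ?_ ?_ ?_ N ?_ ?_ ?_⟩
  · intro hdet
    obtain ⟨v, hv, hv0⟩ := Matrix.exists_mulVec_eq_zero_iff.2 hdet
    apply hv
    rw [hΦ] at hv0
    apply X.a_inj
    have h1 : φ ⟨X.a v, hmem v⟩ = φ 1 := by
      rw [map_one, hφf]
      apply Subtype.ext
      change X.a (f v) = 1
      rw [hv0, X.a_zero]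
    rw [X.a_zero]
    exact congrArg Subtype.val (hφ h1)
  · intro g
    apply Matrix.mulVec_injective
    funext w
    rw [← Matrix.mulVec_mulVec, ← Matrix.mulVec_mulVec, hΦ, hΦ]
    apply X.a_inj
    have h1 := hφc g ⟨X.a w, hmem w⟩ ⟨X.a ((X.ρ g).mulVec w), hmem _⟩ (X.conj_a g w).symm
    rw [hφf, hφf] at h1
    change X.a (f _) = g * X.a (f w) * g⁻¹ at h1
    rw [h1, X.conj_a]
  · obtain ⟨a, ha⟩ := R1
    obtain ⟨v, rfl⟩ := hA a
    refine ⟨v, fun w z e => ha ⟨X.a w, hmem w⟩ ⟨X.a z, hmem z⟩ ?_⟩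
    apply Subtype.ext
    rw [hφf]
    change X.a v = X.a (f w) * X.a z ^ p
    rw [e, hΦ, X.a_add, X.a_nsmul]
  · intro g
    obtain ⟨w, hw, n, hn, rfl⟩ := hN g
    obtain ⟨v, rfl⟩ := (hX _).1 hw
    exact ⟨v, n, hn, rfl⟩
  · intro v hv
    obtain ⟨d, hd⟩ := R2 ⟨X.a v, hmem v⟩ hv
    obtain ⟨z, rfl⟩ := hA d
    refine ⟨z, ?_⟩
    have h1 : X.a (f v) = X.a v * X.a z ^ p := by
      rw [hφf] at hd
      exact congrArg Subtype.val hd
    rw [← X.a_nsmul, ← X.a_add] at h1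
    rw [hΦ, X.a_inj h1, add_sub_cancel_left]
  · intro g i j
    obtain ⟨d, hd⟩ := hmod g ⟨X.a (Pi.single j 1), hmem _⟩
    obtain ⟨z, rfl⟩ := hA d
    have h1 : X.a ((X.ρ g).mulVec (Pi.single j 1)) = X.a (Pi.single j 1) * X.a z ^ (p ^ 2) := by
      rw [← X.conj_a]
      exact hd
    rw [← X.a_nsmul, ← X.a_add] at h1
    have h2 := congrFun (X.a_inj h1) i
    rw [Matrix.mulVec_single_one, Matrix.col_apply, Pi.add_apply, Pi.smul_apply,
      nsmul_eq_mul] at h2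
    refine ⟨z i, ?_⟩
    rw [Matrix.sub_apply, h2, Matrix.one_apply, Pi.single_apply]
    push_cast
    ring

end Pool.Agent.W_3f1825_r40
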