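import Pool.Agent.W_3f1825_r40.GPoly

set_option autoImplicit false

/-! Virtually polycyclic groups have no elements of large prime order. -/

namespace Pool.Agent.W_3f1825_r40

/-- There are no elements of order `p` for large primes `p`. -/
def LargeP (G : Type) [Group G] : Prop :=
  ∃ N : ℕ, ∀ p, N < p → p.Prime → ∀ x : G, x ^ p = 1 → x = 1

theorem large_abelian (A : Type) [CommGroup A] (h : Group.FG A) : LargeP A := by
  let T : Subgroup A := CommGroup.torsion A
  have h0 : AddGroup.FG (Additive A) := inferInstance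
  have h1 : Module.Finite ℤ (Additive A) := Module.Finite.iff_addGroup_fg.2 h0
  have h2 : (AddSubgroup.toIntSubmodule (Subgroup.toAddSubgroup T)).FG :=
    IsNoetherian.noetherian _
  rw [Submodule.fg_iff_addSubgroup_fg] at h2
  have h3 : (Subgroup.toAddSubgroup T).FG := h2
  have h4 : T.FG := (Subgroup.fg_iff_add_fg T).2 h3
  have h5 : Group.FG T := (Group.fg_iff_subgroup_fg T).2 h4
  have h6 : Finite T := by
    refine CommGroup.finite_of_fg_isMulTorsion T ?_
    intro x
    have hx : IsOfFinOrder (x : A) := x.2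
    obtain ⟨k, hk, e⟩ := isOfFinOrder_iff_pow_eq_one.1 hx
    exact isOfFinOrder_iff_pow_eq_one.2 ⟨k, hk, Subtype.ext e⟩
  refine ⟨Nat.card T, fun p hp hpp x hx => ?_⟩
  have hxT : x ∈ T := isOfFinOrder_iff_pow_eq_one.2 ⟨p, hpp.pos, hx⟩
  have h7 : orderOf (⟨x, hxT⟩ : T) ∣ Nat.card T := orderOf_dvd_natCard _
  have h8 : orderOf (⟨x, hxT⟩ : T) ∣ p := orderOf_dvd_of_pow_eq_one (Subtype.ext hx)
  rcases (Nat.dvd_prime hpp).1 h8 with h9 | h9
  · exact congrArg Subtype.val (orderOf_eq_one_iff.1 h9)
  · rw [h9] at h7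
    exact absurd (Nat.le_of_dvd Nat.card_pos h7) (by omega)

theorem derived_commutator (C : Type) [Group C] (k : ℕ) :
    (derivedSeries (commutator C) k).map (commutator C).subtype = derivedSeries C (k + 1) := by
  induction k with
  | zero =>
    rw [derivedSeries_zero, ← MonoidHom.range_eq_map, Subgroup.range_subtype, derivedSeries_one]
  | succ k ih =>
    rw [derivedSeries_succ, Subgroup.map_commutator, ih]
    exact (derivedSeries_succ C (k + 1)).symm

theorem fg_sub {C : Type} [Group C] (h : ∀ Q : Subgroup C, Q.FG) (K : Subgroup C)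
    (Q : Subgroup K) : Q.FG := by
  have h1 := h (Q.map K.subtype)
  rw [← Group.fg_iff_subgroup_fg] at h1 ⊢
  exact Group.fg_of_surjective
    (f := (Q.equivMapOfInjective K.subtype K.subtype_injective).symm.toMonoidHom)
    (Q.equivMapOfInjective K.subtype K.subtype_injective).symm.surjective

theorem large_solvable (n : ℕ) : ∀ (C : Type) [Group C], derivedSeries C n = ⊥ →
    (∀ Q : Subgroup C, Q.FG) → LargeP C := by
  induction n with
  | zero =>
    intro C iC h _
    refine ⟨0, fun p _ _ x _ => ?_⟩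
    rw [derivedSeries_zero] at h
    have h1 : x ∈ (⊤ : Subgroup C) := Subgroup.mem_top x
    rwa [h, Subgroup.mem_bot] at h1
  | succ n ih =>
    intro C iC h hfg
    have h1 : derivedSeries (commutator C) n = ⊥ := by
      rw [← Subgroup.map_eq_bot_iff_of_injective _ (commutator C).subtype_injective,
        derived_commutator, h]
    obtain ⟨N₁, hN₁⟩ := ih (commutator C) h1 (fg_sub hfg _)
    have h2 : Group.FG C := by
      have := hfg ⊤
      exact Group.fg_def.2 this
    have h3 : Group.FG (Abelianization C) :=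
      Group.fg_of_surjective (f := Abelianization.of) (QuotientGroup.mk'_surjective _)
    obtain ⟨N₂, hN₂⟩ := large_abelian (Abelianization C) h3
    refine ⟨max N₁ N₂, fun p hp hpp x hx => ?_⟩
    have h4 : Abelianization.of x = 1 := by
      refine hN₂ p (lt_of_le_of_lt (le_max_right _ _) hp) hpp _ ?_
      rw [← map_pow, hx, map_one]
    have h5 : x ∈ commutator C := by
      rw [← Abelianization.ker_of]
      exact h4
    have h6 := hN₁ p (lt_of_le_of_lt (le_max_left _ _) hp) hpp ⟨x, h5⟩ (Subtype.ext hx)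
    exact congrArg Subtype.val h6

theorem large_poly {Q : Type} [Group Q] (h : VirtPolycyclic Q) : LargeP Q := by
  obtain ⟨⟨S, hS, hs⟩, hfg⟩ := h
  obtain ⟨n, hn⟩ := hs.solvable
  obtain ⟨N, hN⟩ := large_solvable n S hn (fg_sub hfg S)
  have hm : S.normalCore.index ≠ 0 := Subgroup.FiniteIndex.index_ne_zero
  refine ⟨max N S.normalCore.index, fun p hp hpp x hx => ?_⟩
  have h1 : x ^ S.normalCore.index ∈ S := S.normalCore_le (S.normalCore.pow_index_mem x)
  have h2 := hN p (lt_of_le_of_lt (le_max_left _ _) hp) hpp ⟨_, h1⟩ (Subtype.ext (by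
    rw [Subgroup.coe_pow]
    change (x ^ S.normalCore.index) ^ p = 1
    rw [← pow_mul, mul_comm, pow_mul, hx, one_pow]))
  have h3 : x ^ S.normalCore.index = 1 := congrArg Subtype.val h2
  have h4 : Nat.Coprime p S.normalCore.index := by
    rw [Nat.Prime.coprime_iff_not_dvd hpp]
    intro hd
    exact absurd (Nat.le_of_dvd (Nat.pos_of_ne_zero hm) hd)
      (not_le.2 (lt_of_le_of_lt (le_max_right _ _) hp))
  have h5 : orderOf x ∣ 1 := by
    rw [← h4]
    exact Nat.dvd_gcd (orderOf_dvd_of_pow_eq_one hx) (orderOf_dvd_of_pow_eq_one h3)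
  exact orderOf_eq_one_iff.1 (Nat.dvd_one.1 h5)

theorem VirtPolycyclic.quot {P Q : Type} [Group P] [Group Q] (f : P →* Q)
    (hf : Function.Surjective f) (h : VirtPolycyclic P) : VirtPolycyclic Q := by
  obtain ⟨⟨S, hS, hs⟩, hfg⟩ := h
  refine ⟨⟨S.map f, ⟨?_⟩, ?_⟩, fun K => ?_⟩
  · intro h0
    have h1 := Subgroup.index_map_dvd S hf
    rw [h0] at h1
    exact hS.index_ne_zero (zero_dvd_iff.1 h1)
  · exact Group.isSolvable_of_surjective (f := f.subgroupMap S)
      (f.subgroupMap_surjective S)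
  · have h1 := hfg (K.comap f)
    have h2 : (K.comap f).map f = K := Subgroup.map_comap_eq_self_of_surjective hf K
    rw [← Group.fg_iff_subgroup_fg] at h1
    rw [← h2, ← Group.fg_iff_subgroup_fg]
    exact Group.fg_of_surjective (f := f.subgroupMap (K.comap f)) (f.subgroupMap_surjective _)

theorem virtAb_of_noTorsion {Γ : Type} [Group Γ] (htf : TorFree Γ) (h : VirtPolyNoTorsion Γ) :
    VirtAbNormal Γ := by
  obtain ⟨H, hH, P, hP, hP1, hvp, h⟩ := h
  rcases h with h | ⟨hab, p, hp, hpP⟩
  · have htfH : TorFree H := by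
      intro g k hk e
      exact Subtype.ext (htf g k hk (congrArg Subtype.val e))
    obtain ⟨A, hAP, hA, hA1, hfg, hab⟩ := exists_abelian htfH P hP hP1 hvp
    have hAn : (A.subgroupOf P).Normal := hA.subgroupOf P
    obtain ⟨N, hN⟩ := large_poly (hvp.quot (QuotientGroup.mk' (A.subgroupOf P))
      (QuotientGroup.mk'_surjective _))
    obtain ⟨p, hNp, hp, hpP⟩ := h N
    refine ⟨H, hH, A, hA, hA1, hfg, hab, p, hp, fun x hx => ?_⟩
    have h1 : x ∈ P := hpP x (hAP hx)
    have h2 := hN p hNp hp (QuotientGroup.mk' (A.subgroupOf P) ⟨x, h1⟩) (by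
      rw [← map_pow, QuotientGroup.mk'_apply, QuotientGroup.eq_one_iff, Subgroup.mem_subgroupOf]
      exact hx)
    rw [QuotientGroup.mk'_apply, QuotientGroup.eq_one_iff, Subgroup.mem_subgroupOf] at h2
    exact h2
  · refine ⟨H, hH, P, hP, hP1, ?_, hab, p, hp, hpP⟩
    have h1 := hvp.2 ⊤
    rw [← Group.fg_iff_subgroup_fg]
    exact Group.fg_def.2 h1

end Pool.Agent.W_3f1825_r40
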