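import Pool.Agent.W_3f1825_r40.GTf

set_option autoImplicit false

/-! The group `A_∞` defined by a matrix. -/

namespace Pool.Agent.W_3f1825_r40

variable {G B : Type} [Group G] [Group B] {r : ℕ} (X : Ext G B r)

/-- The matrix as an endomorphism of `ℚ ^ r`. -/
noncomputable def qm (Φ : Matrix (Fin r) (Fin r) ℤ) : (Fin r → ℚ) →ₗ[ℚ] (Fin r → ℚ) :=
  (Φ.map (Int.cast : ℤ → ℚ)).mulVecLin

theorem qm_apply (Φ : Matrix (Fin r) (Fin r) ℤ) (u : Fin r → ℚ) :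
    qm Φ u = (Φ.map (Int.cast : ℤ → ℚ)).mulVec u := rfl

theorem qm_cv (Φ : Matrix (Fin r) (Fin r) ℤ) (v : Fin r → ℤ) :
    qm Φ (cv ℚ v) = cv ℚ (Φ.mulVec v) := by
  funext i
  simp [qm_apply, cv, Matrix.mulVec, dotProduct]

theorem qm_mul (Φ Ψ : Matrix (Fin r) (Fin r) ℤ) : qm (Φ * Ψ) = qm Φ * qm Ψ := by
  refine LinearMap.ext fun u => ?_
  rw [Module.End.mul_apply, qm_apply, qm_apply, qm_apply, Matrix.mulVec_mulVec]
  congr 1
  exact Matrix.map_mul (f := Int.castRingHom ℚ)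

theorem qm_one : qm (1 : Matrix (Fin r) (Fin r) ℤ) = 1 := by
  refine LinearMap.ext fun u => ?_
  rw [qm_apply, Matrix.map_one _ Int.cast_zero Int.cast_one, Matrix.one_mulVec]
  rfl

theorem qm_pow (Φ : Matrix (Fin r) (Fin r) ℤ) (k : ℕ) : qm (Φ ^ k) = qm Φ ^ k := by
  induction k with
  | zero => rw [pow_zero, pow_zero, qm_one]
  | succ k ih => rw [pow_succ, pow_succ, qm_mul, ih]

theorem lin_eq_qm (g : G) : X.lin ℚ g = qm (X.ρ g) := rfl

/-- `A_∞ = {u ∈ ℤ[1/p] ^ r | Φ ^ k u ∈ ℤ ^ r for some k}`. -/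
def phiInf (p : ℕ) (Φ : Matrix (Fin r) (Fin r) ℤ) : AddSubgroup (Fin r → ℚ) where
  carrier := {u | u ∈ Zinv p r ∧ ∃ (k : ℕ) (v : Fin r → ℤ), qm (Φ ^ k) u = cv ℚ v}
  zero_mem' := ⟨(Zinv p r).zero_mem, 0, 0, by rw [map_zero, cv_zero]⟩
  add_mem' := by
    rintro a b ⟨ha, k, v, hk⟩ ⟨hb, l, w, hl⟩
    refine ⟨(Zinv p r).add_mem ha hb, k + l, (Φ ^ l).mulVec v + (Φ ^ k).mulVec w, ?_⟩
    rw [cv_add, ← qm_cv, ← qm_cv, ← hk, ← hl, map_add, pow_add]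
    congr 1
    · rw [← Module.End.mul_apply, ← qm_mul, ← pow_add, ← pow_add, add_comm]
    · rw [← Module.End.mul_apply, ← qm_mul]
  neg_mem' := by
    rintro a ⟨ha, k, v, hk⟩
    exact ⟨(Zinv p r).neg_mem ha, k, -v, by rw [map_neg, hk, cv_neg]⟩

/-- Surjectivity of `Φ` on `ℤ[1/p] ^ r / ℤ ^ r`. PROOF: let `det Φ = p ^ m d'` with `d'` prime to
`p`, `p ^ k u` integral. With `a d' + b p ^ k = 1`, `u ≡ a d' u` modulo `ℤ ^ r`, and
`a d' u = Φ (adj Φ (a u / p ^ m))`; put `w = adj Φ (a / p ^ m u)` (`Matrix.mul_adjugate`). -/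
theorem phi_surj {p : ℕ} (hp : p.Prime) {Φ : Matrix (Fin r) (Fin r) ℤ} (hΦ : Φ.det ≠ 0)
    {u : Fin r → ℚ} (hu : u ∈ Zinv p r) : ∃ w ∈ Zinv p r, ∃ v : Fin r → ℤ, qm Φ w = u + cv ℚ v := by
  obtain ⟨k, v0, hk⟩ := hu
  have hp' : Prime (p : ℤ) := Nat.prime_iff_prime_int.1 hp
  have hfin : FiniteMultiplicity (p : ℤ) Φ.det :=
    Int.finiteMultiplicity_iff.2 ⟨by simpa using hp.one_lt.ne', hΦ⟩
  obtain ⟨d, hd, hnd⟩ := hfin.exists_eq_pow_mul_and_not_dvd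
  generalize multiplicity (p : ℤ) Φ.det = m at hd
  have hcop : IsCoprime d ((p : ℤ) ^ k) := by
    refine IsCoprime.pow_right ?_
    exact ((hp'.coprime_iff_not_dvd).2 hnd).symm
  obtain ⟨a, b, hab⟩ := hcop
  have hp0 : (p : ℚ) ≠ 0 := by exact_mod_cast hp.ne_zero
  have hk' : (p : ℚ) ^ k • u = cv ℚ v0 := by
    rw [← hk, ← Nat.cast_smul_eq_nsmul ℚ, Nat.cast_pow]
  set y : Fin r → ℚ := ((a : ℚ) * ((p : ℚ) ^ m)⁻¹) • u with hy
  refine ⟨qm Φ.adjugate y, ⟨k + m, Φ.adjugate.mulVec (a • v0), ?_⟩, -(b • v0), ?_⟩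
  · rw [← qm_cv, ← Nat.cast_smul_eq_nsmul ℚ, Nat.cast_pow, ← map_smul]
    congr 1
    rw [hy, smul_smul, cv_zsmul, ← hk', ← Int.cast_smul_eq_zsmul ℚ, smul_smul]
    congr 1
    rw [pow_add]
    field_simp
  · rw [← Module.End.mul_apply, ← qm_mul, Matrix.mul_adjugate, qm_apply]
    have e1 : (Φ.det • (1 : Matrix (Fin r) (Fin r) ℤ)).map (Int.cast : ℤ → ℚ)
        = (Φ.det : ℚ) • (1 : Matrix (Fin r) (Fin r) ℚ) := by
      ext i j
      rw [Matrix.map_apply, Matrix.smul_apply, Matrix.smul_apply, Matrix.one_apply,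
        Matrix.one_apply]
      split_ifs <;> simp
    rw [e1, Matrix.smul_mulVec, Matrix.one_mulVec, hy, smul_smul, cv_neg, cv_zsmul, ← hk',
      ← Int.cast_smul_eq_zsmul ℚ, smul_smul, ← neg_smul]
    have e2 : u + (-((b : ℚ) * (p : ℚ) ^ k)) • u = (1 + -((b : ℚ) * (p : ℚ) ^ k)) • u := by
      rw [add_smul, one_smul]
    rw [e2]
    congr 1
    have h3 : (a : ℚ) * d + b * (p : ℚ) ^ k = 1 := by exact_mod_cast hab
    have h4 : (Φ.det : ℚ) = (p : ℚ) ^ m * d := by exact_mod_cast hd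
    rw [h4]
    have hpm : (p : ℚ) ^ m ≠ 0 := pow_ne_zero _ hp0
    field_simp
    linarith

theorem cv_zmod_zero {n : ℕ} {v : Fin r → ℤ} (h : cv (ZMod n) v = 0) :
    ∃ z : Fin r → ℤ, v = n • z := by
  have h1 : ∀ i, (n : ℤ) ∣ v i := fun i => by
    have := congrFun h i
    exact (ZMod.intCast_zmod_eq_zero_iff_dvd (v i) n).1 this
  choose z hz using h1
  refine ⟨z, ?_⟩
  funext i
  rw [hz i, Pi.smul_apply, nsmul_eq_mul]

theorem cv_zmod_surj {n : ℕ} (y : Fin r → ZMod n) : ∃ v : Fin r → ℤ, cv (ZMod n) v = y := by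
  have h1 : ∀ i, ∃ a : ℤ, (a : ZMod n) = y i := fun i => ZMod.intCast_surjective (y i)
  choose v hv using h1
  exact ⟨v, funext hv⟩

theorem cv_mulVec {K : Type} [CommRing K] (Φ : Matrix (Fin r) (Fin r) ℤ) (v : Fin r → ℤ) :
    (Φ.map (Int.cast : ℤ → K)).mulVec (cv K v) = cv K (Φ.mulVec v) := by
  funext i
  simp [cv, Matrix.mulVec, dotProduct]

/-- PROOF: `Φ` modulo `p` is a linear endomorphism of `(ZMod p) ^ r` which is not surjective, so not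
injective (`LinearMap.injective_iff_surjective`): lift a non-zero vector of the kernel. -/
theorem phi_ker {p : ℕ} (hp : p.Prime) {Φ : Matrix (Fin r) (Fin r) ℤ}
    (R1 : ∃ v, ∀ w z, v ≠ Φ.mulVec w + p • z) :
    ∃ v z : Fin r → ℤ, Φ.mulVec v = p • z ∧ ∀ w : Fin r → ℤ, v ≠ p • w := by
  have : Fact p.Prime := ⟨hp⟩
  obtain ⟨v, hv⟩ := R1
  set f : (Fin r → ZMod p) →ₗ[ZMod p] (Fin r → ZMod p) :=
    (Φ.map (Int.cast : ℤ → ZMod p)).mulVecLin with hf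
  have hns : ¬ Function.Surjective f := by
    intro hs
    obtain ⟨y, hy⟩ := hs (cv (ZMod p) v)
    obtain ⟨w, rfl⟩ := cv_zmod_surj y
    have h1 : cv (ZMod p) (v - Φ.mulVec w) = 0 := by
      rw [cv_sub, ← hy, hf, Matrix.mulVecLin_apply, cv_mulVec, sub_self]
    obtain ⟨z, hz⟩ := cv_zmod_zero h1
    exact hv w z (by rw [← hz]; abel)
  have hni : ¬ Function.Injective f := fun hi => hns (LinearMap.injective_iff_surjective.1 hi)
  rw [← LinearMap.ker_eq_bot, Submodule.eq_bot_iff] at hni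
  push Not at hni
  obtain ⟨y, hy, hy0⟩ := hni
  obtain ⟨w, rfl⟩ := cv_zmod_surj y
  have h1 : cv (ZMod p) (Φ.mulVec w) = 0 := by
    rw [← cv_mulVec, ← Matrix.mulVecLin_apply, ← hf]
    exact hy
  obtain ⟨z, hz⟩ := cv_zmod_zero h1
  refine ⟨w, z, hz, fun x hx => hy0 ?_⟩
  rw [hx, cv_nsmul]
  funext i
  simp

/-- PROOF: by `phi_ker` there is `u₀ = v / p`, not integral, with `Φ u₀` integral; by `phi_surj`
there are `u (k + 1)` in `ℤ[1/p] ^ r` with `Φ (u (k + 1)) ≡ u k` modulo `ℤ ^ r`. So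
`Φ ^ k (u k) ≡ u₀` is not integral and `Φ ^ (k + 1) (u k)` is integral; in particular
`u k ∈ phiInf`. If `p ^ m` maps `phiInf` into `ℤ ^ r` then by pigeonhole (the vectors `p ^ m u k`
modulo `p ^ m`) there are `k < l` with `u k - u l` integral; then `Φ ^ (k + 1) (u l)` and so
`Φ ^ l (u l)` is integral, a contradiction. -/
theorem phi_unb {p : ℕ} (hp : p.Prime) {Φ : Matrix (Fin r) (Fin r) ℤ} (hΦ : Φ.det ≠ 0)
    (R1 : ∃ v, ∀ w z, v ≠ Φ.mulVec w + p • z) (m : ℕ) :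
    ∃ u ∈ phiInf p Φ, ∀ v : Fin r → ℤ, p ^ m • u ≠ cv ℚ v := by
  obtain ⟨v0, z0, hv0, hnd⟩ := phi_ker hp R1
  have hp0 : (p : ℚ) ≠ 0 := by exact_mod_cast hp.ne_zero
  set u0 : Fin r → ℚ := (p : ℚ)⁻¹ • cv ℚ v0 with hu0
  have hu0p : p • u0 = cv ℚ v0 := by
    rw [hu0, ← Nat.cast_smul_eq_nsmul ℚ, smul_smul, mul_inv_cancel₀ hp0, one_smul]
  have hu0Z : u0 ∈ Zinv p r := ⟨1, v0, by rw [pow_one, hu0p]⟩
  have hu0Φ : qm Φ u0 = cv ℚ z0 := by
    rw [hu0, map_smul, qm_cv, hv0, cv_nsmul, ← Nat.cast_smul_eq_nsmul ℚ, smul_smul,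
      inv_mul_cancel₀ hp0, one_smul]
  have hu0n : ∀ c d : Fin r → ℤ, u0 + cv ℚ c ≠ cv ℚ d := by
    intro c d h
    have h1 : u0 = cv ℚ (d - c) := by rw [cv_sub, ← h, add_sub_cancel_right]
    apply hnd (d - c)
    apply cv_inj (K := ℚ)
    rw [cv_nsmul, ← h1, hu0p]
  -- the sequence
  choose! nx hnx1 cx hnx2 using fun (u : Fin r → ℚ) (hu : u ∈ Zinv p r) => phi_surj hp hΦ hu
  set u : ℕ → Fin r → ℚ := fun k => nx^[k] u0 with hu
  have hus : ∀ k, u (k + 1) = nx (u k) := fun k => by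
    rw [hu]
    exact Function.iterate_succ_apply' nx k u0
  have huZ : ∀ k, u k ∈ Zinv p r := by
    intro k
    induction k with
    | zero => exact hu0Z
    | succ k ih => rw [hus]; exact hnx1 _ ih
  have hstep : ∀ k, qm Φ (u (k + 1)) = u k + cv ℚ (cx (u k)) := fun k => by
    rw [hus]
    exact hnx2 _ (huZ k)
  have h1 : ∀ k, ∃ c, qm (Φ ^ k) (u k) = u0 + cv ℚ c := by
    intro k
    induction k with
    | zero => exact ⟨0, by rw [pow_zero, qm_one, cv_zero, add_zero]; rfl⟩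
    | succ k ih =>
      obtain ⟨c, hc⟩ := ih
      refine ⟨c + (Φ ^ k).mulVec (cx (u k)), ?_⟩
      rw [pow_succ, qm_mul, Module.End.mul_apply, hstep, map_add, hc, qm_cv, cv_add, add_assoc]
  have h2 : ∀ k, ∃ c, qm (Φ ^ (k + 1)) (u k) = cv ℚ c := by
    intro k
    obtain ⟨c, hc⟩ := h1 k
    refine ⟨z0 + Φ.mulVec c, ?_⟩
    rw [pow_succ', qm_mul, Module.End.mul_apply, hc, map_add, hu0Φ, qm_cv, cv_add]
  have h3 : ∀ k, u k ∈ phiInf p Φ := fun k => by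
    obtain ⟨c, hc⟩ := h2 k
    exact ⟨huZ k, k + 1, c, hc⟩
  by_contra hcon
  push Not at hcon
  choose x hx using fun k => hcon (u k) (h3 k)
  have : NeZero (p ^ m) := ⟨pow_ne_zero _ hp.ne_zero⟩
  obtain ⟨k, l, hkl, he⟩ :=
    Finite.exists_ne_map_eq_of_infinite fun k => cv (ZMod (p ^ m)) (x k)
  have key : ∀ k l : ℕ, k < l → cv (ZMod (p ^ m)) (x k) = cv (ZMod (p ^ m)) (x l) → False := by
    intro k l hkl he
    have h4 : cv (ZMod (p ^ m)) (x k - x l) = 0 := by rw [cv_sub, he, sub_self]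
    obtain ⟨y, hy⟩ := cv_zmod_zero h4
    have h5 : u k - u l = cv ℚ y := by
      have h6 : (p ^ m) • (u k - u l) = (p ^ m) • cv ℚ y := by
        rw [smul_sub, hx, hx, ← cv_sub, hy, cv_nsmul]
      rw [← Nat.cast_smul_eq_nsmul ℚ, ← Nat.cast_smul_eq_nsmul ℚ] at h6
      have h7 : ((p ^ m : ℕ) : ℚ) ≠ 0 := by exact_mod_cast pow_ne_zero m hp.ne_zero
      exact smul_right_injective _ h7 h6
    obtain ⟨c, hc⟩ := h1 l
    obtain ⟨d, hd⟩ := h2 k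
    have h8 : u l = u k - cv ℚ y := by rw [← h5]; abel
    refine hu0n c ((Φ ^ (l - (k + 1))).mulVec d - (Φ ^ l).mulVec y) ?_
    rw [← hc, cv_sub, ← qm_cv, ← qm_cv, ← hd, ← Module.End.mul_apply, ← qm_mul, ← pow_add,
      show l - (k + 1) + (k + 1) = l by omega, ← map_sub, ← h8]
  rcases lt_or_gt_of_ne hkl with h | h
  · exact key k l h he
  · exact key l k h he.symm

end Pool.Agent.W_3f1825_r40
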