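import Mathlib

set_option autoImplicit false

/-! Gaps between elementary divisors. -/

namespace Pool.Agent.W_3f1825_r40

/-- PROOF: by induction on `j` there is `t ≤ 2 c j` such that all `s l ≤ t` or at least `j` indices
have `s l ≤ t`, or the conclusion holds: given `t` with some `s l > t`, either no `l` has
`t < s l ≤ t + 2 c` and the conclusion holds for `t`, or `t + 2 c` has one more index below it. At
`j = r` all `s l ≤ 2 c r`, a contradiction. -/
theorem exists_gap {r : ℕ} (s : Fin r → ℕ) (c : ℕ) (h : ∃ l, 2 * c * r < s l) :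
    ∃ t, (∀ l, s l ≤ t ∨ t + (2 * c + 1) ≤ s l) ∧ ∃ l, t + (2 * c + 1) ≤ s l := by
  obtain ⟨l₀, hl₀⟩ := h
  by_contra hne
  push Not at hne
  have hbig : ∀ j : Fin r, 2 * c * (j : ℕ) + (2 * c + 1) ≤ s l₀ := by
    intro j
    have hj : (j : ℕ) + 1 ≤ r := j.2
    have : 2 * c * ((j : ℕ) + 1) ≤ 2 * c * r := Nat.mul_le_mul_left _ hj
    nlinarith
  have key : ∀ j : Fin r, ∃ l, 2 * c * (j : ℕ) < s l ∧ s l < 2 * c * (j : ℕ) + (2 * c + 1) := by
    intro j
    by_contra hno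
    push Not at hno
    have h1 := hne (2 * c * (j : ℕ)) (fun l => by
      by_cases h2 : 2 * c * (j : ℕ) < s l
      · exact Or.inr (hno l h2)
      · exact Or.inl (not_lt.mp h2)) l₀
    have h2 := hbig j
    omega
  choose f hf using key
  have hinj : Function.Injective f := by
    intro i j hij
    by_contra hne'
    have hv : (i : ℕ) ≠ (j : ℕ) := fun h => hne' (Fin.ext h)
    have hi := hf i
    have hj := hf j
    rw [hij] at hi
    rcases lt_or_gt_of_ne hv with h | h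
    · have : 2 * c * ((i : ℕ) + 1) ≤ 2 * c * (j : ℕ) := Nat.mul_le_mul_left _ h
      nlinarith [hi.2, hj.1]
    · have : 2 * c * ((j : ℕ) + 1) ≤ 2 * c * (i : ℕ) := Nat.mul_le_mul_left _ h
      nlinarith [hj.2, hi.1]
  have hsurj : Function.Surjective f := Finite.injective_iff_surjective.mp hinj
  obtain ⟨j, hj⟩ := hsurj l₀
  have h1 := hf j
  rw [hj] at h1
  have h2 := hbig j
  omega

/-- Smith normal form of a subgroup of finite index. PROOF: `Submodule.smithNormalForm`; the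
embedding `f` is bijective because `m • v ∈ Λ`. -/
theorem exists_smith {r : ℕ} (Λ : AddSubgroup (Fin r → ℤ))
    (hΛ : ∃ m : ℕ, m ≠ 0 ∧ ∀ v : Fin r → ℤ, m • v ∈ Λ) :
    ∃ (b : Module.Basis (Fin r) ℤ (Fin r → ℤ)) (a : Fin r → ℤ), (∀ l, a l ≠ 0) ∧
      ∀ v, v ∈ Λ ↔ ∀ l, a l ∣ b.repr v l := by
  obtain ⟨m, hm, hmv⟩ := hΛ
  set N : Submodule ℤ (Fin r → ℤ) := AddSubgroup.toIntSubmodule Λ with hN
  have hmem : ∀ v, v ∈ N ↔ v ∈ Λ := fun v => Iff.rfl
  have hrank : Module.finrank ℤ N = Module.finrank ℤ (Fin r → ℤ) := by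
    apply le_antisymm
    · exact Submodule.finrank_le N
    · let g : (Fin r → ℤ) →ₗ[ℤ] N :=
        LinearMap.codRestrict N ((m : ℤ) • LinearMap.id) (fun v => by
          have h1 := hmv v
          rw [← hmem] at h1
          simpa [natCast_zsmul] using h1)
      have hg : Function.Injective g := by
        intro v w hvw
        have h1 : ((g v : N) : Fin r → ℤ) = ((g w : N) : Fin r → ℤ) := by rw [hvw]
        have h2 : (m : ℤ) • v = (m : ℤ) • w := h1
        have h3 : (m : ℤ) ≠ 0 := by exact_mod_cast hm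
        exact smul_right_injective _ h3 h2
      exact LinearMap.finrank_le_finrank_of_injective hg
  obtain ⟨b', a, ab', hab⟩ := Submodule.exists_smith_normal_form_of_rank_eq (N := N)
    (Pi.basisFun ℤ (Fin r)) hrank
  refine ⟨b', a, ?_, ?_⟩
  · intro l hl
    have h1 : ((ab' l : N) : Fin r → ℤ) = 0 := by rw [hab, hl, zero_smul]
    have h2 : ab' l = 0 := Subtype.ext h1
    exact ab'.ne_zero l h2
  · intro v
    constructor
    · intro hv l
      rw [← hmem] at hv
      have h1 : (⟨v, hv⟩ : N) = ∑ i, (ab'.repr ⟨v, hv⟩ i) • ab' i := (ab'.sum_repr _).symm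
      have h2 : v = ∑ i, (ab'.repr ⟨v, hv⟩ i) • (a i • b' i) := by
        have h3 := congrArg (fun x : N => (x : Fin r → ℤ)) h1
        simp only [Submodule.coe_sum, Submodule.coe_smul, hab] at h3
        exact h3
      have h4 : b'.repr v l = (ab'.repr ⟨v, hv⟩ l) * a l := by
        conv_lhs => rw [h2]
        simp only [map_sum, map_smul, Module.Basis.repr_self, Finsupp.coe_finsetSum,
          Finsupp.coe_smul, Finset.sum_apply, Pi.smul_apply, smul_eq_mul, Finsupp.single_apply]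
        simp
      rw [h4]
      exact Dvd.intro_left _ rfl
    · intro h
      choose c hc using h
      rw [← hmem]
      have h1 : v = ∑ i, (b'.repr v i) • b' i := (b'.sum_repr v).symm
      rw [h1]
      refine Submodule.sum_mem _ fun i _ => ?_
      rw [hc i, mul_comm, mul_smul, ← hab]
      exact Submodule.smul_mem _ _ (ab' i).2

theorem dvd_of_mul {p t g : ℕ} (hp : p.Prime) {a x : ℤ} (ha : ¬ (p : ℤ) ^ (t + 1) ∣ a)
    (h : (p : ℤ) ^ (t + g) ∣ a * x) : (p : ℤ) ^ g ∣ x := by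
  have hpi : Prime (p : ℤ) := Nat.prime_iff_prime_int.mp hp
  have ha0 : a ≠ 0 := by rintro rfl; exact ha (dvd_zero _)
  have hfin : FiniteMultiplicity (p : ℤ) a := by
    refine ⟨t, ?_⟩
    exact ha
  obtain ⟨a', ha', hna'⟩ := hfin.exists_eq_pow_mul_and_not_dvd
  set k := multiplicity (p : ℤ) a with hk
  have hkt : k ≤ t := by
    by_contra hlt
    push Not at hlt
    apply ha
    rw [ha']
    exact Dvd.dvd.mul_right (pow_dvd_pow _ hlt) _
  rw [ha', mul_assoc] at h
  have h1 : (p : ℤ) ^ (t + g) = (p : ℤ) ^ k * (p : ℤ) ^ (t + g - k) := by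
    rw [← pow_add]; congr 1; omega
  rw [h1] at h
  have h2 : (p : ℤ) ^ (t + g - k) ∣ a' * x :=
    (mul_dvd_mul_iff_left (pow_ne_zero _ hpi.ne_zero)).mp h
  have h3 : (p : ℤ) ^ (t + g - k) ∣ x := hpi.pow_dvd_of_dvd_mul_left _ hna' h2
  exact (pow_dvd_pow _ (by omega)).trans h3

/-- PROOF: a prime `p` with `v_p (a l) > v_p (D ^ (2 r)) = 2 r c`, `c = v_p D`
(`padicValInt`, `Int.natAbs`, `Nat.factorization_le_iff_dvd`...); `exists_gap` for
`s l = v_p (a l)`. -/
theorem exists_prime_gap {r : ℕ} (a : Fin r → ℤ) (ha : ∀ l, a l ≠ 0) {D : ℤ} (hD : D ≠ 0)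
    (h : ∃ l, ¬ a l ∣ D ^ (2 * r)) : ∃ (p c t : ℕ), p.Prime ∧ (p : ℤ) ^ c ∣ D ∧
      ¬ (p : ℤ) ^ (c + 1) ∣ D ∧
      (∀ l, ¬ (p : ℤ) ^ (t + 1) ∣ a l ∨ (p : ℤ) ^ (t + (2 * c + 1)) ∣ a l) ∧
      ∃ l, (p : ℤ) ^ (t + (2 * c + 1)) ∣ a l := by
  obtain ⟨l, hl⟩ := h
  have hcast : ∀ (p k : ℕ) (x : ℤ), (p : ℤ) ^ k ∣ x ↔ p ^ k ∣ x.natAbs := by
    intro p k x
    rw [← Int.natCast_dvd]
    push_cast
    exact Iff.rfl
  have hDn : D.natAbs ≠ 0 := Int.natAbs_ne_zero.mpr hD
  have h1 : ¬ (a l).natAbs ∣ D.natAbs ^ (2 * r) := by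
    intro h2
    apply hl
    rw [← Int.natAbs_dvd_natAbs, Int.natAbs_pow]
    exact h2
  have h2 : ¬ (a l).natAbs.factorization ≤ (D.natAbs ^ (2 * r)).factorization := by
    intro h3
    exact h1 ((Nat.factorization_le_iff_dvd (Int.natAbs_ne_zero.mpr (ha l))
      (pow_ne_zero _ hDn)).mp h3)
  rw [Finsupp.le_def] at h2
  push Not at h2
  obtain ⟨p, hp⟩ := h2
  have hpp : p.Prime := by
    by_contra hnp
    have h4 := Nat.factorization_eq_zero_of_not_prime (a l).natAbs hnp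
    omega
  rw [Nat.factorization_pow] at hp
  simp only [Finsupp.coe_smul, Pi.smul_apply, smul_eq_mul] at hp
  set c := D.natAbs.factorization p with hc
  have hdvd : ∀ (k : ℕ) (x : ℤ), x ≠ 0 → ((p : ℤ) ^ k ∣ x ↔ k ≤ x.natAbs.factorization p) := by
    intro k x hx
    rw [hcast]
    exact hpp.pow_dvd_iff_le_factorization (Int.natAbs_ne_zero.mpr hx)
  obtain ⟨t, ht1, ht2⟩ := exists_gap (fun l => (a l).natAbs.factorization p) c ⟨l, by
    show 2 * c * r < (a l).natAbs.factorization p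
    calc 2 * c * r = 2 * r * c := by ring
      _ < _ := hp⟩
  refine ⟨p, c, t, hpp, ?_, ?_, ?_, ?_⟩
  · rw [hdvd _ _ hD]
  · rw [hdvd _ _ hD]; omega
  · intro l'
    rw [hdvd _ _ (ha l'), hdvd _ _ (ha l')]
    rcases ht1 l' with h3 | h3
    · left; omega
    · right; exact h3
  · obtain ⟨l', hl'⟩ := ht2
    exact ⟨l', (hdvd _ _ (ha l')).mpr hl'⟩

end Pool.Agent.W_3f1825_r40
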