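import Pool.Agent.W_3f1825_r40.CasZ
import Pool.Agent.W_3f1825_r40.GapA

set_option autoImplicit false

/-! The Casimir projection attached to a gap. -/

namespace Pool.Agent.W_3f1825_r40

variable {r : ℕ}

/-- The projection to the span of the `b l`, `l ∈ I`. -/
noncomputable def prI (b : Module.Basis (Fin r) ℤ (Fin r → ℤ)) (I : Finset (Fin r)) :
    (Fin r → ℤ) →ₗ[ℤ] (Fin r → ℤ) :=
  ∑ l ∈ I, (b.coord l).smulRight (b l)

theorem prI_apply (b : Module.Basis (Fin r) ℤ (Fin r → ℤ)) (I : Finset (Fin r))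
    (v : Fin r → ℤ) : prI b I v = ∑ l ∈ I, b.repr v l • b l := by
  simp [prI]

theorem prI_basis_mem (b : Module.Basis (Fin r) ℤ (Fin r → ℤ)) {I : Finset (Fin r)}
    {l : Fin r} (hl : l ∈ I) : prI b I (b l) = b l := by
  classical
  rw [prI_apply]
  simp [Finsupp.single_apply, hl]

theorem prI_coord (b : Module.Basis (Fin r) ℤ (Fin r → ℤ)) (I : Finset (Fin r))
    (v : Fin r → ℤ) (m : Fin r) : b.repr (prI b I v) m = if m ∈ I then b.repr v m else 0 := by
  classical
  rw [prI_apply, map_sum, Finsupp.finsetSum_apply]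
  have h : ∀ l, b.repr (b.repr v l • b l) m = if l = m then b.repr v l else 0 := by
    intro l
    rw [map_zsmul, b.repr_self, Finsupp.smul_apply, Finsupp.single_apply]
    split_ifs <;> simp
  simp only [h]
  rw [Finset.sum_ite_eq']

/-- Divisibility of a vector by an integer, in coordinates. -/
theorem exists_of_coord (b : Module.Basis (Fin r) ℤ (Fin r → ℤ)) (q : ℕ) (v : Fin r → ℤ)
    (h : ∀ m, (q : ℤ) ∣ b.repr v m) : ∃ w : Fin r → ℤ, v = q • w := by
  choose k hk using h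
  refine ⟨∑ m, k m • b m, ?_⟩
  rw [Finset.smul_sum]
  conv_lhs => rw [← b.sum_repr v]
  refine Finset.sum_congr rfl fun m _ => ?_
  rw [hk m, mul_smul, natCast_zsmul]

theorem coord_of_eq (b : Module.Basis (Fin r) ℤ (Fin r → ℤ)) {q : ℕ} {v w : Fin r → ℤ}
    (h : v = q • w) (m : Fin r) : (q : ℤ) ∣ b.repr v m := by
  rw [h, map_nsmul, Finsupp.smul_apply, nsmul_eq_mul]
  exact dvd_mul_right _ _

variable {G : Type} [Group G] {ρ : G →* Matrix (Fin r) (Fin r) ℤ} (C : Cas ρ)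

/-- `F = ∑ x i f y i`. -/
noncomputable def casF (b : Module.Basis (Fin r) ℤ (Fin r → ℤ)) (I : Finset (Fin r)) :
    Matrix (Fin r) (Fin r) ℤ :=
  ∑ i, C.x i * LinearMap.toMatrix' (prI b I) * C.y i

theorem casF_comm (b : Module.Basis (Fin r) ℤ (Fin r → ℤ)) (I : Finset (Fin r)) (g : G) :
    ρ g * casF C b I = casF C b I * ρ g := C.comm _ g

theorem casF_mulVec (b : Module.Basis (Fin r) ℤ (Fin r → ℤ)) (I : Finset (Fin r))
    (v : Fin r → ℤ) :
    (casF C b I).mulVec v = ∑ i, (C.x i).mulVec (prI b I ((C.y i).mulVec v)) := by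
  rw [casF, Matrix.sum_mulVec]
  refine Finset.sum_congr rfl fun i _ => ?_
  rw [← Matrix.mulVec_mulVec, ← Matrix.mulVec_mulVec, LinearMap.toMatrix'_mulVec]

theorem spn_mem {Λ : AddSubgroup (Fin r → ℤ)} (hinv : ∀ g, ∀ v ∈ Λ, (ρ g).mulVec v ∈ Λ)
    {x : Matrix (Fin r) (Fin r) ℤ} (hx : x ∈ spn ρ) {v : Fin r → ℤ} (hv : v ∈ Λ) :
    x.mulVec v ∈ Λ := by
  refine Submodule.span_induction (p := fun x _ => x.mulVec v ∈ Λ) ?_ ?_ ?_ ?_ hx
  · rintro _ ⟨g, rfl⟩
    exact hinv g v hv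
  · rw [Matrix.zero_mulVec]
    exact Λ.zero_mem
  · intro x y _ _ hx hy
    rw [Matrix.add_mulVec]
    exact Λ.add_mem hx hy
  · intro n x _ hx
    rw [Matrix.smul_mulVec]
    exact Λ.zsmul_mem hx n

section

variable {Λ : AddSubgroup (Fin r → ℤ)} (hinv : ∀ g, ∀ v ∈ Λ, (ρ g).mulVec v ∈ Λ)
  {b : Module.Basis (Fin r) ℤ (Fin r → ℤ)} {a : Fin r → ℤ}
  (hb : ∀ v, v ∈ Λ ↔ ∀ l, a l ∣ b.repr v l) {p : ℕ} (hp : p.Prime) {t g : ℕ}
  {I : Finset (Fin r)} (hI : ∀ l ∈ I, ¬ (p : ℤ) ^ (t + 1) ∣ a l)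
  (hI' : ∀ l, l ∉ I → (p : ℤ) ^ (t + g) ∣ a l)

include hb hI' in
/-- PROOF: `prI v - v = -∑_{l ∉ I} (b.repr v l) b l` and `p ^ (t + g) ∣ a l ∣ b.repr v l`. -/
theorem prI_sub {v : Fin r → ℤ} (hv : v ∈ Λ) : ∃ w : Fin r → ℤ, prI b I v - v = p ^ (t + g) • w := by
  refine exists_of_coord b _ _ fun m => ?_
  rw [map_sub, Finsupp.sub_apply, prI_coord]
  by_cases hm : m ∈ I
  · rw [if_pos hm, sub_self]
    exact dvd_zero _
  · rw [if_neg hm, zero_sub, dvd_neg]
    push_cast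
    exact (hI' m hm).trans ((hb v).1 hv m)

include hinv hb hI' in
/-- (i). PROOF: `C.sum` gives `δ v = ∑ x i (y i v)`, `y i v ∈ Λ` (`spn_mem`), `prI_sub`. -/
theorem casF_sub {v : Fin r → ℤ} (hv : v ∈ Λ) :
    ∃ w : Fin r → ℤ, (casF C b I).mulVec v - C.δ • v = p ^ (t + g) • w := by
  have h1 : C.δ • v = ∑ i, (C.x i).mulVec ((C.y i).mulVec v) := by
    have h2 := congrArg (fun M : Matrix (Fin r) (Fin r) ℤ => M.mulVec v) C.sum
    simp only [Matrix.sum_mulVec, Matrix.smul_mulVec, Matrix.one_mulVec] at h2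
    rw [← h2]
    refine Finset.sum_congr rfl fun i _ => ?_
    rw [Matrix.mulVec_mulVec]
  have h3 : ∀ i, ∃ w : Fin r → ℤ, prI b I ((C.y i).mulVec v) - (C.y i).mulVec v =
      p ^ (t + g) • w := fun i => prI_sub hb hI' (spn_mem hinv (C.y_mem i) hv)
  choose w hw using h3
  refine ⟨∑ i, (C.x i).mulVec (w i), ?_⟩
  rw [h1, casF_mulVec, ← Finset.sum_sub_distrib, Finset.smul_sum]
  refine Finset.sum_congr rfl fun i _ => ?_
  rw [← Matrix.mulVec_sub, hw, Matrix.mulVec_smul]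

include hinv hb hp hI hI' in
/-- (ii). PROOF: `a l • b l ∈ Λ`, (i) and `dvd_of_mul` for each coordinate. -/
theorem casF_basis {l : Fin r} (hl : l ∈ I) :
    ∃ w : Fin r → ℤ, (casF C b I).mulVec (b l) - C.δ • b l = p ^ g • w := by
  classical
  have h1 : a l • b l ∈ Λ := by
    rw [hb]
    intro m
    rw [map_zsmul, Finsupp.smul_apply, b.repr_self, smul_eq_mul]
    by_cases hm : l = m
    · subst hm
      exact dvd_mul_right _ _
    · rw [Finsupp.single_apply, if_neg hm, mul_zero]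
      exact dvd_zero _
  obtain ⟨w, hw⟩ := casF_sub C hinv hb hI' h1
  refine exists_of_coord b _ _ fun m => ?_
  have h2 : (casF C b I).mulVec (a l • b l) - C.δ • a l • b l =
      a l • ((casF C b I).mulVec (b l) - C.δ • b l) := by
    rw [Matrix.mulVec_smul, smul_sub, smul_comm]
  rw [h2] at hw
  have h3 := coord_of_eq b hw m
  rw [map_zsmul, Finsupp.smul_apply, smul_eq_mul] at h3
  push_cast at h3 ⊢
  exact dvd_of_mul hp (hI l hl) h3

include hinv hb hp hI hI' in
/-- PROOF: `x (a l • b l) ∈ Λ`, so `p ^ (t + g) ∣ a m ∣ a l * b.repr (x (b l)) m`; `dvd_of_mul`. -/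
theorem spn_coord {x : Matrix (Fin r) (Fin r) ℤ} (hx : x ∈ spn ρ) {l m : Fin r} (hl : l ∈ I)
    (hm : m ∉ I) : (p : ℤ) ^ g ∣ b.repr (x.mulVec (b l)) m := by
  classical
  have h1 : a l • b l ∈ Λ := by
    rw [hb]
    intro m
    rw [map_zsmul, Finsupp.smul_apply, b.repr_self, smul_eq_mul]
    by_cases hm : l = m
    · subst hm
      exact dvd_mul_right _ _
    · rw [Finsupp.single_apply, if_neg hm, mul_zero]
      exact dvd_zero _
  have h2 := (hb _).1 (spn_mem hinv hx h1) m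
  rw [Matrix.mulVec_smul, map_zsmul, Finsupp.smul_apply, smul_eq_mul] at h2
  exact dvd_of_mul hp (hI l hl) ((hI' m hm).trans h2)

include hinv hb hp hI hI' in
/-- (iii). PROOF: `casF_mulVec`, `prI_apply`, `spn_coord`. -/
theorem casF_coord (v : Fin r → ℤ) {m : Fin r} (hm : m ∉ I) :
    (p : ℤ) ^ g ∣ b.repr ((casF C b I).mulVec v) m := by
  rw [casF_mulVec, map_sum, Finsupp.finsetSum_apply]
  refine Finset.dvd_sum fun i _ => ?_
  rw [prI_apply]
  have h1 : (C.x i).mulVec (∑ l ∈ I, b.repr ((C.y i).mulVec v) l • b l) =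
      ∑ l ∈ I, b.repr ((C.y i).mulVec v) l • (C.x i).mulVec (b l) := by
    rw [← Matrix.mulVecLin_apply, map_sum]
    refine Finset.sum_congr rfl fun l _ => ?_
    rw [map_zsmul, Matrix.mulVecLin_apply]
  rw [h1, map_sum, Finsupp.finsetSum_apply]
  refine Finset.dvd_sum fun l hl => ?_
  rw [map_zsmul, Finsupp.smul_apply, smul_eq_mul]
  exact Dvd.dvd.mul_left (spn_coord hinv hb hp hI hI' (C.x_mem i) hl hm) _

include hinv hb hp hI hI' in
/-- (iv). PROOF: by (iii) `F v = w + p ^ g z` with `w = prI b I (F v)`; (ii) for `w`. -/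
theorem casF_sq (v : Fin r → ℤ) :
    ∃ w : Fin r → ℤ, (casF C b I).mulVec ((casF C b I).mulVec v) -
      C.δ • (casF C b I).mulVec v = p ^ g • w := by
  let u := (casF C b I).mulVec v
  -- `u = prI u + p ^ g z`
  obtain ⟨z, hz⟩ : ∃ z : Fin r → ℤ, u - prI b I u = p ^ g • z := by
    refine exists_of_coord b _ _ fun m => ?_
    rw [map_sub, Finsupp.sub_apply, prI_coord]
    by_cases hm : m ∈ I
    · rw [if_pos hm, sub_self]
      exact dvd_zero _
    · rw [if_neg hm, sub_zero]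
      push_cast
      exact casF_coord C hinv hb hp hI hI' v hm
  have h1 : ∀ l : I, ∃ w : Fin r → ℤ, (casF C b I).mulVec (b l) - C.δ • b l = p ^ g • w :=
    fun l => casF_basis C hinv hb hp hI hI' l.2
  choose w hw using h1
  refine ⟨∑ l : I, b.repr u l • w l + ((casF C b I).mulVec z - C.δ • z), ?_⟩
  have h2 : u = ∑ l : I, b.repr u l • b l + p ^ g • z := by
    rw [← hz, Finset.sum_coe_sort I (fun l => b.repr u l • b l), ← prI_apply]
    abel
  have h3 : (casF C b I).mulVec u = ∑ l : I, b.repr u l • (casF C b I).mulVec (b l) +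
      p ^ g • (casF C b I).mulVec z := by
    conv_lhs => rw [h2]
    rw [Matrix.mulVec_add, ← Matrix.mulVecLin_apply, map_sum]
    congr 1
    · refine Finset.sum_congr rfl fun l _ => ?_
      rw [map_zsmul, Matrix.mulVecLin_apply]
    · rw [Matrix.mulVec_smul]
  have h4 : C.δ • u = ∑ l : I, b.repr u l • (C.δ • b l) + p ^ g • (C.δ • z) := by
    conv_lhs => rw [h2]
    rw [smul_add, Finset.smul_sum]
    congr 1
    · refine Finset.sum_congr rfl fun l _ => ?_
      rw [smul_comm]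
    · rw [smul_comm]
  change (casF C b I).mulVec u - C.δ • u = _
  rw [h3, h4, smul_add, smul_sub, Finset.smul_sum, add_sub_add_comm, ← Finset.sum_sub_distrib]
  congr 1
  refine Finset.sum_congr rfl fun l _ => ?_
  rw [← smul_sub, hw, smul_comm]

include hinv hb hp hI hI' in
/-- PROOF: the kernel of `F` over `ℚ` is invariant (`casF_comm`), so `⊥` or `⊤`; it is not `⊤`
because for `l ∈ I`, `F (b l) = 0` would give `p ^ g ∣ δ` by (ii) (compare coordinates with respect to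
`b`), but `c < g` and `¬ p ^ (c + 1) ∣ δ`. -/
theorem casF_inj (hirr : Irr ρ) {c : ℕ} (hc : ¬ (p : ℤ) ^ (c + 1) ∣ C.δ) (hcg : c < g)
    (hne : I.Nonempty) {v : Fin r → ℤ} (hv : (casF C b I).mulVec v = 0) : v = 0 := by
  classical
  have hcast : ∀ (M : Matrix (Fin r) (Fin r) ℤ) (v : Fin r → ℤ),
      (M.map (Int.cast : ℤ → ℚ)).mulVec (fun i => (v i : ℚ)) =
        fun i => ((M.mulVec v i : ℤ) : ℚ) := by
    intro M v
    funext i
    simp [Matrix.mulVec, dotProduct]
  have hmul : ∀ (M N : Matrix (Fin r) (Fin r) ℤ), (M * N).map (Int.cast : ℤ → ℚ) =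
      M.map (Int.cast : ℤ → ℚ) * N.map (Int.cast : ℤ → ℚ) := fun M N =>
    Matrix.map_mul (f := Int.castRingHom ℚ)
  have h1 := hirr (LinearMap.ker ((casF C b I).map (Int.cast : ℤ → ℚ)).mulVecLin)
    (fun g w hw => by
      rw [LinearMap.mem_ker, Matrix.mulVecLin_apply] at hw ⊢
      rw [Matrix.mulVec_mulVec, ← hmul, ← casF_comm, hmul, ← Matrix.mulVec_mulVec, hw,
        Matrix.mulVec_zero])
  rcases h1 with h1 | h1
  · have h2 : (fun i => (v i : ℚ)) ∈
        LinearMap.ker ((casF C b I).map (Int.cast : ℤ → ℚ)).mulVecLin := by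
      rw [LinearMap.mem_ker, Matrix.mulVecLin_apply, hcast, hv]
      funext i
      simp
    rw [h1, Submodule.mem_bot] at h2
    funext i
    have h3 := congrFun h2 i
    simpa using h3
  · exfalso
    obtain ⟨l, hl⟩ := hne
    obtain ⟨w, hw⟩ := casF_basis C hinv hb hp hI hI' hl
    have h2 : (fun i => (b l i : ℚ)) ∈
        LinearMap.ker ((casF C b I).map (Int.cast : ℤ → ℚ)).mulVecLin := by
      rw [h1]
      exact Submodule.mem_top
    rw [LinearMap.mem_ker, Matrix.mulVecLin_apply, hcast] at h2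
    have h3 : (casF C b I).mulVec (b l) = 0 := by
      funext i
      have h4 := congrFun h2 i
      simpa using h4
    rw [h3, zero_sub] at hw
    have h5 := coord_of_eq b hw l
    rw [map_neg, Finsupp.neg_apply, dvd_neg, map_zsmul, Finsupp.smul_apply, b.repr_self,
      Finsupp.single_eq_same, smul_eq_mul, mul_one] at h5
    push_cast at h5
    exact hc ((pow_dvd_pow _ hcg).trans h5)

end

end Pool.Agent.W_3f1825_r40
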