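import Pool.Agent.W_3f1825_r40.Ext

set_option autoImplicit false

/-! Good data for an extension by `ℤ ^ r`. -/

namespace Pool.Agent.W_3f1825_r40

variable {G B : Type} [Group G] [Group B] {r : ℕ}

/-- Torsion freeness of `A G` inside the rational hull, expressed in `G`. -/
def TFree (X : Ext G B r) (A : AddSubgroup (Fin r → ℚ)) : Prop :=
  ∀ q : ℕ, q.Prime → ∀ g : G, ∀ u ∈ A, ∀ v : Fin r → ℤ, g ^ q = X.a v →
    cv ℚ v + ∑ i ∈ Finset.range q, X.lin ℚ (g ^ i) u = 0 → ∃ w, g = X.a w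

/-- Good data. -/
structure GoodData (X : Ext G B r) (p : ℕ) (A : AddSubgroup (Fin r → ℚ)) : Prop where
  prime : p.Prime
  cv_mem : ∀ v, cv ℚ v ∈ A
  pow_mem : ∀ u ∈ A, ∃ (k : ℕ) (v : Fin r → ℤ), p ^ k • u = cv ℚ v
  inv : ∀ g, ∀ u ∈ A, X.lin ℚ g u ∈ A
  unb : ∀ k : ℕ, ∃ u ∈ A, ∀ v : Fin r → ℤ, p ^ k • u ≠ cv ℚ v
  modp : ∀ g i j, (p : ℤ) ∣ (X.ρ g - 1) i j
  tf : TFree X A

/-- A group which is an extension with good data. -/
def IsGood (G : Type) [Group G] : Prop :=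
  ∃ (B : Type) (_ : Group B) (r : ℕ) (X : Ext G B r) (p : ℕ) (A : AddSubgroup (Fin r → ℚ)),
    GoodData X p A

variable {X : Ext G B r} {p : ℕ} {A : AddSubgroup (Fin r → ℚ)}

/-- `ρ g` is the identity modulo `p`: for `u` with `p ^ (m + 1) u` integral,
`p ^ m (ρ g u - u)` is integral. -/
theorem GoodData.step_int (D : GoodData X p A) (g : G) {m : ℕ} {u : Fin r → ℚ}
    (hu : ∃ v, p ^ (m + 1) • u = cv ℚ v) : ∃ v, p ^ m • (X.lin ℚ g u - u) = cv ℚ v := by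
  obtain ⟨v, hv⟩ := hu
  choose N hN using D.modp g
  refine ⟨Matrix.mulVec (Matrix.of N) v, ?_⟩
  funext i
  have hvj : ∀ j, (v j : ℚ) = (p : ℚ) ^ (m + 1) * u j := by
    intro j
    have h := congrFun hv j
    simp only [Pi.smul_apply, nsmul_eq_mul, cv] at h
    rw [← h]
    push_cast
    ring
  have hρ : ∀ j, ((X.ρ g i j : ℤ) : ℚ) = (if i = j then 1 else 0) + (p : ℚ) * (N i j : ℚ) := by
    intro j
    have h := hN i j
    rw [Matrix.sub_apply, Matrix.one_apply] at h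
    have h2 : X.ρ g i j = (if i = j then 1 else 0) + (p : ℤ) * N i j := by
      rw [← h]; ring
    rw [h2]
    push_cast
    rfl
  have hl : X.lin ℚ g u i = u i + ∑ j, (p : ℚ) * (N i j : ℚ) * u j := by
    rw [X.lin_apply]
    simp only [Matrix.mulVec, dotProduct, Matrix.map_apply]
    rw [Finset.sum_congr rfl fun j _ => by rw [hρ j, add_mul], Finset.sum_add_distrib]
    congr 1
    simp
  rw [Pi.smul_apply, Pi.sub_apply, hl, add_sub_cancel_left]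
  simp only [cv, Matrix.mulVec, dotProduct, Matrix.of_apply, nsmul_eq_mul]
  push_cast
  rw [Finset.mul_sum]
  refine Finset.sum_congr rfl fun j _ => ?_
  rw [hvj j]
  ring

/-- An increasing chain of invariant subgroups, with quotients of order `p` on which the group acts
trivially. -/
structure Chain (X : Ext G B r) (p : ℕ) (A : AddSubgroup (Fin r → ℚ)) where
  /-- the subgroups -/
  As : ℕ → AddSubgroup (Fin r → ℚ)
  /-- the generators -/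
  vs : ℕ → Fin r → ℚ
  zero : ∀ u, u ∈ As 0 ↔ ∃ v, u = cv ℚ v
  le : ∀ j, As j ≤ A
  inv : ∀ j g, ∀ u ∈ As j, X.lin ℚ g u ∈ As j
  mono : ∀ j, As j ≤ As (j + 1)
  mem : ∀ j, vs j ∈ As (j + 1)
  not_mem : ∀ j, vs j ∉ As j
  pmul : ∀ j, p • vs j ∈ As j
  triv : ∀ j g, X.lin ℚ g (vs j) - vs j ∈ As j
  gen : ∀ j, ∀ u ∈ As (j + 1), ∃ w ∈ As j, ∃ k : ℕ, u = w + k • vs j

/-- One step. `A'` is bounded (`p ^ k A' ⊆ ℤ ^ r`), so `A` is not contained in `A'`. Let `m` be minimal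
such that some `v ∈ A`, `v ∉ A'` has `p ^ m v` integral (`Nat.find`; `m ≠ 0` because `ℤ ^ r ⊆ A'`);
`p v` and `ρ g v - v` are in `A` and `p ^ (m - 1)` times them is integral (`step_int`), so they are in
`A'`. Take `A'' = A' + ℤ v`. -/
theorem exists_step (D : GoodData X p A) (A' : AddSubgroup (Fin r → ℚ)) (hcv : ∀ v, cv ℚ v ∈ A')
    (hle : A' ≤ A) (inv : ∀ g, ∀ u ∈ A', X.lin ℚ g u ∈ A')
    (hb : ∃ k : ℕ, ∀ u ∈ A', ∃ w, p ^ k • u = cv ℚ w) :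
    ∃ (A'' : AddSubgroup (Fin r → ℚ)) (v : Fin r → ℚ), A'' ≤ A ∧ (∀ g, ∀ u ∈ A'', X.lin ℚ g u ∈ A'') ∧
      A' ≤ A'' ∧ v ∈ A'' ∧ v ∉ A' ∧ p • v ∈ A' ∧ (∀ g, X.lin ℚ g v - v ∈ A') ∧
      (∀ u ∈ A'', ∃ w ∈ A', ∃ k : ℕ, u = w + k • v) ∧
      (∃ k : ℕ, ∀ u ∈ A'', ∃ w, p ^ k • u = cv ℚ w) := by
  classical
  have hp : 0 < p := D.prime.pos
  obtain ⟨k, hk⟩ := hb
  have hex : ∃ m : ℕ, ∃ v ∈ A, v ∉ A' ∧ ∃ w : Fin r → ℤ, p ^ m • v = cv ℚ w := by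
    obtain ⟨u, hu, hu2⟩ := D.unb k
    obtain ⟨m, w, hw⟩ := D.pow_mem u hu
    refine ⟨m, u, hu, fun hmem => ?_, w, hw⟩
    obtain ⟨w', hw'⟩ := hk u hmem
    exact hu2 w' hw'
  obtain ⟨v, hvA, hvA', w, hw⟩ := Nat.find_spec hex
  have hmin : ∀ m' < Nat.find hex, ∀ x ∈ A, (∃ w : Fin r → ℤ, p ^ m' • x = cv ℚ w) → x ∈ A' := by
    intro m' hm' x hx hw'
    by_contra hcon
    exact Nat.find_min hex hm' ⟨x, hx, hcon, hw'⟩
  have hm0 : Nat.find hex ≠ 0 := by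
    intro h0
    rw [h0, pow_zero, one_smul] at hw
    exact hvA' (hw ▸ hcv w)
  obtain ⟨m, hm⟩ := Nat.exists_eq_succ_of_ne_zero hm0
  rw [hm, Nat.succ_eq_add_one] at hw
  have hpv : p • v ∈ A' := by
    refine hmin m (by omega) _ (A.nsmul_mem hvA p) ⟨w, ?_⟩
    rw [← hw, smul_smul, ← pow_succ]
  have hgv : ∀ g, X.lin ℚ g v - v ∈ A' := by
    intro g
    exact hmin m (by omega) _ (A.sub_mem (D.inv g v hvA) hvA) (D.step_int g ⟨w, hw⟩)
  have hmem : ∀ u, u ∈ A' ⊔ AddSubgroup.zmultiples v ↔ ∃ y ∈ A', ∃ n : ℤ, y + n • v = u := by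
    intro u
    rw [AddSubgroup.mem_sup]
    constructor
    · rintro ⟨y, hy, z, hz, rfl⟩
      obtain ⟨n, rfl⟩ := AddSubgroup.mem_zmultiples_iff.1 hz
      exact ⟨y, hy, n, rfl⟩
    · rintro ⟨y, hy, n, rfl⟩
      exact ⟨y, hy, n • v, AddSubgroup.mem_zmultiples_iff.2 ⟨n, rfl⟩, rfl⟩
  refine ⟨A' ⊔ AddSubgroup.zmultiples v, v, ?_, ?_, le_sup_left, ?_, hvA', hpv, hgv, ?_, ?_⟩
  · exact sup_le hle (AddSubgroup.zmultiples_le_of_mem hvA)
  · intro g u hu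
    obtain ⟨y, hy, n, rfl⟩ := (hmem u).1 hu
    rw [hmem]
    refine ⟨X.lin ℚ g y + n • (X.lin ℚ g v - v), A'.add_mem (inv g y hy)
      (A'.zsmul_mem (hgv g) n), n, ?_⟩
    rw [map_add, map_zsmul, smul_sub]
    abel
  · rw [hmem]
    exact ⟨0, A'.zero_mem, 1, by rw [one_zsmul, zero_add]⟩
  · intro u hu
    obtain ⟨y, hy, n, rfl⟩ := (hmem u).1 hu
    have hp' : (p : ℤ) ≠ 0 := by exact_mod_cast hp.ne'
    refine ⟨y + (n / p) • (p • v), A'.add_mem hy (A'.zsmul_mem hpv _), (n % p).toNat, ?_⟩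
    have h1 : ((n % p).toNat : ℤ) = n % p := Int.toNat_of_nonneg (Int.emod_nonneg _ hp')
    have h2 : (n % p).toNat • v = (n % (p : ℤ)) • v := by
      rw [← natCast_zsmul, h1]
    have h3 : (p • v : Fin r → ℚ) = (p : ℤ) • v := by rw [natCast_zsmul]
    rw [h2, h3, smul_smul, add_assoc, ← add_smul]
    congr 2
    rw [mul_comm]
    exact (Int.mul_ediv_add_emod n p).symm
  · refine ⟨k + (m + 1), fun u hu => ?_⟩
    obtain ⟨y, hy, n, rfl⟩ := (hmem u).1 hu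
    obtain ⟨w1, hw1⟩ := hk y hy
    refine ⟨p ^ (m + 1) • w1 + n • (p ^ k • w), ?_⟩
    rw [cv_add, cv_nsmul, cv_zsmul, cv_nsmul, ← hw1, ← hw, smul_add]
    congr 1
    · rw [smul_smul, ← pow_add, add_comm]
    · rw [smul_smul (p ^ k), ← pow_add, smul_comm]

/-- PROOF: iterate `exists_step`, starting from the range of `cv ℚ` (recursion on the subtype of the
`A'` satisfying the hypotheses of `exists_step`). -/
theorem exists_chain (D : GoodData X p A) : Nonempty (Chain X p A) := by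
  classical
  let T : Type := {A' : AddSubgroup (Fin r → ℚ) // (∀ v, cv ℚ v ∈ A') ∧ A' ≤ A ∧
    (∀ g, ∀ u ∈ A', X.lin ℚ g u ∈ A') ∧ ∃ k : ℕ, ∀ u ∈ A', ∃ w, p ^ k • u = cv ℚ w}
  have hstep : ∀ t : T, ∃ (t' : T) (v : Fin r → ℚ), t.1 ≤ t'.1 ∧ v ∈ t'.1 ∧ v ∉ t.1 ∧
      p • v ∈ t.1 ∧ (∀ g, X.lin ℚ g v - v ∈ t.1) ∧
      (∀ u ∈ t'.1, ∃ w ∈ t.1, ∃ k : ℕ, u = w + k • v) := by
    rintro ⟨A', h1, h2, h3, h4⟩
    obtain ⟨A'', v, a1, a2, a3, a4, a5, a6, a7, a8, a9⟩ := exists_step D A' h1 h2 h3 h4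
    exact ⟨⟨A'', fun w => a3 (h1 w), a1, a2, a9⟩, v, a3, a4, a5, a6, a7, a8⟩
  choose nx nv hle hmem hnmem hp htriv hgen using hstep
  let A0 : AddSubgroup (Fin r → ℚ) :=
    { carrier := {u | ∃ v : Fin r → ℤ, u = cv ℚ v}
      zero_mem' := ⟨0, cv_zero.symm⟩
      add_mem' := by
        rintro _ _ ⟨v, rfl⟩ ⟨w, rfl⟩
        exact ⟨v + w, (cv_add v w).symm⟩
      neg_mem' := by
        rintro _ ⟨v, rfl⟩
        exact ⟨-v, (cv_neg v).symm⟩ }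
  have hA0 : ∀ u, u ∈ A0 ↔ ∃ v : Fin r → ℤ, u = cv ℚ v := fun u => Iff.rfl
  let t0 : T := ⟨A0, fun v => ⟨v, rfl⟩, by
      intro u hu
      obtain ⟨v, rfl⟩ := (hA0 u).1 hu
      exact D.cv_mem v, by
      intro g u hu
      obtain ⟨v, rfl⟩ := (hA0 u).1 hu
      exact ⟨_, X.lin_cv ℚ g v⟩, 0, by
      intro u hu
      obtain ⟨v, rfl⟩ := (hA0 u).1 hu
      exact ⟨v, by rw [pow_zero, one_smul]⟩⟩
  let seq : ℕ → T := fun n => Nat.rec t0 (fun _ t => nx t) n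
  refine ⟨⟨fun j => (seq j).1, fun j => nv (seq j), ?_, ?_, ?_, ?_, ?_, ?_, ?_, ?_, ?_⟩⟩
  · exact fun u => hA0 u
  · exact fun j => (seq j).2.2.1
  · exact fun j g u hu => (seq j).2.2.2.1 g u hu
  · exact fun j => hle (seq j)
  · exact fun j => hmem (seq j)
  · exact fun j => hnmem (seq j)
  · exact fun j => hp (seq j)
  · exact fun j g => htriv (seq j) g
  · exact fun j u hu => hgen (seq j) u hu

end Pool.Agent.W_3f1825_r40
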