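import Pool.Agent.W_3f1825_r40.GoodD

set_option autoImplicit false

/-! Groups with good data: definitions and transport. -/

namespace Pool.Agent.W_3f1825_r40

/-- Some subgroup of finite index has good data. -/
def VirtGood (Γ : Type) [Group Γ] : Prop := ∃ H : Subgroup Γ, H.FiniteIndex ∧ IsGood H

/-- Torsion free groups. -/
def TorFree (Γ : Type) [Group Γ] : Prop := ∀ (g : Γ) (k : ℕ), k ≠ 0 → g ^ k = 1 → g = 1

theorem torFree_of_prime {Γ : Type} [Group Γ] (h : ∀ p : ℕ, p.Prime → ∀ g : Γ, g ^ p = 1 → g = 1) :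
    TorFree Γ := by
  intro g k
  induction k using Nat.recOnMul generalizing g with
  | zero => intro h0; exact absurd rfl h0
  | one => intro _ h1; rwa [pow_one] at h1
  | prime p hp => intro _; exact h p hp g
  | mul a b ha hb =>
    intro hab e
    rw [pow_mul] at e
    exact ha g (left_ne_zero_of_mul hab) (hb _ (right_ne_zero_of_mul hab) e)

/-- Transport of an extension. -/
def Ext.congr {G G' B : Type} [Group G] [Group G'] [Group B] {r : ℕ} (X : Ext G B r)
    (e : G ≃* G') : Ext G' B r where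
  π := X.π.comp e.symm.toMonoidHom
  surj := X.surj.comp e.symm.surjective
  α := e.toMonoidHom.comp X.α
  inj := e.injective.comp X.inj
  ker g := by
    change X.π (e.symm g) = 1 ↔ _
    rw [X.ker]
    refine exists_congr fun v => ?_
    rw [MulEquiv.symm_apply_eq]
    rfl
  ρ := X.ρ.comp e.symm.toMonoidHom
  conj g v := by
    change g * e (X.α (Multiplicative.ofAdd v)) * g⁻¹ =
      e (X.α (Multiplicative.ofAdd ((X.ρ (e.symm g)).mulVec v)))
    rw [← X.conj, map_mul, map_mul, map_inv, e.apply_symm_apply]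

theorem IsGood.congr {G G' : Type} [Group G] [Group G'] (e : G ≃* G') (h : IsGood G) :
    IsGood G' := by
  obtain ⟨B, iB, r, X, p, A, D⟩ := h
  refine ⟨B, iB, r, X.congr e, p, A, D.prime, D.cv_mem, D.pow_mem, ?_, D.unb, ?_, ?_⟩
  · intro g u hu
    exact D.inv (e.symm g) u hu
  · intro g i j
    exact D.modp (e.symm g) i j
  · intro q hq g u hu v e1 e2
    obtain ⟨w, hw⟩ := D.tf q hq (e.symm g) u hu v (by
      rw [← map_pow, e1]
      exact e.symm_apply_apply _) (by
      rw [← e2]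
      congr 1
      refine Finset.sum_congr rfl fun i _ => ?_
      change X.lin ℚ (e.symm g ^ i) u = X.lin ℚ (e.symm (g ^ i)) u
      rw [map_pow e.symm])
    refine ⟨w, ?_⟩
    rw [MulEquiv.symm_apply_eq] at hw
    exact hw

theorem VirtGood.congr {Γ Γ' : Type} [Group Γ] [Group Γ'] (e : Γ ≃* Γ'ᵐᵒᵖ)
    (h : VirtGood Γ) : VirtGood Γ' := by
  obtain ⟨H, hH, hg⟩ := h
  let f : Γ ≃* Γ' := e.trans (MulEquiv.inv' Γ').symm
  refine ⟨H.map (f : Γ →* Γ'), ⟨?_⟩, hg.congr (f.subgroupMap H)⟩
  rw [Subgroup.index_map_equiv]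
  exact hH.index_ne_zero

theorem torFree_congr {Γ Γ' : Type} [Group Γ] [Group Γ'] (e : Γ ≃* Γ'ᵐᵒᵖ) (h : TorFree Γ') :
    TorFree Γ := by
  let f : Γ ≃* Γ' := e.trans (MulEquiv.inv' Γ').symm
  intro g k hk hg
  apply f.injective
  rw [map_one]
  exact h (f g) k hk (by rw [← map_pow, hg, map_one])

end Pool.Agent.W_3f1825_r40
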