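import Pool.Agent.W_3f1825_r40.Push

set_option autoImplicit false

/-! Subgroups `H ≤ H'` with `H` normal of prime index `p` in `H'`, and the coinvariants of
permutation modules. -/

namespace Pool.Agent.W_3f1825_r40

open Pool.Agent.W_3f1825_h40

variable {Γ : Type} [Group Γ]

/-- `H` is normal of index `p` in `H'`, which is generated by `H` and `t`. -/
structure IdxP (p : ℕ) (H H' : Subgroup Γ) (t : Γ) : Prop where
  le : H ≤ H'
  mem : t ∈ H'
  norm : ∀ h ∈ H, t * h * t⁻¹ ∈ H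
  norm' : ∀ h ∈ H, t⁻¹ * h * t ∈ H
  gen : ∀ x ∈ H', ∃ h ∈ H, ∃ k : ℕ, x = h * t ^ k
  pow : t ^ p ∈ H
  not_mem : t ∉ H

variable {p : ℕ} {H H' : Subgroup Γ} {t : Γ}

/-- PROOF: `p` is prime, `t ^ p ∈ H`, `t ∉ H`. -/
theorem IdxP.dvd (h : IdxP p H H' t) (hp : p.Prime) {k : ℕ} (hk : t ^ k ∈ H) : p ∣ k := by
  by_contra hnd
  have hc : Nat.Coprime p k := (Nat.Prime.coprime_iff_not_dvd hp).2 hnd
  have h1 := Nat.gcd_eq_gcd_ab p k
  rw [Nat.Coprime] at hc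
  rw [hc] at h1
  refine h.not_mem ?_
  have h2 : t = (t ^ p) ^ (Nat.gcdA p k) * (t ^ k) ^ (Nat.gcdB p k) := by
    rw [← zpow_natCast, ← zpow_natCast, ← zpow_mul, ← zpow_mul, ← zpow_add, ← h1,
      Nat.cast_one, zpow_one]
  rw [h2]
  exact H.mul_mem (H.zpow_mem h.pow _) (H.zpow_mem hk _)

theorem IdxP.conj (h : IdxP p H H' t) (k : ℕ) : ∀ x ∈ H, (t ^ k)⁻¹ * x * t ^ k ∈ H := by
  induction k with
  | zero =>
    intro x hx
    simpa using hx
  | succ k ih =>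
    intro x hx
    have h1 : (t ^ (k + 1))⁻¹ * x * t ^ (k + 1) = t⁻¹ * ((t ^ k)⁻¹ * x * t ^ k) * t := by
      rw [pow_succ]
      group
    rw [h1]
    exact h.norm' _ (ih x hx)

/-- PROOF: the cosets `H t ^ k`, `k < p`, cover `H'`. -/
theorem IdxP.finiteIndex (h : IdxP p H H' t) (hp : p.Prime) : (H.subgroupOf H').FiniteIndex := by
  have hfin : Finite (H' ⧸ H.subgroupOf H') := by
    refine Finite.of_surjective
      (fun i : Fin p => ((⟨t, h.mem⟩ ^ (i : ℕ) : H') : H' ⧸ H.subgroupOf H')) ?_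
    intro q
    obtain ⟨⟨x, hx⟩, rfl⟩ := QuotientGroup.mk_surjective q
    obtain ⟨y, hy, k, rfl⟩ := h.gen x hx
    refine ⟨⟨k % p, Nat.mod_lt _ hp.pos⟩, ?_⟩
    rw [QuotientGroup.eq]
    change ((⟨t, h.mem⟩ ^ (k % p) : H')⁻¹ * ⟨y * t ^ k, hx⟩ : H') ∈ H.subgroupOf H'
    rw [Subgroup.mem_subgroupOf]
    have h1 : (((⟨t, h.mem⟩ ^ (k % p) : H')⁻¹ * ⟨y * t ^ k, hx⟩ : H') : Γ) =
        (t ^ (k % p))⁻¹ * (y * t ^ k) := rfl
    rw [h1]
    have h2 : t ^ k = t ^ (k % p) * (t ^ p) ^ (k / p) := by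
      rw [← pow_mul, ← pow_add, Nat.mod_add_div]
    have h3 : (t ^ (k % p))⁻¹ * (y * t ^ k) =
        ((t ^ (k % p))⁻¹ * y * t ^ (k % p)) * (t ^ p) ^ (k / p) := by
      rw [h2]
      group
    rw [h3]
    exact H.mul_mem (h.conj _ y hy) (H.pow_mem h.pow _)
  exact Subgroup.finiteIndex_of_finite_quotient

/-- The permutation `x ↦ t * x` of the tuples of elements of `Γ`, as a linear map. -/
noncomputable def tT (R : Type) [CommRing R] (t : Γ) (m : ℕ) :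
    ((Fin (m + 1) → Γ) →₀ R) →ₗ[R] ((Fin (m + 1) → Γ) →₀ R) :=
  tP R (fun s : Γ => t * s) m

/-- PROOF: `t (h v) - t v = (t h t⁻¹) (t v) - t v`. -/
theorem tT_Co (R : Type) [CommRing R] (h : IdxP p H H' t) (m : ℕ) {c : (Fin (m + 1) → Γ) →₀ R}
    (hc : c ∈ Co (perm R H (Fin (m + 1) → Γ))) : tT R t m c ∈ Co (perm R H (Fin (m + 1) → Γ)) := by
  refine tP_Co (fun g : H => (⟨t * g * t⁻¹, h.norm g g.2⟩ : H)) (fun s : Γ => t * s) ?_ m hc
  intro g s
  change t * ((g : Γ) * s) = t * g * t⁻¹ * (t * s)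
  group

theorem IdxP_perm (R : Type) [CommRing R] (K : Subgroup Γ) (g : K) (m : ℕ)
    (c : (Fin (m + 1) → Γ) →₀ R) :
    perm R K (Fin (m + 1) → Γ) g c = tP R (fun s : Γ => (g : Γ) * s) m c := by
  induction c using Finsupp.induction_linear with
  | zero => simp
  | add a b ha hb => simp only [map_add, ha, hb]
  | single x r =>
    rw [perm_single, tP_single]
    rfl

theorem IdxP_pow (R : Type) [CommRing R] (t : Γ) (m k : ℕ) (c : (Fin (m + 1) → Γ) →₀ R) :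
    ((tT R t m) ^ k) c = tP R (fun s : Γ => t ^ k * s) m c := by
  induction k with
  | zero =>
    rw [pow_zero, Module.End.one_apply]
    have h1 : (fun s : Γ => t ^ 0 * s) = fun s => s := by
      funext s
      rw [pow_zero, one_mul]
    rw [h1, tP_id]
  | succ k ih =>
    rw [pow_succ', Module.End.mul_apply, ih]
    unfold tT
    rw [tP_comp]
    congr 2
    funext s
    rw [pow_succ', mul_assoc]

/-- PROOF: by definition (`t ∈ H'`). -/
theorem tT_sub_mem (R : Type) [CommRing R] (h : IdxP p H H' t) (m : ℕ)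
    (c : (Fin (m + 1) → Γ) →₀ R) : tT R t m c - c ∈ Co (perm R H' (Fin (m + 1) → Γ)) := by
  have h1 := sub_mem_Co (perm R H' (Fin (m + 1) → Γ)) ⟨t, h.mem⟩ c
  rw [IdxP_perm] at h1
  exact h1

theorem Co_mono (R : Type) [CommRing R] (h : H ≤ H') (m : ℕ) :
    Co (perm R H (Fin (m + 1) → Γ)) ≤ Co (perm R H' (Fin (m + 1) → Γ)) := by
  rw [Co, Submodule.span_le]
  rintro _ ⟨g, v, rfl⟩
  have h1 := sub_mem_Co (perm R H' (Fin (m + 1) → Γ)) ⟨g, h g.2⟩ v
  rw [IdxP_perm] at h1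
  change perm R H (Fin (m + 1) → Γ) g v - v ∈ Co (perm R H' (Fin (m + 1) → Γ))
  rw [IdxP_perm]
  exact h1

/-- PROOF: on generators `x v - v`, `x = h * t ^ k`; `x v - v = (h (t ^ k v) - t ^ k v) +
(t ^ k v - v)` and `t ^ k v - v = ∑_{i < k} (t (t ^ i v) - t ^ i v)`. -/
theorem Co_eq (R : Type) [CommRing R] (h : IdxP p H H' t) (m : ℕ) {c : (Fin (m + 1) → Γ) →₀ R}
    (hc : c ∈ Co (perm R H' (Fin (m + 1) → Γ))) :
    ∃ v, c - (tT R t m v - v) ∈ Co (perm R H (Fin (m + 1) → Γ)) := by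
  have hpow : ∀ (k : ℕ) (v : (Fin (m + 1) → Γ) →₀ R),
      ((tT R t m) ^ k) v - v ∈ LinearMap.range (tT R t m - LinearMap.id) := by
    intro k v
    induction k with
    | zero =>
      rw [pow_zero, Module.End.one_apply, sub_self]
      exact Submodule.zero_mem _
    | succ k ih =>
      have h1 : ((tT R t m) ^ (k + 1)) v - v =
          (tT R t m (((tT R t m) ^ k) v) - ((tT R t m) ^ k) v) + (((tT R t m) ^ k) v - v) := by
        rw [pow_succ', Module.End.mul_apply]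
        abel
      rw [h1]
      exact Submodule.add_mem _ ⟨((tT R t m) ^ k) v, rfl⟩ ih
  have hle : Co (perm R H' (Fin (m + 1) → Γ)) ≤
      Co (perm R H (Fin (m + 1) → Γ)) ⊔ LinearMap.range (tT R t m - LinearMap.id) := by
    rw [Co, Submodule.span_le]
    rintro _ ⟨⟨x, hx⟩, v, rfl⟩
    obtain ⟨y, hy, k, rfl⟩ := h.gen x hx
    have h1 : perm R H' (Fin (m + 1) → Γ) ⟨y * t ^ k, hx⟩ v =
        perm R H (Fin (m + 1) → Γ) ⟨y, hy⟩ (((tT R t m) ^ k) v) := by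
      rw [IdxP_perm, IdxP_perm, IdxP_pow, tP_comp]
      congr 2
      funext s
      change y * t ^ k * s = y * (t ^ k * s)
      rw [mul_assoc]
    have h2 : perm R H' (Fin (m + 1) → Γ) ⟨y * t ^ k, hx⟩ v - v =
        (perm R H (Fin (m + 1) → Γ) ⟨y, hy⟩ (((tT R t m) ^ k) v) - ((tT R t m) ^ k) v) +
          (((tT R t m) ^ k) v - v) := by
      rw [h1]
      abel
    change perm R H' (Fin (m + 1) → Γ) ⟨y * t ^ k, hx⟩ v - v ∈ _
    rw [h2]
    exact Submodule.add_mem _ (Submodule.mem_sup_left (sub_mem_Co _ _ _))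
      (Submodule.mem_sup_right (hpow k v))
  obtain ⟨a, ha, b, ⟨v, hv⟩, hab⟩ := Submodule.mem_sup.1 (hle hc)
  refine ⟨v, ?_⟩
  have h3 : c - (tT R t m v - v) = a := by
    rw [← hab, ← hv, LinearMap.sub_apply, LinearMap.id_apply]
    abel
  rw [h3]
  exact ha

/-- PROOF: `t ^ p ∈ H`. -/
theorem tT_pow (R : Type) [CommRing R] (h : IdxP p H H' t) (m : ℕ) (c : (Fin (m + 1) → Γ) →₀ R) :
    ((tT R t m) ^ p) c - c ∈ Co (perm R H (Fin (m + 1) → Γ)) := by
  have h1 := sub_mem_Co (perm R H (Fin (m + 1) → Γ)) ⟨t ^ p, h.pow⟩ c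
  rw [IdxP_perm] at h1
  rw [IdxP_pow]
  exact h1

end Pool.Agent.W_3f1825_r40
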