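import Pool.Agent.W_3f1825_r40.Ext
import Pool.Agent.W_3f1825_r40.IdxP

set_option autoImplicit false

/-! The rational hull of an extension by `ℤ ^ r`. -/

namespace Pool.Agent.W_3f1825_r40

open Pool.Agent.W_3f1825_h40

/-- A rational hull of an extension. -/
structure Hull {G B : Type} [Group G] [Group B] {r : ℕ} (X : Ext G B r) where
  /-- the group -/
  Γ : Type
  [grp : Group Γ]
  /-- the inclusion of `G` -/
  i : G →* Γ
  inj : Function.Injective i
  /-- the inclusion of `ℚ ^ r` -/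
  ι : Multiplicative (Fin r → ℚ) →* Γ
  ι_inj : Function.Injective ι
  /-- the projection -/
  π : Γ →* B
  conj : ∀ g u, i g * ι (Multiplicative.ofAdd u) * (i g)⁻¹ =
    ι (Multiplicative.ofAdd (X.lin ℚ g u))
  ι_cv : ∀ v, ι (Multiplicative.ofAdd (cv ℚ v)) = i (X.a v)
  sep : ∀ u g, ι (Multiplicative.ofAdd u) = i g → ∃ v, g = X.a v ∧ u = cv ℚ v
  π_i : ∀ g, π (i g) = X.π g
  π_ι : ∀ u, π (ι u) = 1

attribute [instance] Hull.grp

variable {G B : Type} [Group G] [Group B] {r : ℕ}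

/-- The action of `G` on `ℚ ^ r`, multiplicatively. -/
noncomputable def Hull_act (X : Ext G B r) : G →* MulAut (Multiplicative (Fin r → ℚ)) where
  toFun g :=
    { toFun := fun u => Multiplicative.ofAdd (X.lin ℚ g (Multiplicative.toAdd u))
      invFun := fun u => Multiplicative.ofAdd (X.lin ℚ g⁻¹ (Multiplicative.toAdd u))
      left_inv := fun u => by
        have h : X.lin ℚ g⁻¹ * X.lin ℚ g = 1 := by rw [← map_mul, inv_mul_cancel, map_one]
        exact congrArg Multiplicative.ofAdd (LinearMap.congr_fun h (Multiplicative.toAdd u))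
      right_inv := fun u => by
        have h : X.lin ℚ g * X.lin ℚ g⁻¹ = 1 := by rw [← map_mul, mul_inv_cancel, map_one]
        exact congrArg Multiplicative.ofAdd (LinearMap.congr_fun h (Multiplicative.toAdd u))
      map_mul' := fun u w => congrArg Multiplicative.ofAdd
        (map_add (X.lin ℚ g) (Multiplicative.toAdd u) (Multiplicative.toAdd w)) }
  map_one' := by
    refine MulEquiv.ext fun u => ?_
    show Multiplicative.ofAdd (X.lin ℚ 1 (Multiplicative.toAdd u)) = u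
    rw [map_one]
    rfl
  map_mul' g k := by
    refine MulEquiv.ext fun u => ?_
    show Multiplicative.ofAdd (X.lin ℚ (g * k) (Multiplicative.toAdd u)) = _
    rw [map_mul]
    rfl

theorem Hull_act_apply (X : Ext G B r) (g : G) (u : Fin r → ℚ) :
    Hull_act X g (Multiplicative.ofAdd u) = Multiplicative.ofAdd (X.lin ℚ g u) := rfl

theorem Hull_act_a (X : Ext G B r) (v : Fin r → ℤ) : Hull_act X (X.a v) = 1 := by
  refine MulEquiv.ext fun u => ?_
  show Multiplicative.ofAdd (X.lin ℚ (X.a v) (Multiplicative.toAdd u)) = u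
  rw [X.lin_a]
  rfl

/-- The semidirect product. -/
abbrev Hull_P (X : Ext G B r) : Type := (Multiplicative (Fin r → ℚ)) ⋊[Hull_act X] G

/-- The antidiagonal. -/
noncomputable def Hull_δ (X : Ext G B r) : Multiplicative (Fin r → ℤ) →* Hull_P X where
  toFun v := ⟨Multiplicative.ofAdd (-cv ℚ (Multiplicative.toAdd v)), X.a (Multiplicative.toAdd v)⟩
  map_one' := by
    refine SemidirectProduct.ext ?_ ?_
    · show Multiplicative.ofAdd (-cv ℚ (0 : Fin r → ℤ)) = 1
      rw [cv_zero, neg_zero]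
      rfl
    · show X.a 0 = 1
      exact X.a_zero
  map_mul' v w := by
    refine SemidirectProduct.ext ?_ ?_
    · show Multiplicative.ofAdd (-cv ℚ (Multiplicative.toAdd v + Multiplicative.toAdd w)) =
        Multiplicative.ofAdd (-cv ℚ (Multiplicative.toAdd v)) *
          Hull_act X (X.a (Multiplicative.toAdd v))
            (Multiplicative.ofAdd (-cv ℚ (Multiplicative.toAdd w)))
      rw [Hull_act_a, cv_add, neg_add]
      rfl
    · show X.a (Multiplicative.toAdd v + Multiplicative.toAdd w) =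
        X.a (Multiplicative.toAdd v) * X.a (Multiplicative.toAdd w)
      exact X.a_add _ _

theorem Hull_mem (X : Ext G B r) {x : Hull_P X} :
    x ∈ (Hull_δ X).range ↔ ∃ v : Fin r → ℤ, x.left = Multiplicative.ofAdd (-cv ℚ v) ∧
      x.right = X.a v := by
  constructor
  · rintro ⟨v, rfl⟩
    exact ⟨Multiplicative.toAdd v, rfl, rfl⟩
  · rintro ⟨v, h1, h2⟩
    exact ⟨Multiplicative.ofAdd v, SemidirectProduct.ext h1.symm h2.symm⟩

theorem Hull_normal (X : Ext G B r) : ((Hull_δ X).range).Normal := by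
  refine ⟨fun n hn g => ?_⟩
  rw [Hull_mem] at hn ⊢
  obtain ⟨v, h1, h2⟩ := hn
  refine ⟨(X.ρ g.right).mulVec v, ?_, ?_⟩
  · have e1 : (g * n * g⁻¹).left = g.left * Hull_act X g.right n.left *
        Hull_act X (g.right * n.right * g.right⁻¹) g.left⁻¹ := by
      rw [SemidirectProduct.mul_left, SemidirectProduct.mul_left, SemidirectProduct.inv_left,
        SemidirectProduct.mul_right, map_mul (Hull_act X) (g.right * n.right)]
      rfl
    rw [e1, h2, X.conj_a, Hull_act_a, h1, Hull_act_apply, map_neg, X.lin_cv, MulAut.one_apply,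
      mul_comm g.left, mul_assoc, mul_inv_cancel, mul_one]
  · rw [SemidirectProduct.mul_right, SemidirectProduct.mul_right, SemidirectProduct.inv_right, h2,
      X.conj_a]

/-- PROOF: let `φ : G →* MulAut (Multiplicative (Fin r → ℚ))` be the action given by
`X.lin ℚ` (`MonoidHom.toHomUnits`), `P = (Multiplicative (Fin r → ℚ)) ⋊[φ] G`,
`δ : Multiplicative (Fin r → ℤ) →* P`, `v ↦ (-cv v, X.a v)` (a homomorphism because `X.lin_a`), `N`
its range, which is normal (`X.conj_a`, `X.lin_cv`), and `Γ = P ⧸ N`. -/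
theorem exists_hull (X : Ext G B r) : Nonempty (Hull X) := by
  have := Hull_normal X
  have key : ∀ x y : Hull_P X, (x : Hull_P X ⧸ (Hull_δ X).range) = y ↔
      x⁻¹ * y ∈ (Hull_δ X).range := fun x y => QuotientGroup.eq
  have hsep : ∀ (u : Fin r → ℚ) (g : G),
      (((SemidirectProduct.inl (Multiplicative.ofAdd u) : Hull_P X)) : Hull_P X ⧸ (Hull_δ X).range) =
        ((SemidirectProduct.inr g : Hull_P X)) ↔ ∃ v, g = X.a v ∧ u = cv ℚ v := by
    intro u g
    rw [key, Hull_mem]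
    have e1 : ((SemidirectProduct.inl (Multiplicative.ofAdd u) : Hull_P X)⁻¹ *
        SemidirectProduct.inr g).left = Multiplicative.ofAdd (-u) := by
      rw [← map_inv, SemidirectProduct.mul_left, SemidirectProduct.left_inl,
        SemidirectProduct.left_inr, map_one, mul_one]
      rfl
    have e2 : ((SemidirectProduct.inl (Multiplicative.ofAdd u) : Hull_P X)⁻¹ *
        SemidirectProduct.inr g).right = g := by
      rw [← map_inv, SemidirectProduct.mul_right, SemidirectProduct.right_inl,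
        SemidirectProduct.right_inr, one_mul]
    rw [e1, e2]
    refine exists_congr fun v => ?_
    constructor
    · rintro ⟨h1, h2⟩
      exact ⟨h2, neg_injective (Multiplicative.ofAdd.injective h1)⟩
    · rintro ⟨h1, h2⟩
      exact ⟨by rw [h2], h1⟩
  refine ⟨{
    Γ := Hull_P X ⧸ (Hull_δ X).range
    i := (QuotientGroup.mk' (Hull_δ X).range).comp SemidirectProduct.inr
    inj := ?_
    ι := (QuotientGroup.mk' (Hull_δ X).range).comp SemidirectProduct.inl
    ι_inj := ?_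
    π := QuotientGroup.lift (Hull_δ X).range (X.π.comp SemidirectProduct.rightHom) ?_
    conj := ?_
    ι_cv := ?_
    sep := ?_
    π_i := ?_
    π_ι := ?_ }⟩
  · rw [injective_iff_map_eq_one]
    intro g hg
    have h1 := (hsep 0 g).1 (by
      rw [show (SemidirectProduct.inl (Multiplicative.ofAdd (0 : Fin r → ℚ)) : Hull_P X) = 1 from
        map_one _]
      exact hg.symm)
    obtain ⟨v, h2, h3⟩ := h1
    have h4 : v = 0 := cv_inj (K := ℚ) (by rw [← h3, cv_zero])
    rw [h2, h4, X.a_zero]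
  · rw [injective_iff_map_eq_one]
    intro u hu
    have h1 := (hsep (Multiplicative.toAdd u) 1).1 (by
      rw [show (SemidirectProduct.inr (1 : G) : Hull_P X) = 1 from map_one _]
      exact hu)
    obtain ⟨v, h2, h3⟩ := h1
    have h4 : v = 0 := X.a_inj (by rw [← h2, X.a_zero])
    rw [h4, cv_zero] at h3
    exact Multiplicative.toAdd.injective h3
  · rintro x hx
    obtain ⟨v, -, h2⟩ := (Hull_mem X).1 hx
    show X.π x.right = 1
    rw [h2, X.π_a]
  · intro g u
    show (((SemidirectProduct.inr g : Hull_P X) * SemidirectProduct.inl (Multiplicative.ofAdd u) *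
      (SemidirectProduct.inr g)⁻¹ : Hull_P X) : Hull_P X ⧸ (Hull_δ X).range) = _
    rw [← map_inv, ← SemidirectProduct.inl_aut, Hull_act_apply]
    rfl
  · intro v
    exact (hsep (cv ℚ v) (X.a v)).2 ⟨v, rfl, rfl⟩
  · intro u g h
    exact (hsep u g).1 h
  · intro g
    rfl
  · intro u
    show X.π 1 = 1
    exact map_one _

namespace Hull

variable {X : Ext G B r} (h : Hull X)

/-- The element of the hull of a rational vector. -/
def u (x : Fin r → ℚ) : h.Γ := h.ι (Multiplicative.ofAdd x)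

theorem u_zero : h.u 0 = 1 := map_one h.ι

theorem u_add (x y : Fin r → ℚ) : h.u (x + y) = h.u x * h.u y := map_mul h.ι _ _

theorem u_neg (x : Fin r → ℚ) : h.u (-x) = (h.u x)⁻¹ := map_inv h.ι _

theorem u_nsmul (n : ℕ) (x : Fin r → ℚ) : h.u (n • x) = h.u x ^ n := map_pow h.ι _ _

theorem u_inj {x y : Fin r → ℚ} (e : h.u x = h.u y) : x = y :=
  Multiplicative.ofAdd.injective (h.ι_inj e)

theorem conj_u (g : G) (x : Fin r → ℚ) : h.i g * h.u x * (h.i g)⁻¹ = h.u (X.lin ℚ g x) :=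
  h.conj g x

theorem i_mul_u (g : G) (x : Fin r → ℚ) : h.i g * h.u x = h.u (X.lin ℚ g x) * h.i g := by
  rw [← h.conj_u, inv_mul_cancel_right]

theorem u_cv (v : Fin r → ℤ) : h.u (cv ℚ v) = h.i (X.a v) := h.ι_cv v

/-- The subgroup `A' G` of the hull. -/
def sub (A : AddSubgroup (Fin r → ℚ)) (inv : ∀ g, ∀ x ∈ A, X.lin ℚ g x ∈ A) : Subgroup h.Γ where
  carrier := {y | ∃ x ∈ A, ∃ g, y = h.u x * h.i g}
  one_mem' := ⟨0, A.zero_mem, 1, by rw [h.u_zero, map_one, one_mul]⟩
  mul_mem' := by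
    rintro _ _ ⟨x, hx, g, rfl⟩ ⟨y, hy, k, rfl⟩
    refine ⟨x + X.lin ℚ g y, A.add_mem hx (inv g y hy), g * k, ?_⟩
    rw [h.u_add, map_mul]
    calc h.u x * h.i g * (h.u y * h.i k) = h.u x * (h.i g * h.u y) * h.i k := by group
      _ = _ := by rw [h.i_mul_u]; group
  inv_mem' := by
    rintro _ ⟨x, hx, g, rfl⟩
    refine ⟨-(X.lin ℚ g⁻¹ x), A.neg_mem (inv _ x hx), g⁻¹, ?_⟩
    rw [mul_inv_rev, ← map_inv, ← h.u_neg, h.i_mul_u, map_neg]

theorem mem_sub {A : AddSubgroup (Fin r → ℚ)} {inv : ∀ g, ∀ x ∈ A, X.lin ℚ g x ∈ A} {y : h.Γ} :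
    y ∈ h.sub A inv ↔ ∃ x ∈ A, ∃ g, y = h.u x * h.i g := Iff.rfl

/-- PROOF: `h.sep`. -/
theorem u_mem_sub {A : AddSubgroup (Fin r → ℚ)} {inv : ∀ g, ∀ x ∈ A, X.lin ℚ g x ∈ A}
    (hcv : ∀ v, cv ℚ v ∈ A) {x : Fin r → ℚ} : h.u x ∈ h.sub A inv ↔ x ∈ A := by
  constructor
  · rintro ⟨y, hy, g, e⟩
    have e' : h.u (x - y) = h.i g := by
      rw [sub_eq_neg_add, h.u_add, h.u_neg, e, inv_mul_cancel_left]
    obtain ⟨v, -, hv⟩ := h.sep _ _ e'
    have : x = y + cv ℚ v := by rw [← hv]; abel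
    rw [this]
    exact A.add_mem hy (hcv v)
  · intro hx
    exact ⟨x, hx, 1, by rw [map_one, mul_one]⟩

theorem u_mul_i_mul_inv (x : Fin r → ℚ) (g : G) :
    h.u x * h.i g * (h.u x)⁻¹ = h.u (x - X.lin ℚ g x) * h.i g := by
  rw [sub_eq_add_neg, h.u_add, ← map_neg, ← h.u_neg, mul_assoc, h.i_mul_u, mul_assoc]

/-- PROOF: `IdxP` for a step of the chain. -/
theorem idxP {A A' : AddSubgroup (Fin r → ℚ)} {inv : ∀ g, ∀ x ∈ A, X.lin ℚ g x ∈ A}
    {inv' : ∀ g, ∀ x ∈ A', X.lin ℚ g x ∈ A'} (hcv : ∀ v, cv ℚ v ∈ A) {p : ℕ} {v : Fin r → ℚ}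
    (hle : A ≤ A') (hv : v ∈ A') (hv' : v ∉ A) (hp : p • v ∈ A)
    (hst : ∀ g, X.lin ℚ g v - v ∈ A) (hgen : ∀ x ∈ A', ∃ w ∈ A, ∃ k : ℕ, x = w + k • v) :
    IdxP p (h.sub A inv) (h.sub A' inv') (h.u v) where
  le := by
    rintro _ ⟨x, hx, g, rfl⟩
    exact ⟨x, hle hx, g, rfl⟩
  mem := (h.u_mem_sub (fun w => hle (hcv w))).2 hv
  norm := by
    rintro _ ⟨x, hx, g, rfl⟩
    refine ⟨x + (v - X.lin ℚ g v), A.add_mem hx ?_, g, ?_⟩
    · rw [← neg_sub]
      exact A.neg_mem (hst g)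
    · rw [h.u_add]
      have e1 : h.u v * h.u x = h.u x * h.u v := by rw [← h.u_add, ← h.u_add, add_comm]
      calc h.u v * (h.u x * h.i g) * (h.u v)⁻¹ = (h.u v * h.u x) * h.i g * (h.u v)⁻¹ := by group
        _ = h.u x * (h.u v * h.i g * (h.u v)⁻¹) := by rw [e1]; group
        _ = _ := by rw [h.u_mul_i_mul_inv]; group
  norm' := by
    rintro _ ⟨x, hx, g, rfl⟩
    refine ⟨x + (-v - X.lin ℚ g (-v)), A.add_mem hx ?_, g, ?_⟩
    · have : -v - X.lin ℚ g (-v) = X.lin ℚ g v - v := by rw [map_neg]; abel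
      rw [this]
      exact hst g
    · rw [h.u_add]
      have e1 : h.u (-v) * h.u x = h.u x * h.u (-v) := by rw [← h.u_add, ← h.u_add, add_comm]
      have e2 : h.u v = (h.u (-v))⁻¹ := by rw [h.u_neg, inv_inv]
      calc (h.u v)⁻¹ * (h.u x * h.i g) * h.u v
          = (h.u (-v) * h.u x) * h.i g * (h.u (-v))⁻¹ := by rw [← e2, h.u_neg]; group
        _ = h.u x * (h.u (-v) * h.i g * (h.u (-v))⁻¹) := by rw [e1]; group
        _ = _ := by rw [h.u_mul_i_mul_inv]; group
  gen := by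
    rintro _ ⟨x, hx, g, rfl⟩
    obtain ⟨w, hw, k, rfl⟩ := hgen x hx
    have hk : X.lin ℚ g⁻¹ (k • v) - k • v ∈ A := by
      rw [map_nsmul, ← nsmul_sub]
      exact A.nsmul_mem (hst _) k
    refine ⟨h.u (w + X.lin ℚ g (-(X.lin ℚ g⁻¹ (k • v) - k • v) + (X.lin ℚ g⁻¹ (k • v) - k • v)) +
      (k • v - X.lin ℚ g (k • v))) * h.i g, ⟨_, ?_, g, rfl⟩, k, ?_⟩
    · refine A.add_mem (A.add_mem hw (inv _ _ ?_)) ?_
      · rw [neg_add_cancel]
        exact A.zero_mem
      · rw [map_nsmul, ← nsmul_sub, ← neg_sub]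
        exact A.nsmul_mem (A.neg_mem (hst _)) k
    · rw [neg_add_cancel, map_zero, add_zero, ← h.u_nsmul, mul_assoc, h.i_mul_u, ← mul_assoc,
        ← h.u_add]
      congr 2
      abel
  pow := by
    rw [← h.u_nsmul]
    exact (h.u_mem_sub hcv).2 hp
  not_mem hh := hv' ((h.u_mem_sub hcv).1 hh)

end Hull

end Pool.Agent.W_3f1825_r40
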