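import Pool.Agent.W_3f1825_r40.Hull
import Pool.Agent.W_3f1825_r40.GoodD

set_option autoImplicit false

/-! The subgroups of the hull are torsion free. -/

namespace Pool.Agent.W_3f1825_r40

open Pool.Agent.W_3f1825_h40

variable {G B : Type} [Group G] [Group B] {r : ℕ} {X : Ext G B r} (h : Hull X)

namespace Hull

theorem pow_u_i (x : Fin r → ℚ) (g : G) (q : ℕ) :
    (h.u x * h.i g) ^ q = h.u (∑ i ∈ Finset.range q, X.lin ℚ (g ^ i) x) * h.i (g ^ q) := by
  induction q with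
  | zero => rw [pow_zero, Finset.sum_range_zero, h.u_zero, pow_zero, map_one, one_mul]
  | succ q ih =>
    rw [pow_succ, ih, Finset.sum_range_succ, h.u_add, pow_succ g q, map_mul]
    calc h.u (∑ i ∈ Finset.range q, X.lin ℚ (g ^ i) x) * h.i (g ^ q) * (h.u x * h.i g)
        = h.u (∑ i ∈ Finset.range q, X.lin ℚ (g ^ i) x) * (h.i (g ^ q) * h.u x) * h.i g := by
          group
      _ = _ := by rw [h.i_mul_u]; group

/-- PROOF: `pow_u_i`, `sep`, `TFree`; then `g = X.a w`, `h.u x * h.i g = h.u (x + cv ℚ w)`, and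
`q • (x + cv ℚ w) = 0` (`u_nsmul`, `u_inj`). -/
theorem sub_tf {A : AddSubgroup (Fin r → ℚ)} (hA : TFree X A) {A' : AddSubgroup (Fin r → ℚ)}
    (hle : A' ≤ A) (inv : ∀ g, ∀ x ∈ A', X.lin ℚ g x ∈ A') (y : h.Γ) (hy : y ∈ h.sub A' inv)
    {q : ℕ} (hq : q.Prime) (e : y ^ q = 1) : y = 1 := by
  obtain ⟨x, hx, g, rfl⟩ := hy
  rw [h.pow_u_i] at e
  obtain ⟨v, hv1, hv2⟩ := h.sep (∑ i ∈ Finset.range q, X.lin ℚ (g ^ i) x) (g ^ q)⁻¹ (by
    rw [map_inv]
    exact eq_inv_of_mul_eq_one_left e)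
  obtain ⟨w, hw⟩ := hA q hq g x (hle hx) (-v) (by rw [X.a_neg, ← hv1, inv_inv]) (by
    rw [hv2, cv_neg, neg_add_cancel])
  subst hw
  have e1 : h.u x * h.i (X.a w) = h.u (x + cv ℚ w) := by
    rw [← h.u_cv, h.u_add]
  rw [← h.pow_u_i, e1, ← h.u_nsmul, ← h.u_zero] at e
  have e2 := h.u_inj e
  have e3 : x + cv ℚ w = 0 := by
    rw [← Nat.cast_smul_eq_nsmul ℚ] at e2
    exact (smul_eq_zero.1 e2).resolve_left (by exact_mod_cast hq.ne_zero)
  rw [e1, e3, h.u_zero]

/-- PROOF: `sub_tf` and induction on the number of prime factors of `k`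
(`Nat.recOnMul` or strong induction with `Nat.exists_prime_and_dvd`). -/
theorem sub_tf' {A : AddSubgroup (Fin r → ℚ)} (hA : TFree X A) {A' : AddSubgroup (Fin r → ℚ)}
    (hle : A' ≤ A) (inv : ∀ g, ∀ x ∈ A', X.lin ℚ g x ∈ A') (y : h.sub A' inv)
    (k : ℕ) (hk : k ≠ 0) (e : y ^ k = 1) : y = 1 := by
  induction k using Nat.strong_induction_on with
  | _ k ih =>
    by_cases h1 : k = 1
    · rw [h1, pow_one] at e
      exact e
    · obtain ⟨q, hq, m, rfl⟩ := Nat.exists_prime_and_dvd h1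
      have hm : m ≠ 0 := by
        rintro rfl
        exact hk (mul_zero q)
      have hlt : m < q * m := by
        have := hq.two_le
        nlinarith [Nat.pos_of_ne_zero hm]
      apply ih m hlt hm
      apply Subtype.ext
      apply h.sub_tf hA hle inv _ (y ^ m).2 hq
      have e2 := congrArg Subtype.val e
      rw [mul_comm, pow_mul] at e2
      exact e2

end Hull

end Pool.Agent.W_3f1825_r40
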