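import Pool.Agent.W_3f1825_r40.PC

set_option autoImplicit false

/-! Complexes of modules over `k[t] / (t ^ p)` which are free in every degree (in the sense that
`ker t = im t ^ (p - 1)`), and their reduction modulo `t`. -/

namespace Pool.Agent.W_3f1825_r40

/-- A complex with an endomorphism `t` such that `t ^ p = 0` and `ker t = im t ^ (p - 1)`. -/
structure TP (k : Type) [CommRing k] (p : ℕ) extends PC k where
  /-- the endomorphism -/
  t : ∀ m, V m →ₗ[k] V m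
  d_t : ∀ m x, d m (t (m + 1) x) = t m (d m x)
  t_p : ∀ m x, ((t m) ^ p) x = 0
  ker_t : ∀ m x, t m x = 0 → ∃ y, ((t m) ^ (p - 1)) y = x

namespace TP

variable {k : Type} [CommRing k] {p : ℕ} (C : TP k p)

theorem d_t_pow (a m : ℕ) (x : C.V (m + 1)) :
    C.d m ((C.t (m + 1) ^ a) x) = (C.t m ^ a) (C.d m x) := by
  induction a with
  | zero => rfl
  | succ a ih => rw [pow_succ', pow_succ', Module.End.mul_apply, Module.End.mul_apply, C.d_t, ih]

theorem TMod_add (m a b : ℕ) (x : C.V m) :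
    (C.t m ^ (a + b)) x = (C.t m ^ a) ((C.t m ^ b) x) := by
  rw [pow_add, Module.End.mul_apply]

theorem TMod_succ (m a : ℕ) (x : C.V m) :
    (C.t m ^ (a + 1)) x = C.t m ((C.t m ^ a) x) := by
  rw [pow_succ', Module.End.mul_apply]

theorem TMod_succ' (m a : ℕ) (x : C.V m) :
    (C.t m ^ (a + 1)) x = (C.t m ^ a) (C.t m x) := by
  rw [pow_succ, Module.End.mul_apply]

/-- PROOF: induction on `a`: if `t ^ (a + 1) x = 0` then `t (t ^ a x) = 0`, so
`t ^ a x = t ^ (p - 1) w = t ^ a (t ^ (p - 1 - a) w)`, so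
`x - t ^ (p - 1 - a) w = t ^ (p - a) w'` by induction, and both are in the image of
`t ^ (p - (a + 1))`. -/
theorem ker_pow {a : ℕ} (ha : a ≤ p) (ha' : 1 ≤ a) (m : ℕ) (x : C.V m) (hx : (C.t m ^ a) x = 0) :
    ∃ y, (C.t m ^ (p - a)) y = x := by
  induction a, ha' using Nat.le_induction generalizing x with
  | base =>
    rw [pow_one] at hx
    exact C.ker_t m x hx
  | succ a ha' ih =>
    rw [C.TMod_succ] at hx
    obtain ⟨w, hw⟩ := C.ker_t m _ hx
    have e1 : p - 1 = a + (p - (a + 1)) := by omega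
    rw [e1, C.TMod_add] at hw
    obtain ⟨w', hw'⟩ := ih (by omega) (x - (C.t m ^ (p - (a + 1))) w) (by
      rw [map_sub, hw, sub_self])
    have e2 : p - a = (p - (a + 1)) + 1 := by omega
    rw [e2, C.TMod_succ'] at hw'
    refine ⟨w + C.t m w', ?_⟩
    rw [map_add, hw']
    abel

/-- Vanishing of the homology in degree `m + 1`. -/
def VM (m : ℕ) : Prop := ∀ x : C.V (m + 1), C.d m x = 0 → ∃ y, x = C.d (m + 1) y

/-- Vanishing of the homology of the reduction modulo `t ^ a` in degree `m + 1`. -/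
def VA (a m : ℕ) : Prop := ∀ x : C.V (m + 1), (∃ w, C.d m x = (C.t m ^ a) w) →
  ∃ y v, x = C.d (m + 1) y + (C.t (m + 1) ^ a) v

/-- PROOF: induction on `a ≥ 1`. Let `d x = t ^ (a + 1) w = t (t ^ a w)`. By `VA 1`,
`x = d y + t v`. Then `t (d v - t ^ a w) = 0`, so `d v - t ^ a w = t ^ (p - 1) z`, and
`a ≤ p - 1`, so `d v` is in the image of `t ^ a`; by induction `v = d y' + t ^ a v'`, so
`x = d (y + t y') + t ^ (a + 1) v'`. -/
theorem va_pow {N : ℕ} (h : ∀ m, N ≤ m → C.VA 1 m) {a : ℕ} (ha : 1 ≤ a) (ha' : a ≤ p) (m : ℕ)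
    (hm : N ≤ m) : C.VA a m := by
  induction a, ha using Nat.le_induction with
  | base => exact h m hm
  | succ a ha ih =>
    rintro x ⟨w, hw⟩
    rw [C.TMod_succ] at hw
    obtain ⟨y, v, hx⟩ := h m hm x ⟨(C.t m ^ a) w, by rw [pow_one]; exact hw⟩
    rw [pow_one] at hx
    have h1 : C.t m (C.d m v - (C.t m ^ a) w) = 0 := by
      rw [map_sub, ← hw, hx, map_add, C.d_d, zero_add, C.d_t, sub_self]
    obtain ⟨z, hz⟩ := C.ker_t m _ h1
    have e1 : p - 1 = a + (p - 1 - a) := by omega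
    rw [e1, C.TMod_add] at hz
    obtain ⟨y', v', hv⟩ := ih (by omega) v ⟨w + (C.t m ^ (p - 1 - a)) z, by
      rw [map_add, hz]
      abel⟩
    refine ⟨y + C.t (m + 2) y', v', ?_⟩
    rw [hx, hv, map_add, map_add, C.d_t, C.TMod_succ]
    abel

/-- The key computation: if `t ^ (p - 1) x = d y` then `x = d y' + t v`. PROOF: `d y ∈ im t ^ (p - 1)`,
so by `va_pow` (`a = p - 1`, degree `m + 1`) `y = d z + t ^ (p - 1) w`; then
`t ^ (p - 1) (x - d w) = 0` and `ker_pow` (`a = p - 1`) gives `x - d w = t v`. -/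
theorem lift_key (hp : 2 ≤ p) {N : ℕ} (h : ∀ m, N ≤ m → C.VA 1 m) (m : ℕ) (hm : N ≤ m)
    (x : C.V m) (hx : ∃ y, (C.t m ^ (p - 1)) x = C.d m y) : ∃ y v, x = C.d m y + C.t m v := by
  obtain ⟨y, hy⟩ := hx
  obtain ⟨z, w, hyz⟩ := C.va_pow h (a := p - 1) (by omega) (by omega) m hm y ⟨x, hy.symm⟩
  have h1 : (C.t m ^ (p - 1)) (x - C.d m w) = 0 := by
    rw [map_sub, ← C.d_t_pow, hy, hyz, map_add, C.d_d, zero_add, sub_self]
  obtain ⟨v, hv⟩ := C.ker_pow (a := p - 1) (by omega) (by omega) m _ h1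
  have e1 : p - (p - 1) = 1 := by omega
  rw [e1, pow_one] at hv
  refine ⟨w, v, ?_⟩
  rw [hv]
  abel

/-- PROOF: downward induction: assume `VA 1 m'` for all `m' ≥ m + 1`, `m ≥ n`, and let `d x = t w`,
`x ∈ V (m + 1)`. Then `t ^ (p - 1) x` is a cycle in degree `m + 1`, so it is `d y` by `VM m`;
`lift_key` in degree `m + 1`. -/
theorem va_of_vm (hp : 2 ≤ p) {n N : ℕ} (hM : ∀ m, n ≤ m → C.VM m) (hA : ∀ m, N ≤ m → C.VA 1 m)
    (m : ℕ) (hm : n ≤ m) : C.VA 1 m := by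
  have key : ∀ k m, n ≤ m → N ≤ m + k → C.VA 1 m := by
    intro k
    induction k with
    | zero => exact fun m _ h => hA m h
    | succ k ih =>
      rintro m hm hk x ⟨w, hw⟩
      rw [pow_one] at hw
      have h1 : C.d m ((C.t (m + 1) ^ (p - 1)) x) = 0 := by
        rw [C.d_t_pow, hw, ← C.TMod_succ', Nat.sub_add_cancel (by omega), C.t_p]
      obtain ⟨y, hy⟩ := hM m hm _ h1
      obtain ⟨y', v, hx⟩ := C.lift_key hp (N := m + 1) (fun m' hm' => ih m' (by omega) (by omega))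
        (m + 1) le_rfl x ⟨y, hy⟩
      refine ⟨y', v, ?_⟩
      rw [pow_one]
      exact hx
  exact key N m hm (by omega)

/-- Cycles modulo `t`. -/
def ZT : ∀ m, Submodule k (C.V m)
  | 0 => ⊤
  | m + 1 => (LinearMap.range (C.t m)).comap (C.d m)

/-- Boundaries modulo `t`. -/
def BT (m : ℕ) : Submodule k (C.V m) := LinearMap.range (C.d m) ⊔ LinearMap.range (C.t m)

theorem TMod_last (hp : 1 ≤ p) (m : ℕ) (x : C.V m) : (C.t m ^ (p - 1)) (C.t m x) = 0 := by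
  rw [← C.TMod_succ', Nat.sub_add_cancel hp, C.t_p]

theorem tpow_ZT (hp : 1 ≤ p) (m : ℕ) {x : C.V m} (hx : x ∈ C.ZT m) :
    (C.t m ^ (p - 1)) x ∈ C.toPC.Z m := by
  cases m with
  | zero => exact Submodule.mem_top
  | succ m =>
    obtain ⟨w, hw⟩ : ∃ w, C.t m w = C.d m x := hx
    show C.d m ((C.t (m + 1) ^ (p - 1)) x) = 0
    rw [C.d_t_pow, ← hw, C.TMod_last hp]

theorem tpow_BT (hp : 1 ≤ p) (m : ℕ) {x : C.V m} (hx : x ∈ C.BT m) :
    (C.t m ^ (p - 1)) x ∈ C.toPC.B m := by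
  obtain ⟨_, ⟨y, rfl⟩, _, ⟨v, rfl⟩, rfl⟩ := Submodule.mem_sup.1 hx
  rw [map_add, C.TMod_last hp, add_zero, ← C.d_t_pow]
  exact ⟨_, rfl⟩

theorem BT_of_tpow (hp : 2 ≤ p) {N : ℕ} (h : ∀ m, N ≤ m → C.VA 1 m) (m : ℕ) (hm : N ≤ m)
    {x : C.V m} (hx : (C.t m ^ (p - 1)) x ∈ C.toPC.B m) : x ∈ C.BT m := by
  obtain ⟨y, hy⟩ := hx
  obtain ⟨y', v, h1⟩ := C.lift_key hp h m hm x ⟨y, hy.symm⟩
  rw [h1]
  exact Submodule.add_mem_sup ⟨y', rfl⟩ ⟨v, rfl⟩

/-- PROOF: let `x ∈ Z m`, `x - t ^ (p - 1) x' ∈ B m`. Then `t x ∈ B m` (`t ^ p = 0`), so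
`t ^ (p - 1) x ∈ B m` and `BT_of_tpow` applies. -/
theorem Z_le_BT (hp : 2 ≤ p) {N : ℕ} (h : ∀ m, N ≤ m → C.VA 1 m) (m : ℕ) (hm : N ≤ m)
    (hs : ∀ x ∈ C.toPC.Z m, ∃ x', x - (C.t m ^ (p - 1)) x' ∈ C.toPC.B m) :
    C.toPC.Z m ≤ C.BT m := by
  intro x hx
  obtain ⟨x', y, hy⟩ := hs x hx
  have h1 : x = (C.t m ^ (p - 1)) x' + C.d m y := by
    have hy' : C.d m y = x - (C.t m ^ (p - 1)) x' := hy
    rw [hy']
    abel
  refine C.BT_of_tpow hp h m hm ?_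
  have e1 : p - 1 = (p - 2) + 1 := by omega
  have h2 : (C.t m ^ (p - 1)) x = C.d m ((C.t (m + 1) ^ (p - 1)) y) := by
    rw [C.d_t_pow]
    conv_lhs => rw [h1]
    rw [map_add]
    have h3 : (C.t m ^ (p - 1)) ((C.t m ^ (p - 1)) x') = 0 := by
      conv_lhs => rw [e1]
      rw [C.TMod_succ', ← C.TMod_succ, ← e1, Nat.sub_add_cancel (by omega), C.t_p, map_zero]
    rw [h3, zero_add]
  rw [h2]
  exact ⟨_, rfl⟩

end TP

end Pool.Agent.W_3f1825_r40
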