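import Pool.Agent.W_3f1825_r40.FreeP
import Pool.Agent.W_3f1825_r40.TMod

set_option autoImplicit false

/-! The complex over `𝔽_p[t] / (t ^ p)` attached to a subgroup of index `p`. -/

namespace Pool.Agent.W_3f1825_r40

open Pool.Agent.W_3f1825_h40

variable {Γ : Type} [Group Γ] {p : ℕ} [Fact p.Prime] {H H' : Subgroup Γ} {t : Γ}

theorem IdxTP_BT {k : Type} [CommRing k] {p : ℕ} (C : TP k p) (m : ℕ) (x : C.V m) :
    x ∈ C.BT m ↔ ∃ y v, C.d m y + C.t m v = x := by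
  constructor
  · intro hx
    obtain ⟨_, ⟨y, rfl⟩, _, ⟨v, rfl⟩, h⟩ := Submodule.mem_sup.1 hx
    exact ⟨y, v, h⟩
  · rintro ⟨y, v, rfl⟩
    exact Submodule.add_mem_sup ⟨y, rfl⟩ ⟨v, rfl⟩

/-- The endomorphism of the coinvariants. -/
noncomputable def IdxTP_t (h : IdxP p H H' t) (m : ℕ) :
    (coinv ((tSS H Γ).cx (ZMod p))).V m →ₗ[ZMod p] (coinv ((tSS H Γ).cx (ZMod p))).V m :=
  Submodule.mapQ _ _ (tT (ZMod p) t m - LinearMap.id) (fun c hc => by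
    exact Submodule.sub_mem _ (tT_Co (ZMod p) h m hc) hc)

theorem IdxTP_t_cmk (h : IdxP p H H' t) (m : ℕ) (c : (Fin (m + 1) → Γ) →₀ ZMod p) :
    IdxTP_t h m (cmk ((tSS H Γ).cx (ZMod p)) m c) =
      cmk ((tSS H Γ).cx (ZMod p)) m (tT (ZMod p) t m c - c) := rfl

theorem IdxTP_pow (h : IdxP p H H' t) (m k : ℕ) (c : (Fin (m + 1) → Γ) →₀ ZMod p) :
    ((IdxTP_t h m) ^ k) (cmk ((tSS H Γ).cx (ZMod p)) m c) =
      cmk ((tSS H Γ).cx (ZMod p)) m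
        (((tT (ZMod p) t m - LinearMap.id : Module.End (ZMod p) ((Fin (m + 1) → Γ) →₀ ZMod p)) ^ k)
          c) := by
  induction k with
  | zero => rfl
  | succ k ih =>
    rw [pow_succ', pow_succ', Module.End.mul_apply, Module.End.mul_apply, ih, IdxTP_t_cmk]
    rfl

theorem IdxTP_eq (h : IdxP p H H' t) (m : ℕ) (a b : (Fin (m + 1) → Γ) →₀ ZMod p) :
    (cmk ((tSS H Γ).cx (ZMod p)) m a = cmk ((tSS H Γ).cx (ZMod p)) m b) ↔
      a - b ∈ Co (perm (ZMod p) H (Fin (m + 1) → Γ)) := Submodule.Quotient.eq _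

/-- The complex: coinvariants under `H` of the chains on tuples of elements of `Γ`, with
`t = (left multiplication by t) - 1`. -/
noncomputable def idxTP (h : IdxP p H H' t) : TP (ZMod p) p where
  toPC := coinv ((tSS H Γ).cx (ZMod p))
  t m := Submodule.mapQ _ _ (tT (ZMod p) t m - LinearMap.id) (fun c hc => by
    exact Submodule.sub_mem _ (tT_Co (ZMod p) h m hc) hc)
  d_t m x := by
    obtain ⟨c, rfl⟩ := cmk_surj _ _ x
    change cmk ((tSS H Γ).cx (ZMod p)) m ((tSS H Γ).dd (ZMod p) m (tT (ZMod p) t (m + 1) c - c)) =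
      cmk ((tSS H Γ).cx (ZMod p)) m (tT (ZMod p) t m ((tSS H Γ).dd (ZMod p) m c) -
        (tSS H Γ).dd (ZMod p) m c)
    rw [map_sub]
    unfold tT
    rw [tP_dd H H]
  t_p m x := by
    obtain ⟨c, rfl⟩ := cmk_surj _ _ x
    change ((IdxTP_t h m) ^ p) (cmk ((tSS H Γ).cx (ZMod p)) m c) = 0
    rw [IdxTP_pow, pow_sub_one']
    exact (cmk_eq_zero _ m _).2 (tT_pow (ZMod p) h m c)
  ker_t m x hx := by
    obtain ⟨c, rfl⟩ := cmk_surj _ _ x
    change cmk ((tSS H Γ).cx (ZMod p)) m (tT (ZMod p) t m c - c) = 0 at hx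
    obtain ⟨b, hb⟩ := exists_norm_Co (ZMod p) h Fact.out m c ((cmk_eq_zero _ m _).1 hx)
    refine ⟨cmk ((tSS H Γ).cx (ZMod p)) m b, ?_⟩
    change ((IdxTP_t h m) ^ (p - 1)) (cmk ((tSS H Γ).cx (ZMod p)) m b) = _
    rw [IdxTP_pow, pow_sub_one, LinearMap.sum_apply]
    exact ((IdxTP_eq h m _ _).2 hb).symm

theorem idxTP_t (h : IdxP p H H' t) (m : ℕ) (c : (Fin (m + 1) → Γ) →₀ ZMod p) :
    (idxTP h).t m (cmk ((tSS H Γ).cx (ZMod p)) m c) =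
      cmk ((tSS H Γ).cx (ZMod p)) m (tT (ZMod p) t m c - c) := rfl

/-- PROOF: `Co_eq`, `tT_sub_mem`, `Co_mono`. -/
theorem idx_mem_range_t (h : IdxP p H H' t) (m : ℕ) (c : (Fin (m + 1) → Γ) →₀ ZMod p) :
    cmk ((tSS H Γ).cx (ZMod p)) m c ∈ LinearMap.range ((idxTP h).t m) ↔
      c ∈ Co (perm (ZMod p) H' (Fin (m + 1) → Γ)) := by
  constructor
  · rintro ⟨y, hy⟩
    obtain ⟨v, rfl⟩ := cmk_surj _ _ y
    rw [idxTP_t] at hy
    have h1 : c - (tT (ZMod p) t m v - v) ∈ Co (perm (ZMod p) H (Fin (m + 1) → Γ)) :=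
      (IdxTP_eq h m _ _).1 hy.symm
    have h2 := Submodule.add_mem _ (Co_mono (ZMod p) h.le m h1) (tT_sub_mem (ZMod p) h m v)
    rwa [sub_add_cancel] at h2
  · intro hc
    obtain ⟨v, hv⟩ := Co_eq (ZMod p) h m hc
    refine ⟨cmk ((tSS H Γ).cx (ZMod p)) m v, ?_⟩
    rw [idxTP_t]
    exact ((IdxTP_eq h m _ _).2 hv).symm

theorem idx_mem_ZT (h : IdxP p H H' t) (m : ℕ) (c : (Fin (m + 1) → Γ) →₀ ZMod p) :
    cmk ((tSS H Γ).cx (ZMod p)) m c ∈ (idxTP h).ZT m ↔ c ∈ ((tSS H' Γ).cx (ZMod p)).Z m := by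
  cases m with
  | zero =>
    exact iff_of_true (Submodule.mem_top (R := ZMod p) (M := (idxTP h).V 0)) Submodule.mem_top
  | succ m => exact idx_mem_range_t h m ((tSS H Γ).dd (ZMod p) m c)

theorem idx_mem_BT (h : IdxP p H H' t) (m : ℕ) (c : (Fin (m + 1) → Γ) →₀ ZMod p) :
    cmk ((tSS H Γ).cx (ZMod p)) m c ∈ (idxTP h).BT m ↔ c ∈ ((tSS H' Γ).cx (ZMod p)).B m := by
  rw [Cx.mem_B]
  constructor
  · intro hc
    obtain ⟨y, a, hab⟩ := (IdxTP_BT (idxTP h) m _).1 hc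
    obtain ⟨y, rfl⟩ := cmk_surj _ _ y
    obtain ⟨a, rfl⟩ := cmk_surj _ _ a
    refine ⟨y, ?_⟩
    have h1 : cmk ((tSS H Γ).cx (ZMod p)) m
        ((tSS H Γ).dd (ZMod p) m y + (tT (ZMod p) t m a - a)) =
        cmk ((tSS H Γ).cx (ZMod p)) m c := hab
    have h2 := Co_mono (ZMod p) h.le m ((IdxTP_eq h m _ _).1 h1.symm)
    have h3 := Submodule.add_mem _ h2 (tT_sub_mem (ZMod p) h m a)
    have h4 : c - ((tSS H Γ).dd (ZMod p) m y + (tT (ZMod p) t m a - a)) +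
        (tT (ZMod p) t m a - a) = c - (tSS H' Γ).dd (ZMod p) m y := by
      rw [dd_indep H H' Γ]
      abel
    rw [h4] at h3
    exact h3
  · rintro ⟨y, hy⟩
    obtain ⟨v, hv⟩ := Co_eq (ZMod p) h m hy
    have h2 : cmk ((tSS H Γ).cx (ZMod p)) m c = cmk ((tSS H Γ).cx (ZMod p)) m
        ((tSS H Γ).dd (ZMod p) m y + (tT (ZMod p) t m v - v)) := by
      refine (IdxTP_eq h m _ _).2 ?_
      have h4 : c - ((tSS H Γ).dd (ZMod p) m y + (tT (ZMod p) t m v - v)) =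
        c - (tSS H' Γ).dd (ZMod p) m y - (tT (ZMod p) t m v - v) := by
        rw [dd_indep H H' Γ]
        abel
      rw [h4]
      exact hv
    rw [h2]
    exact Submodule.add_mem_sup (S := LinearMap.range ((idxTP h).d m))
      (T := LinearMap.range ((idxTP h).t m)) ⟨cmk ((tSS H Γ).cx (ZMod p)) (m + 1) y, rfl⟩
      ⟨cmk ((tSS H Γ).cx (ZMod p)) m v, rfl⟩

theorem idx_VM (h : IdxP p H H' t) (m : ℕ) :
    (idxTP h).VM m ↔ ((tSS H Γ).cx (ZMod p)).Van (m + 1) := by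
  rw [← coinv_van]
  constructor
  · intro hv x hx
    obtain ⟨y, hy⟩ := hv x hx
    exact ⟨y, hy.symm⟩
  · intro hv x hx
    obtain ⟨y, hy⟩ := hv (x := x) hx
    exact ⟨y, hy.symm⟩

theorem idx_VA (h : IdxP p H H' t) (m : ℕ) :
    (idxTP h).VA 1 m ↔ ((tSS H' Γ).cx (ZMod p)).Van (m + 1) := by
  constructor
  · intro hv c hc
    obtain ⟨w, hw⟩ := (idx_mem_ZT h (m + 1) c).2 hc
    obtain ⟨y, v, hyv⟩ := hv (cmk ((tSS H Γ).cx (ZMod p)) (m + 1) c) ⟨w, by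
      rw [pow_one]
      exact hw.symm⟩
    rw [pow_one] at hyv
    refine (idx_mem_BT h (m + 1) c).1 ?_
    rw [hyv]
    exact Submodule.add_mem_sup (S := LinearMap.range ((idxTP h).d (m + 1)))
      (T := LinearMap.range ((idxTP h).t (m + 1))) ⟨y, rfl⟩ ⟨v, rfl⟩
  · rintro hv x ⟨w, hw⟩
    obtain ⟨c, rfl⟩ := cmk_surj _ _ x
    rw [pow_one] at hw
    have h1 : c ∈ ((tSS H' Γ).cx (ZMod p)).Z (m + 1) :=
      (idx_mem_ZT h (m + 1) c).1 ⟨w, hw.symm⟩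
    have h2 := (idx_mem_BT h (m + 1) c).2 (hv h1)
    obtain ⟨y, v, hyv⟩ := (IdxTP_BT (idxTP h) (m + 1) _).1 h2
    refine ⟨y, v, ?_⟩
    rw [pow_one]
    exact hyv.symm

/-- PROOF: `va_of_vm`. -/
theorem van_step (h : IdxP p H H' t) {n N : ℕ}
    (hH : ∀ m, n < m → ((tSS H Γ).cx (ZMod p)).Van m)
    (hH' : ∀ m, N < m → ((tSS H' Γ).cx (ZMod p)).Van m) (m : ℕ) (hm : n < m) :
    ((tSS H' Γ).cx (ZMod p)).Van m := by
  obtain ⟨m, rfl⟩ : ∃ m', m = m' + 1 := ⟨m - 1, by omega⟩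
  have hp : p.Prime := Fact.out
  exact (idx_VA h m).1 ((idxTP h).va_of_vm hp.two_le (n := n) (N := N)
    (fun m' hm' => (idx_VM h m').2 (hH (m' + 1) (by omega)))
    (fun m' hm' => (idx_VA h m').2 (hH' (m' + 1) (by omega))) m (by omega))

end Pool.Agent.W_3f1825_r40
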