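import Pool.Agent.W_3f1825_r40.Push
import Pool.Agent.W_3f1825_h40.RealQ

set_option autoImplicit false

/-! Real homology classes with torsion integral images. -/

namespace Pool.Agent.W_3f1825_r40

open Pool.Agent.W_3f1825_h40

variable {G B : Type} [Group G] [Group B]

theorem tP_i2r {S S' : Type} (f : S → S') (m : ℕ) (c : (Fin (m + 1) → S) →₀ ℤ) :
    tP ℝ f m (i2r _ c) = i2r _ (tP ℤ f m c) := RealQ_i2r_lmap _ _

/-- If the images of the integral cycles are torsion then the images of the real cycles are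
boundaries. -/
theorem real_image (π : G →* B) (d : ℕ)
    (h : ∀ x ∈ ((tSS G G).cx ℤ).Z d,
      ∃ m : ℕ, m ≠ 0 ∧ (m : ℤ) • tP ℤ π d x ∈ ((tSS B B).cx ℤ).B d)
    (c : (Fin (d + 1) → G) →₀ ℝ) (hc : c ∈ ((tSS G G).cx ℝ).Z d) :
    tP ℝ π d c ∈ ((tSS B B).cx ℝ).B d := by
  obtain ⟨n, r, c', hr, hcc⟩ := exists_decomp (X := Fin (d + 1) → G) c
  have hZ : ∀ j, c' j ∈ ((tSS G G).cx ℤ).Z d := by
    intro j
    cases d with
    | zero => exact Submodule.mem_top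
    | succ m =>
      have h1 : (tSS G G).dd ℝ m c ∈ Co (perm ℝ G (Fin (m + 1) → G)) := hc
      rw [hcc, map_sum] at h1
      have h2 : ∑ j, r j • i2r _ ((tSS G G).dd ℤ m (c' j)) ∈ Co (perm ℝ G (Fin (m + 1) → G)) := by
        have e : ∑ j, r j • i2r _ ((tSS G G).dd ℤ m (c' j)) =
            ∑ j, (tSS G G).dd ℝ m (r j • i2r _ (c' j)) := by
          refine Finset.sum_congr rfl fun j _ => ?_
          rw [map_smul, dd_i2r]
        rw [e]
        exact h1
      exact mem_Co_of_sum r hr (fun j => (tSS G G).dd ℤ m (c' j)) h2 j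
  have hB : ∀ j, tP ℝ π d (i2r _ (c' j)) ∈ ((tSS B B).cx ℝ).B d := by
    intro j
    obtain ⟨k, hk, hkB⟩ := h (c' j) (hZ j)
    obtain ⟨y, hy⟩ := Cx.mem_B.1 hkB
    have h1 := i2r_Co hy
    have h2 : i2r (Fin (d + 1) → B) (((k : ℕ) : ℤ) • tP ℤ π d (c' j) - (tSS B B).dd ℤ d y) =
        (k : ℝ) • tP ℝ π d (i2r _ (c' j)) - (tSS B B).dd ℝ d (i2r _ y) := by
      rw [map_sub, dd_i2r, map_zsmul, tP_i2r]
      congr 1
      ext x
      simp
    have h3 : (k : ℝ) • tP ℝ π d (i2r _ (c' j)) ∈ ((tSS B B).cx ℝ).B d :=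
      Cx.mem_B.2 ⟨i2r _ y, by rw [← h2]; exact h1⟩
    have hk' : (k : ℝ) ≠ 0 := by exact_mod_cast hk
    have h4 := Submodule.smul_mem _ ((k : ℝ)⁻¹) h3
    rwa [smul_smul, inv_mul_cancel₀ hk', one_smul] at h4
  rw [hcc, map_sum]
  refine Submodule.sum_mem _ fun j _ => ?_
  rw [map_smul]
  exact Submodule.smul_mem _ (r j) (hB j)

end Pool.Agent.W_3f1825_r40
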