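import Pool.Agent.W_3f1825_r40.StepF
import Pool.Agent.W_3f1825_r40.FolZ
import Pool.Agent.W_3f1825_r40.Core2
import Pool.Agent.W_3f1825_r40.RealImg
import Pool.Agent.W_3f1825_h40.Bridge
import Pool.Agent.W_3f1825_top.Main0

set_option autoImplicit false

/-! Vanishing of the `l¹` seminorm for groups with good data. -/

open Filter Topology

namespace Pool.Agent.W_3f1825_r40

open Pool.Agent.W_3f1825_h40 Pool.Agent.W_3f1825_top
open Pool.Agent.W_MP_6d5819_gt (Ch Sing Simp chIn cyc bds bd)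

theorem mpT_tinc {S S' : Type} (f : S → S') (n : ℕ) (c : (Fin (n + 1) → S) →₀ ℝ) :
    mpT ℝ f (tinc ℝ S n c) = tinc ℝ S' n (tP ℝ f n c) := by
  induction c using Finsupp.induction_linear with
  | zero => simp
  | add a b ha hb => simp only [map_add, ha, hb]
  | single v r =>
    rw [tinc_single, tP_single, tinc_single, mpT_single]
    rfl

theorem tcomp_mem_Z {G : Type} [Group G] {n : ℕ} {c : TC ℝ G} (hc : c ∈ tin ℝ G n)
    (hdc : bdT ℝ c ∈ dltT ℝ (S := G) G) : tcomp ℝ G n c ∈ ((tSS G G).cx ℝ).Z n := by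
  cases n with
  | zero => exact Submodule.mem_top
  | succ n =>
    rw [Cx.mem_Z_succ]
    have h1 : bdT ℝ c = tinc ℝ G n ((tSS G G).dd ℝ n (tcomp ℝ G (n + 1) c)) := by
      rw [← bdT_tinc, tinc_tcomp hc]
    have h2 := tcomp_dltT n hdc
    rw [h1] at h2
    have h3 : ∀ c : (Fin (n + 1) → G) →₀ ℝ, tcomp ℝ G n (tinc ℝ G n c) = c := by
      intro c
      induction c using Finsupp.induction_linear with
      | zero => simp
      | add a b ha hb => simp only [map_add, ha, hb]
      | single v r => rw [tinc_single, tcomp_single_self]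
    rw [h3] at h2
    exact h2

/-- The statement for tuples: `π` maps all real cycles to boundaries. -/
theorem VanT_of_image {L B : Type} [Group L] [Group B] {r : ℕ} (X : Ext L B r) {n : ℕ}
    (h : ∀ c ∈ ((tSS L L).cx ℝ).Z n, tP ℝ X.π n c ∈ ((tSS B B).cx ℝ).B n) : VanT L n := by
  intro c hc hdc ε hε
  obtain ⟨P⟩ := exists_foln r
  letI iA : MulAction (Multiplicative (Fin r → ℤ)) L :=
    { smul := fun a s => s * (X.α a)⁻¹
      one_smul := fun s => by
        change s * (X.α 1)⁻¹ = s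
        rw [map_one, inv_one, mul_one]
      mul_smul := fun a b s => by
        change s * (X.α (a * b))⁻¹ = s * (X.α b)⁻¹ * (X.α a)⁻¹
        rw [map_mul, mul_inv_rev, mul_assoc] }
  letI iB : MulAction L B := MulAction.compHom B X.π
  have hsm : ∀ (a : Multiplicative (Fin r → ℤ)) (s : L), a • s = s * (X.α a)⁻¹ := fun _ _ => rfl
  refine stepF (S := L) (G := L) (B := B) P ?_ ?_ (π := X.π) X.surj ?_ ?_ hc hdc ?_ hε
  · intro a g s
    rw [hsm, hsm, smul_eq_mul, smul_eq_mul, mul_assoc]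
  · intro g s e
    exact mul_eq_right.1 e
  · intro g s
    exact map_mul X.π g s
  · intro s s' e
    have h1 : X.π (s⁻¹ * s') = 1 := by rw [map_mul, map_inv, e, inv_mul_cancel]
    obtain ⟨v, hv⟩ := (X.ker _).1 h1
    refine ⟨(Multiplicative.ofAdd v)⁻¹, ?_⟩
    rw [hsm, map_inv, inv_inv, ← hv, mul_inv_cancel_left]
  · have h1 := h _ (tcomp_mem_Z hc hdc)
    obtain ⟨w, hw⟩ := Cx.mem_B.1 h1
    refine ⟨tinc ℝ B (n + 1) w, tinc_mem _ _, ?_⟩
    have h2 := tinc_Co n hw
    rw [map_sub, ← mpT_tinc, tinc_tcomp hc, ← bdT_tinc (G := B)] at h2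
    have hle : dltT ℝ (S := B) B ≤ dltT ℝ (S := B) L := by
      rw [dltT, Submodule.span_le]
      rintro _ ⟨⟨b, v⟩, rfl⟩
      obtain ⟨g, rfl⟩ := X.surj b
      exact dltT_mem ℝ g v
    exact hle h2

/-- **Steps 8, 9.** -/
theorem main1 {X M : Type} [TopologicalSpace X] [T2Space X] [TopologicalSpace M]
    [ContractibleSpace X] {G : Type} [Group G] [MulAction G X] [ProperlyDiscontinuousSMul G X]
    {f : C(X, M)} (hf : IsQuotientCoveringMap f G) (L : Subgroup G) [L.FiniteIndex]
    (hL : IsGood L) {n : ℕ} (hn : 1 ≤ n) (hE : LocEuc n X)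
    (hcomp : CompactSpace (Quotient (MulAction.orbitRel L X))) :
    ∀ c ∈ cyc ℝ n (Set.univ : Set M), ∀ ε : ℝ, 0 < ε →
      ∃ c' ∈ cyc ℝ n (Set.univ : Set M), c - c' ∈ bds ℝ n (Set.univ : Set M) ∧ nrm c' < ε := by
  have : ContinuousConstSMul G X := hf.toContinuousConstSMul
  have hc := hf.isCancelSMul
  have hfree : ∀ (g : G) (x : X), g • x = x → g = 1 := by
    intro g x h
    exact IsCancelSMul.right_cancel g 1 x (by rw [h, one_smul])
  have hfreeL : ∀ (g : L) (x : X), g • x = x → g = 1 := by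
    intro g x h
    exact Subtype.ext (hfree (g : G) x h)
  have hpd : ProperlyDiscontinuousSMul L X := inferInstance
  obtain ⟨B, iB, r, Y, p, A, D⟩ := hL
  have h1 := core2 D hn hE hfreeL hcomp
  have h2 := real_image Y.π n h1
  exact seminorm_zero hf (VanS_of_finiteIndex L (VanS_of_VanT hfreeL (VanT_of_image Y h2)))

end Pool.Agent.W_3f1825_r40
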