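import Pool.Agent.W_3f1825_r40.Main1
import Pool.Agent.W_3f1825_r40.GoodE
import Pool.Agent.W_3f1825_h40.MainThm

set_option autoImplicit false

/-! Topological assembly. -/

open Topology

namespace Pool.Agent.W_3f1825_r40

open Pool.Agent.W_MP_6d5819_gt Pool.Agent.W_3f1825_top Pool.Agent.W_3f1825_h40

section

variable {n : ℕ} (hn : 1 ≤ n) (M : Type) [TopologicalSpace M] [T2Space M]
    [CompactSpace M] [ConnectedSpace M] [ChartedSpace (EuclideanSpace ℝ (Fin n)) M]
    (hM : IsAspherical M) (x₀ : M)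

include hn hM

omit [CompactSpace M] in
theorem pi1_torFree : TorFree (FundamentalGroup M x₀) := by
  obtain ⟨E, tE, p, hE, hp⟩ := hM
  have hM' : LocEuc n M := LocEuc_of_charted
  have hLE : LocEuc n E := LocEuc_source hp.isLocalHomeomorph hM'
  have : T2Space E := t2_of_cover hp
  have : LocallyCompactSpace E := locallyCompact_of_locEuc hLE
  have : LocallyPathConnectedSpace E := locallyPathConnected_of_locEuc hLE
  have hq : IsQuotientCoveringMap p (deck p) := deck_quot hp
  have : ContinuousConstSMul (deck p) E := hq.toContinuousConstSMul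
  have : ProperlyDiscontinuousSMul (deck p) E := pd_of_quot hq
  obtain ⟨e⟩ := deck_equiv hq x₀
  refine torFree_congr e (torFree_of_prime fun ℓ hℓ g hg => no_torsion hn hLE ?_ hℓ g hg)
  intro g x hx
  have := hq.isCancelSMul
  exact IsCancelSMul.right_cancel _ _ x (by rw [one_smul]; exact hx)

theorem good_cycles (h : VirtGood (FundamentalGroup M x₀))
    (c : SChain ℝ M n) (hc : IsCycle ℝ c) (ε : ℝ) (hε : 0 < ε) :
    ∃ c' : SChain ℝ M n, IsCycle ℝ c' ∧ Homologous ℝ c c' ∧ l1 c' < ε := by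
  obtain ⟨E, tE, p, hE, hp⟩ := hM
  have hM' : LocEuc n M := LocEuc_of_charted
  have hLE : LocEuc n E := LocEuc_source hp.isLocalHomeomorph hM'
  have : T2Space E := t2_of_cover hp
  have : LocallyCompactSpace E := locallyCompact_of_locEuc hLE
  have : LocallyPathConnectedSpace E := locallyPathConnected_of_locEuc hLE
  have hq : IsQuotientCoveringMap p (deck p) := deck_quot hp
  have : ContinuousConstSMul (deck p) E := hq.toContinuousConstSMul
  have : ProperlyDiscontinuousSMul (deck p) E := pd_of_quot hq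
  have hcomp := compact_of_quot hq
  obtain ⟨e⟩ := deck_equiv hq x₀
  obtain ⟨H, hH, hgood⟩ := VirtGood.congr e h
  obtain ⟨c', hc'1, hc'2, hc'3⟩ := main1 (f := ⟨p, hp.continuous⟩) hq H hgood hn hLE
    (compact_subgroup hcomp H hH) (inc ℝ M n c) (mem_cyc_inc.2 hc) ε hε
  obtain ⟨c'', rfl⟩ := (mem_chIn_univ_iff ℝ n _).1 (Submodule.mem_inf.1 hc'1).1
  refine ⟨c'', mem_cyc_inc.1 hc'1, ?_, by rwa [nrm_inc] at hc'3⟩
  obtain ⟨b, hb, hb'⟩ := hc'2
  obtain ⟨b', rfl⟩ := (mem_chIn_univ_iff ℝ (n + 1) _).1 hb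
  refine ⟨b', inc_injective ℝ M n ?_⟩
  rw [map_sub, ← hb', bd_inc]

/-- The main theorem, up to the group theory. -/
theorem main2 (h : TorFree (FundamentalGroup M x₀) → VirtGood (FundamentalGroup M x₀)) :
    (∀ c : SChain ℝ M n, IsCycle ℝ c → ∀ ε : ℝ, 0 < ε →
      ∃ c' : SChain ℝ M n, IsCycle ℝ c' ∧ Homologous ℝ c c' ∧ l1 c' < ε) ∧
    simplicialVolume n M = 0 := by
  have h2 := good_cycles hn M hM x₀ (h (pi1_torFree hn M hM x₀))
  exact ⟨h2, simplicialVolume_eq_zero M h2⟩

end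

end Pool.Agent.W_3f1825_r40
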