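import Pool.Agent.W_3f1825_r40.Main2
import Pool.Agent.W_3f1825_r40.GMain
import Pool.Agent.W_3f1825_r40.GPrime

set_option autoImplicit false

/-! The main theorem. -/

namespace Pool.Agent.W_3f1825_r40

open Pool.Agent.W_3f1825_h40

section

variable {n : ℕ} (hn : 1 ≤ n) (M : Type) [TopologicalSpace M] [T2Space M]
    [CompactSpace M] [ConnectedSpace M] [ChartedSpace (EuclideanSpace ℝ (Fin n)) M]
    (hM : IsAspherical M) (x₀ : M)

include hn hM

/-- The separated case. -/
theorem main_sep (h : VirtPolySep (FundamentalGroup M x₀)) :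
    (∀ c : SChain ℝ M n, IsCycle ℝ c → ∀ ε : ℝ, 0 < ε →
      ∃ c' : SChain ℝ M n, IsCycle ℝ c' ∧ Homologous ℝ c c' ∧ l1 c' < ε) ∧
    simplicialVolume n M = 0 :=
  main2 hn M hM x₀ fun htf => virtGood_b htf h

/-- The case of few torsion elements in the quotient. -/
theorem main_noTorsion (h : VirtPolyNoTorsion (FundamentalGroup M x₀)) :
    (∀ c : SChain ℝ M n, IsCycle ℝ c → ∀ ε : ℝ, 0 < ε →
      ∃ c' : SChain ℝ M n, IsCycle ℝ c' ∧ Homologous ℝ c c' ∧ l1 c' < ε) ∧
    simplicialVolume n M = 0 :=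
  main2 hn M hM x₀ fun htf => virtGood_a htf (virtAb_of_noTorsion htf h)

end

end Pool.Agent.W_3f1825_r40
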