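import Pool.Agent.W_3f1825_r40.IdxP
import Pool.Agent.W_3f1825_h40.RealQ

set_option autoImplicit false

/-! Reduction of integral chains modulo `p`. -/

namespace Pool.Agent.W_3f1825_r40

open Pool.Agent.W_3f1825_h40

/-- Reduction modulo `p`. -/
noncomputable def redp (p : ℕ) (X : Type) : (X →₀ ℤ) →+ (X →₀ ZMod p) :=
  Finsupp.mapRange.addMonoidHom (Int.castAddHom (ZMod p))

theorem redp_single (p : ℕ) {X : Type} (x : X) (n : ℤ) :
    redp p X (Finsupp.single x n) = Finsupp.single x (n : ZMod p) := by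
  simp [redp]

theorem ModP_apply (p : ℕ) {X : Type} (c : X →₀ ℤ) (x : X) :
    redp p X c x = ((c x : ℤ) : ZMod p) := rfl

theorem redp_surj (p : ℕ) (X : Type) : Function.Surjective (redp p X) := by
  intro c
  induction c using Finsupp.induction_linear with
  | zero => exact ⟨0, map_zero _⟩
  | add a b ha hb =>
    obtain ⟨a', ha'⟩ := ha
    obtain ⟨b', hb'⟩ := hb
    exact ⟨a' + b', by rw [map_add, ha', hb']⟩
  | single x r =>
    obtain ⟨n, hn⟩ := ZMod.intCast_surjective r
    exact ⟨Finsupp.single x n, by rw [redp_single, hn]⟩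

theorem redp_eq_zero (p : ℕ) {X : Type} (c : X →₀ ℤ) (h : redp p X c = 0) :
    ∃ c' : X →₀ ℤ, c = (p : ℤ) • c' := by
  refine ⟨c.mapRange (fun n => n / p) (Int.zero_ediv _), ?_⟩
  ext x
  have h1 : ((c x : ℤ) : ZMod p) = 0 := by
    rw [← ModP_apply, h, Finsupp.zero_apply]
  rw [Finsupp.smul_apply, Finsupp.mapRange_apply, smul_eq_mul,
    Int.mul_ediv_cancel' ((ZMod.intCast_zmod_eq_zero_iff_dvd _ _).1 h1)]

variable {G : Type} [Group G]

/-- PROOF: on basis elements (as `dd_i2r`). -/
theorem dd_redp (p : ℕ) (A : SS G) (m : ℕ) (c : A.X (m + 1) →₀ ℤ) :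
    A.dd (ZMod p) m (redp p _ c) = redp p _ (A.dd ℤ m c) := by
  induction c using Finsupp.induction_linear with
  | zero => simp
  | add a b ha hb => simp only [map_add, ha, hb]
  | single x n =>
    rw [redp_single, SS.dd_single, SS.dd_single, map_sum]
    refine Finset.sum_congr rfl fun i _ => ?_
    rw [redp_single]
    push_cast
    rfl

theorem ModP_lmap (p : ℕ) {X Y : Type} (q : X → Y) (c : X →₀ ℤ) :
    Finsupp.lmapDomain (ZMod p) (ZMod p) q (redp p X c) =
      redp p Y (Finsupp.lmapDomain ℤ ℤ q c) := by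
  induction c using Finsupp.induction_linear with
  | zero => simp
  | add a b ha hb => simp only [map_add, ha, hb]
  | single x n =>
    rw [redp_single, Finsupp.lmapDomain_apply, Finsupp.lmapDomain_apply,
      Finsupp.mapDomain_single, Finsupp.mapDomain_single, redp_single]

theorem ModP_perm (p : ℕ) {X : Type} [MulAction G X] (g : G) (v : X →₀ ℤ) :
    redp p X (perm ℤ G X g v) = perm (ZMod p) G X g (redp p X v) :=
  (ModP_lmap p (fun x : X => g • x) v).symm

theorem redp_Co (p : ℕ) {X : Type} [MulAction G X] {c : X →₀ ℤ} (hc : c ∈ Co (perm ℤ G X)) :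
    redp p X c ∈ Co (perm (ZMod p) G X) := by
  refine Submodule.span_induction (p := fun c _ => redp p X c ∈ Co (perm (ZMod p) G X))
    ?_ ?_ ?_ ?_ hc
  · rintro _ ⟨g, v, rfl⟩
    rw [map_sub, ModP_perm]
    exact sub_mem_Co _ _ _
  · rw [map_zero]
    exact Submodule.zero_mem _
  · intro a b _ _ ha hb
    rw [map_add]
    exact Submodule.add_mem _ ha hb
  · intro r a _ ha
    rw [map_zsmul]
    exact zsmul_mem ha r

/-- PROOF: span induction (`Submodule.span_induction`); generators lift. -/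
theorem exists_lift_Co (p : ℕ) {X : Type} [MulAction G X] {c : X →₀ ZMod p}
    (hc : c ∈ Co (perm (ZMod p) G X)) : ∃ c' ∈ Co (perm ℤ G X), redp p X c' = c := by
  refine Submodule.span_induction (p := fun c _ => ∃ c' ∈ Co (perm ℤ G X), redp p X c' = c)
    ?_ ?_ ?_ ?_ hc
  · rintro _ ⟨g, v, rfl⟩
    obtain ⟨v', rfl⟩ := redp_surj p X v
    refine ⟨perm ℤ G X g v' - v', sub_mem_Co _ _ _, ?_⟩
    rw [map_sub, ModP_perm]
  · exact ⟨0, Submodule.zero_mem _, map_zero _⟩
  · rintro a b _ _ ⟨a', ha', rfl⟩ ⟨b', hb', rfl⟩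
    exact ⟨a' + b', Submodule.add_mem _ ha' hb', map_add _ _ _⟩
  · rintro r a _ ⟨a', ha', rfl⟩
    obtain ⟨n, rfl⟩ := ZMod.intCast_surjective r
    refine ⟨n • a', zsmul_mem ha' n, ?_⟩
    rw [map_zsmul, Int.cast_smul_eq_zsmul]

/-- The integral coinvariants are torsion free. PROOF: `Co` is the kernel of the map to the orbits
(`mem_Co_perm` and the easy converse). -/
theorem Co_of_smul {X : Type} [MulAction G X] {c : X →₀ ℤ} {n : ℤ} (hn : n ≠ 0)
    (hc : n • c ∈ Co (perm ℤ G X)) : c ∈ Co (perm ℤ G X) := by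
  let q : X → MulAction.orbitRel.Quotient G X := Quotient.mk (MulAction.orbitRel G X)
  have hq : ∀ x x', q x = q x' → ∃ g : G, x' = g • x := by
    intro x x' hxx
    obtain ⟨g, hg⟩ := MulAction.orbitRel_apply.1 (Quotient.exact hxx.symm)
    exact ⟨g, hg.symm⟩
  have hqs : ∀ (g : G) (x : X), q (g • x) = q x := by
    intro g x
    exact Quotient.sound (MulAction.orbitRel_apply.2 ⟨g, rfl⟩)
  have hkill : ∀ v : X →₀ ℤ, v ∈ Co (perm ℤ G X) → Finsupp.lmapDomain ℤ ℤ q v = 0 := by
    intro v hv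
    have h1 : Co (perm ℤ G X) ≤ LinearMap.ker (Finsupp.lmapDomain ℤ ℤ q) := by
      rw [Co, Submodule.span_le]
      rintro _ ⟨g, w, rfl⟩
      change Finsupp.lmapDomain ℤ ℤ q (perm ℤ G X g w - w) = 0
      induction w using Finsupp.induction_linear with
      | zero => simp
      | add a b ha hb =>
        have h2 : perm ℤ G X g (a + b) - (a + b) = (perm ℤ G X g a - a) + (perm ℤ G X g b - b) := by
          rw [map_add]
          abel
        rw [h2, map_add, ha, hb, add_zero]
      | single x r =>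
        rw [perm_single, map_sub, Finsupp.lmapDomain_apply, Finsupp.lmapDomain_apply,
          Finsupp.mapDomain_single, Finsupp.mapDomain_single, hqs, sub_self]
    exact h1 hv
  refine mem_Co_perm q hq c ?_
  have h2 := hkill _ hc
  rw [map_zsmul] at h2
  exact (smul_eq_zero.1 h2).resolve_left hn

end Pool.Agent.W_3f1825_r40
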