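import Pool.Agent.W_3f1825_h40.Cx

set_option autoImplicit false

/-! Plain complexes of modules; the complex of coinvariants. -/

namespace Pool.Agent.W_3f1825_r40

open Pool.Agent.W_3f1825_h40

/-- A complex `V 0 ← V 1 ← V 2 ← …` of modules. -/
structure PC (R : Type) [CommRing R] where
  /-- the modules -/
  V : ℕ → Type
  [acg : ∀ m, AddCommGroup (V m)]
  [mod : ∀ m, Module R (V m)]
  /-- the differential -/
  d : ∀ m, V (m + 1) →ₗ[R] V m
  d_d : ∀ m x, d m (d (m + 1) x) = 0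

attribute [instance] PC.acg PC.mod

variable {R : Type} [CommRing R]

/-- Cycles. -/
def PC.Z (C : PC R) : ∀ m, Submodule R (C.V m)
  | 0 => ⊤
  | m + 1 => LinearMap.ker (C.d m)

/-- Boundaries. -/
def PC.B (C : PC R) (m : ℕ) : Submodule R (C.V m) := LinearMap.range (C.d m)

/-- Finitely generated homology. -/
def PC.Fg (C : PC R) (m : ℕ) : Prop := ∃ Q : Submodule R (C.V m), Q.FG ∧ C.Z m ≤ Q ⊔ C.B m

/-- Vanishing homology. -/
def PC.Van (C : PC R) (m : ℕ) : Prop := C.Z m ≤ C.B m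

variable {G : Type} [Group G]

/-- The complex of coinvariants. -/
def coinv (C : Cx R G) : PC R where
  V m := C.V m ⧸ Co (C.ρ m)
  d m := Submodule.mapQ _ _ (C.d m) (fun _ hx => C.d_Co hx)
  d_d m x := by
    obtain ⟨x, rfl⟩ := Submodule.mkQ_surjective _ x
    change Submodule.Quotient.mk (C.d m (C.d (m + 1) x)) = 0
    rw [C.d_d]
    rfl

/-- The class of a chain in the coinvariants. -/
def cmk (C : Cx R G) (m : ℕ) : C.V m →ₗ[R] (coinv C).V m := Submodule.mkQ (Co (C.ρ m))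

theorem cmk_surj (C : Cx R G) (m : ℕ) : Function.Surjective (cmk C m) :=
  Submodule.mkQ_surjective _

theorem cmk_eq_zero (C : Cx R G) (m : ℕ) (x : C.V m) : cmk C m x = 0 ↔ x ∈ Co (C.ρ m) :=
  Submodule.Quotient.mk_eq_zero _

theorem coinv_d (C : Cx R G) (m : ℕ) (x : C.V (m + 1)) :
    (coinv C).d m (cmk C (m + 1) x) = cmk C m (C.d m x) := rfl

theorem cmk_mem_Z (C : Cx R G) (m : ℕ) (x : C.V m) : cmk C m x ∈ (coinv C).Z m ↔ x ∈ C.Z m := by
  cases m with
  | zero => exact ⟨fun _ => Submodule.mem_top, fun _ => Submodule.mem_top⟩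
  | succ m =>
    change (coinv C).d m (cmk C (m + 1) x) = 0 ↔ _
    rw [coinv_d, cmk_eq_zero]
    rfl

theorem cmk_mem_B (C : Cx R G) (m : ℕ) (x : C.V m) : cmk C m x ∈ (coinv C).B m ↔ x ∈ C.B m := by
  rw [Cx.mem_B]
  constructor
  · rintro ⟨y, hy⟩
    obtain ⟨y, rfl⟩ := cmk_surj C (m + 1) y
    rw [coinv_d] at hy
    refine ⟨y, ?_⟩
    rw [← cmk_eq_zero, map_sub, ← hy, sub_self]
  · rintro ⟨y, hy⟩
    refine ⟨cmk C (m + 1) y, ?_⟩
    rw [coinv_d]
    rw [← cmk_eq_zero, map_sub, sub_eq_zero] at hy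
    exact hy.symm

theorem coinv_van (C : Cx R G) (m : ℕ) : (coinv C).Van m ↔ C.Van m := by
  constructor
  · intro h x hx
    exact (cmk_mem_B C m x).1 (h ((cmk_mem_Z C m x).2 hx))
  · intro h x hx
    obtain ⟨x, rfl⟩ := cmk_surj C m x
    exact (cmk_mem_B C m x).2 (h ((cmk_mem_Z C m x).1 hx))

/-- A finitely generated submodule is the image of a finitely generated submodule. -/
theorem exists_fg_map {R V W : Type} [CommRing R] [AddCommGroup V]
    [Module R V] [AddCommGroup W] [Module R W] (f : V →ₗ[R] W) (hf : Function.Surjective f)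
    (Q : Submodule R W) (hQ : Q.FG) : ∃ Q' : Submodule R V, Q'.FG ∧ Q'.map f = Q := by
  classical
  obtain ⟨s, rfl⟩ := hQ
  obtain ⟨g, hg⟩ := hf.hasRightInverse
  refine ⟨Submodule.span R ((s.image g : Finset V) : Set V), ⟨s.image g, rfl⟩, ?_⟩
  rw [Submodule.map_span, Finset.coe_image, ← Set.image_comp]
  have : (f ∘ g) '' (s : Set W) = s := by
    ext x
    constructor
    · rintro ⟨y, hy, rfl⟩
      change f (g y) ∈ _
      rwa [hg y]
    · intro hx
      exact ⟨x, hx, hg x⟩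
  rw [this]

theorem coinv_fg (C : Cx R G) (m : ℕ) : (coinv C).Fg m ↔ C.Fg m := by
  constructor
  · rintro ⟨Q, hQ, hZ⟩
    obtain ⟨Q', hQ', rfl⟩ := exists_fg_map (cmk C m) (cmk_surj C m) Q hQ
    refine ⟨Q', hQ', fun x hx => ?_⟩
    obtain ⟨a, ⟨q, hq, rfl⟩, b, hb, hab⟩ := Submodule.mem_sup.1 (hZ ((cmk_mem_Z C m x).2 hx))
    have h1 : cmk C m (x - q) ∈ (coinv C).B m := by
      rw [map_sub, ← hab, add_sub_cancel_left]
      exact hb
    have h2 := (cmk_mem_B C m _).1 h1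
    have h3 : x = q + (x - q) := by abel
    rw [h3]
    exact Submodule.add_mem_sup hq h2
  · rintro ⟨Q, hQ, hZ⟩
    refine ⟨Q.map (cmk C m), hQ.map _, fun x hx => ?_⟩
    obtain ⟨x, rfl⟩ := cmk_surj C m x
    obtain ⟨q, hq, b, hb, rfl⟩ := Submodule.mem_sup.1 (hZ ((cmk_mem_Z C m x).1 hx))
    rw [map_add]
    exact Submodule.add_mem_sup ⟨q, hq, rfl⟩ ((cmk_mem_B C m b).2 hb)

end Pool.Agent.W_3f1825_r40
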