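import Pool.Agent.W_3f1825_h40.Tup
import Pool.Agent.W_3f1825_h40.Cmp

set_option autoImplicit false

/-! Maps between the tuple complexes of sets with actions of different groups. -/

namespace Pool.Agent.W_3f1825_r40

open Pool.Agent.W_3f1825_h40

/-- The map of chains on tuples induced by a map of sets. -/
noncomputable def tP (R : Type) [CommRing R] {S S' : Type} (f : S → S') (m : ℕ) :
    ((Fin (m + 1) → S) →₀ R) →ₗ[R] ((Fin (m + 1) → S') →₀ R) :=
  Finsupp.lmapDomain R R (fun (x : Fin (m + 1) → S) (i : Fin (m + 1)) => f (x i))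

variable {R : Type} [CommRing R] {S S' S'' : Type} {G G' : Type} [Group G] [Group G']
  [MulAction G S] [MulAction G' S']

theorem tP_single (f : S → S') (m : ℕ) (x : Fin (m + 1) → S) (r : R) :
    tP R f m (Finsupp.single x r) = Finsupp.single (fun i => f (x i)) r :=
  Finsupp.mapDomain_single

theorem tP_comp (f : S → S') (g : S' → S'') (m : ℕ) (c : (Fin (m + 1) → S) →₀ R) :
    tP R g m (tP R f m c) = tP R (fun s => g (f s)) m c := by
  induction c using Finsupp.induction_linear with
  | zero => simp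
  | add a b ha hb => simp only [map_add, ha, hb]
  | single x r => rw [tP_single, tP_single, tP_single]

theorem tP_id (m : ℕ) (c : (Fin (m + 1) → S) →₀ R) : tP R (fun s => s) m c = c := by
  induction c using Finsupp.induction_linear with
  | zero => simp
  | add a b ha hb => simp only [map_add, ha, hb]
  | single x r => rw [tP_single]

/-- PROOF: on basis elements; the faces of `fun i => f (x i)` are the images of the faces. -/
theorem tP_dd (G G' : Type) [Group G] [Group G'] [MulAction G S] [MulAction G' S'] (f : S → S')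
    (m : ℕ) (c : (Fin (m + 2) → S) →₀ R) :
    (tSS G' S').dd R m (tP R f (m + 1) c) = tP R f m ((tSS G S).dd R m c) := by
  induction c using Finsupp.induction_linear with
  | zero => simp
  | add a b ha hb => simp only [map_add, ha, hb]
  | single x r =>
    rw [tP_single, SS.dd_single, SS.dd_single, map_sum]
    refine Finset.sum_congr rfl fun i _ => ?_
    rw [tP_single]

/-- The differential of the tuple complex does not depend on the group. PROOF: `rfl`. -/
theorem dd_indep (G G' S : Type) [Group G] [Group G'] [MulAction G S] [MulAction G' S] (m : ℕ)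
    (c : (Fin (m + 2) → S) →₀ R) : (tSS G S).dd R m c = (tSS G' S).dd R m c := rfl

theorem tP_perm (φ : G → G') (f : S → S') (h : ∀ (g : G) (s : S), f (g • s) = φ g • f s) (m : ℕ)
    (g : G) (c : (Fin (m + 1) → S) →₀ R) :
    tP R f m (perm R G (Fin (m + 1) → S) g c) =
      perm R G' (Fin (m + 1) → S') (φ g) (tP R f m c) := by
  induction c using Finsupp.induction_linear with
  | zero => simp
  | add a b ha hb => simp only [map_add, ha, hb]
  | single x r =>
    rw [perm_single, tP_single, tP_single, perm_single]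
    congr 1
    funext i
    exact h g (x i)

/-- PROOF: on the generators `perm g v - v` of `Co`: `tP f (perm g v) = perm (φ g) (tP f v)`. -/
theorem tP_Co (φ : G → G') (f : S → S') (h : ∀ (g : G) (s : S), f (g • s) = φ g • f s) (m : ℕ)
    {c : (Fin (m + 1) → S) →₀ R} (hc : c ∈ Co (perm R G (Fin (m + 1) → S))) :
    tP R f m c ∈ Co (perm R G' (Fin (m + 1) → S')) := by
  have h1 : Co (perm R G (Fin (m + 1) → S)) ≤
      (Co (perm R G' (Fin (m + 1) → S'))).comap (tP R f m) := by
    rw [Co, Submodule.span_le]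
    rintro _ ⟨g, v, rfl⟩
    change tP R f m (perm R G (Fin (m + 1) → S) g v - v) ∈ Co (perm R G' (Fin (m + 1) → S'))
    rw [map_sub, tP_perm φ f h]
    exact sub_mem_Co _ _ _
  exact h1 hc

theorem tP_Z (φ : G → G') (f : S → S') (h : ∀ (g : G) (s : S), f (g • s) = φ g • f s) (m : ℕ)
    {c : (Fin (m + 1) → S) →₀ R} (hc : c ∈ ((tSS G S).cx R).Z m) :
    tP R f m c ∈ ((tSS G' S').cx R).Z m := by
  cases m with
  | zero => exact Submodule.mem_top
  | succ m =>
    have h1 : (tSS G S).dd R m c ∈ Co (perm R G (Fin (m + 1) → S)) := hc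
    change (tSS G' S').dd R m (tP R f (m + 1) c) ∈ Co (perm R G' (Fin (m + 1) → S'))
    rw [tP_dd G G']
    exact tP_Co φ f h m h1

theorem tP_B (φ : G → G') (f : S → S') (h : ∀ (g : G) (s : S), f (g • s) = φ g • f s) (m : ℕ)
    {c : (Fin (m + 1) → S) →₀ R} (hc : c ∈ ((tSS G S).cx R).B m) :
    tP R f m c ∈ ((tSS G' S').cx R).B m := by
  obtain ⟨y, hy⟩ := Cx.mem_B.1 hc
  refine Cx.mem_B.2 ⟨tP R f (m + 1) y, ?_⟩
  have h1 : c - (tSS G S).dd R m y ∈ Co (perm R G (Fin (m + 1) → S)) := hy
  have h2 := tP_Co φ f h m h1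
  rw [map_sub, ← tP_dd G G'] at h2
  exact h2

theorem Push_e {G G' : Type} [Group G] [Group G'] (e : G ≃* G') (g s : G) :
    e (g • s) = e g • e s := by
  rw [smul_eq_mul, smul_eq_mul, map_mul]

theorem Push_rt {G G' : Type} [Group G] [Group G'] (e : G ≃* G') (m : ℕ)
    (c : (Fin (m + 1) → G') →₀ R) :
    tP R (fun s : G => e s) m (tP R (fun s : G' => e.symm s) m c) = c := by
  rw [tP_comp]
  have h1 : (fun s : G' => e (e.symm s)) = fun s => s := by
    funext s
    exact e.apply_symm_apply s
  rw [h1, tP_id]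

/-- Invariance under isomorphism of groups acting on themselves. PROOF: `tP` of `e` and `e.symm`
are inverse to each other and preserve cycles and boundaries. -/
theorem fg_equiv (R : Type) [CommRing R] {G G' : Type} [Group G] [Group G'] (e : G ≃* G') (m : ℕ)
    (h : ((tSS G G).cx R).Fg m) : ((tSS G' G').cx R).Fg m := by
  obtain ⟨Q, hQ, hQ'⟩ := h
  refine ⟨Q.map (tP R (fun s : G => e s) m), hQ.map _, fun x hx => ?_⟩
  have h1 := hQ' (tP_Z (fun g => e.symm g) (fun s : G' => e.symm s) (Push_e e.symm) m hx)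
  obtain ⟨q, hq, b, hb, hqb⟩ := Submodule.mem_sup.1 h1
  have h2 := tP_B (fun g => e g) (fun s : G => e s) (Push_e e) m hb
  have h3 : x = tP R (fun s : G => e s) m q + tP R (fun s : G => e s) m b := by
    rw [← map_add, hqb, Push_rt]
  rw [h3]
  exact Submodule.add_mem _ (Submodule.mem_sup_left ⟨q, hq, rfl⟩) (Submodule.mem_sup_right h2)

theorem van_equiv (R : Type) [CommRing R] {G G' : Type} [Group G] [Group G'] (e : G ≃* G') (m : ℕ)
    (h : ((tSS G G).cx R).Van m) : ((tSS G' G').cx R).Van m := by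
  intro x hx
  have h1 := h (tP_Z (fun g => e.symm g) (fun s : G' => e.symm s) (Push_e e.symm) m hx)
  have h2 := tP_B (fun g => e g) (fun s : G => e s) (Push_e e) m h1
  rw [Push_rt] at h2
  exact h2

theorem Push_free (R : Type) [CommRing R] {G S : Type} [Group G] [MulAction G S] [Nonempty S]
    (hfree : ∀ (g : G) (s : S), g • s = s → g = 1) :
    ∃ (f : CMap ((tSS G S).cx R) ((tSS G G).cx R)) (g : CMap ((tSS G G).cx R) ((tSS G S).cx R)),
      Nonempty (Htpy (g.comp f) (CMap.id _)) ∧ Nonempty (Htpy (f.comp g) (CMap.id _)) := by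
  have h1 : ((tSS G S).cx R).Lifts ⊥ := tLifts R ⊥ fun s g hg => by
    rw [Subgroup.mem_bot]
    exact hfree g s hg
  have h2 : ((tSS G G).cx R).Lifts ⊥ := tLifts R ⊥ fun s g hg => by
    rw [Subgroup.mem_bot]
    rw [smul_eq_mul] at hg
    exact mul_eq_right.1 hg
  obtain ⟨f, g, -, -, h3, h4⟩ := exists_equiv h1 (triv_bot _) h2 (triv_bot _)
    ((tSS G S).aug R) (tAug_exact R S) ((tSS G G).aug R) (tAug_exact R G)
  exact ⟨f, g, h3, h4⟩

/-- For a group `G` acting freely on a set `S` the tuple complex of `S` computes the same homology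
as that of `G`. PROOF: choose `s₀ : S` and use `exists_equiv` of `Cmp.lean` as in
`van_tup` of `W_3f1825_h40/Core.lean`, with the tuple complexes of `G` and of `S` (`tLifts`,
`tAug_exact`, `triv_bot`) and `Van.of_retract`. -/
theorem van_free_iff (R : Type) [CommRing R] {G S : Type} [Group G] [MulAction G S] [Nonempty S]
    (hfree : ∀ (g : G) (s : S), g • s = s → g = 1) (m : ℕ) :
    ((tSS G S).cx R).Van m ↔ ((tSS G G).cx R).Van m := by
  obtain ⟨f, g, ⟨H⟩, ⟨H'⟩⟩ := Push_free R hfree
  exact ⟨fun h => Van.of_retract g f H' h, fun h => Van.of_retract f g H h⟩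

theorem fg_free_iff (R : Type) [CommRing R] {G S : Type} [Group G] [MulAction G S] [Nonempty S]
    (hfree : ∀ (g : G) (s : S), g • s = s → g = 1) (m : ℕ) :
    ((tSS G S).cx R).Fg m ↔ ((tSS G G).cx R).Fg m := by
  obtain ⟨f, g, ⟨H⟩, ⟨H'⟩⟩ := Push_free R hfree
  exact ⟨fun h => Fg.of_retract g f H' h, fun h => Fg.of_retract f g H h⟩

end Pool.Agent.W_3f1825_r40
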